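import Pool.Agent.Lib.CPM.Defs

/-!
# Module Aff: maps which are affine on residue classes, and their tables
-/

set_option autoImplicit false

namespace CPM

variable {m m' : ℕ} {F G H : ℕ → ℕ}

theorem IsAff.diff (h : IsAff m F) (n : ℕ) : F (n + m + m) - F (n + m) = F (n + m) - F n := by
  have h1 := h n
  have h2 := h (n + m)
  have e : n + 2 * m = n + m + m := by ring
  rw [e] at h1
  omega

theorem IsAff.add_mul (h : IsAff m F) (n j : ℕ) : F (n + m * j) = F n + j * (F (n + m) - F n) := by
  induction j generalizing n with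
  | zero => simp
  | succ j ih =>
    have e : n + m * (j + 1) = n + m + m * j := by ring
    rw [e, ih (n + m), h.diff n]
    have h1 := (h n).1
    have e2 : (j + 1) * (F (n + m) - F n) = j * (F (n + m) - F n) + (F (n + m) - F n) := by ring
    rw [e2]
    omega

theorem IsAff.mul (h : IsAff m F) (c : ℕ) : IsAff (m * c) F := by
  intro n
  have h1 := h.add_mul n c
  have h2 := h.add_mul n (2 * c)
  have e : n + 2 * (m * c) = n + m * (2 * c) := by ring
  rw [e, h2, h1]
  refine ⟨Nat.le_add_right _ _, ?_⟩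
  ring

theorem IsAff.dvd (h : IsAff m F) (hd : m ∣ m') : IsAff m' F := by
  obtain ⟨c, rfl⟩ := hd
  exact h.mul c

theorem IsAff.comp (hG : IsAff m G) (hH : IsAff m' H) : IsAff (m' * m) (G ∘ H) := by
  intro n
  have h1 := hH.add_mul n m
  have h2 := hH.add_mul n (2 * m)
  have e : n + 2 * (m' * m) = n + m' * (2 * m) := by ring
  have e1 : H n + m * (H (n + m') - H n) = H n + m * (H (n + m') - H n) := rfl
  have e2 : H n + 2 * m * (H (n + m') - H n) = H n + m * (2 * (H (n + m') - H n)) := by ring
  simp only [Function.comp_apply]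
  rw [e, h2, h1, e2, hG.add_mul, hG.add_mul]
  refine ⟨Nat.le_add_right _ _, ?_⟩
  ring

theorem IsAff.iterate (hG : IsAff m G) (i : ℕ) : IsAff (m ^ i) (G^[i]) := by
  induction i with
  | zero =>
    intro n
    simp only [pow_zero, Function.iterate_zero, id_eq]
    omega
  | succ i ih =>
    have h := ih.comp hG
    rw [Function.iterate_succ, pow_succ, mul_comm]
    exact h

/-! ## Tables -/

theorem tab_length (m : ℕ) (F : ℕ → ℕ) : (tab m F).length = m := by
  simp [tab]

theorem tab_getD {r : ℕ} (hr : r < m) : (tab m F).getD r (0, 0) = (F (r + m) - F r, F r + 1) := by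
  unfold tab
  rw [List.getD_eq_getElem?_getD, List.getElem?_map, List.getElem?_range hr]
  rfl

theorem cmap_tab (hm : 0 < m) (hF : IsAff m F) (n : ℕ) (hn : 0 < n) : cmap (tab m F) n = F (n - 1) + 1 := by
  unfold cmap
  rw [tab_length, tab_getD (Nat.mod_lt _ hm)]
  have h := hF.add_mul ((n - 1) % m) ((n - 1) / m)
  rw [Nat.mod_add_div] at h
  rw [h]
  ring

theorem isPerm_tab (hm : 0 < m) (hF : IsAff m F) (hb : Function.Bijective F) : IsPerm (tab m F) := by
  refine ⟨fun n hn => ?_, fun a ha b hb' hab => ?_, fun n hn => ?_⟩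
  · show 0 < cmap (tab m F) n
    rw [cmap_tab hm hF n hn]
    exact Nat.succ_pos _
  · have ha0 : 0 < a := ha
    have hb0 : 0 < b := hb'
    rw [cmap_tab hm hF a ha0, cmap_tab hm hF b hb0] at hab
    have h := hb.1 (Nat.succ_injective hab)
    omega
  · have hn0 : 0 < n := hn
    obtain ⟨x, hx⟩ := hb.2 (n - 1)
    refine ⟨x + 1, Nat.succ_pos x, ?_⟩
    rw [cmap_tab hm hF (x + 1) (Nat.succ_pos x), Nat.add_sub_cancel, hx]
    omega

theorem iterate_tab (hm : 0 < m) (hF : IsAff m F) (n k : ℕ) :
    (cmap (tab m F))^[k] (n + 1) = F^[k] n + 1 := by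
  induction k generalizing n with
  | zero => rfl
  | succ k ih =>
    rw [Function.iterate_succ_apply, Function.iterate_succ_apply,
      cmap_tab hm hF (n + 1) (Nat.succ_pos n), Nat.add_sub_cancel, ih]

theorem finOrb_tab (hm : 0 < m) (hF : IsAff m F) (n : ℕ) :
    FinOrb (tab m F) (n + 1) ↔ ∃ k, 0 < k ∧ F^[k] n = n := by
  unfold FinOrb
  refine exists_congr fun k => and_congr_right fun _ => ?_
  rw [iterate_tab hm hF]
  exact Nat.add_right_cancel_iff

theorem IsAff.primrec (hm : 0 < m) (hF : IsAff m F) : Primrec F := by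
  have hr : Primrec fun n : ℕ => n % m := Primrec.nat_mod.comp Primrec.id (Primrec.const m)
  have hq : Primrec fun n : ℕ => n / m := Primrec.nat_div.comp Primrec.id (Primrec.const m)
  have h1 : Primrec fun n : ℕ => (tab m F).getD (n % m) (0, 0) :=
    (Primrec.list_getD (0, 0)).comp (Primrec.const (tab m F)) hr
  have h2 : Primrec fun n : ℕ => ((tab m F).getD (n % m) (0, 0)).1 * (n / m) +
      ((tab m F).getD (n % m) (0, 0)).2 - 1 :=
    Primrec.nat_sub.comp (Primrec.nat_add.comp (Primrec.nat_mul.comp (Primrec.fst.comp h1) hq)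
      (Primrec.snd.comp h1)) (Primrec.const 1)
  refine h2.of_eq fun n => ?_
  have h := cmap_tab hm hF (n + 1) (Nat.succ_pos n)
  unfold cmap at h
  rw [tab_length, Nat.add_sub_cancel] at h
  rw [h, Nat.add_sub_cancel]

theorem tab_computable {F : ℕ → ℕ → ℕ} {m : ℕ → ℕ} (hm : Computable m) (hF : Computable₂ F) :
    Computable fun x => tab (m x) (F x) := by
  have hh : Computable₂ fun (x : ℕ) (p : ℕ × List (ℕ × ℕ)) =>
      p.2 ++ [(F x (p.1 + m x) - F x p.1, F x p.1 + 1)] := by
    have hx : Computable fun q : ℕ × (ℕ × List (ℕ × ℕ)) => q.1 := Computable.fst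
    have hr : Computable fun q : ℕ × (ℕ × List (ℕ × ℕ)) => q.2.1 :=
      Computable.fst.comp Computable.snd
    have hl : Computable fun q : ℕ × (ℕ × List (ℕ × ℕ)) => q.2.2 :=
      Computable.snd.comp Computable.snd
    have h1 : Computable fun q : ℕ × (ℕ × List (ℕ × ℕ)) => F q.1 q.2.1 := hF.comp hx hr
    have h2 : Computable fun q : ℕ × (ℕ × List (ℕ × ℕ)) => F q.1 (q.2.1 + m q.1) :=
      hF.comp hx (Primrec.nat_add.to_comp.comp hr (hm.comp hx))
    have h3 : Computable fun q : ℕ × (ℕ × List (ℕ × ℕ)) =>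
        (F q.1 (q.2.1 + m q.1) - F q.1 q.2.1, F q.1 q.2.1 + 1) :=
      (Primrec.nat_sub.to_comp.comp h2 h1).pair (Computable.succ.comp h1)
    exact Computable.list_concat.comp hl h3
  have h := Computable.nat_rec (f := fun x => m x) (g := fun _ => ([] : List (ℕ × ℕ))) hm
    (Computable.const []) hh
  refine h.of_eq fun x => ?_
  have key : ∀ k, (Nat.rec ([] : List (ℕ × ℕ)) (fun y IH => IH ++ [(F x (y + m x) - F x y, F x y + 1)])
      k : List (ℕ × ℕ)) = (List.range k).map fun r => (F x (r + m x) - F x r, F x r + 1) := by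
    intro k
    induction k with
    | zero => rfl
    | succ k ih =>
      rw [List.range_succ, List.map_append]
      exact congrArg (· ++ [(F x (k + m x) - F x k, F x k + 1)]) ih
  exact key (m x)

end CPM
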