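import Pool.Agent.Lib.CPM.Defs

/-!
# Module Dbl: the doubling of a partial injection

Chains of the partial injection `f`.  `dbl f` goes forward on `(c, true)`, turns at the end, goes backward on
`(c, false)`, turns at the beginning.  `dbl f ∘ kap Z`: the chain is cut at the points of `Z`.

Proof of `fin_orb`.  Let `c_{-j}, ..., c_{-1}, c_0 = c, c_1, ..., c_i` be the chain, where `f.symm c_{-j} = none` and
`i` is the least index such that either `f c_i = none`, or `i ≥ 1` and `Z c_i`.  The finite set
`{(c_l, b)} \ {(c_i, false) if f c_i ≠ none}` is closed under `dbl f ∘ kap Z` and contains `(c, true)` and `(c, false)`;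
the map is injective, so the orbit of each point of a finite closed set is finite (`per_of_finite`).
-/

set_option autoImplicit false

namespace CPM

variable {C : Type}

namespace DblAux

theorem invol (f : C ≃. C) (x : C × Bool) :
    dbl f ((dbl f (x.1, !x.2)).1, !(dbl f (x.1, !x.2)).2) = x := by
  obtain ⟨c, b⟩ := x
  cases b with
  | true =>
    cases h : f.symm c with
    | some d =>
      have h1 : f d = some c := f.eq_some_iff.1 h
      simp [dbl, h, h1]
    | none => simp [dbl, h]
  | false =>
    cases h : f c with
    | some d =>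
      have h1 : f.symm d = some c := f.eq_some_iff.2 h
      simp [dbl, h, h1]
    | none => simp [dbl, h]

/-- the points of the chain -/
def chain (f : C ≃. C) (c : C) (J m : ℕ) : Set C :=
  {x | (∃ l < J, run f.symm l c = some x) ∨ ∃ l < m, run f l c = some x}

theorem chain_finite (f : C ≃. C) (c : C) (J m : ℕ) : (chain f c J m).Finite := by
  have h1 : ∀ g : C → Option C, ∀ n, {x | ∃ l < n, run g l c = some x}.Finite := by
    intro g n
    have e : {x | ∃ l < n, run g l c = some x} = ⋃ l ∈ {l | l < n}, {x | run g l c = some x} := by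
      ext x
      simp
    rw [e]
    refine Set.Finite.biUnion (Set.finite_lt_nat n) fun l _ => Set.Subsingleton.finite ?_
    intro a ha b hb
    have ha' : run g l c = some a := ha
    have hb' : run g l c = some b := hb
    rw [ha'] at hb'
    exact Option.some.inj hb'
  exact ((h1 f.symm J).union (h1 f m)).subset (fun x hx => hx)

theorem run_succ_some {g : C → Option C} {c x : C} {l : ℕ} (h : run g l c = some x) :
    run g (l + 1) c = g x := by
  show (run g l c).bind g = g x
  rw [h]
  rfl

theorem run_pred_some {g : C → Option C} {c x : C} {l : ℕ} (h : run g (l + 1) c = some x) :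
    ∃ y, run g l c = some y ∧ g y = some x := by
  have h' : (run g l c).bind g = some x := h
  cases hy : run g l c with
  | none =>
    rw [hy] at h'
    exact absurd h' (by simp)
  | some y =>
    rw [hy] at h'
    exact ⟨y, rfl, h'⟩

theorem chain_back {f : C ≃. C} {c : C} {J m : ℕ} (hJ0 : 0 < J)
    (hJ : run f.symm J c = none) {x y : C} (hx : x ∈ chain f c J m) (h : f.symm x = some y) :
    y ∈ chain f c J m := by
  have key : ∀ l < J, run f.symm l c = some x → y ∈ chain f c J m := by
    intro l hl h1
    have h2 : run f.symm (l + 1) c = some y := (run_succ_some h1).trans h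
    rcases Nat.lt_or_ge (l + 1) J with h3 | h3
    · exact Or.inl ⟨l + 1, h3, h2⟩
    · have e : l + 1 = J := by omega
      rw [e, hJ] at h2
      exact absurd h2 (by simp)
  rcases hx with ⟨l, hl, h1⟩ | ⟨l, hl, h1⟩
  · exact key l hl h1
  · rcases l with _ | l
    · exact key 0 hJ0 h1
    · obtain ⟨z, hz, hz'⟩ := run_pred_some h1
      have h2 : f.symm x = some z := f.eq_some_iff.2 hz'
      rw [h2] at h
      obtain rfl := Option.some.inj h
      exact Or.inr ⟨l, by omega, hz⟩

theorem chain_fwd {f : C ≃. C} {c : C} {J m : ℕ} (hm0 : 0 < m)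
    {x y : C} (hx : x ∈ chain f c J m) (h : f x = some y) :
    y ∈ chain f c J m ∨ run f m c = some y := by
  have key : ∀ l < m, run f l c = some x → y ∈ chain f c J m ∨ run f m c = some y := by
    intro l hl h1
    have h2 : run f (l + 1) c = some y := (run_succ_some h1).trans h
    rcases Nat.lt_or_ge (l + 1) m with h3 | h3
    · exact Or.inl (Or.inr ⟨l + 1, h3, h2⟩)
    · have e : l + 1 = m := by omega
      rw [e] at h2
      exact Or.inr h2
  rcases hx with ⟨l, hl, h1⟩ | ⟨l, hl, h1⟩
  · rcases l with _ | l
    · exact key 0 hm0 h1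
    · obtain ⟨z, hz, hz'⟩ := run_pred_some h1
      have h2 : f x = some z := f.eq_some_iff.1 hz'
      rw [h2] at h
      obtain rfl := Option.some.inj h
      exact Or.inl (Or.inl ⟨l, by omega, hz⟩)
  · exact key l hl h1

end DblAux

open DblAux

theorem dbl_bij (f : C ≃. C) : Function.Bijective (dbl f) := by
  constructor
  · intro a b hab
    have h1 := invol f (a.1, !a.2)
    have h2 := invol f (b.1, !b.2)
    simp only [Bool.not_not, Prod.mk.eta] at h1 h2
    rw [hab, h2] at h1
    have h3 : ((b.1, !b.2) : C × Bool) = (a.1, !a.2) := h1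
    have e1 : b.1 = a.1 := (Prod.mk.inj h3).1
    have e2 : (!b.2) = !a.2 := (Prod.mk.inj h3).2
    exact Prod.ext e1.symm (Bool.not_inj e2).symm
  · intro x
    exact ⟨_, invol f x⟩

theorem kap_kap (Z : C → Bool) (x : C × Bool) : kap Z (kap Z x) = x := by
  obtain ⟨c, b⟩ := x
  cases h : Z c <;> simp [kap, h]

theorem dk_bij (f : C ≃. C) (Z : C → Bool) : Function.Bijective (dbl f ∘ kap Z) :=
  (dbl_bij f).comp (Function.Involutive.bijective (kap_kap Z))

theorem per_of_finite {X : Type} (g : X → X) (hg : Function.Injective g) (S : Set X) (hS : S.Finite)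
    (h : Set.MapsTo g S S) (x : X) (hx : x ∈ S) : ∃ k, 0 < k ∧ g^[k] x = x := by
  obtain ⟨a, b, hab, he⟩ := Set.Finite.exists_lt_map_eq_of_forall_mem (f := fun n => g^[n] x)
    (fun n => h.iterate n hx) hS
  refine ⟨b - a, by omega, ?_⟩
  have e : b = a + (b - a) := by omega
  have he' : g^[a] x = g^[b] x := he
  rw [e, Function.iterate_add_apply] at he'
  exact (hg.iterate a he').symm

/-- if the backward run ends and the forward run ends or meets `Z` at a positive time, the two orbits of `c` are
finite -/
theorem fin_orb (f : C ≃. C) (Z : C → Bool) (c : C) (hb : ∃ n, run f.symm n c = none)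
    (hf : ∃ n, run f n c = none ∨ ∃ d, run f (n + 1) c = some d ∧ Z d = true) (b : Bool) :
    ∃ k, 0 < k ∧ (dbl f ∘ kap Z)^[k] (c, b) = (c, b) := by
  obtain ⟨J, hJ⟩ := hb
  have hJ0 : 0 < J := by
    rcases J with _ | J
    · exact absurd hJ (by simp [run])
    · omega
  have hf' : ∃ m, 0 < m ∧ ∀ d, run f m c = some d → Z d = true := by
    obtain ⟨n, h | ⟨d, h, h'⟩⟩ := hf
    · refine ⟨n, ?_, fun d hd => ?_⟩
      · rcases n with _ | n
        · exact absurd h (by simp [run])
        · omega
      · rw [h] at hd
        exact absurd hd (by simp)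
    · refine ⟨n + 1, by omega, fun e he => ?_⟩
      rw [h] at he
      obtain rfl := Option.some.inj he
      exact h'
  obtain ⟨m, hm0, hm⟩ := hf'
  let S : Set (C × Bool) := {x | x.1 ∈ chain f c J m ∨ (run f m c = some x.1 ∧ x.2 = true)}
  have hS : S.Finite := by
    have h1 : {x : C | run f m c = some x}.Finite := by
      refine Set.Subsingleton.finite fun a ha b hb => ?_
      have ha' : run f m c = some a := ha
      have hb' : run f m c = some b := hb
      rw [ha'] at hb'
      exact Option.some.inj hb'
    refine (((chain_finite f c J m).union h1).prod (Set.finite_univ (α := Bool))).subset ?_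
    rintro ⟨x, b⟩ hx
    refine ⟨?_, Set.mem_univ _⟩
    rcases hx with hx | hx
    · exact Or.inl hx
    · exact Or.inr hx.1
  have hA : ∀ x b, x ∈ chain f c J m → dbl f (x, b) ∈ S := by
    intro x b hx
    cases b with
    | true =>
      cases h : f x with
      | none =>
        have e : dbl f (x, true) = (x, false) := by simp [dbl, h]
        rw [e]
        exact Or.inl hx
      | some y =>
        have e : dbl f (x, true) = (y, true) := by simp [dbl, h]
        rw [e]
        rcases chain_fwd hm0 hx h with h1 | h1
        · exact Or.inl h1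
        · exact Or.inr ⟨h1, rfl⟩
    | false =>
      cases h : f.symm x with
      | none =>
        have e : dbl f (x, false) = (x, true) := by simp [dbl, h]
        rw [e]
        exact Or.inl hx
      | some y =>
        have e : dbl f (x, false) = (y, false) := by simp [dbl, h]
        rw [e]
        exact Or.inl (chain_back hJ0 hJ hx h)
  have hmaps : Set.MapsTo (dbl f ∘ kap Z) S S := by
    rintro ⟨x, b⟩ hx
    rcases hx with hx | ⟨hx, hb⟩
    · have e : ∃ b', kap Z (x, b) = (x, b') := by
        unfold kap
        split_ifs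
        · exact ⟨_, rfl⟩
        · exact ⟨_, rfl⟩
      obtain ⟨b', hb'⟩ := e
      show dbl f (kap Z (x, b)) ∈ S
      rw [hb']
      exact hA x b' hx
    · have hx' : run f m c = some x := hx
      have hb' : b = true := hb
      subst hb'
      have hZ : Z x = true := hm x hx'
      have e : kap Z (x, true) = (x, false) := by simp [kap, hZ]
      show dbl f (kap Z (x, true)) ∈ S
      rw [e]
      obtain ⟨m', rfl⟩ : ∃ m', m = m' + 1 := ⟨m - 1, by omega⟩
      obtain ⟨y, hy, hy'⟩ := run_pred_some hx'
      have h2 : f.symm x = some y := f.eq_some_iff.2 hy'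
      have e2 : dbl f (x, false) = (y, false) := by simp [dbl, h2]
      rw [e2]
      exact Or.inl (Or.inr ⟨m', by omega, hy⟩)
  exact per_of_finite _ (dk_bij f Z).1 S hS hmaps (c, b) (Or.inl (Or.inl ⟨0, hJ0, rfl⟩))

/-- if the forward run never ends, never meets `Z` and never returns, then the orbit of `(c, true)` is infinite -/
theorem inf_orb (f : C ≃. C) (Z : C → Bool) (c : C) (hZ : ∀ n, ∃ d, run f n c = some d ∧ Z d = false)
    (hc : ∀ n, 0 < n → run f n c ≠ some c) (k : ℕ) (hk : 0 < k) :
    (dbl f ∘ kap Z)^[k] (c, true) ≠ (c, true) := by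
  have key : ∀ n, ∃ d, run f n c = some d ∧ (dbl f ∘ kap Z)^[n] (c, true) = (d, true) := by
    intro n
    induction n with
    | zero => exact ⟨c, rfl, rfl⟩
    | succ n ih =>
      obtain ⟨d, hd, hd'⟩ := ih
      obtain ⟨d', h1, h2⟩ := hZ n
      rw [hd] at h1
      obtain rfl := Option.some.inj h1
      obtain ⟨e, he, -⟩ := hZ (n + 1)
      refine ⟨e, he, ?_⟩
      have h3 : f d = some e := (run_succ_some hd).symm.trans he
      rw [Function.iterate_succ_apply', hd']
      show dbl f (kap Z (d, true)) = (e, true)
      have e1 : kap Z (d, true) = (d, true) := by simp [kap, h2]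
      rw [e1]
      simp [dbl, h3]
  intro h
  obtain ⟨d, hd, hd'⟩ := key k
  rw [h] at hd'
  have e : c = d := congrArg Prod.fst hd'
  rw [← e] at hd
  exact hc k hk hd

end CPM
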