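import Pool.Agent.Lib.CPM.SimT
import Pool.Agent.Lib.CPM.Aff
import Pool.Agent.Lib.CPM.Dbl

/-!
# Module Code: the permutation of `ℕ` given by the doubling of the refuelled machine

`mu P` = `enc ∘ dbl (t2 P) ∘ dcd`.  `sz M * (N - 1) + number of the state`.  A shift of the code by
`sz M * m'` is a shift of the number `N` by `m'`; with `m' = 30 * 3 ^ ... ` a common multiple of everything (`md P / sz M`)
no condition of `fwd`, `bwd`, `fo`, `ioF`, `ioB` changes: the only divisors tested are `2, 3, 5, 2 ^ j (j ≤ bs M), p`,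
and the exact power of 2 in `udig (N.factorization 2)` is only used if `¬ 2 ^ bs M ∣ N`.
-/

set_option autoImplicit false

namespace CPM

variable {M : ℕ}

theorem dcd_enc (x : Cf M) (hx : x.1.1.2 ≠ 0) : dcd M (enc x) = x := by
  obtain ⟨⟨⟨c, N⟩, b⟩, b'⟩ := x
  simp only at hx
  have hs := sz_pos M
  have hlt : (num M (c, b, b') : ℕ) < sz M := (num M (c, b, b')).2
  have h1 : (sz M * (N - 1) + (num M (c, b, b') : ℕ)) % sz M = (num M (c, b, b') : ℕ) := by
    rw [Nat.mul_add_mod, Nat.mod_eq_of_lt hlt]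
  have h2 : (sz M * (N - 1) + (num M (c, b, b') : ℕ)) / sz M = N - 1 := by
    rw [Nat.mul_add_div hs, Nat.div_eq_of_lt hlt, add_zero]
  have h3 : sst M (enc ((((c, N), b), b') : Cf M)) = (c, b, b') := by
    unfold sst
    rw [Equiv.symm_apply_eq]
    exact Fin.ext h1
  unfold dcd
  rw [h3]
  simp only
  have h4 : enc ((((c, N), b), b') : Cf M) / sz M = N - 1 := h2
  rw [h4, Nat.sub_add_cancel (Nat.pos_of_ne_zero hx)]

theorem enc_dcd (n : ℕ) : enc (dcd M n) = n := by
  have h1 : num M (sst M n) = ⟨n % sz M, Nat.mod_lt _ (sz_pos M)⟩ := by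
    unfold sst
    rw [Equiv.apply_symm_apply]
  have h2 : enc (dcd M n) = sz M * (n / sz M + 1 - 1) + (num M (sst M n) : ℕ) := rfl
  rw [h2, h1, Nat.add_sub_cancel]
  exact Nat.div_add_mod n (sz M)

/-- the common modulus for the numbers -/
def mN (P : Fin M → PI (Fin M)) : ℕ := 15 * 2 ^ bs M * ∏ q, (P q).pr

/-- the modulus for the codes -/
def md (P : Fin M → PI (Fin M)) : ℕ := sz M * mN P

theorem md_pos (P : Fin M → PI (Fin M)) (hP : Good P) : 0 < md P := by
  unfold md mN
  refine Nat.mul_pos (sz_pos M) (Nat.mul_pos (by positivity) (Finset.prod_pos fun q _ => ?_))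
  refine Nat.pos_of_ne_zero fun h => ?_
  have := hP q
  rw [h] at this
  norm_num at this

variable [NeZero M]

/-- the permutation -/
noncomputable def mu (P : Fin M → PI (Fin M)) (hP : Good P) (n : ℕ) : ℕ := enc (dbl (t2 P hP) (dcd M n))

namespace CodeAux

theorem rv_pos (P : Fin M → PI (Fin M)) (hP : Good P) (a c : Ctrl M × ℕ) (h : rv P hP a = some c) :
    (a.2 ≠ 0 ↔ c.2 ≠ 0) := by
  have := fwd_pos P hP a c h
  exact ⟨fun _ => this.2, fun _ => this.1⟩

theorem io_pos (a c : Ctrl M × ℕ) (h : io M a = some c) : (a.2 ≠ 0 ↔ c.2 ≠ 0) := by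
  have h' : ioF a = some c := h
  obtain ⟨a, N⟩ := a
  cases a with
  | I =>
    simp only [ioF] at h'
    split_ifs at h' with h1
    obtain rfl := Option.some.inj h'
    simp only
    omega
  | R q => simp [ioF] at h'
  | H q b => simp [ioF] at h'
  | G q => simp [ioF] at h'

theorem t2_pos (P : Fin M → PI (Fin M)) (hP : Good P) (y z : (Ctrl M × ℕ) × Bool)
    (h : t2 P hP y = some z) : (y.1.2 ≠ 0 ↔ z.1.2 ≠ 0) := by
  have h' : f2 (rv P hP) (io M) (fo P) y = some z := h
  obtain ⟨y, b⟩ := y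
  unfold f2 at h'
  cases b with
  | true =>
    simp only [if_true] at h'
    cases hT : rv P hP y with
    | some w =>
      rw [hT] at h'
      obtain rfl := Option.some.inj h'
      exact rv_pos P hP y w hT
    | none =>
      rw [hT] at h'
      simp only at h'
      split_ifs at h' with h1
      obtain rfl := Option.some.inj h'
      exact Iff.rfl
  | false =>
    simp only [Bool.false_eq_true, if_false] at h'
    cases hT : (rv P hP).symm y with
    | some w =>
      rw [hT] at h'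
      obtain rfl := Option.some.inj h'
      exact (rv_pos P hP w y ((PEquiv.eq_some_iff (rv P hP)).1 hT)).symm
    | none =>
      rw [hT] at h'
      simp only [Option.map_eq_some_iff] at h'
      obtain ⟨w, hw, rfl⟩ := h'
      exact io_pos y w hw

theorem dbl_pos_iff (P : Fin M → PI (Fin M)) (hP : Good P) (x : Cf M) :
    (x.1.1.2 ≠ 0 ↔ (dbl (t2 P hP) x).1.1.2 ≠ 0) := by
  obtain ⟨x, b⟩ := x
  unfold dbl
  cases b with
  | true =>
    simp only [if_true]
    cases hT : t2 P hP x with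
    | some w => exact t2_pos P hP x w hT
    | none => exact Iff.rfl
  | false =>
    simp only [Bool.false_eq_true, if_false]
    cases hT : (t2 P hP).symm x with
    | some w => exact (t2_pos P hP w x ((PEquiv.eq_some_iff (t2 P hP)).1 hT)).symm
    | none => exact Iff.rfl

theorem dcd_pos (n : ℕ) : (dcd M n).1.1.2 ≠ 0 := Nat.succ_ne_zero _

theorem dcd_mu (P : Fin M → PI (Fin M)) (hP : Good P) (n : ℕ) :
    dcd M (mu P hP n) = dbl (t2 P hP) (dcd M n) :=
  dcd_enc _ ((dbl_pos_iff P hP _).1 (dcd_pos n))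

end CodeAux

theorem dbl_pos (P : Fin M → PI (Fin M)) (hP : Good P) (x : Cf M) (hx : x.1.1.2 ≠ 0) :
    (dbl (t2 P hP) x).1.1.2 ≠ 0 := (CodeAux.dbl_pos_iff P hP x).1 hx

theorem mu_bij (P : Fin M → PI (Fin M)) (hP : Good P) : Function.Bijective (mu P hP) := by
  refine ⟨fun a b h => ?_, fun m => ?_⟩
  · have h1 := CodeAux.dcd_mu P hP a
    rw [h, CodeAux.dcd_mu P hP b] at h1
    have h2 := (dbl_bij (t2 P hP)).1 h1
    rw [← enc_dcd (M := M) a, ← enc_dcd (M := M) b, h2]
  · obtain ⟨x, hx⟩ := (dbl_bij (t2 P hP)).2 (dcd M m)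
    have hx0 : x.1.1.2 ≠ 0 := by
      rw [CodeAux.dbl_pos_iff P hP x, hx]
      exact CodeAux.dcd_pos m
    refine ⟨enc x, ?_⟩
    unfold mu
    rw [dcd_enc x hx0, hx, enc_dcd]

theorem dcd_mu_iterate (P : Fin M → PI (Fin M)) (hP : Good P) (k n : ℕ) :
    dcd M ((mu P hP)^[k] n) = (dbl (t2 P hP))^[k] (dcd M n) := by
  induction k with
  | zero => rfl
  | succ k ih => rw [Function.iterate_succ_apply', Function.iterate_succ_apply', CodeAux.dcd_mu, ih]

end CPM
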