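import Pool.Agent.Lib.CPM.Flat

/-!
# Module Machine: prime machines compute every recursively enumerable relation

By `REPred` and `Nat.Partrec.Code` (`exists_code`, `evaln_complete`, `evaln_mono`, `evaln_prim`) there is a primitive recursive
`T : ℕ → ℕ → ℕ → ℕ` (arguments `y, x, k`) with `R x y ↔ ∃ k, T y x k ≠ 0`; as `Nat.Primrec'` function of a vector of length 3
(`Nat.Primrec'.of_prim`), program `p` of `exists_lp` with inputs `0, 1, 2`, output `3`, `w = 4`.
Machine: labels `0 ..`: code of `loop 2 nop` (clear `k`; 2 labels) with exit 2; labels `2 .. `: code of `p` with exit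
`d = 2 + p.size`; label `d`: `dec (pr 3) (d + 1) (d + 2)`; label `d + 1`: `inc (pr 2) 2`; label `d + 2`: halt.
`to_fin` with `M = d + 2`.
-/

set_option autoImplicit false

namespace CPM

/-- a primitive recursive description of a recursively enumerable relation -/
theorem exists_T (R : ℕ → ℕ → Prop) (hR : REPred fun p : ℕ × ℕ => R p.1 p.2) :
    ∃ f : List.Vector ℕ 3 → ℕ, Nat.Primrec' f ∧ ∀ x y, (R x y ↔ ∃ k, f ⟨[y, x, k], rfl⟩ ≠ 0) := by
  obtain ⟨c, hc⟩ := Nat.Partrec.Code.exists_code.1 hR
  have key : ∀ x y, (R x y ↔ ∃ k, (Nat.Partrec.Code.evaln k c (Nat.pair x y)).isSome) := by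
    intro x y
    have h1 : R x y ↔ (c.eval (Nat.pair x y)).Dom := by
      rw [hc]
      simp [Part.assert, Part.bind]
    rw [h1, Part.dom_iff_mem]
    constructor
    · rintro ⟨v, hv⟩
      obtain ⟨k, hk⟩ := Nat.Partrec.Code.evaln_complete.1 hv
      exact ⟨k, Option.isSome_iff_exists.2 ⟨v, hk⟩⟩
    · rintro ⟨k, hk⟩
      obtain ⟨v, hv⟩ := Option.isSome_iff_exists.1 hk
      exact ⟨v, Nat.Partrec.Code.evaln_complete.2 ⟨k, hv⟩⟩
  refine ⟨fun v => bif (Nat.Partrec.Code.evaln (v.get 2) c (Nat.pair (v.get 1) (v.get 0))).isSome then 1 else 0,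
    ?_, ?_⟩
  · apply Nat.Primrec'.of_prim
    have hg : ∀ i : Fin 3, Primrec fun v : List.Vector ℕ 3 => v.get i := fun i =>
      Primrec.vector_get.comp Primrec.id (Primrec.const i)
    have he : Primrec fun v : List.Vector ℕ 3 =>
        Nat.Partrec.Code.evaln (v.get 2) c (Nat.pair (v.get 1) (v.get 0)) :=
      Nat.Partrec.Code.primrec_evaln.comp
        (((hg 2).pair (Primrec.const c)).pair (Primrec₂.natPair.comp (hg 1) (hg 0)))
    exact Primrec.cond (Primrec.option_isSome.comp he) (Primrec.const 1) (Primrec.const 0)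
  · intro x y
    rw [key]
    refine exists_congr fun k => ?_
    have e2 : List.Vector.get (⟨[y, x, k], rfl⟩ : List.Vector ℕ 3) 2 = k := rfl
    have e1 : List.Vector.get (⟨[y, x, k], rfl⟩ : List.Vector ℕ 3) 1 = x := rfl
    have e0 : List.Vector.get (⟨[y, x, k], rfl⟩ : List.Vector ℕ 3) 0 = y := rfl
    simp only [e2, e1, e0]
    by_cases h : (Nat.Partrec.Code.evaln k c (Nat.pair x y)).isSome
    · simp [h]
    · simp only [Bool.not_eq_true] at h
      simp [h]

namespace MachineAux

private theorem run_add' {C : Type} (f : C → Option C) (m n : ℕ) (c : C) :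
    run f (m + n) c = (run f m c).bind (run f n) := by
  induction n with
  | zero => cases h : run f m c <;> simp [run]
  | succ n ih =>
    rw [← add_assoc, run, ih]
    cases run f m c <;> simp [run]

private theorem phalts_of_run {Q : Type} (P : Q → PI Q) {n : ℕ} {c c' : Q × ℕ}
    (h : run (pstep P) n c = some c') : PHalts P c ↔ PHalts P c' := by
  constructor
  · rintro ⟨m, hm⟩
    refine ⟨m, ?_⟩
    have h2 := run_add' (pstep P) n m c
    rw [h, Option.bind_some] at h2
    rw [← h2, add_comm, run_add', hm]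
    rfl
  · rintro ⟨m, hm⟩
    exact ⟨n + m, by rw [run_add', h]; exact hm⟩

private theorem time_of_run {C : Type} (f : C → Option C) {n t : ℕ} {c c' : C} (h : run f n c = some c')
    (ht : run f t c = none) : n < t ∧ run f (t - n) c' = none := by
  have hlt : n < t := by
    by_contra hle
    push Not at hle
    obtain ⟨m, rfl⟩ := Nat.exists_eq_add_of_le hle
    rw [run_add', ht] at h
    simp at h
  refine ⟨hlt, ?_⟩
  have h2 := run_add' f n (t - n) c
  rw [Nat.add_sub_cancel' hlt.le, ht, h] at h2
  simpa using h2.symm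

/-- the machine -/
private noncomputable def mach (p : LP) (i : ℕ) : PI ℕ :=
  if i < 2 then ((LP.loop 2 .nop).code 0 2).getD i .halt
  else if i < 2 + p.size then (p.code 2 (2 + p.size)).getD (i - 2) .halt
  else if i = 2 + p.size then .dec (pr 3) (2 + p.size + 1) (2 + p.size + 2)
  else if i = 2 + p.size + 1 then .inc (pr 2) 2
  else .halt

private theorem mach_good (p : LP) (i : ℕ) : (mach p i).pr.Coprime 30 := by
  unfold mach
  split_ifs
  · exact LP.code_good _ _ _ _
  · exact LP.code_good _ _ _ _
  · exact pr_coprime 3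
  · exact pr_coprime 2
  · simp [PI.pr]

private theorem mach_tgt (p : LP) (i : ℕ) (b : Bool) (q : ℕ) (h : (mach p i).tgt b = some q) :
    q ≤ 2 + p.size + 2 := by
  unfold mach at h
  have hs := LP.size_pos p
  split_ifs at h with h1 h2 h3 h4
  · rcases LP.code_tgt _ _ _ _ _ _ h with h | h
    · omega
    · simp only [LP.size] at h
      omega
  · rcases LP.code_tgt _ _ _ _ _ _ h with h | h <;> omega
  · cases b <;> simp [PI.tgt] at h <;> omega
  · cases b <;> simp [PI.tgt] at h <;> omega
  · cases b <;> simp [PI.tgt] at h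

private theorem ev_clear (σ : ℕ → ℕ) : (LP.loop 2 .nop).ev σ = Function.update σ 2 0 := by
  have h : ∀ (n : ℕ) (τ : ℕ → ℕ), τ 2 = n →
      (fun τ : ℕ → ℕ => LP.nop.ev (Function.update τ 2 (τ 2 - 1)))^[n] τ = Function.update τ 2 0 := by
    intro n
    induction n with
    | zero =>
      intro τ hτ
      rw [Function.iterate_zero, id, ← hτ, Function.update_eq_self]
    | succ n ih =>
      intro τ hτ
      rw [Function.iterate_succ_apply, ih _ (by simp [LP.ev, hτ])]
      simp [LP.ev]
  exact h _ σ rfl

private theorem step_dec (p : LP) (N : ℕ) :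
    pstep (mach p) (2 + p.size, N) =
      if pr 3 ∣ N then some (2 + p.size + 2, N / pr 3) else some (2 + p.size + 1, N) := by
  have : mach p (2 + p.size) = .dec (pr 3) (2 + p.size + 1) (2 + p.size + 2) := by
    unfold mach
    rw [if_neg (by omega), if_neg (by omega), if_pos rfl]
  simp only [pstep, this]

private theorem step_inc (p : LP) (N : ℕ) :
    pstep (mach p) (2 + p.size + 1, N) = some (2, pr 2 * N) := by
  have : mach p (2 + p.size + 1) = .inc (pr 2) 2 := by
    unfold mach
    rw [if_neg (by omega), if_neg (by omega), if_neg (by omega), if_pos rfl]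
  simp only [pstep, this]

private theorem step_halt (p : LP) (N : ℕ) :
    pstep (mach p) (2 + p.size + 2, N) = none := by
  have : mach p (2 + p.size + 2) = .halt := by
    unfold mach
    rw [if_neg (by omega), if_neg (by omega), if_neg (by omega), if_neg (by omega)]
  simp only [pstep, this]

private theorem ne_zero_of_coprime {N : ℕ} (h : N.Coprime 30) : N ≠ 0 := by
  rintro rfl
  simp at h

private theorem val_ne {N r : ℕ} (h : N.Coprime 30) : val N r ≠ 0 ↔ pr r ∣ N := by
  unfold val
  rw [Ne, Nat.factorization_eq_zero_iff]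
  have := pr_prime r
  have h0 := ne_zero_of_coprime h
  tauto

private theorem val_mul {N r s : ℕ} (h : N.Coprime 30) : val (pr s * N) r = val N r + if r = s then 1 else 0 := by
  unfold val
  rw [Nat.factorization_mul (pr_prime s).ne_zero (ne_zero_of_coprime h), Finsupp.add_apply,
    (pr_prime s).factorization, add_comm, Finsupp.single_apply]
  congr 1
  by_cases hrs : r = s
  · simp [hrs]
  · rw [if_neg hrs, if_neg fun he => hrs (pr_inj he).symm]

/-- from label 2 to label `d` -/
private theorem run_p (p : LP) (hp : p.ok) (f : List.Vector ℕ 3 → ℕ)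
    (hpf : ∀ σ : ℕ → ℕ, p.ev σ 3 = f (List.Vector.ofFn fun j : Fin 3 => σ j) ∧
        ∀ r, r < 4 → r ≠ 3 → p.ev σ r = σ r) (N : ℕ) (hN : N.Coprime 30) :
    ∃ n N', run (pstep (mach p)) n (2, N) = some (2 + p.size, N') ∧ N'.Coprime 30 ∧
      val N' 3 = f ⟨[val N 0, val N 1, val N 2], rfl⟩ ∧ ∀ r, r < 3 → val N' r = val N r := by
  obtain ⟨n, N', h1, h2, h3⟩ := LP.code_run p hp (mach p) 2 (2 + p.size) (fun i hi => by
    unfold mach
    rw [if_neg (by omega), if_pos (by omega), Nat.add_sub_cancel_left]) N hN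
  refine ⟨n, N', h1, h2, ?_, fun r hr => ?_⟩
  · rw [h3, (hpf _).1]
    congr 1
  · rw [h3, (hpf _).2 r (by omega) (by omega)]

end MachineAux

open MachineAux in
theorem machine (R : ℕ → ℕ → Prop) (hR : REPred fun p : ℕ × ℕ => R p.1 p.2) :
    ∃ (M : ℕ) (P : Fin (M + 1) → PI (Fin (M + 1))), Good P ∧
      ∀ Y : ℕ, Y.Coprime 30 → (PHalts P (0, Y) ↔ R (Y.factorization 11) (Y.factorization 7)) := by
  obtain ⟨f, hf, hfR⟩ := exists_T R hR
  obtain ⟨p, hp, hpf⟩ := exists_lp hf (fun j : Fin 3 => (j : ℕ)) 3 4 (fun j => by omega) (fun j => by omega)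
    (by omega)
  obtain ⟨P', hg, hP'⟩ := to_fin (2 + p.size + 2) (mach p) (mach_good p) (fun i _ b q h => mach_tgt p i b q h)
  refine ⟨2 + p.size + 2, P', hg, fun Y hY => ?_⟩
  rw [hP', hfR]
  have hy : ∀ r, val Y r = Y.factorization (pr r) := fun r => rfl
  rw [← pr_zero, ← pr_one, ← hy, ← hy]
  -- clear the counter
  obtain ⟨n, N, h1, h2, h3⟩ := LP.code_run (LP.loop 2 .nop) ⟨by simp [LP.regs], trivial⟩ (mach p) 0 2 (fun i hi => by
    have hi' : i < 2 := by simpa [LP.size] using hi
    unfold mach
    rw [zero_add, if_pos hi']) Y hY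
  rw [phalts_of_run (mach p) h1]
  rw [ev_clear] at h3
  have e0 : val N 0 = val Y 0 := by rw [h3]; simp
  have e1 : val N 1 = val Y 1 := by rw [h3]; simp
  have e2 : val N 2 = 0 := by rw [h3]; simp
  rw [← e0, ← e1]
  constructor
  · rintro ⟨t, ht⟩
    clear h1 h3 e0 e1 e2 hP'
    induction t using Nat.strong_induction_on generalizing N with
    | _ t ih =>
      obtain ⟨m, N', g1, g2, g3, g4⟩ := run_p p hp f (fun σ => hpf σ) N h2
      by_cases hv : val N' 3 = 0
      · have hnd : ¬ pr 3 ∣ N' := fun hd => (val_ne g2).2 hd hv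
        have hr : run (pstep (mach p)) (m + 2) (2, N) = some (2, pr 2 * N') := by
          rw [run_add', g1]
          simp only [Option.bind_some, run, step_dec, if_neg hnd, step_inc]
        obtain ⟨hlt, hn⟩ := time_of_run _ hr ht
        have hc : (pr 2 * N').Coprime 30 := Nat.Coprime.mul_left (pr_coprime 2) g2
        obtain ⟨k, hk⟩ := ih _ (by omega) _ hc hn
        refine ⟨k, ?_⟩
        rwa [val_mul g2, val_mul g2, g4 0 (by omega), g4 1 (by omega), if_neg (by omega), if_neg (by omega),
          add_zero, add_zero] at hk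
      · exact ⟨val N 2, by rw [← g3]; exact hv⟩
  · rintro ⟨k, hk⟩
    -- reach the first `k`
    have main : ∀ (j : ℕ) (N : ℕ), N.Coprime 30 → f ⟨[val N 0, val N 1, val N 2 + j], rfl⟩ ≠ 0 →
        PHalts (mach p) (2, N) := by
      intro j
      induction j with
      | zero =>
        intro N hN hk
        obtain ⟨m, N', g1, g2, g3, g4⟩ := run_p p hp f (fun σ => hpf σ) N hN
        rw [add_zero, ← g3] at hk
        refine ⟨m + 2, ?_⟩
        rw [run_add', g1]
        simp only [Option.bind_some, run, step_dec, if_pos ((val_ne g2).1 hk), step_halt]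
      | succ j ih =>
        intro N hN hk
        obtain ⟨m, N', g1, g2, g3, g4⟩ := run_p p hp f (fun σ => hpf σ) N hN
        by_cases hv : val N' 3 = 0
        · have hnd : ¬ pr 3 ∣ N' := fun hd => (val_ne g2).2 hd hv
          have hr : run (pstep (mach p)) (m + 2) (2, N) = some (2, pr 2 * N') := by
            rw [run_add', g1]
            simp only [Option.bind_some, run, step_dec, if_neg hnd, step_inc]
          rw [phalts_of_run _ hr]
          apply ih _ (Nat.Coprime.mul_left (pr_coprime 2) g2)
          rw [val_mul g2, val_mul g2, val_mul g2, g4 0 (by omega), g4 1 (by omega), g4 2 (by omega),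
            if_neg (by omega), if_neg (by omega), if_pos rfl, add_zero, add_zero]
          rwa [show val N 2 + 1 + j = val N 2 + (j + 1) by ring]
        · refine ⟨m + 2, ?_⟩
          rw [run_add', g1]
          simp only [Option.bind_some, run, step_dec, if_pos ((val_ne g2).1 hv), step_halt]
    apply main k N h2
    rw [e2, zero_add]
    exact hk

end CPM
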