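import Pool.Agent.Lib.CPM.Hom
import Pool.Agent.Lib.CPM.Machine

/-!
# Module CoreA: congruence permutations with the cut `Z x`

`Z x ((s, N), b)` iff `s = I`, `b = false` and the exponent of 11 in `N` is not `x`.
`F x n = enc (dbl (t2 P) (kap (Z x) (dcd n))) = mu P (zmap x n)` with the explicit involution
`zmap x = enc ∘ kap (Z x) ∘ dcd`, a permutation with `zmap x (n + sz M * 11 ^ (x + 1) * k) = zmap x n + sz M * 11 ^ (x + 1) * k`.

All orbits finite: for a point `(c, b)` use `fin_orb` for `f = t2 P`; backward runs end (`t2_bwd_fin`); forward: `t2_reach`: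
the run ends, or comes to `((I, 5^j Y), false)`, then `((I, 5^(j+1) Y), true)`.  If the exponent of 11 in `Y` is not `x`: this
is a point of `Z x` (at time 0 possibly; then `t2_start` for `((I, 5^(j+1) Y), true)` gives a later one or the end).  If it is
`x`: `R x y` with `y` the exponent of 7, so `PHalts P (0, Y)` and `t2_fin`.
Conversely, if not `R x y`, then `inf_orb` for `c = ((I, 7^y 11^x), true)` by `t2_inf` and `t2_ne`.
-/

set_option autoImplicit false

namespace CPM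

namespace CoreAAux

variable {M : ℕ}

/-- the set of the cuts -/
def Z (x : ℕ) (c : (Ctrl M × ℕ) × Bool) : Bool :=
  decide (c.1.1 = Ctrl.I) && (!c.2 && decide (¬ c.1.2.factorization 11 = x))

/-- the set of all starting points -/
def Z' (c : (Ctrl M × ℕ) × Bool) : Bool := decide (c.1.1 = Ctrl.I) && !c.2

theorem Z_eq_true (x : ℕ) (c : (Ctrl M × ℕ) × Bool) :
    Z x c = true ↔ c.1.1 = Ctrl.I ∧ c.2 = false ∧ ¬ c.1.2.factorization 11 = x := by
  simp [Z]

theorem Z_of_eq (x : ℕ) (c : (Ctrl M × ℕ) × Bool) (h : c.1.2.factorization 11 = x) :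
    Z x c = false := by
  simp [Z, h]

theorem Z_of_ne (x : ℕ) (c : (Ctrl M × ℕ) × Bool) (h : ¬ c.1.2.factorization 11 = x) :
    Z x c = Z' c := by
  simp [Z, Z', h]

theorem kap_num {C : Type} (W : (C × ℕ) × Bool → Bool) (y : ((C × ℕ) × Bool) × Bool) :
    (kap W y).1 = y.1 := by
  unfold kap
  split_ifs <;> rfl

theorem dcd_num (n : ℕ) : (dcd M n).1.1.2 = n / sz M + 1 := rfl

theorem dcd_ne (n : ℕ) : (dcd M n).1.1.2 ≠ 0 := Nat.succ_ne_zero _

theorem sst_add (n k : ℕ) : sst M (n + sz M * k) = sst M n := by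
  unfold sst
  congr 1
  apply Fin.ext
  exact Nat.add_mul_mod_self_left _ _ _

/-- exchange of the signs at the starting points, on the codes -/
noncomputable def zf (M : ℕ) (n : ℕ) : ℕ := enc (kap (Z' (M := M)) (dcd M n))

/-- exchange of the signs at the cuts, on the codes -/
noncomputable def zm (M x n : ℕ) : ℕ := enc (kap (Z (M := M) x) (dcd M n))

theorem enc_shift (y : Cf M) (k : ℕ) (hy : y.1.1.2 ≠ 0) :
    enc (M := M) (((y.1.1.1, y.1.1.2 + k), y.1.2), y.2) = enc y + sz M * k := by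
  unfold enc
  obtain ⟨N, hN⟩ : ∃ N, y.1.1.2 = N + 1 := ⟨y.1.1.2 - 1, by omega⟩
  simp only [hN]
  have h1 : N + 1 + k - 1 = N + k := by omega
  have h2 : N + 1 - 1 = N := by omega
  rw [h1, h2]
  ring

theorem zf_shift (n k : ℕ) : zf M (n + sz M * k) = zf M n + sz M * k := by
  unfold zf
  rw [← enc_shift (kap Z' (dcd M n)) k (by rw [kap_num]; exact dcd_ne n)]
  congr 1
  have hdiv : (n + sz M * k) / sz M = n / sz M + k := Nat.add_mul_div_left _ _ (sz_pos M)
  have h1 : dcd M (n + sz M * k) = ((((dcd M n).1.1.1, (dcd M n).1.1.2 + k), (dcd M n).1.2),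
      (dcd M n).2) := by
    unfold dcd
    rw [sst_add, hdiv]
    simp only [add_assoc, add_comm]
  rw [h1]
  unfold kap Z'
  simp only
  split_ifs <;> rfl

theorem zf_aff : IsAff (sz M) (zf M) := by
  intro n
  have h1 : zf M (n + sz M) = zf M n + sz M := by
    have := zf_shift (M := M) n 1
    rwa [mul_one] at this
  have h2 : zf M (n + 2 * sz M) = zf M n + 2 * sz M := by
    have := zf_shift (M := M) n 2
    rwa [mul_comm (sz M) 2] at this
  rw [h1, h2]
  constructor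
  · omega
  · ring

/-- the exponent of 11 in the number is `x` -/
def E (M x n : ℕ) : Prop := (n / sz M + 1) % 11 ^ x = 0 ∧ ¬ (n / sz M + 1) % 11 ^ (x + 1) = 0

instance (M x n : ℕ) : Decidable (E M x n) := by unfold E; infer_instance

theorem fac_eq (N x : ℕ) (hN : N ≠ 0) :
    N.factorization 11 = x ↔ N % 11 ^ x = 0 ∧ ¬ N % 11 ^ (x + 1) = 0 := by
  have hp : Nat.Prime 11 := by norm_num
  have h1 := fun k => (hp.pow_dvd_iff_le_factorization (k := k) hN)
  rw [← Nat.dvd_iff_mod_eq_zero, ← Nat.dvd_iff_mod_eq_zero, h1, h1]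
  omega

theorem E_iff (x n : ℕ) : E M x n ↔ (dcd M n).1.1.2.factorization 11 = x := by
  rw [fac_eq _ _ (dcd_ne n), dcd_num]
  rfl

theorem zm_eq [NeZero M] (x n : ℕ) : zm M x n = if E M x n then n else zf M n := by
  by_cases h : E M x n
  · rw [if_pos h]
    rw [E_iff] at h
    unfold zm kap
    rw [Z_of_eq x _ h]
    simp [enc_dcd]
  · rw [if_neg h]
    rw [E_iff] at h
    unfold zm zf kap
    rw [Z_of_ne x _ h]

theorem E_shift (x n k : ℕ) : E M x (n + sz M * (11 ^ (x + 1) * k)) ↔ E M x n := by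
  have hdiv : (n + sz M * (11 ^ (x + 1) * k)) / sz M = n / sz M + 11 ^ (x + 1) * k :=
    Nat.add_mul_div_left _ _ (sz_pos M)
  unfold E
  rw [hdiv]
  have h1 : n / sz M + 11 ^ (x + 1) * k + 1 = n / sz M + 1 + 11 ^ (x + 1) * k := by ring
  have h2 : n / sz M + 1 + 11 ^ (x + 1) * k = n / sz M + 1 + 11 ^ x * (11 * k) := by ring
  rw [h1, Nat.add_mul_mod_self_left, h2, Nat.add_mul_mod_self_left]

theorem zm_shift [NeZero M] (x n k : ℕ) :
    zm M x (n + sz M * (11 ^ (x + 1) * k)) = zm M x n + sz M * (11 ^ (x + 1) * k) := by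
  rw [zm_eq, zm_eq]
  by_cases h : E M x n
  · rw [if_pos h, if_pos ((E_shift x n k).2 h)]
  · rw [if_neg h, if_neg (fun h' => h ((E_shift x n k).1 h')), zf_shift]

theorem zm_aff [NeZero M] (x : ℕ) : IsAff (sz M * 11 ^ (x + 1)) (zm M x) := by
  intro n
  have h1 : zm M x (n + sz M * 11 ^ (x + 1)) = zm M x n + sz M * 11 ^ (x + 1) := by
    have := zm_shift (M := M) x n 1
    rwa [mul_one] at this
  have h2 : zm M x (n + 2 * (sz M * 11 ^ (x + 1))) = zm M x n + 2 * (sz M * 11 ^ (x + 1)) := by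
    have := zm_shift (M := M) x n 2
    rwa [show sz M * (11 ^ (x + 1) * 2) = 2 * (sz M * 11 ^ (x + 1)) by ring] at this
  rw [h1, h2]
  constructor
  · omega
  · ring

theorem dcd_zm [NeZero M] (x n : ℕ) : dcd M (zm M x n) = kap (Z x) (dcd M n) :=
  dcd_enc _ (by rw [kap_num]; exact dcd_ne n)

theorem zm_zm [NeZero M] (x n : ℕ) : zm M x (zm M x n) = n := by
  have h : zm M x (zm M x n) = enc (kap (Z (M := M) x) (dcd M (zm M x n))) := rfl
  rw [h, dcd_zm, kap_kap, enc_dcd]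

theorem zm_bij [NeZero M] (x : ℕ) : Function.Bijective (zm M x) :=
  (Function.Involutive.bijective (zm_zm x))

theorem primrec_pow (a : ℕ) : Primrec fun x : ℕ => a ^ x := by
  have h : Primrec₂ fun m n : ℕ => m ^ n := Primrec₂.unpaired'.1 Nat.Primrec.pow
  exact h.comp (Primrec.const a) Primrec.id

theorem E_prim (M : ℕ) : PrimrecPred fun p : ℕ × ℕ => E M p.1 p.2 := by
  have hN : Primrec fun p : ℕ × ℕ => p.2 / sz M + 1 :=
    Primrec.succ.comp (Primrec.nat_div.comp Primrec.snd (Primrec.const (sz M)))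
  have h1 : PrimrecPred fun p : ℕ × ℕ => (p.2 / sz M + 1) % 11 ^ p.1 = 0 :=
    Primrec.eq.comp (Primrec.nat_mod.comp hN ((primrec_pow 11).comp Primrec.fst))
      (Primrec.const 0)
  have h2 : PrimrecPred fun p : ℕ × ℕ => (p.2 / sz M + 1) % 11 ^ (p.1 + 1) = 0 :=
    Primrec.eq.comp (Primrec.nat_mod.comp hN
      ((primrec_pow 11).comp (Primrec.succ.comp Primrec.fst))) (Primrec.const 0)
  exact h1.and h2.not

theorem zm_prim [NeZero M] : Primrec₂ (zm M) := by
  have hz : Primrec (zf M) := IsAff.primrec (sz_pos M) zf_aff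
  have h : Primrec fun p : ℕ × ℕ => if E M p.1 p.2 then p.2 else zf M p.2 :=
    Primrec.ite (E_prim M) Primrec.snd (hz.comp Primrec.snd)
  exact h.of_eq fun p => (zm_eq p.1 p.2).symm

/-- the permutation with the cuts -/
noncomputable def FF [NeZero M] (P : Fin M → PI (Fin M)) (hP : Good P) (x n : ℕ) : ℕ :=
  mu P hP (zm M x n)

theorem dcd_FF [NeZero M] (P : Fin M → PI (Fin M)) (hP : Good P) (x k n : ℕ) :
    dcd M ((FF P hP x)^[k] n) = (dbl (t2 P hP) ∘ kap (Z x))^[k] (dcd M n) := by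
  induction k generalizing n with
  | zero => rfl
  | succ k ih =>
    rw [Function.iterate_succ_apply, Function.iterate_succ_apply, ih]
    congr 1
    have h := dcd_mu_iterate P hP 1 (zm M x n)
    rw [Function.iterate_one, Function.iterate_one, dcd_zm] at h
    exact h

theorem FF_per [NeZero M] (P : Fin M → PI (Fin M)) (hP : Good P) (x k n : ℕ) :
    (FF P hP x)^[k] n = n ↔ (dbl (t2 P hP) ∘ kap (Z x))^[k] (dcd M n) = dcd M n := by
  rw [← dcd_FF]
  constructor
  · intro h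
    rw [h]
  · intro h
    have h1 := congrArg enc h
    rwa [enc_dcd, enc_dcd] at h1

theorem run_trans {C : Type} {f : C → Option C} {m n : ℕ} {c d : C} (h : run f m c = some d) :
    run f (m + n) c = run f n d := by
  rw [run_add, h]
  rfl

theorem fac_pow5 (j Y : ℕ) (p : ℕ) (h5 : p ≠ 5) (hY : Y ≠ 0) :
    (5 ^ j * Y).factorization p = Y.factorization p := by
  rw [Nat.factorization_mul (by positivity) hY, Nat.factorization_pow]
  have h5' : Nat.Prime 5 := by norm_num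
  simp [h5'.factorization, Ne.symm h5]

theorem pr30_ne {Y : ℕ} (h : Pr30 Y) : Y ≠ 0 := by
  rintro rfl
  revert h
  decide

theorem fin_of_all [NeZero M] (P : Fin M → PI (Fin M)) (hP : Good P) (R : ℕ → ℕ → Prop)
    (hM : ∀ Y : ℕ, Y.Coprime 30 → (PHalts P (0, Y) ↔ R (Y.factorization 11) (Y.factorization 7)))
    (x : ℕ) (hx : ∀ y, R x y) (y : Cf M) :
    ∃ k, 0 < k ∧ (dbl (t2 P hP) ∘ kap (Z x))^[k] y = y := by
  obtain ⟨c, b⟩ := y
  refine fin_orb (t2 P hP) (Z x) c (t2_bwd_fin P hP c) ?_ b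
  rcases t2_reach P hP c with ⟨n, hn⟩ | ⟨n, j, Y, hY, h1, h2⟩
  · exact ⟨n, Or.inl hn⟩
  by_cases hYx : Y.factorization 11 = x
  · have hR : PHalts P (0, Y) := (hM Y hY).2 (by rw [hYx]; exact hx _)
    obtain ⟨m, hm⟩ := t2_fin P hP Y hY hR (j + 1)
    refine ⟨n + 1 + m, Or.inl ?_⟩
    rw [run_trans h2, hm]
  · have hZ : ∀ i, Z (M := M) x ((Ctrl.I, 5 ^ i * Y), false) = true := by
      intro i
      rw [Z_eq_true]
      refine ⟨rfl, rfl, ?_⟩
      change ¬ (5 ^ i * Y).factorization 11 = x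
      rw [fac_pow5 i Y 11 (by norm_num) (pr30_ne hY)]
      exact hYx
    rcases Nat.eq_zero_or_pos n with hn | hn
    · rcases t2_start P hP Y hY (j + 1) with ⟨m, hm⟩ | ⟨m, hm0, hm⟩
      · refine ⟨n + 1 + m, Or.inl ?_⟩
        rw [run_trans h2, hm]
      · refine ⟨n + m, Or.inr ⟨_, ?_, hZ (j + 1)⟩⟩
        rw [show n + m + 1 = n + 1 + m by omega, run_trans h2, hm]
    · obtain ⟨n', rfl⟩ : ∃ n', n = n' + 1 := ⟨n - 1, by omega⟩
      exact ⟨n', Or.inr ⟨_, h1, hZ j⟩⟩

theorem all_of_fin [NeZero M] (P : Fin M → PI (Fin M)) (hP : Good P) (R : ℕ → ℕ → Prop)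
    (hM : ∀ Y : ℕ, Y.Coprime 30 → (PHalts P (0, Y) ↔ R (Y.factorization 11) (Y.factorization 7)))
    (x : ℕ) (h : ∀ y : Cf M, y.1.1.2 ≠ 0 → ∃ k, 0 < k ∧ (dbl (t2 P hP) ∘ kap (Z x))^[k] y = y)
    (y : ℕ) : R x y := by
  by_contra hR
  have h11 : Nat.Prime 11 := by norm_num
  have h7 : Nat.Prime 7 := by norm_num
  have hY : Pr30 (7 ^ y * 11 ^ x) := by
    refine Nat.Coprime.mul_left (Nat.Coprime.pow_left _ (by norm_num))
      (Nat.Coprime.pow_left _ (by norm_num))
  have hf11 : (7 ^ y * 11 ^ x).factorization 11 = x := by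
    rw [Nat.factorization_mul (by positivity) (by positivity), Nat.factorization_pow,
      Nat.factorization_pow]
    simp [h11.factorization, h7.factorization]
  have hf7 : (7 ^ y * 11 ^ x).factorization 7 = y := by
    rw [Nat.factorization_mul (by positivity) (by positivity), Nat.factorization_pow,
      Nat.factorization_pow]
    simp [h11.factorization, h7.factorization]
  have hn : ¬ PHalts P (0, 7 ^ y * 11 ^ x) := by
    intro hh
    have := (hM _ hY).1 hh
    rw [hf11, hf7] at this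
    exact hR this
  obtain ⟨k, hk, hk'⟩ := h (((Ctrl.I, 7 ^ y * 11 ^ x), true), true) (pr30_ne hY)
  refine inf_orb (t2 P hP) (Z x) ((Ctrl.I, 7 ^ y * 11 ^ x), true) ?_ ?_ k hk hk'
  · intro n
    obtain ⟨d, hd, hd'⟩ := t2_inf P hP _ hY hn n
    refine ⟨d, hd, ?_⟩
    rw [← Bool.not_eq_true, Z_eq_true]
    rintro ⟨h1, h2, h3⟩
    obtain ⟨j, hj⟩ := hd' d.1.2 d.2 (by rw [← h1])
    apply h3
    rw [hj, fac_pow5 _ _ 11 (by norm_num) (pr30_ne hY), hf11]
  · intro n hn0
    exact t2_ne P hP _ hY n hn0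

end CoreAAux

theorem coreA (R : ℕ → ℕ → Prop) (hR : REPred fun p : ℕ × ℕ => R p.1 p.2) :
    ∃ (m : ℕ → ℕ) (F : ℕ → ℕ → ℕ), Computable m ∧ Computable₂ F ∧
      ∀ x, 0 < m x ∧ IsAff (m x) (F x) ∧ Function.Bijective (F x) ∧
        ((∀ y, R x y) ↔ ∀ n, ∃ k, 0 < k ∧ (F x)^[k] n = n) := by
  obtain ⟨M, P, hP, hM⟩ := machine R hR
  refine ⟨fun x => sz (M + 1) * 11 ^ (x + 1) * md P, CoreAAux.FF P hP, ?_, ?_, fun x => ?_⟩
  · have h : Primrec fun x : ℕ => sz (M + 1) * 11 ^ (x + 1) * md P :=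
      Primrec.nat_mul.comp (Primrec.nat_mul.comp (Primrec.const _)
        ((CoreAAux.primrec_pow 11).comp Primrec.succ)) (Primrec.const _)
    exact h.to_comp
  · have h1 : Primrec (mu P hP) := IsAff.primrec (md_pos P hP) (mu_aff P hP)
    have h2 : Primrec₂ (CoreAAux.FF P hP) := h1.comp₂ CoreAAux.zm_prim
    exact h2.to_comp
  · refine ⟨?_, ?_, ?_, ?_⟩
    · exact Nat.mul_pos (Nat.mul_pos (sz_pos _) (by positivity)) (md_pos P hP)
    · exact IsAff.comp (mu_aff P hP) (CoreAAux.zm_aff x)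
    · exact (mu_bij P hP).comp (CoreAAux.zm_bij x)
    · constructor
      · intro hx n
        obtain ⟨k, hk, hk'⟩ := CoreAAux.fin_of_all P hP R hM x hx (dcd (M + 1) n)
        exact ⟨k, hk, (CoreAAux.FF_per P hP x k n).2 hk'⟩
      · intro h
        refine CoreAAux.all_of_fin P hP R hM x fun y hy => ?_
        obtain ⟨k, hk, hk'⟩ := h (enc y)
        rw [CoreAAux.FF_per, dcd_enc y hy] at hk'
        exact ⟨k, hk, hk'⟩

end CPM
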