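import Pool.Agent.Lib.CPM.CoreA

/-!
# Module CoreA2: none or infinitely many infinite orbits

As `CoreA`; if `R x y` fails, the starting configurations with the numbers `7 ^ y * 11 ^ x * 13 ^ t` lie on pairwise distinct
infinite orbits.
-/

set_option autoImplicit false

namespace CPM

namespace CoreA2Aux

open CoreAAux

/-- the starting number -/
def Yt (x y t : ℕ) : ℕ := 7 ^ y * 11 ^ x * 13 ^ t

theorem Yt_pr (x y t : ℕ) : Pr30 (Yt x y t) := by
  unfold Yt
  exact Nat.Coprime.mul_left (Nat.Coprime.mul_left (Nat.Coprime.pow_left _ (by norm_num))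
    (Nat.Coprime.pow_left _ (by norm_num))) (Nat.Coprime.pow_left _ (by norm_num))

theorem Yt_fac (x y t : ℕ) (p : ℕ) : (Yt x y t).factorization p =
    y * (if p = 7 then 1 else 0) + x * (if p = 11 then 1 else 0) + t * (if p = 13 then 1 else 0) := by
  have h7 : Nat.Prime 7 := by norm_num
  have h11 : Nat.Prime 11 := by norm_num
  have h13 : Nat.Prime 13 := by norm_num
  unfold Yt
  rw [Nat.factorization_mul (by positivity) (by positivity),
    Nat.factorization_mul (by positivity) (by positivity), Nat.factorization_pow, Nat.factorization_pow,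
    Nat.factorization_pow]
  simp only [Finsupp.coe_add, Finsupp.coe_smul, Pi.add_apply, Pi.smul_apply, smul_eq_mul,
    h7.factorization, h11.factorization, h13.factorization, Finsupp.single_apply]
  simp only [eq_comm]

theorem iter_inf {C : Type} (f : C ≃. C) (Z : C → Bool) (c : C)
    (hZ : ∀ n, ∃ d, run f n c = some d ∧ Z d = false) (n : ℕ) :
    ∃ d, run f n c = some d ∧ (dbl f ∘ kap Z)^[n] (c, true) = (d, true) := by
  induction n with
  | zero => exact ⟨c, rfl, rfl⟩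
  | succ n ih =>
    obtain ⟨d, hd, hd'⟩ := ih
    obtain ⟨d', h1, h2⟩ := hZ n
    rw [hd] at h1
    obtain rfl := Option.some.inj h1
    obtain ⟨e, he, -⟩ := hZ (n + 1)
    refine ⟨e, he, ?_⟩
    have h3 : f d = some e := (DblAux.run_succ_some hd).symm.trans he
    rw [Function.iterate_succ_apply', hd']
    show dbl f (kap Z (d, true)) = (e, true)
    have e1 : kap Z (d, true) = (d, true) := by simp [kap, h2]
    rw [e1]
    simp [dbl, h3]

theorem many {M : ℕ} (P : Fin (M + 1) → PI (Fin (M + 1))) (hP : Good P) (R : ℕ → ℕ → Prop)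
    (hM : ∀ Y : ℕ, Y.Coprime 30 → (PHalts P (0, Y) ↔ R (Y.factorization 11) (Y.factorization 7)))
    (x y : ℕ) (hR : ¬ R x y) (i j k : ℕ)
    (h : (dbl (t2 P hP) ∘ kap (Z x))^[k] (((Ctrl.I, Yt x y i), true), true) =
      (((Ctrl.I, Yt x y j), true), true)) : k = 0 ∧ i = j := by
  have hf11 : ∀ t, (Yt x y t).factorization 11 = x := by
    intro t
    rw [Yt_fac]
    simp
  have hf7 : ∀ t, (Yt x y t).factorization 7 = y := by
    intro t
    rw [Yt_fac]
    simp
  have hn : ¬ PHalts P (0, Yt x y i) := by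
    intro hh
    have := (hM _ (Yt_pr x y i)).1 hh
    rw [hf11, hf7] at this
    exact hR this
  have hZ : ∀ n, ∃ d, run (t2 P hP) n ((Ctrl.I, Yt x y i), true) = some d ∧ Z x d = false := by
    intro n
    obtain ⟨d, hd, hd'⟩ := t2_inf P hP _ (Yt_pr x y i) hn n
    refine ⟨d, hd, ?_⟩
    rw [← Bool.not_eq_true, Z_eq_true]
    rintro ⟨h1, h2, h3⟩
    obtain ⟨j, hj⟩ := hd' d.1.2 d.2 (by rw [← h1])
    apply h3
    rw [hj, fac_pow5 _ _ 11 (by norm_num) (pr30_ne (Yt_pr x y i)), hf11]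
  obtain ⟨d, hd, hd'⟩ := iter_inf (t2 P hP) (Z x) _ hZ k
  rw [h] at hd'
  have e1 : ((Ctrl.I, Yt x y j), true) = d := congrArg Prod.fst hd'
  obtain ⟨d2, hd2, hd3⟩ := t2_inf P hP _ (Yt_pr x y i) hn k
  rw [hd] at hd2
  obtain rfl := Option.some.inj hd2
  obtain ⟨l, hl⟩ := hd3 (Yt x y j) true e1.symm
  have hij : i = j := by
    have h1 : (Yt x y j).factorization 13 = (5 ^ l * Yt x y i).factorization 13 := by rw [← hl]
    rw [fac_pow5 _ _ 13 (by norm_num) (pr30_ne (Yt_pr x y i)), Yt_fac, Yt_fac] at h1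
    simp at h1
    exact h1.symm
  refine ⟨?_, hij⟩
  by_contra hk
  subst hij
  rw [← e1] at hd
  exact t2_ne P hP _ (Yt_pr x y i) k (Nat.pos_of_ne_zero hk) hd

end CoreA2Aux

theorem coreA2 (R : ℕ → ℕ → Prop) (hR : REPred fun p : ℕ × ℕ => R p.1 p.2) :
    ∃ (m : ℕ → ℕ) (F : ℕ → ℕ → ℕ), Computable m ∧ Computable₂ F ∧
      ∀ x, 0 < m x ∧ IsAff (m x) (F x) ∧ Function.Bijective (F x) ∧
        ((∀ y, R x y) → ∀ n, ∃ k, 0 < k ∧ (F x)^[k] n = n) ∧
        ((¬ ∀ y, R x y) → ∃ s : ℕ → ℕ, ∀ i j k, (F x)^[k] (s i) = s j → k = 0 ∧ i = j) := by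
  obtain ⟨M, P, hP, hM⟩ := machine R hR
  refine ⟨fun x => sz (M + 1) * 11 ^ (x + 1) * md P, CoreAAux.FF P hP, ?_, ?_, fun x => ?_⟩
  · have h : Primrec fun x : ℕ => sz (M + 1) * 11 ^ (x + 1) * md P :=
      Primrec.nat_mul.comp (Primrec.nat_mul.comp (Primrec.const _)
        ((CoreAAux.primrec_pow 11).comp Primrec.succ)) (Primrec.const _)
    exact h.to_comp
  · have h1 : Primrec (mu P hP) := IsAff.primrec (md_pos P hP) (mu_aff P hP)
    have h2 : Primrec₂ (CoreAAux.FF P hP) := h1.comp₂ CoreAAux.zm_prim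
    exact h2.to_comp
  · refine ⟨?_, ?_, ?_, ?_, ?_⟩
    · exact Nat.mul_pos (Nat.mul_pos (sz_pos _) (by positivity)) (md_pos P hP)
    · exact IsAff.comp (mu_aff P hP) (CoreAAux.zm_aff x)
    · exact (mu_bij P hP).comp (CoreAAux.zm_bij x)
    · intro hx n
      obtain ⟨k, hk, hk'⟩ := CoreAAux.fin_of_all P hP R hM x hx (dcd (M + 1) n)
      exact ⟨k, hk, (CoreAAux.FF_per P hP x k n).2 hk'⟩
    · intro h
      obtain ⟨y, hy⟩ := not_forall.1 h
      refine ⟨fun t => enc ((((Ctrl.I : Ctrl (M + 1)), CoreA2Aux.Yt x y t), true), true), fun i j k hk => ?_⟩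
      refine CoreA2Aux.many P hP R hM x y hy i j k ?_
      have h1 := CoreAAux.dcd_FF P hP x k (enc ((((Ctrl.I : Ctrl (M + 1)), CoreA2Aux.Yt x y i), true), true))
      have h2 : ∀ t, CoreA2Aux.Yt x y t ≠ 0 := fun t => CoreAAux.pr30_ne (CoreA2Aux.Yt_pr x y t)
      rw [hk, dcd_enc _ (h2 j), dcd_enc _ (h2 i)] at h1
      exact h1.symm

end CPM
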