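import Pool.Agent.Lib.CPM.Hom
import Pool.Agent.Lib.CPM.Machine

/-!
# Module CoreB: a congruence permutation whose finite orbits are as complicated as a given r.e. set

`machine` for `R x y := A x` gives `P`; `μ = mu P`, `m = md P`, `s x = enc (((I, 11 ^ x), true), true)`.
`A x` holds iff `P` halts from `(0, 11 ^ x)` iff the run of `t2` from `((I, 11 ^ x), true)` ends (`t2_fin`, `t2_inf`),
iff the orbit is finite (`fin_orb`, `inf_orb` with `Z = fun _ => false`, for which `kap Z = id`).
-/

set_option autoImplicit false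

namespace CPM

theorem coreB (A : ℕ → Prop) (hA : REPred A) :
    ∃ (m : ℕ) (μ s : ℕ → ℕ), 0 < m ∧ IsAff m μ ∧ Function.Bijective μ ∧ Primrec s ∧
      ∀ x, (A x ↔ ∃ k, 0 < k ∧ μ^[k] (s x) = s x) := by
  classical
  have hR : REPred fun p : ℕ × ℕ => A p.1 := Partrec.comp hA Computable.fst
  obtain ⟨M, P, hP, hM⟩ := machine (fun x _ => A x) hR
  have hcop : ∀ x : ℕ, (11 ^ x).Coprime 30 := fun x => Nat.Coprime.pow_left x (by norm_num)
  have hfac : ∀ x : ℕ, (11 ^ x).factorization 11 = x := fun x => by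
    rw [Nat.Prime.factorization_pow (by norm_num)]
    simp
  have hH : ∀ x : ℕ, (PHalts P (0, 11 ^ x) ↔ A x) := by
    intro x
    have := hM (11 ^ x) (hcop x)
    rwa [hfac] at this
  set c : ℕ → (Ctrl (M + 1) × ℕ) × Bool := fun x => ((.I, 11 ^ x), true) with hc
  set s : ℕ → ℕ := fun x => enc (c x, true) with hs
  have hpos : ∀ x : ℕ, 11 ^ x ≠ 0 := fun x => by positivity
  have hdcd : ∀ x, dcd (M + 1) (s x) = (c x, true) := fun x => dcd_enc _ (hpos x)
  have hkap : ∀ k : ℕ, (dbl (t2 P hP) ∘ kap (fun _ => false))^[k] = (dbl (t2 P hP))^[k] := by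
    intro k
    have : dbl (t2 P hP) ∘ kap (fun _ => false) = dbl (t2 P hP) := by
      funext x
      simp [kap]
    rw [this]
  refine ⟨md P, mu P hP, s, md_pos P hP, mu_aff P hP, mu_bij P hP, ?_, ?_⟩
  · have hpow : Primrec fun x : ℕ => 11 ^ x := by
      have h1 : Primrec fun x : ℕ => Nat.rec (motive := fun _ => ℕ) 1 (fun _ y => y * 11) x := by
        refine Primrec.nat_rec₁ 1 (f := fun _ y => y * 11) ?_
        exact Primrec.nat_mul.comp Primrec.snd (Primrec.const 11)
      refine h1.of_eq fun x => ?_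
      induction x with
      | zero => rfl
      | succ n ih =>
        show (Nat.rec (motive := fun _ => ℕ) 1 (fun _ y => y * 11) n) * 11 = _
        rw [ih, pow_succ]
    have h2 : Primrec fun x : ℕ => sz (M + 1) * (11 ^ x - 1) +
        (num (M + 1) (.I, true, true) : ℕ) :=
      Primrec.nat_add.comp (Primrec.nat_mul.comp (Primrec.const _)
        (Primrec.nat_sub.comp hpow (Primrec.const 1))) (Primrec.const _)
    exact h2
  · intro x
    have hc0 : c x = ((.I, 5 ^ 0 * 11 ^ x), true) := by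
      simp only [hc]
      rw [pow_zero, one_mul]
    constructor
    · intro hx
      obtain ⟨n, hn⟩ := t2_fin P hP (11 ^ x) (hcop x) ((hH x).2 hx) 0
      rw [← hc0] at hn
      obtain ⟨k, hk, hk2⟩ := fin_orb (t2 P hP) (fun _ => false) (c x) (t2_bwd_fin P hP (c x))
        ⟨n, Or.inl hn⟩ true
      rw [hkap] at hk2
      refine ⟨k, hk, ?_⟩
      have h3 := dcd_mu_iterate P hP k (s x)
      rw [hdcd, hk2] at h3
      rw [← enc_dcd (M := M + 1) ((mu P hP)^[k] (s x)), h3]
    · rintro ⟨k, hk, hk2⟩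
      by_contra hx
      have hnh : ¬ PHalts P (0, 11 ^ x) := fun h => hx ((hH x).1 h)
      have h3 := dcd_mu_iterate P hP k (s x)
      rw [hk2, hdcd] at h3
      refine inf_orb (t2 P hP) (fun _ => false) (c x) ?_ ?_ k hk ?_
      · intro n
        obtain ⟨d, hd, -⟩ := t2_inf P hP (11 ^ x) (hcop x) hnh n
        exact ⟨d, hd, rfl⟩
      · intro n hn
        exact t2_ne P hP (11 ^ x) (hcop x) n hn
      · rw [hkap]
        exact h3.symm

end CPM
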