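import Pool.Agent.Lib.CPM.Defs

/-!
# Module Ct: class transpositions
-/

set_option autoImplicit false

namespace CPM

/-! ## Class transpositions -/

section

variable {r1 m1 r2 m2 : ℕ}

theorem ct_left (h1 : r1 < m1) (k : ℕ) : ct r1 m1 r2 m2 (r1 + m1 * k) = r2 + m2 * k := by
  unfold ct
  rw [if_pos (by rw [Nat.add_mul_mod_self_left, Nat.mod_eq_of_lt h1]),
    Nat.add_mul_div_left _ _ (by omega), Nat.div_eq_of_lt h1, zero_add]

theorem ct_right (h1 : r1 < m1) (h2 : r2 < m2) (hd : ∀ n, n % m1 = r1 → n % m2 ≠ r2) (k : ℕ) :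
    ct r1 m1 r2 m2 (r2 + m2 * k) = r1 + m1 * k := by
  have _ := h1
  have h3 : (r2 + m2 * k) % m2 = r2 := by rw [Nat.add_mul_mod_self_left, Nat.mod_eq_of_lt h2]
  unfold ct
  rw [if_neg (fun h => hd _ h h3), if_pos h3, Nat.add_mul_div_left _ _ (by omega), Nat.div_eq_of_lt h2,
    zero_add]

theorem ct_other {n : ℕ} (h1 : n % m1 ≠ r1) (h2 : n % m2 ≠ r2) : ct r1 m1 r2 m2 n = n := by
  unfold ct
  rw [if_neg h1, if_neg h2]

theorem ct_ct (h1 : r1 < m1) (h2 : r2 < m2) (hd : ∀ n, n % m1 = r1 → n % m2 ≠ r2) (n : ℕ) :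
    ct r1 m1 r2 m2 (ct r1 m1 r2 m2 n) = n := by
  by_cases h3 : n % m1 = r1
  · have h4 : n = r1 + m1 * (n / m1) := by
      have := Nat.mod_add_div n m1
      rw [h3] at this
      exact this.symm
    rw [h4, ct_left h1, ct_right h1 h2 hd]
  · by_cases h5 : n % m2 = r2
    · have h4 : n = r2 + m2 * (n / m2) := by
        have := Nat.mod_add_div n m2
        rw [h5] at this
        exact this.symm
      rw [h4, ct_right h1 h2 hd, ct_left h1]
    · rw [ct_other h3 h5, ct_other h3 h5]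

theorem ct_aff (h1 : 0 < m1) (h2 : 0 < m2) : IsAff (m1 * m2) (ct r1 m1 r2 m2) := by
  intro n
  have e1 : (n + m1 * m2) % m1 = n % m1 := Nat.add_mul_mod_self_left n m1 m2
  have e2 : (n + 2 * (m1 * m2)) % m1 = n % m1 := by
    have : n + 2 * (m1 * m2) = n + m1 * (2 * m2) := by ring
    rw [this]
    exact Nat.add_mul_mod_self_left n m1 _
  have e3 : (n + m1 * m2) % m2 = n % m2 := Nat.add_mul_mod_self_right n m1 m2
  have e4 : (n + 2 * (m1 * m2)) % m2 = n % m2 := by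
    have : n + 2 * (m1 * m2) = n + (2 * m1) * m2 := by ring
    rw [this]
    exact Nat.add_mul_mod_self_right n _ m2
  have d1 : (n + m1 * m2) / m1 = n / m1 + m2 := Nat.add_mul_div_left n m2 h1
  have d2 : (n + 2 * (m1 * m2)) / m1 = n / m1 + 2 * m2 := by
    have : n + 2 * (m1 * m2) = n + m1 * (2 * m2) := by ring
    rw [this]
    exact Nat.add_mul_div_left n _ h1
  have d3 : (n + m1 * m2) / m2 = n / m2 + m1 := Nat.add_mul_div_right n m1 h2
  have d4 : (n + 2 * (m1 * m2)) / m2 = n / m2 + 2 * m1 := by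
    have : n + 2 * (m1 * m2) = n + (2 * m1) * m2 := by ring
    rw [this]
    exact Nat.add_mul_div_right n _ h2
  unfold ct
  rw [e1, e2, e3, e4, d1, d2, d3, d4]
  by_cases h3 : n % m1 = r1
  · simp only [if_pos h3]
    constructor
    · nlinarith [Nat.zero_le (m2 * m2)]
    · ring
  · simp only [if_neg h3]
    by_cases h4 : n % m2 = r2
    · simp only [if_pos h4]
      constructor
      · nlinarith [Nat.zero_le (m1 * m1)]
      · ring
    · simp only [if_neg h4]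
      constructor
      · exact Nat.le_add_right _ _
      · ring

theorem ct_prim : Primrec fun x : ℕ × ℕ × ℕ × ℕ × ℕ => ct x.1 x.2.1 x.2.2.1 x.2.2.2.1 x.2.2.2.2 := by
  have r1 : Primrec fun x : ℕ × ℕ × ℕ × ℕ × ℕ => x.1 := Primrec.fst
  have m1 : Primrec fun x : ℕ × ℕ × ℕ × ℕ × ℕ => x.2.1 := Primrec.fst.comp Primrec.snd
  have r2 : Primrec fun x : ℕ × ℕ × ℕ × ℕ × ℕ => x.2.2.1 := Primrec.fst.comp (Primrec.snd.comp Primrec.snd)
  have m2 : Primrec fun x : ℕ × ℕ × ℕ × ℕ × ℕ => x.2.2.2.1 :=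
    Primrec.fst.comp (Primrec.snd.comp (Primrec.snd.comp Primrec.snd))
  have n : Primrec fun x : ℕ × ℕ × ℕ × ℕ × ℕ => x.2.2.2.2 :=
    Primrec.snd.comp (Primrec.snd.comp (Primrec.snd.comp Primrec.snd))
  have c1 : PrimrecPred fun x : ℕ × ℕ × ℕ × ℕ × ℕ => x.2.2.2.2 % x.2.1 = x.1 :=
    Primrec.eq.comp (Primrec.nat_mod.comp n m1) r1
  have c2 : PrimrecPred fun x : ℕ × ℕ × ℕ × ℕ × ℕ => x.2.2.2.2 % x.2.2.2.1 = x.2.2.1 :=
    Primrec.eq.comp (Primrec.nat_mod.comp n m2) r2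
  have f1 : Primrec fun x : ℕ × ℕ × ℕ × ℕ × ℕ => x.2.2.1 + x.2.2.2.1 * (x.2.2.2.2 / x.2.1) :=
    Primrec.nat_add.comp r2 (Primrec.nat_mul.comp m2 (Primrec.nat_div.comp n m1))
  have f2 : Primrec fun x : ℕ × ℕ × ℕ × ℕ × ℕ => x.1 + x.2.1 * (x.2.2.2.2 / x.2.2.2.1) :=
    Primrec.nat_add.comp r1 (Primrec.nat_mul.comp m1 (Primrec.nat_div.comp n m2))
  exact Primrec.ite c1 f1 (Primrec.ite c2 f2 n)

end

end CPM
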