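import Mathlib

/-!
# Congruence permutations, prime machines, the reversible machine with history and fuel

Definitions.
-/

set_option autoImplicit false

namespace CPM

/-! ## Tables and congruence permutations of the positive integers -/

/-- The map of a table `[(a_1, b_1), ..., (a_m, b_m)]` on the positive integers:
`n = m k + r` with `k ≥ 0`, `1 ≤ r ≤ m` goes to `a_r k + b_r`. -/
def cmap (L : List (ℕ × ℕ)) (n : ℕ) : ℕ :=
  (L.getD ((n - 1) % L.length) (0, 0)).1 * ((n - 1) / L.length) + (L.getD ((n - 1) % L.length) (0, 0)).2

/-- the table defines a permutation of the positive integers -/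
def IsPerm (L : List (ℕ × ℕ)) : Prop := Set.BijOn (cmap L) {n | 0 < n} {n | 0 < n}

/-- the orbit of `n` is finite -/
def FinOrb (L : List (ℕ × ℕ)) (n : ℕ) : Prop := ∃ k : ℕ, 0 < k ∧ (cmap L)^[k] n = n

/-- `F` (on `ℕ = {0, 1, ...}`) is affine (with natural coefficients) on each residue class modulo `m` -/
def IsAff (m : ℕ) (F : ℕ → ℕ) : Prop := ∀ n, F n ≤ F (n + m) ∧ F (n + 2 * m) + F n = 2 * F (n + m)

/-- the table of the map `n ↦ F (n - 1) + 1` -/
def tab (m : ℕ) (F : ℕ → ℕ) : List (ℕ × ℕ) := (List.range m).map fun r => (F (r + m) - F r, F r + 1)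

/-- the transposition of the residue classes `r1 (m1)` and `r2 (m2)` (used for disjoint classes, `r1 < m1`,
`r2 < m2`): `r1 + m1 k ↔ r2 + m2 k` -/
def ct (r1 m1 r2 m2 n : ℕ) : ℕ :=
  if n % m1 = r1 then r2 + m2 * (n / m1) else if n % m2 = r2 then r1 + m1 * (n / m2) else n

/-! ## Doubling of a partial injection -/

section

variable {C : Type}

/-- the run of a partial map -/
def run (f : C → Option C) : ℕ → C → Option C
  | 0, c => some c
  | n + 1, c => (run f n c).bind f

/-- the doubling of a partial injection -/
def dbl (f : C ≃. C) (x : C × Bool) : C × Bool :=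
  if x.2 then
    match f x.1 with
    | some d => (d, true)
    | none => (x.1, false)
  else
    match f.symm x.1 with
    | some d => (d, false)
    | none => (x.1, true)

/-- exchange the two signs on `Z` -/
def kap (Z : C → Bool) (x : C × Bool) : C × Bool := if Z x.1 then (x.1, !x.2) else x

/-- forward map of the refuelled system: `T` forward on `(c, true)`; where the fuel is out (`Fo`), change to `(c, false)`
and go backward along `T`; at the beginning apply `io` (refuel) and change to `(c, true)` -/
def f2 (T io : C ≃. C) (Fo : C → Bool) (x : C × Bool) : Option (C × Bool) :=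
  if x.2 then
    match T x.1 with
    | some y => some (y, true)
    | none => if Fo x.1 then some (x.1, false) else none
  else
    match T.symm x.1 with
    | some y => some (y, false)
    | none => (io x.1).map fun y => (y, true)

/-- backward map of the refuelled system -/
def b2 (T io : C ≃. C) (Fo : C → Bool) (x : C × Bool) : Option (C × Bool) :=
  if x.2 then
    match T.symm x.1 with
    | some y => some (y, true)
    | none => (io.symm x.1).map fun y => (y, false)
  else
    match T x.1 with
    | some y => some (y, false)
    | none => if Fo x.1 then some (x.1, true) else none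

/-- the conditions on the data of the refuelled system -/
structure FOk (T io : C ≃. C) (Fo : C → Bool) : Prop where
  fo : ∀ c, Fo c = true → T c = none
  io : ∀ c d, io c = some d → T.symm c = none ∧ T.symm d = none

end

/-! ## Prime machines -/

/-- instructions with labels `Q` -/
inductive PI (Q : Type) where
  | halt
  | go (q : Q)
  | inc (p : ℕ) (q : Q)
  | dec (p : ℕ) (q0 q1 : Q)

/-- the number of the instruction -/
def PI.pr {Q : Type} : PI Q → ℕ
  | .inc p _ => p
  | .dec p _ _ => p
  | _ => 1

/-- the instruction is `halt` -/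
def PI.isH {Q : Type} : PI Q → Bool
  | .halt => true
  | _ => false

/-- the target of the branch `b` -/
def PI.tgt {Q : Type} : PI Q → Bool → Option Q
  | .go q, false => some q
  | .inc _ q, false => some q
  | .dec _ q0 _, false => some q0
  | .dec _ _ q1, true => some q1
  | _, _ => none

/-- one step of the prime machine (`none` = it halts); `dec p q0 q1`: if `p` does not divide the number go to `q0`,
otherwise divide by `p` and go to `q1` -/
def pstep {Q : Type} (P : Q → PI Q) (c : Q × ℕ) : Option (Q × ℕ) :=
  match P c.1 with
  | .halt => none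
  | .go q => some (q, c.2)
  | .inc p q => some (q, p * c.2)
  | .dec p q0 q1 => if p ∣ c.2 then some (q1, c.2 / p) else some (q0, c.2)

/-- the prime machine halts from the configuration `c` -/
def PHalts {Q : Type} (P : Q → PI Q) (c : Q × ℕ) : Prop := ∃ n, run (pstep P) n c = none

/-- all numbers are prime to 30 -/
def Good {Q : Type} (P : Q → PI Q) : Prop := ∀ q, (P q).pr.Coprime 30

/-! ## The reversible machine -/

/-- control states of the reversible machine: start; ready at label `q`; the branch `b` of label `q` was executed, the
history (exponent of 2) is being moved to the exponent of 3; the history is being moved back, next label `q` -/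
inductive Ctrl (M : ℕ) where
  | I
  | R (q : Fin M)
  | H (q : Fin M) (b : Bool)
  | G (q : Fin M)
  deriving DecidableEq, Fintype

/-- the base of the history -/
abbrev bs (M : ℕ) : ℕ := 2 * M + 1

section

variable {M : ℕ}

/-- the digit of a branch -/
def dig (q : Fin M) (b : Bool) : ℕ := 2 * (q : ℕ) + b.toNat + 1

/-- the branch of a digit -/
def udig (j : ℕ) : Option (Fin M × Bool) :=
  if h : 0 < j ∧ (j - 1) / 2 < M then some (⟨(j - 1) / 2, h.2⟩, decide ((j - 1) % 2 = 1)) else none

/-- forward map -/
def fwd [NeZero M] (P : Fin M → PI (Fin M)) : Ctrl M × ℕ → Option (Ctrl M × ℕ)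
  | (.I, N) => if N ≠ 0 ∧ ¬ 2 ∣ N ∧ ¬ 3 ∣ N then some (.G 0, N) else none
  | (.R q, N) =>
    if N = 0 ∨ 3 ∣ N ∨ ¬ 5 ∣ N then none else
      match P q with
      | .halt => none
      | .go _ => some (.H q false, N / 5)
      | .inc p _ => some (.H q false, p * (N / 5))
      | .dec p _ _ => if p ∣ N / 5 then some (.H q true, N / 5 / p) else some (.H q false, N / 5)
  | (.H q b, N) =>
    if N = 0 then none else
      if 2 ∣ N then some (.H q b, 3 * (N / 2)) else
        match (P q).tgt b with
        | none => none
        | some q' => some (.G q', 2 ^ dig q b * N)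
  | (.G q, N) =>
    if N = 0 then none else
      if 3 ∣ N then some (.G q, 2 ^ bs M * (N / 3)) else some (.R q, N)

/-- backward map -/
def bwd [NeZero M] (P : Fin M → PI (Fin M)) : Ctrl M × ℕ → Option (Ctrl M × ℕ)
  | (.I, _) => none
  | (.R q, N) => if N = 0 ∨ 3 ∣ N then none else some (.G q, N)
  | (.H q b, N) =>
    if N = 0 then none else
      if 3 ∣ N then some (.H q b, 2 * (N / 3)) else
        match P q, b with
        | .go _, false => some (.R q, 5 * N)
        | .inc p _, false => if p ∣ N then some (.R q, 5 * (N / p)) else none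
        | .dec p _ _, true => some (.R q, 5 * (p * N))
        | .dec p _ _, false => if p ∣ N then none else some (.R q, 5 * N)
        | _, _ => none
  | (.G q, N) =>
    if N = 0 then none else
      if 2 ^ bs M ∣ N then some (.G q, 3 * (N / 2 ^ bs M)) else
        if 2 ∣ N then
          match udig (M := M) (N.factorization 2) with
          | none => none
          | some (q0, b) =>
            if (P q0).tgt b = some q then some (.H q0 b, N / 2 ^ N.factorization 2) else none
        else if q = 0 ∧ ¬ 3 ∣ N then some (.I, N) else none

/-- the fuel is out -/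
def fo (P : Fin M → PI (Fin M)) : Ctrl M × ℕ → Bool
  | (.R q, N) => decide (N ≠ 0 ∧ ¬ 3 ∣ N ∧ ¬ 5 ∣ N) && !(P q).isH
  | _ => false

/-- refuelling -/
def ioF : Ctrl M × ℕ → Option (Ctrl M × ℕ)
  | (.I, N) => if N ≠ 0 ∧ ¬ 2 ∣ N ∧ ¬ 3 ∣ N then some (.I, 5 * N) else none
  | _ => none

/-- inverse of refuelling -/
def ioB : Ctrl M × ℕ → Option (Ctrl M × ℕ)
  | (.I, N) => if N ≠ 0 ∧ ¬ 2 ∣ N ∧ ¬ 3 ∣ N ∧ 5 ∣ N then some (.I, N / 5) else none
  | _ => none

end

/-! ## Coding by natural numbers -/

/-- signed configurations -/
abbrev Cf (M : ℕ) : Type := ((Ctrl M × ℕ) × Bool) × Bool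

/-- the number of signed states -/
def sz (M : ℕ) : ℕ := Fintype.card (Ctrl M × Bool × Bool)

/-- numbering of the signed states -/
noncomputable def num (M : ℕ) : Ctrl M × Bool × Bool ≃ Fin (sz M) := Fintype.equivFin _

theorem sz_pos (M : ℕ) : 0 < sz M := by
  unfold sz
  exact Fintype.card_pos_iff.2 ⟨(.I, true, true)⟩

/-- the code of a signed configuration (with positive number) -/
noncomputable def enc {M : ℕ} (x : Cf M) : ℕ := sz M * (x.1.1.2 - 1) + (num M (x.1.1.1, x.1.2, x.2) : ℕ)

/-- the signed state of a code -/
noncomputable def sst (M n : ℕ) : Ctrl M × Bool × Bool := (num M).symm ⟨n % sz M, Nat.mod_lt _ (sz_pos M)⟩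

/-- the configuration of a code -/
noncomputable def dcd (M n : ℕ) : Cf M := ((((sst M n).1, n / sz M + 1), (sst M n).2.1), (sst M n).2.2)

end CPM
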