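import Pool.Agent.Lib.CPM.CoreA

/-!
# Module FinalA
-/

set_option autoImplicit false

namespace CPM

/-- Congruence permutations with all orbits finite. -/
theorem finalA (R : ℕ → ℕ → Prop) (hR : REPred fun p : ℕ × ℕ => R p.1 p.2) :
    ∃ L : ℕ → List (ℕ × ℕ), Computable L ∧
      ∀ x, IsPerm (L x) ∧ ((∀ y, R x y) ↔ ∀ n, 0 < n → FinOrb (L x) n) := by
  obtain ⟨m, F, hm, hF, h⟩ := coreA R hR
  refine ⟨fun x => tab (m x) (F x), tab_computable hm hF, fun x => ?_⟩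
  obtain ⟨h1, h2, h3, h4⟩ := h x
  refine ⟨isPerm_tab h1 h2 h3, h4.trans ⟨fun h5 n hn => ?_, fun h5 n => ?_⟩⟩
  · obtain ⟨k, rfl⟩ : ∃ k, n = k + 1 := ⟨n - 1, by omega⟩
    exact (finOrb_tab h1 h2 k).2 (h5 k)
  · exact (finOrb_tab h1 h2 n).1 (h5 (n + 1) (Nat.succ_pos n))

end CPM
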