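import Pool.Agent.Lib.CPM.CoreA2

/-!
# Module FinalA2: none or infinitely many infinite orbits, tables
-/

set_option autoImplicit false

namespace CPM

/-- Congruence permutations of the positive integers with no or with infinitely many infinite orbits. -/
theorem finalA2 (R : ℕ → ℕ → Prop) (hR : REPred fun p : ℕ × ℕ => R p.1 p.2) :
    ∃ L : ℕ → List (ℕ × ℕ), Computable L ∧
      ∀ x, IsPerm (L x) ∧
        ((∀ y, R x y) → ∀ n, 0 < n → FinOrb (L x) n) ∧
        ((¬ ∀ y, R x y) → ∃ s : ℕ → ℕ, (∀ i, 0 < s i) ∧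
          ∀ i j k, (cmap (L x))^[k] (s i) = s j → k = 0 ∧ i = j) := by
  obtain ⟨m, F, hm, hF, h⟩ := coreA2 R hR
  refine ⟨fun x => tab (m x) (F x), tab_computable hm hF, fun x => ?_⟩
  obtain ⟨h1, h2, h3, h4, h5⟩ := h x
  refine ⟨isPerm_tab h1 h2 h3, ?_, ?_⟩
  · intro hx n hn
    obtain ⟨n', rfl⟩ : ∃ n', n = n' + 1 := ⟨n - 1, by omega⟩
    exact (finOrb_tab h1 h2 n').2 (h4 hx n')
  · intro hx
    obtain ⟨s, hs⟩ := h5 hx
    refine ⟨fun i => s i + 1, fun i => Nat.succ_pos _, fun i j k hk => hs i j k ?_⟩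
    rw [iterate_tab h1 h2] at hk
    exact Nat.succ_injective hk

end CPM
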