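import Pool.Agent.Lib.CPM.Defs

/-!
# Module NearSeg: a segment of an orbit

Let `a` be the least `a ≥ 0` with `G^[a] p ∉ F`, and `b` the least `b ≥ 1` such that the element `q` with `G^[b] q = p` is not
in `F` (both exist: if all `G^[n] p` are in the finite set `F`, then `p` is periodic and its whole orbit is in `F`, but `u` is
not; similarly backwards).  `z0` is this `q`, `ℓ = a + b`, `i = b`.  Distinctness: if `G^[j] z0 = G^[k] z0`, `j < k ≤ ℓ`, the orbit is
`{G^[l] z0 : j ≤ l < k}`, which has at most one element outside `F` (only `l = 0` is possible), but `u ≠ v` are two.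
-/

set_option autoImplicit false

namespace CPM

/-- a periodic orbit is forward invariant: every point connected to `p` is some forward iterate -/
theorem per_orb {G : ℕ → ℕ} (hG : Function.Injective G) {p u : ℕ} {n : ℕ} (hn : 0 < n) (hp : G^[n] p = p)
    (h : ∃ i, G^[i] p = u ∨ G^[i] u = p) : ∃ i < n, G^[i] p = u := by
  obtain ⟨i, h | h⟩ := h
  · refine ⟨i % n, Nat.mod_lt _ hn, ?_⟩
    rw [← h]
    exact Function.IsPeriodicPt.iterate_mod_apply hp i
  · have h1 : ∃ j, G^[j] p = u := by
      refine ⟨n * i - i, ?_⟩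
      apply hG.iterate i
      rw [← Function.iterate_add_apply, h, Nat.add_sub_cancel' (Nat.le_mul_of_pos_left _ hn)]
      exact (Function.IsPeriodicPt.mul_const hp i)
    obtain ⟨j, h1⟩ := h1
    refine ⟨j % n, Nat.mod_lt _ hn, ?_⟩
    rw [← h1]
    exact Function.IsPeriodicPt.iterate_mod_apply hp j

/-- if the forward orbit is in a finite set, the point is periodic -/
theorem per_of_fin {G : ℕ → ℕ} (hG : Function.Injective G) (F : Finset ℕ) (p : ℕ) (h : ∀ n, G^[n] p ∈ F) :
    ∃ n, 0 < n ∧ G^[n] p = p := by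
  obtain ⟨a, b, hne, he⟩ := Finite.exists_ne_map_eq_of_infinite fun a : ℕ => (⟨G^[a] p, h a⟩ : F)
  have he' : G^[a] p = G^[b] p := congrArg Subtype.val he
  rcases lt_or_gt_of_ne hne with hab | hab
  · refine ⟨b - a, by omega, ?_⟩
    apply hG.iterate a
    rw [← Function.iterate_add_apply, Nat.add_sub_cancel' hab.le, he']
  · refine ⟨a - b, by omega, ?_⟩
    apply hG.iterate b
    rw [← Function.iterate_add_apply, Nat.add_sub_cancel' hab.le, he']

/-- an orbit with two points outside the finite set `F` has a segment with ends outside `F` through each point -/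
theorem exists_seg (G : ℕ → ℕ) (hG : Function.Bijective G) (F : Finset ℕ) (p u v : ℕ) (huv : u ≠ v) (hu : u ∉ F)
    (hv : v ∉ F) (hpu : ∃ i, G^[i] p = u ∨ G^[i] u = p) (hpv : ∃ i, G^[i] p = v ∨ G^[i] v = p) :
    ∃ z0 ℓ i, 1 ≤ i ∧ i ≤ ℓ ∧ G^[i] z0 = p ∧ z0 ∉ F ∧ G^[ℓ] z0 ∉ F ∧
      ∀ j k, j < k → k ≤ ℓ → G^[j] z0 ≠ G^[k] z0 := by
  classical
  obtain ⟨H, hGH, hHG⟩ : ∃ H : ℕ → ℕ, (∀ x, G (H x) = x) ∧ ∀ x, H (G x) = x :=
    ⟨(Equiv.ofBijective G hG).symm, (Equiv.ofBijective G hG).apply_symm_apply,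
      (Equiv.ofBijective G hG).symm_apply_apply⟩
  have hHi : Function.Injective H := fun x y h => by rw [← hGH x, ← hGH y, h]
  have hGHn : ∀ n x, G^[n] (H^[n] x) = x := fun n x => Function.LeftInverse.iterate hGH n x
  have hHGn : ∀ n x, H^[n] (G^[n] x) = x := fun n x => Function.LeftInverse.iterate hHG n x
  have ha : ∃ a, G^[a] p ∉ F := by
    by_contra hc
    have hc' : ∀ n, G^[n] p ∈ F := fun n => by
      by_contra h
      exact hc ⟨n, h⟩
    obtain ⟨n, hn, hp⟩ := per_of_fin hG.1 F p hc'
    obtain ⟨i, _, hi⟩ := per_orb hG.1 hn hp hpu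
    exact hu (hi ▸ hc' i)
  have hb : ∃ b, H^[b + 1] p ∉ F := by
    by_contra hc
    have hc' : ∀ n, H^[n] (H p) ∈ F := fun n => by
      by_contra h
      exact hc ⟨n, h⟩
    obtain ⟨n, hn, hp⟩ := per_of_fin hHi F (H p) hc'
    have hp' : G^[n] p = p := by
      have h1 : H^[n] p = p := by
        apply hHi
        rw [← Function.iterate_succ_apply' H n p]
        exact hp
      have h2 := hGHn n p
      rwa [h1] at h2
    obtain ⟨i, hi, hi'⟩ := per_orb hG.1 hn hp' hpu
    apply hu
    have h3 : H^[n - i] p = u := by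
      have h4 : G^[n - i] u = p := by
        rw [← hi', ← Function.iterate_add_apply, Nat.sub_add_cancel hi.le, hp']
      rw [← h4, hHGn]
    rw [← h3]
    have e : n - i = (n - i - 1) + 1 := by omega
    rw [e]
    exact hc' _
  obtain ⟨a, ha1, ha2⟩ : ∃ a, G^[a] p ∉ F ∧ ∀ m < a, G^[m] p ∈ F :=
    ⟨Nat.find ha, Nat.find_spec ha, fun m hm => by
      by_contra h
      exact Nat.find_min ha hm h⟩
  obtain ⟨b, hb1, hb2⟩ : ∃ b, H^[b + 1] p ∉ F ∧ ∀ m < b, H^[m + 1] p ∈ F :=
    ⟨Nat.find hb, Nat.find_spec hb, fun m hm => by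
      by_contra h
      exact Nat.find_min hb hm h⟩
  have hz0 : G^[b + 1] (H^[b + 1] p) = p := hGHn _ _
  refine ⟨H^[b + 1] p, a + (b + 1), b + 1, by omega, by omega, hz0, hb1, ?_, ?_⟩
  · rw [Function.iterate_add_apply, hz0]
    exact ha1
  · intro j k hjk hk he
    have hd : G^[k - j] (H^[b + 1] p) = H^[b + 1] p := by
      apply hG.1.iterate j
      rw [← Function.iterate_add_apply, Nat.add_sub_cancel' hjk.le, ← he]
    have hd0 : 0 < k - j := by omega
    have hdp : G^[k - j] p = p := by
      have h1 : G^[k - j] (G^[b + 1] (H^[b + 1] p)) = G^[b + 1] (H^[b + 1] p) := by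
        rw [← Function.iterate_add_apply, Nat.add_comm, Function.iterate_add_apply, hd]
      rwa [hz0] at h1
    have key : ∀ x, x ∉ F → (∃ i, G^[i] p = x ∨ G^[i] x = p) → x = H^[b + 1] p := by
      intro x hx hpx
      obtain ⟨i, _, hi⟩ := per_orb hG.1 hd0 hdp hpx
      have h1 : G^[(i + (b + 1)) % (k - j)] (H^[b + 1] p) = x := by
        rw [← hi]
        have h2 : G^[(i + (b + 1)) % (k - j)] (H^[b + 1] p) = G^[i + (b + 1)] (H^[b + 1] p) :=
          Function.IsPeriodicPt.iterate_mod_apply hd _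
        rw [h2, Function.iterate_add_apply, hz0]
      have h3 : (i + (b + 1)) % (k - j) < k - j := Nat.mod_lt _ hd0
      generalize (i + (b + 1)) % (k - j) = r at h1 h3
      rcases Nat.eq_zero_or_pos r with h0 | h0
      · rw [← h1, h0]
        rfl
      · exfalso
        apply hx
        rw [← h1]
        rcases Nat.lt_or_ge r (b + 1) with hr | hr
        · have e : H^[b + 1] p = H^[r] (H^[b + 1 - r] p) := by
            rw [← Function.iterate_add_apply, Nat.add_sub_cancel' hr.le]
          rw [e, hGHn]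
          have e2 : b + 1 - r = (b - r) + 1 := by omega
          rw [e2]
          exact hb2 _ (by omega)
        · have e : r = (r - (b + 1)) + (b + 1) := by omega
          rw [e, Function.iterate_add_apply, hz0]
          exact ha2 _ (by omega)
    exact huv ((key u hu hpu).trans (key v hv hpv).symm)

end CPM
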