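import Pool.Agent.Lib.CPM.Near

/-!
# Module NearTD: existence of the data

`w'` is chosen with `w' > 0`, `w' ∉ S`, `G w' ∉ S`, `S = {G^[i] z0 : i ≤ ℓ} ∪ F` (all but finitely many numbers), `w = G w'`;
`c` larger than everything and `≥ K`; `D 0 = c * mG ^ ℓ`, `D i = G^[i] (z0 + D 0) - G^[i] z0`, which is
`c * (G^[i] (z0 + mG ^ ℓ) - G^[i] z0)` since `G^[i]` is affine modulo `mG ^ i`, hence modulo `mG ^ ℓ`, and positive by injectivity;
`Q' = c * mG`, `Q = G (w' + Q') - G w' = c * (G (w' + mG) - G w')`.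
-/

set_option autoImplicit false

namespace CPM

/-- the point `w'` -/
theorem exists_w' (G : ℕ → ℕ) (hG : Function.Bijective G) (S : Finset ℕ) :
    ∃ w', 0 < w' ∧ w' ∉ S ∧ G w' ∉ S := by
  classical
  have h1 : Set.Finite (G ⁻¹' (S : Set ℕ)) := S.finite_toSet.preimage hG.1.injOn
  have h2 : Set.Finite (({0} : Set ℕ) ∪ (S : Set ℕ) ∪ G ⁻¹' (S : Set ℕ)) :=
    ((Set.finite_singleton 0).union S.finite_toSet).union h1
  obtain ⟨w', hw⟩ := h2.infinite_compl.nonempty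
  refine ⟨w', ?_, ?_, ?_⟩
  · rcases Nat.eq_zero_or_pos w' with h | h
    · exact absurd (Or.inl (Or.inl h)) hw
    · exact h
  · intro h
    exact hw (Or.inl (Or.inr h))
  · intro h
    exact hw (Or.inr h)

/-- existence of the data: `z i = G^[i] z0` -/
theorem exists_TD (G : ℕ → ℕ) (hG : Function.Bijective G) (mG : ℕ) (hm : 0 < mG) (hA : IsAff mG G)
    (hfix : ∀ n, 0 < n → G n ≠ n) (z0 ℓ : ℕ) (hl : 1 ≤ ℓ)
    (hz : ∀ i j, i < j → j ≤ ℓ → G^[i] z0 ≠ G^[j] z0) (F : Finset ℕ) (hF0 : z0 ∉ F) (hFl : G^[ℓ] z0 ∉ F) (K : ℕ) :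
    ∃ t : TD G, t.ℓ = ℓ ∧ K ≤ t.c ∧ (∀ i ≤ ℓ, t.z i = G^[i] z0) ∧
      ∀ n ∈ F, n % t.c ≠ t.z 0 ∧ n % t.c ≠ t.z t.ℓ ∧ n % t.c ≠ t.w ∧ n % t.c ≠ t.w' := by
  classical
  obtain ⟨w', hw0, hwS, hwG⟩ :=
    exists_w' G hG ((Finset.range (ℓ + 1)).image (fun i => G^[i] z0) ∪ F)
  have hzS : ∀ i ≤ ℓ, G^[i] z0 ∈ (Finset.range (ℓ + 1)).image (fun i => G^[i] z0) ∪ F := fun i hi =>
    Finset.mem_union_left _ (Finset.mem_image.2 ⟨i, Finset.mem_range.2 (by omega), rfl⟩)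
  have hFS : ∀ n ∈ F, n ∈ (Finset.range (ℓ + 1)).image (fun i => G^[i] z0) ∪ F := fun n hn =>
    Finset.mem_union_right _ hn
  generalize (Finset.range (ℓ + 1)).image (fun i => G^[i] z0) ∪ F = S at hwS hwG hzS hFS
  obtain ⟨c, hcK, hcw, hcw', hcS⟩ : ∃ c, K ≤ c ∧ G w' < c ∧ w' < c ∧ ∀ n ∈ S, n < c := by
    refine ⟨K + G w' + w' + S.sup id + 1, by omega, by omega, by omega, fun n hn => ?_⟩
    have h : n ≤ S.sup id := Finset.le_sup (f := id) hn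
    omega
  have hc0 : 0 < c := by omega
  have hA0 : 0 < mG ^ ℓ := pow_pos hm ℓ
  have haff : ∀ i ≤ ℓ, IsAff (mG ^ ℓ) (G^[i]) := fun i hi =>
    (hA.iterate i).dvd (pow_dvd_pow mG hi)
  have hpos : ∀ i ≤ ℓ, 0 < G^[i] (z0 + mG ^ ℓ) - G^[i] z0 := by
    intro i hi
    have h1 := (haff i hi z0).1
    have h2 : G^[i] (z0 + mG ^ ℓ) ≠ G^[i] z0 := by
      intro h
      have := hG.1.iterate i h
      omega
    omega
  have hz1 : ∀ i ≤ ℓ, ∀ k, G^[i] z0 + c * (G^[i] (z0 + mG ^ ℓ) - G^[i] z0) * k =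
      G^[i] (z0 + mG ^ ℓ * (c * k)) := by
    intro i hi k
    rw [(haff i hi).add_mul]
    ring
  refine ⟨{
    ℓ := ℓ
    c := c
    z := fun i => G^[i] z0
    D := fun i => c * (G^[i] (z0 + mG ^ ℓ) - G^[i] z0)
    w := G w'
    Q := c * (G (w' + mG) - G w')
    w' := w'
    Q' := c * mG
    hl := hl
    zc := fun i hi => hcS _ (hzS i hi)
    wc := hcw
    wc' := hcw'
    zz := hz
    zw := fun i hi => ⟨fun h => hwG (h ▸ hzS i hi), fun h => hwS (h ▸ hzS i hi)⟩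
    ww := hfix w' hw0
    Dc := fun i hi => ⟨Nat.mul_pos hc0 (hpos i hi), Dvd.intro _ rfl⟩
    Qc := ⟨Nat.mul_pos hc0 ?_, Dvd.intro _ rfl⟩
    Qc' := ⟨Nat.mul_pos hc0 hm, Dvd.intro _ rfl⟩
    Gz := ?_
    Gw := ?_ }, rfl, hcK, fun i _ => rfl, ?_⟩
  · have h1 := (hA w').1
    have h2 : G (w' + mG) ≠ G w' := by
      intro h
      have := hG.1 h
      omega
    omega
  · intro i hi k
    show G (G^[i] z0 + c * (G^[i] (z0 + mG ^ ℓ) - G^[i] z0) * k) = _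
    rw [hz1 i hi.le k, ← Function.iterate_succ_apply' G i]
    exact (hz1 (i + 1) hi k).symm
  · intro k
    have e : w' + c * mG * k = w' + mG * (c * k) := by ring
    rw [e, hA.add_mul]
    ring
  · intro n hn
    have h1 : n % c = n := Nat.mod_eq_of_lt (hcS n (hFS n hn))
    show n % c ≠ G^[0] z0 ∧ n % c ≠ G^[ℓ] z0 ∧ n % c ≠ G w' ∧ n % c ≠ w'
    rw [h1]
    refine ⟨?_, ?_, ?_, ?_⟩
    · rintro rfl
      exact hF0 hn
    · rintro rfl
      exact hFl hn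
    · rintro rfl
      exact hwG (hFS _ hn)
    · rintro rfl
      exact hwS (hFS _ hn)

end CPM
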