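import Pool.Agent.Lib.CPM.CoreB
import Pool.Agent.Lib.CPM.NearTD
import Pool.Agent.Lib.CPM.NearSeg

/-!
# Module FinalB: near Conway's permutation

`conway` is the table of Conway's `g`; zero based: `gz n = cmap conway (n + 1) - 1`, which is `3 k, 6 k + 2, 3 k + 1, 6 k + 5` for
`n = 4 k, 4 k + 1, 4 k + 2, 4 k + 3`: bijective, affine modulo 4, without fixed points except 0.
Take the segment of `exists_seg` through `7` (that is 8), the data of `exists_TD`, `E x = s x + 1`, `H x = hx (E x) (s x)`,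
`mm x = D ℓ * E * (Q * E) * m'`.
-/

set_option autoImplicit false

namespace CPM

/-- Conway's permutation: `2m ↦ 3m`, `4m - 1 ↦ 3m - 1`, `4m + 1 ↦ 3m + 1` -/
def conway : List (ℕ × ℕ) := [(3, 1), (6, 3), (3, 2), (6, 6)]

theorem conway_eq (n : ℕ) (hn : 0 < n) : cmap conway n = if n % 2 = 0 then 3 * (n / 2) else (3 * n + 1) / 4 := by
  have hlt : (n - 1) % 4 < 4 := Nat.mod_lt _ (by norm_num)
  have hl : conway.length = 4 := rfl
  unfold cmap
  rw [hl]
  have h0 := Nat.div_add_mod (n - 1) 4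
  generalize (n - 1) / 4 = k at h0
  generalize hr : (n - 1) % 4 = r at h0 hlt
  interval_cases r
  · show 3 * k + 1 = _
    rw [if_neg (by omega)]
    omega
  · show 6 * k + 3 = _
    rw [if_pos (by omega)]
    omega
  · show 3 * k + 2 = _
    rw [if_neg (by omega)]
    omega
  · show 6 * k + 6 = _
    rw [if_pos (by omega)]
    omega

/-- zero based -/
def gz (n : ℕ) : ℕ := cmap conway (n + 1) - 1

theorem gz_eq (n : ℕ) : gz n = if n % 4 = 0 then 3 * (n / 4) else if n % 4 = 1 then 6 * (n / 4) + 2 else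
    if n % 4 = 2 then 3 * (n / 4) + 1 else 6 * (n / 4) + 5 := by
  unfold gz
  rw [conway_eq _ (Nat.succ_pos n)]
  split_ifs <;> omega

theorem gz_succ (n : ℕ) : gz n + 1 = cmap conway (n + 1) := by
  rw [gz_eq, conway_eq _ (Nat.succ_pos n)]
  split_ifs <;> omega

theorem gz_bij : Function.Bijective gz := by
  constructor
  · intro a b hab
    rw [gz_eq, gz_eq] at hab
    split_ifs at hab <;> omega
  · intro y
    by_cases h0 : y % 3 = 0
    · refine ⟨4 * (y / 3), ?_⟩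
      rw [gz_eq]
      split_ifs <;> omega
    · by_cases h1 : y % 3 = 1
      · refine ⟨4 * (y / 3) + 2, ?_⟩
        rw [gz_eq]
        split_ifs <;> omega
      · by_cases h2 : y % 6 = 2
        · refine ⟨4 * (y / 6) + 1, ?_⟩
          rw [gz_eq]
          split_ifs <;> omega
        · refine ⟨4 * (y / 6) + 3, ?_⟩
          rw [gz_eq]
          split_ifs <;> omega

theorem gz_aff : IsAff 4 gz := by
  intro n
  rw [gz_eq, gz_eq, gz_eq]
  constructor
  · split_ifs <;> omega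
  · split_ifs <;> omega

theorem gz_ne (n : ℕ) (hn : 0 < n) : gz n ≠ n := by
  rw [gz_eq]
  split_ifs <;> omega

theorem gz_iterate (n k : ℕ) : gz^[k] n + 1 = (cmap conway)^[k] (n + 1) := by
  induction k generalizing n with
  | zero => rfl
  | succ k ih =>
    rw [Function.iterate_succ_apply, Function.iterate_succ_apply, ih, gz_succ]

theorem ct_computable {r1 m1 r2 m2 : ℕ → ℕ} (h1 : Primrec r1) (h2 : Primrec m1) (h3 : Primrec r2)
    (h4 : Primrec m2) : Primrec fun p : ℕ × ℕ => ct (r1 p.1) (m1 p.1) (r2 p.1) (m2 p.1) p.2 := by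
  have g1 : Primrec fun p : ℕ × ℕ => r1 p.1 := h1.comp Primrec.fst
  have g2 : Primrec fun p : ℕ × ℕ => m1 p.1 := h2.comp Primrec.fst
  have g3 : Primrec fun p : ℕ × ℕ => r2 p.1 := h3.comp Primrec.fst
  have g4 : Primrec fun p : ℕ × ℕ => m2 p.1 := h4.comp Primrec.fst
  have e1 : Primrec fun p : ℕ × ℕ => p.2 % m1 p.1 := Primrec.nat_mod.comp Primrec.snd g2
  have e2 : Primrec fun p : ℕ × ℕ => p.2 % m2 p.1 := Primrec.nat_mod.comp Primrec.snd g4
  have f1 : Primrec fun p : ℕ × ℕ => r2 p.1 + m2 p.1 * (p.2 / m1 p.1) :=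
    Primrec.nat_add.comp g3 (Primrec.nat_mul.comp g4 (Primrec.nat_div.comp Primrec.snd g2))
  have f2 : Primrec fun p : ℕ × ℕ => r1 p.1 + m1 p.1 * (p.2 / m2 p.1) :=
    Primrec.nat_add.comp g1 (Primrec.nat_mul.comp g2 (Primrec.nat_div.comp Primrec.snd g4))
  exact Primrec.ite (Primrec.eq.comp e1 g1) f1
    (Primrec.ite (Primrec.eq.comp e2 g3) f2 Primrec.snd)

/-- Orbits of 8 arbitrarily near Conway's permutation. -/
theorem finalB (A : ℕ → Prop) (hA : REPred A) (F : Finset ℕ) (u v : ℕ) (huv : u ≠ v) (hu0 : 0 < u) (hv0 : 0 < v)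
    (hu : u ∉ F) (hv : v ∉ F)
    (hou : ∃ i, (cmap conway)^[i] 8 = u ∨ (cmap conway)^[i] u = 8)
    (hov : ∃ i, (cmap conway)^[i] 8 = v ∨ (cmap conway)^[i] v = 8) (K : ℕ) :
    ∃ (c : ℕ) (E : Finset ℕ) (L : ℕ → List (ℕ × ℕ)), K ≤ c ∧ E.card ≤ 4 ∧ Computable L ∧
      ∀ x, IsPerm (L x) ∧ (∀ n ∈ F, 0 < n → cmap (L x) n = cmap conway n) ∧
        (∀ n, 0 < n → n % c ∉ E → cmap (L x) n = cmap conway n) ∧ (A x ↔ FinOrb (L x) 8) := by
  classical
  -- zero based data
  have hmem : ∀ w, 0 < w → w ∉ F → w - 1 ∉ (F.filter (fun n => 0 < n)).image (fun n => n - 1) := by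
    intro w hw hwF h
    obtain ⟨n, hn, hnw⟩ := Finset.mem_image.1 h
    obtain ⟨hnF, hn0⟩ := Finset.mem_filter.1 hn
    have : n = w := by omega
    exact hwF (this ▸ hnF)
  have horb : ∀ w, 0 < w → (∃ i, (cmap conway)^[i] 8 = w ∨ (cmap conway)^[i] w = 8) →
      ∃ i, gz^[i] 7 = w - 1 ∨ gz^[i] (w - 1) = 7 := by
    rintro w hw ⟨i, h | h⟩
    · refine ⟨i, Or.inl ?_⟩
      have h1 := gz_iterate 7 i
      have h2 : (cmap conway)^[i] (7 + 1) = w := h
      omega
    · refine ⟨i, Or.inr ?_⟩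
      have h1 := gz_iterate (w - 1) i
      have e : w - 1 + 1 = w := by omega
      rw [e, h] at h1
      omega
  obtain ⟨z0, ℓ, i, hi1, hil, hz7, hz0F, hzlF, hdist⟩ := exists_seg gz gz_bij
    ((F.filter (fun n => 0 < n)).image (fun n => n - 1)) 7 (u - 1) (v - 1) (by omega)
    (hmem u hu0 hu) (hmem v hv0 hv) (horb u hu0 hou) (horb v hv0 hov)
  obtain ⟨t, htl, htK, htz, htF⟩ := exists_TD gz gz_bij 4 (by norm_num) gz_aff gz_ne z0 ℓ (by omega)
    hdist _ hz0F hzlF K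
  obtain ⟨m, μ, s, hm, hμ, hμb, hs, hiff⟩ := coreB A hA
  obtain ⟨m', hm'0, hm'⟩ := t.base_aff μ (by norm_num) gz_aff hm hμ
  have hlt : ∀ x, s x < s x + 1 := fun x => Nat.lt_succ_self _
  set mm : ℕ → ℕ := fun x => t.D t.ℓ * (s x + 1) * (t.Q * (s x + 1)) * m' with hmm
  set H : ℕ → ℕ → ℕ := fun x => t.hx μ (s x + 1) (s x) with hH
  have haff : ∀ x, IsAff (mm x) (H x) := fun x => t.hx_aff μ hm' (s x + 1) (s x) (hlt x)
  have hbij : ∀ x, Function.Bijective (H x) := fun x =>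
    t.hx_bij μ gz_bij hμb (s x + 1) (s x) (hlt x)
  have hmm0 : ∀ x, 0 < mm x := fun x =>
    Nat.mul_pos (Nat.mul_pos (Nat.mul_pos (t.Dc t.ℓ le_rfl).1 (Nat.succ_pos _))
      (Nat.mul_pos t.Qc.1 (Nat.succ_pos _))) hm'0
  -- primitive recursive data
  have hE : Primrec fun x => s x + 1 := Primrec.succ.comp hs
  have hDE : Primrec fun x => t.D t.ℓ * (s x + 1) := Primrec.nat_mul.comp (Primrec.const _) hE
  have hQE : Primrec fun x => t.Q * (s x + 1) := Primrec.nat_mul.comp (Primrec.const _) hE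
  have hws : Primrec fun x => t.w + t.Q * s x :=
    Primrec.nat_add.comp (Primrec.const _) (Primrec.nat_mul.comp (Primrec.const _) hs)
  have hmmp : Primrec mm := Primrec.nat_mul.comp (Primrec.nat_mul.comp hDE hQE) (Primrec.const _)
  have hHp : Primrec₂ H := by
    have h1 : Primrec (t.base μ) := hm'.primrec hm'0
    have h2 : Primrec fun p : ℕ × ℕ =>
        ct (t.z t.ℓ) (t.D t.ℓ * (s p.1 + 1)) (t.w + t.Q * s p.1) (t.Q * (s p.1 + 1)) p.2 :=
      ct_computable (r1 := fun _ => t.z t.ℓ) (m1 := fun x => t.D t.ℓ * (s x + 1))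
        (r2 := fun x => t.w + t.Q * s x) (m2 := fun x => t.Q * (s x + 1))
        (Primrec.const _) hDE hws hQE
    exact h1.comp h2
  refine ⟨t.c, {(t.z 0 + 1) % t.c, (t.z t.ℓ + 1) % t.c, (t.w + 1) % t.c, (t.w' + 1) % t.c},
    fun x => tab (mm x) (H x), htK, Finset.card_le_four, tab_computable hmmp.to_comp hHp.to_comp,
    fun x => ⟨isPerm_tab (hmm0 x) (haff x) (hbij x), ?_, ?_, ?_⟩⟩
  · intro n hn hn0
    obtain ⟨h0, hl, hw, hw'⟩ := htF (n - 1) (Finset.mem_image.2 ⟨n, Finset.mem_filter.2 ⟨hn, hn0⟩, rfl⟩)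
    rw [cmap_tab (hmm0 x) (haff x) n hn0]
    show t.hx μ (s x + 1) (s x) (n - 1) + 1 = _
    rw [t.hx_eq μ _ _ _ (hlt x) h0 hl hw hw', gz_succ]
    congr 1
    omega
  · intro n hn0 hn
    have hres : ∀ r, (n - 1) % t.c = r → n % t.c = (r + 1) % t.c := by
      rintro r rfl
      rw [Nat.mod_add_mod]
      congr 1
      omega
    simp only [Finset.mem_insert, Finset.mem_singleton, not_or] at hn
    obtain ⟨n1, n2, n3, n4⟩ := hn
    rw [cmap_tab (hmm0 x) (haff x) n hn0]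
    show t.hx μ (s x + 1) (s x) (n - 1) + 1 = _
    rw [t.hx_eq μ _ _ _ (hlt x) (fun h => n1 (hres _ h)) (fun h => n2 (hres _ h))
      (fun h => n3 (hres _ h)) (fun h => n4 (hres _ h)), gz_succ]
    congr 1
    omega
  · have h7 : t.z i = 7 := by rw [htz i hil, hz7]
    have h1 := t.hx_orb μ gz_bij hμb (s x + 1) (s x) (hlt x) i hi1 (by omega)
    rw [h7] at h1
    rw [hiff x, ← h1]
    exact (finOrb_tab (hmm0 x) (haff x) 7).symm

end CPM
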