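import Mathlib

/-!
# Module Loop: LOOP programs compute all primitive recursive functions

Clear `r`: `loop r nop`.  Copy `r` to `s` with the scratch register `t`: clear `s`, clear `t`, `loop r (inc s; inc t)`,
`loop t (inc r)`; it keeps `r`, and puts `t = 0`.
`exists_lp` by induction on `Nat.Primrec'`:
* zero: clear `z`; succ: copy the input to `z` (scratch `w`), inc `z`; get: copy;
* comp: for `j < n` compute `g_j` in the register `w + j` (all with scratch registers `≥ w + n`; use an induction over the
  finite family, for example a list fold), then `f` on the registers `w + j`;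
* prec (arguments `i 0 :: i'`): `c = w` loop counter := copy of `i 0`; `y = w + 1` := 0; `acc = w + 2` := `f (i')`;
  `loop c (tmp = w + 3 := g (y, acc, i'); acc := tmp; inc y)`; `z := acc`; scratch registers `≥ w + 4`.
-/

set_option autoImplicit false

namespace CPM

/-- LOOP programs; `loop r a`: while register `r` is positive, decrease it by one and execute `a` -/
inductive LP where
  | nop
  | inc (r : ℕ)
  | seq (a b : LP)
  | loop (r : ℕ) (a : LP)

/-- the registers used -/
def LP.regs : LP → Finset ℕ
  | .nop => ∅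
  | .inc r => {r}
  | .seq a b => a.regs ∪ b.regs
  | .loop r a => insert r a.regs

/-- the body of a loop does not use its register -/
def LP.ok : LP → Prop
  | .nop => True
  | .inc _ => True
  | .seq a b => a.ok ∧ b.ok
  | .loop r a => r ∉ a.regs ∧ a.ok

/-- semantics -/
def LP.ev : LP → (ℕ → ℕ) → ℕ → ℕ
  | .nop, σ => σ
  | .inc r, σ => Function.update σ r (σ r + 1)
  | .seq a b, σ => b.ev (a.ev σ)
  | .loop r a, σ => (fun τ => a.ev (Function.update τ r (τ r - 1)))^[σ r] σ

/-- invariants of a loop -/
theorem LP.loop_ind (r : ℕ) (a : LP) (σ : ℕ → ℕ) (I : ℕ → (ℕ → ℕ) → Prop) (h0 : I 0 σ)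
    (hs : ∀ k τ, k < σ r → I k τ → I (k + 1) (a.ev (Function.update τ r (τ r - 1)))) :
    I (σ r) ((LP.loop r a).ev σ) := by
  have key : ∀ k, k ≤ σ r → I k ((fun τ => a.ev (Function.update τ r (τ r - 1)))^[k] σ) := by
    intro k
    induction k with
    | zero => intro _; simpa using h0
    | succ k ih =>
      intro hk
      rw [Function.iterate_succ_apply']
      exact hs k _ (by omega) (ih (by omega))
  exact key _ le_rfl

theorem LP.ev_notMem (a : LP) (σ : ℕ → ℕ) (r : ℕ) (h : r ∉ a.regs) : a.ev σ r = σ r := by
  induction a generalizing σ with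
  | nop => rfl
  | inc s =>
    have : r ≠ s := by simpa [LP.regs] using h
    simp [LP.ev, Function.update_of_ne this]
  | seq a b iha ihb =>
    have h' : r ∉ a.regs ∧ r ∉ b.regs := by simpa [LP.regs] using h
    simp only [LP.ev]
    rw [ihb _ h'.2, iha _ h'.1]
  | loop s a ih =>
    have h' : r ≠ s ∧ r ∉ a.regs := by simpa [LP.regs] using h
    exact LP.loop_ind s a σ (fun _ τ => τ r = σ r) rfl (fun k τ _ hI => by
      rw [ih _ h'.2, Function.update_of_ne h'.1, hI])

/-- clear a register -/
def LP.clr (r : ℕ) : LP := .loop r .nop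

theorem LP.clr_ok (r : ℕ) : (LP.clr r).ok := by
  simp [LP.clr, LP.ok, LP.regs]

theorem LP.clr_regs (r : ℕ) : (LP.clr r).regs = {r} := by
  simp [LP.clr, LP.regs]

theorem LP.clr_ev (r : ℕ) (σ : ℕ → ℕ) : (LP.clr r).ev σ = Function.update σ r 0 := by
  have h := LP.loop_ind r .nop σ (fun k τ => τ = Function.update σ r (σ r - k)) (by simp) (by
    intro k τ _ hI
    rw [hI]
    simp only [LP.ev, Function.update_self, Function.update_idem]
    congr 1)
  rw [Nat.sub_self] at h
  exact h

/-- copy `r` to `s` with the scratch register `t` -/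
def LP.cp (r s t : ℕ) : LP :=
  .seq (LP.clr s) (.seq (LP.clr t) (.seq (.loop r (.seq (.inc s) (.inc t))) (.loop t (.inc r))))

theorem LP.cp_ok (r s t : ℕ) (hrs : r ≠ s) (hrt : r ≠ t) : (LP.cp r s t).ok := by
  simp [LP.cp, LP.ok, LP.regs, LP.clr_ok, hrs, hrt, hrt.symm]

theorem LP.cp_regs (r s t x : ℕ) (h : x ∈ (LP.cp r s t).regs) : x = r ∨ x = s ∨ x = t := by
  simp only [LP.cp, LP.regs, LP.clr_regs, Finset.mem_union, Finset.mem_insert, Finset.mem_singleton] at h
  tauto

theorem LP.cp_ev (r s t : ℕ) (hrs : r ≠ s) (hrt : r ≠ t) (hst : s ≠ t) (σ : ℕ → ℕ) :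
    (LP.cp r s t).ev σ = Function.update (Function.update σ s (σ r)) t 0 := by
  have e0 : (LP.cp r s t).ev σ = (LP.loop t (.inc r)).ev ((LP.loop r (.seq (.inc s) (.inc t))).ev
      (Function.update (Function.update σ s 0) t 0)) := by
    simp only [LP.cp, LP.ev]
    rw [show (LP.clr s).ev σ = Function.update σ s 0 from LP.clr_ev s σ]
    rw [LP.clr_ev]
    try rfl
  rw [e0]
  set σ1 := Function.update (Function.update σ s 0) t 0 with hσ1
  have h1r : σ1 r = σ r := by
    simp [hσ1, Function.update_of_ne hrt, Function.update_of_ne hrs]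
  have h1s : σ1 s = 0 := by
    simp [hσ1, Function.update_of_ne hst]
  have h1t : σ1 t = 0 := by simp [hσ1]
  have h1x : ∀ x, x ≠ s → x ≠ t → σ1 x = σ x := by
    intro x hs ht
    simp [hσ1, Function.update_of_ne ht, Function.update_of_ne hs]
  have A := LP.loop_ind r (.seq (.inc s) (.inc t)) σ1
    (fun k τ => τ r = σ r - k ∧ τ s = k ∧ τ t = k ∧ ∀ x, x ≠ r → x ≠ s → x ≠ t → τ x = σ x)
    ⟨by simpa using h1r, h1s, h1t, fun x _ hs ht => h1x x hs ht⟩ (by
      rintro k τ hk ⟨a1, a2, a3, a4⟩
      simp only [LP.ev]
      refine ⟨?_, ?_, ?_, ?_⟩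
      · rw [Function.update_of_ne hrt, Function.update_of_ne hrs, Function.update_self, a1]
        omega
      · rw [Function.update_of_ne hst, Function.update_self, Function.update_of_ne hrs.symm, a2]
      · rw [Function.update_self, Function.update_of_ne hst.symm, Function.update_of_ne hrt.symm, a3]
      · intro x hr hs ht
        rw [Function.update_of_ne ht, Function.update_of_ne hs, Function.update_of_ne hr]
        exact a4 x hr hs ht)
  set σ2 := (LP.loop r (.seq (.inc s) (.inc t))).ev σ1 with hσ2
  obtain ⟨a1, a2, a3, a4⟩ := A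
  rw [h1r] at a1 a2 a3
  have B := LP.loop_ind t (.inc r) σ2
    (fun k τ => τ t = σ r - k ∧ τ s = σ r ∧ τ r = k ∧ ∀ x, x ≠ r → x ≠ s → x ≠ t → τ x = σ x)
    ⟨by simpa using a3, a2, by simpa using a1, a4⟩ (by
      rintro k τ hk ⟨b1, b2, b3, b4⟩
      simp only [LP.ev]
      refine ⟨?_, ?_, ?_, ?_⟩
      · rw [Function.update_of_ne hrt.symm, Function.update_self, b1]
        omega
      · rw [Function.update_of_ne hrs.symm, Function.update_of_ne hst, b2]
      · rw [Function.update_self, Function.update_of_ne hrt, b3]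
      · intro x hr hs ht
        rw [Function.update_of_ne hr, Function.update_of_ne ht]
        exact b4 x hr hs ht)
  obtain ⟨b1, b2, b3, b4⟩ := B
  rw [a3] at b1 b3
  funext x
  by_cases hxt : x = t
  · subst hxt
    rw [Function.update_self, b1]
    omega
  · rw [Function.update_of_ne hxt]
    by_cases hxs : x = s
    · subst hxs
      rw [Function.update_self, b2]
    · rw [Function.update_of_ne hxs]
      by_cases hxr : x = r
      · subst hxr
        exact b3
      · exact b4 x hxr hxs hxt

theorem exists_lp' {n : ℕ} {f : List.Vector ℕ n → ℕ} (hf : Nat.Primrec' f) :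
    ∀ (i : Fin n → ℕ) (z w : ℕ), (∀ j, i j < w) → (∀ j, i j ≠ z) → z < w →
      ∃ p : LP, p.ok ∧ (∀ r ∈ p.regs, w ≤ r ∨ r = z ∨ ∃ j, r = i j) ∧
        ∀ σ : ℕ → ℕ, p.ev σ z = f (List.Vector.ofFn fun j => σ (i j)) ∧
          ∀ r, r < w → r ≠ z → p.ev σ r = σ r := by
  induction hf with
  | zero =>
    intro i z w hi hiz hz
    refine ⟨LP.clr z, LP.clr_ok z, ?_, fun σ => ⟨?_, ?_⟩⟩
    · intro r hr
      rw [LP.clr_regs, Finset.mem_singleton] at hr
      exact Or.inr (Or.inl hr)
    · rw [LP.clr_ev, Function.update_self]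
    · intro r _ hr
      rw [LP.clr_ev, Function.update_of_ne hr]
  | succ =>
    intro i z w hi hiz hz
    have h1 : i 0 ≠ z := hiz 0
    have h2 : i 0 ≠ w := (hi 0).ne
    have h3 : z ≠ w := hz.ne
    refine ⟨.seq (LP.cp (i 0) z w) (.inc z), ⟨LP.cp_ok _ _ _ h1 h2, trivial⟩, ?_, fun σ => ⟨?_, ?_⟩⟩
    · intro r hr
      simp only [LP.regs, Finset.mem_union, Finset.mem_singleton] at hr
      rcases hr with hr | hr
      · rcases LP.cp_regs _ _ _ _ hr with h | h | h
        · exact Or.inr (Or.inr ⟨0, h⟩)
        · exact Or.inr (Or.inl h)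
        · exact Or.inl h.ge
      · exact Or.inr (Or.inl hr)
    · simp only [LP.ev]
      rw [LP.cp_ev _ _ _ h1 h2 h3, Function.update_self, Function.update_of_ne h3, Function.update_self]
      rw [← List.Vector.get_zero, List.Vector.get_ofFn]
    · intro r hr hrz
      simp only [LP.ev]
      rw [LP.cp_ev _ _ _ h1 h2 h3, Function.update_of_ne hrz, Function.update_of_ne hr.ne, Function.update_of_ne hrz]
  | get l =>
    intro i z w hi hiz hz
    have h1 : i l ≠ z := hiz l
    have h2 : i l ≠ w := (hi l).ne
    have h3 : z ≠ w := hz.ne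
    refine ⟨LP.cp (i l) z w, LP.cp_ok _ _ _ h1 h2, ?_, fun σ => ⟨?_, ?_⟩⟩
    · intro r hr
      rcases LP.cp_regs _ _ _ _ hr with h | h | h
      · exact Or.inr (Or.inr ⟨l, h⟩)
      · exact Or.inr (Or.inl h)
      · exact Or.inl h.ge
    · rw [LP.cp_ev _ _ _ h1 h2 h3, Function.update_of_ne h3, Function.update_self]
      show σ (i l) = (List.Vector.ofFn fun j => σ (i j)).get l
      rw [List.Vector.get_ofFn]
    · intro r hr hrz
      rw [LP.cp_ev _ _ _ h1 h2 h3, Function.update_of_ne hr.ne, Function.update_of_ne hrz]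
  | @comp m n f g _ _ ihf ihg =>
    intro i z w hi hiz hz
    have step : ∀ k, k ≤ n → ∃ q : LP, q.ok ∧ (∀ r ∈ q.regs, w ≤ r ∨ ∃ j, r = i j) ∧
        ∀ σ : ℕ → ℕ, (∀ j : Fin n, (j : ℕ) < k → q.ev σ (w + j) = g j (List.Vector.ofFn fun l => σ (i l))) ∧
          ∀ r, r < w → q.ev σ r = σ r := by
      intro k
      induction k with
      | zero =>
        intro _
        exact ⟨.nop, trivial, by simp [LP.regs], fun σ => ⟨fun j hj => absurd hj (by omega), fun r _ => rfl⟩⟩
      | succ k ih =>
        intro hk
        obtain ⟨q, hq1, hq2, hq3⟩ := ih (by omega)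
        obtain ⟨p, hp1, hp2, hp3⟩ := ihg ⟨k, by omega⟩ i (w + k) (w + n) (fun j => by have := hi j; omega)
          (fun j => by have := hi j; omega) (by omega)
        refine ⟨.seq q p, ⟨hq1, hp1⟩, ?_, fun σ => ⟨?_, ?_⟩⟩
        · intro r hr
          simp only [LP.regs, Finset.mem_union] at hr
          rcases hr with hr | hr
          · exact hq2 r hr
          · rcases hp2 r hr with h | h | h
            · exact Or.inl (by omega)
            · exact Or.inl (by omega)
            · exact Or.inr h
        · intro j hj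
          simp only [LP.ev]
          by_cases hjk : (j : ℕ) = k
          · have hj' : (⟨k, by omega⟩ : Fin n) = j := Fin.ext hjk.symm
            have e := (hp3 (q.ev σ)).1
            rw [hj'] at e
            rw [hjk, e]
            congr 2
            funext l
            exact (hq3 σ).2 _ (hi l)
          · rw [(hp3 (q.ev σ)).2 (w + j) (by have := j.2; omega) (by omega)]
            exact (hq3 σ).1 j (by omega)
        · intro r hr
          simp only [LP.ev]
          rw [(hp3 (q.ev σ)).2 r (by omega) (by omega), (hq3 σ).2 r hr]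
    obtain ⟨q, hq1, hq2, hq3⟩ := step n le_rfl
    obtain ⟨p, hp1, hp2, hp3⟩ := ihf (fun j : Fin n => w + j) z (w + n) (fun j => by have := j.2; omega)
      (fun j => by omega) (by omega)
    refine ⟨.seq q p, ⟨hq1, hp1⟩, ?_, fun σ => ⟨?_, ?_⟩⟩
    · intro r hr
      simp only [LP.regs, Finset.mem_union] at hr
      rcases hr with hr | hr
      · rcases hq2 r hr with h | h
        · exact Or.inl h
        · exact Or.inr (Or.inr h)
      · rcases hp2 r hr with h | h | ⟨j, h⟩
        · exact Or.inl (by omega)
        · exact Or.inr (Or.inl h)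
        · exact Or.inl (by omega)
    · simp only [LP.ev]
      rw [(hp3 (q.ev σ)).1]
      congr 2
      funext j
      exact (hq3 σ).1 j j.2
    · intro r hr hrz
      simp only [LP.ev]
      rw [(hp3 (q.ev σ)).2 r (by omega) hrz, (hq3 σ).2 r hr]
  | @prec n f g _ _ ihf ihg =>
    intro i z w hi hiz hz
    obtain ⟨pf, pf1, pf2, pf3⟩ := ihf (fun j => i j.succ) (w + 2) (w + 4) (fun j => by have := hi j.succ; omega)
      (fun j => by have := hi j.succ; omega) (by omega)
    obtain ⟨pg, pg1, pg2, pg3⟩ := ihg (Fin.cons (w + 1) (Fin.cons (w + 2) (fun j : Fin n => i j.succ))) (w + 3) (w + 4)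
      (fun j => by
        refine Fin.cases ?_ (fun j => ?_) j
        · simp
        · refine Fin.cases ?_ (fun j => ?_) j
          · simp
          · simp only [Fin.cons_succ]
            have := hi j.succ; omega)
      (fun j => by
        refine Fin.cases ?_ (fun j => ?_) j
        · simp
        · refine Fin.cases ?_ (fun j => ?_) j
          · simp
          · simp only [Fin.cons_succ]
            have := hi j.succ; omega)
      (by omega)
    have hpg : ∀ r ∈ pg.regs, w + 1 ≤ r ∨ ∃ j, r = i j := by
      intro r hr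
      rcases pg2 r hr with h | h | ⟨j, h⟩
      · exact Or.inl (by omega)
      · exact Or.inl (by omega)
      · revert h
        refine Fin.cases ?_ (fun j => ?_) j
        · intro h
          simp only [Fin.cons_zero] at h
          exact Or.inl (by omega)
        · refine Fin.cases ?_ (fun j => ?_) j
          · intro h
            simp only [Fin.cons_succ, Fin.cons_zero] at h
            exact Or.inl (by omega)
          · intro h
            simp only [Fin.cons_succ] at h
            exact Or.inr ⟨j.succ, h⟩
    have hi0 := hi 0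
    have e1 : i 0 ≠ w := by omega
    have e2 : i 0 ≠ w + 3 := by omega
    have e3 : w ≠ w + 3 := by omega
    have d1 : w + 3 ≠ w + 2 := by omega
    have d2 : w + 3 ≠ w + 4 := by omega
    have d3 : w + 2 ≠ w + 4 := by omega
    have c1 : w + 2 ≠ z := by omega
    have c2 : w + 2 ≠ w + 3 := by omega
    have c3 : z ≠ w + 3 := by omega
    refine ⟨.seq (LP.cp (i 0) w (w + 3)) (.seq (LP.clr (w + 1)) (.seq pf (.seq
      (.loop w (.seq pg (.seq (LP.cp (w + 3) (w + 2) (w + 4)) (.inc (w + 1))))) (LP.cp (w + 2) z (w + 3))))), ?_, ?_, ?_⟩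
    · refine ⟨LP.cp_ok _ _ _ e1 e2, LP.clr_ok _, pf1, ⟨?_, pg1, LP.cp_ok _ _ _ d1 d2, trivial⟩, LP.cp_ok _ _ _ c1 c2⟩
      simp only [LP.regs, Finset.mem_union, Finset.mem_singleton, not_or]
      refine ⟨?_, ?_, by omega⟩
      · intro h
        rcases hpg _ h with h | ⟨j, h⟩
        · omega
        · have := hi j; omega
      · intro h
        rcases LP.cp_regs _ _ _ _ h with h | h | h <;> omega
    · intro r hr
      simp only [LP.regs, LP.clr_regs, Finset.mem_union, Finset.mem_singleton, Finset.mem_insert] at hr
      rcases hr with hr | hr | hr | (hr | hr | hr | hr) | hr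
      · rcases LP.cp_regs _ _ _ _ hr with h | h | h
        · exact Or.inr (Or.inr ⟨0, h⟩)
        · exact Or.inl (by omega)
        · exact Or.inl (by omega)
      · exact Or.inl (by omega)
      · rcases pf2 r hr with h | h | ⟨j, h⟩
        · exact Or.inl (by omega)
        · exact Or.inl (by omega)
        · exact Or.inr (Or.inr ⟨j.succ, h⟩)
      · exact Or.inl (by omega)
      · rcases hpg r hr with h | h
        · exact Or.inl (by omega)
        · exact Or.inr (Or.inr h)
      · rcases LP.cp_regs _ _ _ _ hr with h | h | h <;> exact Or.inl (by omega)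
      · exact Or.inl (by omega)
      · rcases LP.cp_regs _ _ _ _ hr with h | h | h
        · exact Or.inl (by omega)
        · exact Or.inr (Or.inl h)
        · exact Or.inl (by omega)
    · intro σ
      set σ1 := (LP.cp (i 0) w (w + 3)).ev σ with hσ1
      have s1 : σ1 = Function.update (Function.update σ w (σ (i 0))) (w + 3) 0 := LP.cp_ev _ _ _ e1 e2 e3 σ
      set σ2 := (LP.clr (w + 1)).ev σ1 with hσ2
      have s2 : σ2 = Function.update σ1 (w + 1) 0 := LP.clr_ev _ _
      have q2 : ∀ r, r < w → σ2 r = σ r := by
        intro r hr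
        rw [s2, s1, Function.update_of_ne (by omega), Function.update_of_ne (by omega),
          Function.update_of_ne (by omega)]
      have q2w : σ2 w = σ (i 0) := by
        rw [s2, s1, Function.update_of_ne (by omega), Function.update_of_ne (by omega), Function.update_self]
      have q2y : σ2 (w + 1) = 0 := by
        rw [s2, Function.update_self]
      obtain ⟨r1, r2⟩ := pf3 σ2
      set σ3 := pf.ev σ2 with hσ3
      have q3 : ∀ r, r < w → σ3 r = σ r := by
        intro r hr
        rw [r2 r (by omega) (by omega), q2 r hr]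
      have q3w : σ3 w = σ (i 0) := by
        rw [r2 w (by omega) (by omega), q2w]
      have q3y : σ3 (w + 1) = 0 := by
        rw [r2 (w + 1) (by omega) (by omega), q2y]
      have q3a : σ3 (w + 2) = f (List.Vector.ofFn fun j => σ (i j.succ)) := by
        rw [r1]
        congr 2
        funext j
        exact q2 _ (hi _)
      have A := LP.loop_ind w (.seq pg (.seq (LP.cp (w + 3) (w + 2) (w + 4)) (.inc (w + 1)))) σ3
        (fun k τ => τ w = σ (i 0) - k ∧ τ (w + 1) = k ∧
          τ (w + 2) = Nat.rec (motive := fun _ => ℕ) (f (List.Vector.ofFn fun j => σ (i j.succ)))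
            (fun y IH => g (y ::ᵥ IH ::ᵥ (List.Vector.ofFn fun j => σ (i j.succ)))) k ∧
          ∀ r, r < w → τ r = σ r)
        ⟨by simpa using q3w, q3y, q3a, q3⟩ (by
          rintro k τ hk ⟨a1, a2, a3, a4⟩
          rw [q3w] at hk
          set τ' := Function.update τ w (τ w - 1) with hτ'
          have t1 : ∀ r, r ≠ w → τ' r = τ r := fun r hr => Function.update_of_ne hr _ _
          have t2 : τ' w = σ (i 0) - (k + 1) := by
            rw [hτ', Function.update_self, a1]
            omega
          obtain ⟨u1, u2⟩ := pg3 τ'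
          have u3 : pg.ev τ' (w + 3) = g (k ::ᵥ (Nat.rec (motive := fun _ => ℕ)
              (f (List.Vector.ofFn fun j => σ (i j.succ)))
              (fun y IH => g (y ::ᵥ IH ::ᵥ (List.Vector.ofFn fun j => σ (i j.succ)))) k) ::ᵥ
                (List.Vector.ofFn fun j => σ (i j.succ))) := by
            rw [u1]
            congr 1
            apply List.Vector.ext
            intro l
            rw [List.Vector.get_ofFn]
            refine Fin.cases ?_ (fun l => ?_) l
            · rw [List.Vector.get_zero, List.Vector.head_cons, Fin.cons_zero, t1 _ (by omega), a2]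
            · rw [List.Vector.get_cons_succ, Fin.cons_succ]
              refine Fin.cases ?_ (fun l => ?_) l
              · rw [List.Vector.get_zero, List.Vector.head_cons, Fin.cons_zero, t1 _ (by omega), a3]
              · rw [List.Vector.get_cons_succ, Fin.cons_succ, List.Vector.get_ofFn,
                  t1 _ (hi _).ne, a4 _ (hi _)]
          have u4 : (LP.seq pg (.seq (LP.cp (w + 3) (w + 2) (w + 4)) (.inc (w + 1)))).ev τ' =
              Function.update (Function.update (Function.update (pg.ev τ') (w + 2) (pg.ev τ' (w + 3))) (w + 4) 0) (w + 1)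
                ((Function.update (Function.update (pg.ev τ') (w + 2) (pg.ev τ' (w + 3))) (w + 4) 0) (w + 1) + 1) := by
            have := LP.cp_ev _ _ _ d1 d2 d3 (pg.ev τ')
            show Function.update ((LP.cp (w + 3) (w + 2) (w + 4)).ev (pg.ev τ')) (w + 1)
              ((LP.cp (w + 3) (w + 2) (w + 4)).ev (pg.ev τ') (w + 1) + 1) = _
            rw [this]
          rw [u4]
          refine ⟨?_, ?_, ?_, ?_⟩
          · rw [Function.update_of_ne (by omega), Function.update_of_ne (by omega), Function.update_of_ne (by omega),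
              u2 w (by omega) (by omega), t2]
          · rw [Function.update_self, Function.update_of_ne (by omega), Function.update_of_ne (by omega),
              u2 (w + 1) (by omega) (by omega), t1 _ (by omega), a2]
          · rw [Function.update_of_ne (by omega), Function.update_of_ne (by omega), Function.update_self, u3]
          · intro r hr
            rw [Function.update_of_ne (by omega), Function.update_of_ne (by omega), Function.update_of_ne (by omega),
              u2 r (by omega) (by omega), t1 _ (by omega), a4 r hr])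
      rw [q3w] at A
      obtain ⟨a1, a2, a3, a4⟩ := A
      set σ4 := (LP.loop w (.seq pg (.seq (LP.cp (w + 3) (w + 2) (w + 4)) (.inc (w + 1))))).ev σ3 with hσ4
      have e : (LP.seq (LP.cp (i 0) w (w + 3)) (.seq (LP.clr (w + 1)) (.seq pf (.seq
          (.loop w (.seq pg (.seq (LP.cp (w + 3) (w + 2) (w + 4)) (.inc (w + 1))))) (LP.cp (w + 2) z (w + 3)))))).ev σ =
          Function.update (Function.update σ4 z (σ4 (w + 2))) (w + 3) 0 :=
        LP.cp_ev _ _ _ c1 c2 c3 σ4
      rw [e]
      refine ⟨?_, ?_⟩
      · rw [Function.update_of_ne (by omega), Function.update_self, a3]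
        show _ = Nat.rec (motive := fun _ => ℕ) (f (List.Vector.ofFn fun j => σ (i j)).tail)
          (fun y IH => g (y ::ᵥ IH ::ᵥ (List.Vector.ofFn fun j => σ (i j)).tail)) (List.Vector.ofFn fun j => σ (i j)).head
        rw [List.Vector.head_ofFn, List.Vector.tail_ofFn]
      · intro r hr hrz
        rw [Function.update_of_ne (by omega), Function.update_of_ne hrz, a4 r hr]

theorem exists_lp {n : ℕ} {f : List.Vector ℕ n → ℕ} (hf : Nat.Primrec' f) :
    ∀ (i : Fin n → ℕ) (z w : ℕ), (∀ j, i j < w) → (∀ j, i j ≠ z) → z < w →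
      ∃ p : LP, p.ok ∧ ∀ σ : ℕ → ℕ, p.ev σ z = f (List.Vector.ofFn fun j => σ (i j)) ∧
        ∀ r, r < w → r ≠ z → p.ev σ r = σ r := by
  intro i z w hi hiz hz
  obtain ⟨p, hp1, _, hp3⟩ := exists_lp' hf i z w hi hiz hz
  exact ⟨p, hp1, hp3⟩

end CPM
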