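import Pool.Agent.Lib.CPM.Defs
import Pool.Agent.Lib.CPM.Loop

/-!
# Module Flat: LOOP programs as prime machines
-/

set_option autoImplicit false

namespace CPM

/-- the prime of a register: `7, 11, 13, ...` -/
noncomputable def pr (r : ℕ) : ℕ := Nat.nth Nat.Prime (r + 3)

theorem pr_prime (r : ℕ) : (pr r).Prime := Nat.prime_nth_prime (r + 3)

theorem pr_inj : Function.Injective pr := by
  intro a b h
  have := Nat.nth_injective Nat.infinite_setOfPred_prime h
  omega

theorem pr_zero : pr 0 = 7 := by
  have h : Nat.nth Nat.Prime (Nat.count Nat.Prime 7) = 7 :=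
    Nat.nth_count (by norm_num : Nat.Prime 7)
  have e : Nat.count Nat.Prime 7 = 3 := by decide
  rw [e] at h
  exact h

theorem pr_one : pr 1 = 11 := by
  have h : Nat.nth Nat.Prime (Nat.count Nat.Prime 11) = 11 :=
    Nat.nth_count (by norm_num : Nat.Prime 11)
  have e : Nat.count Nat.Prime 11 = 4 := by decide
  rw [e] at h
  exact h

theorem pr_coprime (r : ℕ) : (pr r).Coprime 30 := by
  rw [(pr_prime r).coprime_iff_not_dvd]
  intro h
  have h7 : 7 ≤ pr r := by
    rw [← pr_zero]
    exact Nat.nth_monotone Nat.infinite_setOfPred_prime (by omega)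
  have e : (30 : ℕ) = 2 * (3 * 5) := rfl
  rw [e, (pr_prime r).dvd_mul, (pr_prime r).dvd_mul] at h
  rcases h with h | h | h
  · have := Nat.le_of_dvd (by norm_num) h; omega
  · have := Nat.le_of_dvd (by norm_num) h; omega
  · have := Nat.le_of_dvd (by norm_num) h; omega

/-- the registers coded by a number -/
noncomputable def val (N r : ℕ) : ℕ := N.factorization (pr r)

/-- the number of labels of the code -/
def LP.size : LP → ℕ
  | .nop => 1
  | .inc _ => 1
  | .seq a b => a.size + b.size
  | .loop _ a => 1 + a.size

/-- the code with first label `a` and exit label `e` -/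
noncomputable def LP.code : LP → ℕ → ℕ → List (PI ℕ)
  | .nop, _, e => [.go e]
  | .inc r, _, e => [.inc (pr r) e]
  | .seq p q, a, e => p.code a (a + p.size) ++ q.code (a + p.size) e
  | .loop r p, a, e => .dec (pr r) e (a + 1) :: p.code (a + 1) a

theorem LP.code_length (p : LP) (a e : ℕ) : (p.code a e).length = p.size := by
  induction p generalizing a e with
  | nop => rfl
  | inc r => rfl
  | seq p q hp hq => simp only [LP.code, LP.size, List.length_append, hp, hq]
  | loop r p hp => simp only [LP.code, LP.size, List.length_cons, hp]; omega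

theorem LP.size_pos (p : LP) : 0 < p.size := by
  induction p with
  | nop => simp [LP.size]
  | inc r => simp [LP.size]
  | seq p q hp hq => simp only [LP.size]; omega
  | loop r p hp => simp only [LP.size]; omega

/-- the targets are labels of the code or the exit -/
theorem LP.code_tgt (p : LP) (a e i q : ℕ) (b : Bool) (h : ((p.code a e).getD i .halt).tgt b = some q) :
    q = e ∨ (a ≤ q ∧ q < a + p.size) := by
  induction p generalizing a e i with
  | nop =>
    rcases i with _ | i
    · cases b <;> simp [LP.code, PI.tgt] at h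
      exact Or.inl h.symm
    · cases b <;> simp [LP.code, PI.tgt] at h
  | inc r =>
    rcases i with _ | i
    · cases b <;> simp [LP.code, PI.tgt] at h
      exact Or.inl h.symm
    · cases b <;> simp [LP.code, PI.tgt] at h
  | seq p q' hp hq =>
    have h1 := p.size_pos
    have h2 := q'.size_pos
    simp only [LP.code] at h
    simp only [LP.size]
    by_cases hi : i < (p.code a (a + p.size)).length
    · rw [List.getD_append _ _ _ _ hi] at h
      rcases hp _ _ _ h with h3 | h3
      · right; omega
      · right; omega
    · rw [List.getD_append_right _ _ _ _ (by omega)] at h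
      rcases hq _ _ _ h with h3 | h3
      · left; exact h3
      · right; omega
  | loop r p hp =>
    have h1 := p.size_pos
    simp only [LP.code] at h
    simp only [LP.size]
    rcases i with _ | i
    · rw [List.getD_cons_zero] at h
      cases b
      · simp [PI.tgt] at h
        exact Or.inl h.symm
      · simp [PI.tgt] at h
        right; omega
    · rw [List.getD_cons_succ] at h
      rcases hp _ _ _ h with h3 | h3
      · right; omega
      · right; omega

theorem LP.code_good (p : LP) (a e i : ℕ) : ((p.code a e).getD i .halt).pr.Coprime 30 := by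
  induction p generalizing a e i with
  | nop => rcases i with _ | i <;> simp [LP.code, PI.pr]
  | inc r =>
    rcases i with _ | i
    · simpa [LP.code, PI.pr] using pr_coprime r
    · simp [LP.code, PI.pr]
  | seq p q hp hq =>
    simp only [LP.code]
    by_cases hi : i < (p.code a (a + p.size)).length
    · rw [List.getD_append _ _ _ _ hi]
      exact hp _ _ _
    · rw [List.getD_append_right _ _ _ _ (by omega)]
      exact hq _ _ _
  | loop r p hp =>
    simp only [LP.code]
    rcases i with _ | i
    · rw [List.getD_cons_zero]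
      exact pr_coprime r
    · rw [List.getD_cons_succ]
      exact hp _ _ _

namespace FlatAux

theorem run_add {C : Type} (f : C → Option C) (n m : ℕ) (c d : C) (h : run f n c = some d) :
    run f (n + m) c = run f m d := by
  induction m with
  | zero => exact h
  | succ m ih =>
    rw [← add_assoc]
    simp only [run]
    rw [ih]

theorem ne_zero {N : ℕ} (hN : N.Coprime 30) : N ≠ 0 := by
  rintro rfl
  norm_num at hN

theorem val_mul (r N : ℕ) (hN : N ≠ 0) :
    val (pr r * N) = Function.update (val N) r (val N r + 1) := by
  funext s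
  unfold val
  rw [Nat.factorization_mul (pr_prime r).ne_zero hN, (pr_prime r).factorization, Finsupp.add_apply]
  by_cases h : s = r
  · subst h
    rw [Function.update_self, Finsupp.single_eq_same, add_comm]
  · rw [Function.update_of_ne h, Finsupp.single_eq_of_ne, zero_add]
    intro e
    exact h (pr_inj e)

theorem val_div (r N : ℕ) (hN : N ≠ 0) (h : pr r ∣ N) :
    val (N / pr r) = Function.update (val N) r (val N r - 1) := by
  obtain ⟨K, rfl⟩ := h
  have hK : K ≠ 0 := by
    rintro rfl
    exact hN (mul_zero _)
  rw [Nat.mul_div_cancel_left _ (pr_prime r).pos, val_mul r K hK]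
  simp

theorem val_zero_iff (r N : ℕ) (hN : N ≠ 0) : val N r = 0 ↔ ¬ pr r ∣ N := by
  unfold val
  rw [Nat.factorization_eq_zero_iff]
  constructor
  · rintro (h | h | h)
    · exact absurd (pr_prime r) h
    · exact h
    · exact absurd h hN
  · intro h
    exact Or.inr (Or.inl h)

theorem coprime_div {N p : ℕ} (h : p ∣ N) (hN : N.Coprime 30) : (N / p).Coprime 30 :=
  Nat.Coprime.coprime_dvd_left (Nat.div_dvd_of_dvd h) hN

/-- the change of labels -/
def conv (M : ℕ) : PI ℕ → PI (Fin (M + 1))
  | .halt => .halt
  | .go q => .go (Fin.ofNat (M + 1) q)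
  | .inc p q => .inc p (Fin.ofNat (M + 1) q)
  | .dec p q0 q1 => .dec p (Fin.ofNat (M + 1) q0) (Fin.ofNat (M + 1) q1)

theorem conv_pr (M : ℕ) (i : PI ℕ) : (conv M i).pr = i.pr := by
  cases i <;> rfl

theorem val_ofNat {M q : ℕ} (h : q ≤ M) : ((Fin.ofNat (M + 1) q : Fin (M + 1)) : ℕ) = q := by
  simp only [Fin.val_ofNat]
  exact Nat.mod_eq_of_lt (by omega)

theorem step_conv (M : ℕ) (P : ℕ → PI ℕ) (hP : ∀ i ≤ M, ∀ b q, (P i).tgt b = some q → q ≤ M)
    (q : Fin (M + 1)) (N : ℕ) :
    (pstep (fun q : Fin (M + 1) => conv M (P q)) (q, N)).map (fun c => ((c.1 : ℕ), c.2)) =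
      pstep P ((q : ℕ), N) := by
  have hq : (q : ℕ) ≤ M := by omega
  have h := hP q hq
  unfold pstep
  simp only
  cases hi : P q with
  | halt => rfl
  | go q' =>
    rw [hi] at h
    simp only [conv, Option.map_some, val_ofNat (h false q' rfl)]
  | inc p q' =>
    rw [hi] at h
    simp only [conv, Option.map_some, val_ofNat (h false q' rfl)]
  | dec p q0 q1 =>
    rw [hi] at h
    simp only [conv]
    split_ifs
    · simp only [Option.map_some, val_ofNat (h true q1 rfl)]
    · simp only [Option.map_some, val_ofNat (h false q0 rfl)]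

theorem run_conv (M : ℕ) (P : ℕ → PI ℕ) (hP : ∀ i ≤ M, ∀ b q, (P i).tgt b = some q → q ≤ M)
    (q : Fin (M + 1)) (N n : ℕ) :
    (run (pstep (fun q : Fin (M + 1) => conv M (P q))) n (q, N)).map
      (fun c => ((c.1 : ℕ), c.2)) = run (pstep P) n ((q : ℕ), N) := by
  induction n with
  | zero => rfl
  | succ n ih =>
    simp only [run]
    rw [← ih]
    cases hr : run (pstep (fun q : Fin (M + 1) => conv M (P q))) n (q, N) with
    | none => rfl
    | some c =>
      obtain ⟨q', N'⟩ := c
      simp only [Option.bind_some, Option.map_some]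
      exact step_conv M P hP q' N'

end FlatAux

open FlatAux

theorem LP.code_run (p : LP) (hp : p.ok) (P : ℕ → PI ℕ) (a e : ℕ)
    (hP : ∀ i < p.size, P (a + i) = (p.code a e).getD i .halt) (N : ℕ) (hN : N.Coprime 30) :
    ∃ n N', run (pstep P) n (a, N) = some (e, N') ∧ N'.Coprime 30 ∧ val N' = p.ev (val N) := by
  induction p generalizing a e N with
  | nop =>
    have h := hP 0 (by simp [LP.size])
    simp only [LP.code, add_zero, List.getD_cons_zero] at h
    refine ⟨1, N, ?_, hN, rfl⟩
    simp [run, pstep, h]
  | inc r =>
    have h := hP 0 (by simp [LP.size])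
    simp only [LP.code, add_zero, List.getD_cons_zero] at h
    refine ⟨1, pr r * N, ?_, Nat.Coprime.mul_left (pr_coprime r) hN, val_mul r N (ne_zero hN)⟩
    simp [run, pstep, h]
  | seq p q ihp ihq =>
    have h1 : ∀ i < p.size, P (a + i) = (p.code a (a + p.size)).getD i .halt := by
      intro i hi
      rw [hP i (by simp only [LP.size]; omega)]
      simp only [LP.code]
      rw [List.getD_append _ _ _ _ (by rw [LP.code_length]; exact hi)]
    have h2 : ∀ i < q.size, P (a + p.size + i) = (q.code (a + p.size) e).getD i .halt := by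
      intro i hi
      rw [add_assoc, hP (p.size + i) (by simp only [LP.size]; omega)]
      simp only [LP.code]
      rw [List.getD_append_right _ _ _ _ (by rw [LP.code_length]; omega), LP.code_length,
        Nat.add_sub_cancel_left]
    obtain ⟨n, N', h3, h4, h5⟩ := ihp hp.1 a (a + p.size) h1 N hN
    obtain ⟨m, N'', h6, h7, h8⟩ := ihq hp.2 (a + p.size) e h2 N' h4
    refine ⟨n + m, N'', ?_, h7, ?_⟩
    · rw [run_add _ _ _ _ _ h3, h6]
    · rw [h8, h5]; rfl
  | loop r p ih =>
    have h0 := hP 0 (by simp only [LP.size]; omega)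
    simp only [LP.code, add_zero, List.getD_cons_zero] at h0
    have h1 : ∀ i < p.size, P (a + 1 + i) = (p.code (a + 1) a).getD i .halt := by
      intro i hi
      rw [add_assoc, add_comm 1 i, hP (i + 1) (by simp only [LP.size]; omega)]
      simp only [LP.code]
      rw [List.getD_cons_succ]
    have key : ∀ m : ℕ, ∀ N : ℕ, N.Coprime 30 → val N r = m →
        ∃ n N', run (pstep P) n (a, N) = some (e, N') ∧ N'.Coprime 30 ∧
          val N' = (fun τ => p.ev (Function.update τ r (τ r - 1)))^[m] (val N) := by
      intro m
      induction m with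
      | zero =>
        intro N hN hv
        refine ⟨1, N, ?_, hN, rfl⟩
        have h2 := (val_zero_iff r N (ne_zero hN)).1 hv
        simp [run, pstep, h0, h2]
      | succ m ihm =>
        intro N hN hv
        have h2 : pr r ∣ N := by
          by_contra h3
          have := (val_zero_iff r N (ne_zero hN)).2 h3
          omega
        obtain ⟨n, N', h3, h4, h5⟩ := ih hp.2 (a + 1) a h1 (N / pr r) (coprime_div h2 hN)
        rw [val_div r N (ne_zero hN) h2] at h5
        have h6 : val N' r = m := by
          rw [h5, LP.ev_notMem _ _ _ hp.1, Function.update_self, hv]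
          rfl
        obtain ⟨n', N'', h7, h8, h9⟩ := ihm N' h4 h6
        have h10 : run (pstep P) 1 (a, N) = some (a + 1, N / pr r) := by
          simp [run, pstep, h0, h2]
        refine ⟨1 + n + n', N'', ?_, h8, ?_⟩
        · have h11 : run (pstep P) (1 + n) (a, N) = some (a, N') := by
            rw [run_add _ _ _ _ _ h10, h3]
          rw [run_add _ _ _ _ _ h11, h7]
        · rw [h9, Function.iterate_succ, Function.comp, h5]
    exact key (val N r) N hN rfl

/-- from labels `ℕ` to labels `Fin (M + 1)` -/
theorem to_fin (M : ℕ) (P : ℕ → PI ℕ) (hg : ∀ i, (P i).pr.Coprime 30)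
    (hP : ∀ i ≤ M, ∀ b q, (P i).tgt b = some q → q ≤ M) :
    ∃ P' : Fin (M + 1) → PI (Fin (M + 1)), Good P' ∧ ∀ N, (PHalts P' (0, N) ↔ PHalts P (0, N)) := by
  refine ⟨fun q => conv M (P q), fun q => ?_, fun N => ?_⟩
  · rw [conv_pr]
    exact hg _
  · unfold PHalts
    refine exists_congr fun n => ?_
    have h := run_conv M P hP 0 N n
    rw [Fin.val_zero] at h
    rw [← h, Option.map_eq_none_iff]

end CPM
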