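import Pool.Agent.Lib.CPM.Defs

/-!
# Module Fuel: the refuelled system

`T2` on `C × Bool`: `(c, true)` runs forward along `T`; if the run ends at a point with `Fo`, it turns to sign `false` and
runs backward along `T`; at the beginning `c` of the `T`-chain it goes on to `(io c, true)` if `io c` is defined.
In `T2` all steps are injective.
-/

set_option autoImplicit false

namespace CPM

variable {C : Type}

theorem f2_b2 (T io : C ≃. C) (Fo : C → Bool) (h : FOk T io Fo) (x y : C × Bool) :
    f2 T io Fo x = some y ↔ b2 T io Fo y = some x := by
  obtain ⟨a, s⟩ := x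
  obtain ⟨b, t⟩ := y
  have hT : ∀ {a b : C}, T.symm b = some a ↔ T a = some b := fun {a b} => T.eq_some_iff
  have hI : ∀ {a b : C}, io.symm b = some a ↔ io a = some b := fun {a b} => io.eq_some_iff
  constructor
  · intro h1
    cases s with
    | false =>
      cases hTa : T.symm a with
      | some a' =>
        simp only [f2, hTa, Bool.false_eq_true, if_false, Option.some.injEq, Prod.mk.injEq] at h1
        obtain ⟨rfl, rfl⟩ := h1
        simp only [b2, Bool.false_eq_true, if_false, hT.1 hTa]
      | none =>
        cases hia : io a with
        | none =>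
          simp only [f2, hTa, hia, Bool.false_eq_true, if_false, Option.map_none] at h1
          exact absurd h1 (by simp)
        | some c =>
          simp only [f2, hTa, hia, Bool.false_eq_true, if_false, Option.map_some,
            Option.some.injEq, Prod.mk.injEq] at h1
          obtain ⟨rfl, rfl⟩ := h1
          simp only [b2, if_true, (h.io _ _ hia).2, hI.2 hia, Option.map_some]
    | true =>
      cases hTa : T a with
      | some a' =>
        simp only [f2, hTa, if_true, Option.some.injEq, Prod.mk.injEq] at h1
        obtain ⟨rfl, rfl⟩ := h1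
        simp only [b2, if_true, hT.2 hTa]
      | none =>
        cases hF : Fo a with
        | false =>
          simp only [f2, hTa, hF, if_true, Bool.false_eq_true, if_false] at h1
          exact absurd h1 (by simp)
        | true =>
          simp only [f2, hTa, hF, if_true, Option.some.injEq, Prod.mk.injEq] at h1
          obtain ⟨rfl, rfl⟩ := h1
          simp only [b2, Bool.false_eq_true, if_false, hTa, hF, if_true]
  · intro h1
    cases t with
    | false =>
      cases hTb : T b with
      | some b' =>
        simp only [b2, hTb, Bool.false_eq_true, if_false, Option.some.injEq, Prod.mk.injEq] at h1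
        obtain ⟨rfl, rfl⟩ := h1
        simp only [f2, Bool.false_eq_true, if_false, hT.2 hTb]
      | none =>
        cases hF : Fo b with
        | false =>
          simp only [b2, hTb, hF, Bool.false_eq_true, if_false] at h1
          exact absurd h1 (by simp)
        | true =>
          simp only [b2, hTb, hF, Bool.false_eq_true, if_false, if_true, Option.some.injEq,
            Prod.mk.injEq] at h1
          obtain ⟨rfl, rfl⟩ := h1
          simp only [f2, if_true, hTb, hF]
    | true =>
      cases hTb : T.symm b with
      | some b' =>
        simp only [b2, hTb, if_true, Option.some.injEq, Prod.mk.injEq] at h1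
        obtain ⟨rfl, rfl⟩ := h1
        simp only [f2, if_true, hT.1 hTb]
      | none =>
        cases hib : io.symm b with
        | none =>
          simp only [b2, hTb, hib, if_true, Option.map_none] at h1
          exact absurd h1 (by simp)
        | some c =>
          simp only [b2, hTb, hib, if_true, Option.map_some, Option.some.injEq,
            Prod.mk.injEq] at h1
          obtain ⟨rfl, rfl⟩ := h1
          simp only [f2, Bool.false_eq_true, if_false, (h.io _ _ (hI.1 hib)).1, hI.1 hib,
            Option.map_some]

/-- the refuelled system -/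
def T2 (T io : C ≃. C) (Fo : C → Bool) (h : FOk T io Fo) : C × Bool ≃. C × Bool where
  toFun := f2 T io Fo
  invFun := b2 T io Fo
  inv x y := (f2_b2 T io Fo h x y).symm

theorem run_add (f : C → Option C) (m n : ℕ) (c : C) : run f (m + n) c = (run f m c).bind (run f n) := by
  induction n with
  | zero =>
    cases hc : run f m c with
    | none => simp [hc]
    | some d => simp [hc, run]
  | succ n ih =>
    have h1 : run f (m + (n + 1)) c = (run f (m + n) c).bind f := rfl
    rw [h1, ih]
    cases hc : run f m c with
    | none => rfl
    | some d => rfl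

theorem run_symm (f : C ≃. C) (n : ℕ) (c d : C) : run f n c = some d ↔ run f.symm n d = some c := by
  induction n generalizing c d with
  | zero =>
    simp only [run, Option.some.injEq]
    exact eq_comm
  | succ n ih =>
    have h1 : run f (n + 1) c = (run f n c).bind f := rfl
    have h2 : run f.symm (n + 1) d = (f.symm d).bind (run f.symm n) := by
      rw [Nat.add_comm, run_add]
      rfl
    rw [h1, h2, Option.bind_eq_some_iff, Option.bind_eq_some_iff]
    constructor
    · rintro ⟨e, he, hf⟩
      exact ⟨e, f.eq_some_iff.2 hf, (ih c e).1 he⟩
    · rintro ⟨e, he, hf⟩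
      exact ⟨e, (ih c e).2 hf, f.eq_some_iff.1 he⟩

namespace FuelAux

theorem run_succ' (f : C → Option C) (n : ℕ) (c : C) : run f (n + 1) c = (f c).bind (run f n) := by
  rw [Nat.add_comm, run_add]
  rfl

theorem run_none_of {f : C → Option C} {m : ℕ} {c d : C} (h : run f m c = some d)
    (h' : ∃ n, run f n d = none) : ∃ n, run f n c = none := by
  obtain ⟨n, hn⟩ := h'
  refine ⟨m + n, ?_⟩
  rw [run_add, h]
  exact hn

theorem run_some_le {f : C → Option C} {m : ℕ} {c e : C} (h : run f m c = some e) {j : ℕ}
    (hj : j ≤ m) : ∃ d, run f j c = some d ∧ run f (m - j) d = some e := by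
  obtain ⟨i, rfl⟩ := Nat.exists_eq_add_of_le hj
  rw [run_add, Option.bind_eq_some_iff] at h
  obtain ⟨d, hd, he⟩ := h
  exact ⟨d, hd, by rw [Nat.add_sub_cancel_left]; exact he⟩

/-- a finite run has a last point -/
theorem last_pt {f : C → Option C} {c : C} (h : ∃ n, run f n c = none) :
    ∃ k e, run f k c = some e ∧ f e = none := by
  classical
  obtain ⟨n, hn⟩ := h
  induction n with
  | zero => exact absurd hn (by simp [run])
  | succ n ih =>
    cases hc : run f n c with
    | none => exact ih hc
    | some d =>
      refine ⟨n, d, hc, ?_⟩
      have h1 : run f (n + 1) c = (run f n c).bind f := rfl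
      rw [h1, hc] at hn
      exact hn

end FuelAux

/-- a potential with values in a well-founded order which strictly increases along `f`: backward runs end -/
theorem bwd_fin {α : Type} [Preorder α] [WellFoundedLT α] (f : C ≃. C) (Φ : C → α)
    (h : ∀ c d, f c = some d → Φ c < Φ d) (c : C) : ∃ n, run f.symm n c = none := by
  have hwf : WellFounded (InvImage (fun a b : α => a < b) Φ) := InvImage.wf Φ wellFounded_lt
  induction c using hwf.induction with
  | _ c ih =>
    cases hc : f.symm c with
    | none => exact ⟨1, by rw [FuelAux.run_succ', hc]; rfl⟩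
    | some d =>
      have h1 := ih d (h d c (f.eq_some_iff.1 hc))
      obtain ⟨n, hn⟩ := h1
      exact ⟨n + 1, by rw [FuelAux.run_succ', hc]; exact hn⟩

/-- a potential which strictly decreases: forward runs end -/
theorem fwd_fin {α : Type} [Preorder α] [WellFoundedLT α] (f : C → Option C) (Φ : C → α)
    (h : ∀ c d, f c = some d → Φ d < Φ c) (c : C) : ∃ n, run f n c = none := by
  have hwf : WellFounded (InvImage (fun a b : α => a < b) Φ) := InvImage.wf Φ wellFounded_lt
  induction c using hwf.induction with
  | _ c ih =>
    cases hc : f c with
    | none => exact ⟨1, by rw [FuelAux.run_succ', hc]; rfl⟩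
    | some d =>
      obtain ⟨n, hn⟩ := ih d (h c d hc)
      exact ⟨n + 1, by rw [FuelAux.run_succ', hc]; exact hn⟩

section

variable (T io : C ≃. C) (Fo : C → Bool) (h : FOk T io Fo)

namespace FuelAux

theorem T2_true_some {a b : C} (hab : T a = some b) : (T2 T io Fo h) (a, true) = some (b, true) := by
  change f2 T io Fo (a, true) = some (b, true)
  simp only [f2, if_true, hab]

theorem T2_true_fo {a : C} (ha : Fo a = true) : (T2 T io Fo h) (a, true) = some (a, false) := by
  change f2 T io Fo (a, true) = some (a, false)
  simp only [f2, if_true, h.fo a ha, ha]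

theorem T2_true_none {a : C} (ha : T a = none) (hF : Fo a = false) :
    (T2 T io Fo h) (a, true) = none := by
  change f2 T io Fo (a, true) = none
  simp only [f2, if_true, ha, hF, Bool.false_eq_true, if_false]

theorem T2_false_some {a b : C} (hab : T a = some b) :
    (T2 T io Fo h) (b, false) = some (a, false) := by
  change f2 T io Fo (b, false) = some (a, false)
  simp only [f2, Bool.false_eq_true, if_false, T.eq_some_iff.2 hab]

theorem T2_false_none {a : C} (ha : T.symm a = none) :
    (T2 T io Fo h) (a, false) = (io a).map fun y => (y, true) := by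
  change f2 T io Fo (a, false) = (io a).map fun y => (y, true)
  simp only [f2, Bool.false_eq_true, if_false, ha]

theorem T2_fwd (c d : C) (j : ℕ) (hj : run T j c = some d) :
    run (T2 T io Fo h) j (c, true) = some (d, true) := by
  induction j generalizing d with
  | zero =>
    simp only [run, Option.some.injEq] at hj
    subst hj
    rfl
  | succ j ih =>
    have h1 : run T (j + 1) c = (run T j c).bind T := rfl
    rw [h1, Option.bind_eq_some_iff] at hj
    obtain ⟨e, he, hd⟩ := hj
    have h2 : run (T2 T io Fo h) (j + 1) (c, true) =
      (run (T2 T io Fo h) j (c, true)).bind (T2 T io Fo h) := rfl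
    rw [h2, ih e he, Option.bind_some, T2_true_some T io Fo h hd]

theorem T2_back (d e : C) (i : ℕ) (hi : run T i d = some e) :
    run (T2 T io Fo h) i (e, false) = some (d, false) := by
  induction i generalizing e with
  | zero =>
    simp only [run, Option.some.injEq] at hi
    subst hi
    rfl
  | succ i ih =>
    have h1 : run T (i + 1) d = (run T i d).bind T := rfl
    rw [h1, Option.bind_eq_some_iff] at hi
    obtain ⟨e', he', he⟩ := hi
    rw [run_succ', T2_false_some T io Fo h he, Option.bind_some]
    exact ih e' he'

theorem T2_turn {c e : C} {k : ℕ} (he : run T k c = some e) (hFo : Fo e = true) :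
    run (T2 T io Fo h) (k + 1) (c, true) = some (e, false) := by
  have h2 : run (T2 T io Fo h) (k + 1) (c, true) =
    (run (T2 T io Fo h) k (c, true)).bind (T2 T io Fo h) := rfl
  rw [h2, T2_fwd T io Fo h c e k he, Option.bind_some, T2_true_fo T io Fo h hFo]

end FuelAux

/-- one round: from the beginning `c` of a `T`-chain to `io c`, if the chain ends with empty fuel; the signs `false` on
the way are at points of the chain (at times `< n`) -/
theorem round (c c' e : C) (k : ℕ) (hc : io c = some c') (he : run T k c = some e) (hFo : Fo e = true) :
    run (T2 T io Fo h) (2 * k + 2) (c, true) = some (c', true) ∧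
      ∀ j < 2 * k + 2, ∃ i ≤ k, ∃ d b, run T i c = some d ∧ run (T2 T io Fo h) j (c, true) = some (d, b) := by
  have hback : ∀ i d, run T i d = some e →
      run (T2 T io Fo h) (k + 1 + i) (c, true) = some (d, false) := by
    intro i d hd
    rw [run_add, FuelAux.T2_turn T io Fo h he hFo, Option.bind_some]
    exact FuelAux.T2_back T io Fo h d e i hd
  constructor
  · have h1 : 2 * k + 2 = (k + 1 + k) + 1 := by ring
    rw [h1]
    have h2 : run (T2 T io Fo h) ((k + 1 + k) + 1) (c, true) =
      (run (T2 T io Fo h) (k + 1 + k) (c, true)).bind (T2 T io Fo h) := rfl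
    rw [h2, hback k c he, Option.bind_some, FuelAux.T2_false_none T io Fo h (h.io c c' hc).1, hc]
    rfl
  · intro j hj
    rcases Nat.lt_or_ge k j with h1 | h1
    · obtain ⟨i, hi⟩ := Nat.exists_eq_add_of_le (Nat.succ_le_of_lt h1)
      have hi2 : i ≤ k := by omega
      obtain ⟨d, hd, hd'⟩ := FuelAux.run_some_le he (show k - i ≤ k by omega)
      refine ⟨k - i, by omega, d, false, hd, ?_⟩
      have h3 : k - (k - i) = i := by omega
      rw [h3] at hd'
      have h4 := hback i d hd'
      have h5 : j = k + 1 + i := by omega
      rw [h5]
      exact h4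
    · obtain ⟨d, hd, _⟩ := FuelAux.run_some_le he h1
      exact ⟨j, h1, d, true, hd, FuelAux.T2_fwd T io Fo h c d j hd⟩

/-- if the chain ends with fuel, the run of `T2` ends -/
theorem last_round (c e : C) (k : ℕ) (he : run T k c = some e) (he' : T e = none) (hFo : Fo e = false) :
    run (T2 T io Fo h) (k + 1) (c, true) = none := by
  have h2 : run (T2 T io Fo h) (k + 1) (c, true) =
    (run (T2 T io Fo h) k (c, true)).bind (T2 T io Fo h) := rfl
  rw [h2, FuelAux.T2_fwd T io Fo h c e k he, Option.bind_some,
    FuelAux.T2_true_none T io Fo h he' hFo]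

namespace FuelAux

theorem reach_false (hb : ∀ c, ∃ n, run T.symm n c = none) (c : C) :
    (∃ n, run (T2 T io Fo h) n (c, false) = none) ∨
    ∃ n d c', io d = some c' ∧ run (T2 T io Fo h) n (c, false) = some (d, false) ∧
      run (T2 T io Fo h) (n + 1) (c, false) = some (c', true) := by
  obtain ⟨k, d, hk, hd⟩ := last_pt (hb c)
  have h1 := T2_back T io Fo h d c k ((run_symm T k d c).2 hk)
  have h2 : run (T2 T io Fo h) (k + 1) (c, false) =
    (run (T2 T io Fo h) k (c, false)).bind (T2 T io Fo h) := rfl
  rw [h1, Option.bind_some, T2_false_none T io Fo h hd] at h2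
  cases hi : io d with
  | none =>
    left
    refine ⟨k + 1, ?_⟩
    rw [h2, hi]
    rfl
  | some c' =>
    right
    refine ⟨k, d, c', hi, h1, ?_⟩
    rw [h2, hi]
    rfl

end FuelAux

/-- from any point the run of `T2` ends or comes to some `(io d, true)` (through `(d, false)`) -/
theorem reach_io (hf : ∀ c, ∃ n, run T n c = none) (hb : ∀ c, ∃ n, run T.symm n c = none) (x : C × Bool) : (∃ n, run (T2 T io Fo h) n x = none) ∨
    ∃ n d c, io d = some c ∧ run (T2 T io Fo h) n x = some (d, false) ∧
      run (T2 T io Fo h) (n + 1) x = some (c, true) := by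
  obtain ⟨a, s⟩ := x
  cases s with
  | false => exact FuelAux.reach_false T io Fo h hb a
  | true =>
    obtain ⟨k, e, hk, he⟩ := FuelAux.last_pt (hf a)
    cases hF : Fo e with
    | false => exact Or.inl ⟨k + 1, last_round T io Fo h a e k hk he hF⟩
    | true =>
      have h1 := FuelAux.T2_turn T io Fo h hk hF
      rcases FuelAux.reach_false T io Fo h hb e with h2 | ⟨n, d, c, h2, h3, h4⟩
      · exact Or.inl (FuelAux.run_none_of h1 h2)
      · right
        refine ⟨k + 1 + n, d, c, h2, ?_, ?_⟩
        · rw [run_add, h1]
          exact h3
        · rw [Nat.add_assoc (k + 1) n 1, run_add, h1]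
          exact h4

namespace FuelAux

theorem S_true (c d : C) (k : ℕ) (hk : run T.symm k c = some d) :
    run (T2 T io Fo h).symm k (c, true) = some (d, true) := by
  rw [← run_symm]
  exact T2_fwd T io Fo h d c k ((run_symm T k d c).2 hk)

theorem S_false (c d : C) (k : ℕ) (hk : run T k c = some d) :
    run (T2 T io Fo h).symm k (c, false) = some (d, false) := by
  rw [← run_symm]
  exact T2_back T io Fo h c d k hk

theorem S_true_none {a : C} (ha : T.symm a = none) :
    (T2 T io Fo h).symm (a, true) = (io.symm a).map fun y => (y, false) := by
  change b2 T io Fo (a, true) = (io.symm a).map fun y => (y, false)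
  simp only [b2, if_true, ha]

theorem S_false_none {a : C} (ha : T a = none) :
    (T2 T io Fo h).symm (a, false) = if Fo a then some (a, true) else none := by
  change b2 T io Fo (a, false) = if Fo a then some (a, true) else none
  simp only [b2, Bool.false_eq_true, if_false, ha]

theorem run_one_some {f : C → Option C} {c d : C} (hcd : f c = some d) : run f 1 c = some d := by
  have h1 : run f 1 c = (run f 0 c).bind f := rfl
  rw [h1]
  exact hcd

theorem run_one_none {f : C → Option C} {c : C} (hcd : f c = none) : run f 1 c = none := by
  have h1 : run f 1 c = (run f 0 c).bind f := rfl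
  rw [h1]
  exact hcd

theorem bwd_start (hf : ∀ c, ∃ n, run T n c = none) (ν : C → ℕ)
    (hν : ∀ c d, io c = some d → ν c < ν d) (m : ℕ) (c : C) (hm : ν c = m)
    (hc : T.symm c = none) : ∃ n, run (T2 T io Fo h).symm n (c, true) = none := by
  induction m using Nat.strong_induction_on generalizing c with
  | _ m ih =>
    have h1 := S_true_none T io Fo h hc
    cases hi : io.symm c with
    | none =>
      rw [hi] at h1
      exact ⟨1, run_one_none h1⟩
    | some y =>
      rw [hi] at h1
      have hy : io y = some c := io.eq_some_iff.1 hi
      have hyc := hν y c hy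
      have hys := (h.io y c hy).1
      obtain ⟨k, e, hk, he⟩ := last_pt (hf y)
      have h2 := S_false T io Fo h y e k hk
      have h3 := S_false_none T io Fo h he
      refine run_none_of (run_one_some h1) (run_none_of h2 ?_)
      cases hF : Fo e with
      | false =>
        rw [hF] at h3
        exact ⟨1, run_one_none h3⟩
      | true =>
        rw [hF] at h3
        refine run_none_of (run_one_some h3) ?_
        refine run_none_of (S_true T io Fo h e y k ((run_symm T k y e).1 hk)) ?_
        exact ih (ν y) (by omega) y rfl hys

end FuelAux

/-- backward runs of `T2` end, if `ν` increases along `io` -/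
theorem T2_bwd (hf : ∀ c, ∃ n, run T n c = none) (hb : ∀ c, ∃ n, run T.symm n c = none) (ν : C → ℕ) (hν : ∀ c d, io c = some d → ν c < ν d) (x : C × Bool) :
    ∃ n, run (T2 T io Fo h).symm n x = none := by
  have htrue : ∀ c : C, ∃ n, run (T2 T io Fo h).symm n (c, true) = none := by
    intro c
    obtain ⟨k, d, hk, hd⟩ := FuelAux.last_pt (hb c)
    exact FuelAux.run_none_of (FuelAux.S_true T io Fo h c d k hk)
      (FuelAux.bwd_start T io Fo h hf ν hν _ d rfl hd)
  obtain ⟨a, s⟩ := x
  cases s with
  | true => exact htrue a
  | false =>
    obtain ⟨k, e, hk, he⟩ := FuelAux.last_pt (hf a)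
    refine FuelAux.run_none_of (FuelAux.S_false T io Fo h a e k hk) ?_
    have h3 := FuelAux.S_false_none T io Fo h he
    cases hF : Fo e with
    | false =>
      rw [hF] at h3
      exact ⟨1, FuelAux.run_one_none h3⟩
    | true =>
      rw [hF] at h3
      exact FuelAux.run_none_of (FuelAux.run_one_some h3) (htrue e)

end

end CPM
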