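import Pool.Agent.Lib.CPM.Code

/-!
# Module Hom: the permutation is homogeneous on the residue classes of the number
-/

set_option autoImplicit false

namespace CPM

variable {M : ℕ} [NeZero M]

namespace HomAux

/-- homogeneous on the residue class of `N0` modulo `m` -/
def HO {S : Type} (m N0 : ℕ) (F : ℕ → Option (S × ℕ)) : Prop :=
  (∀ N, N ≠ 0 → N ≡ N0 [MOD m] → F N = none) ∨
    ∃ (s' : S) (u v : ℕ), 0 < u ∧ 0 < v ∧ v ∣ m ∧
      ∀ N, N ≠ 0 → N ≡ N0 [MOD m] → v ∣ N ∧ F N = some (s', u * (N / v))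

section

variable {S : Type} {m N0 : ℕ}

theorem HO.none (F : ℕ → Option (S × ℕ)) (h : ∀ N, N ≠ 0 → N ≡ N0 [MOD m] → F N = Option.none) :
    HO m N0 F := Or.inl h

theorem HO.some (F : ℕ → Option (S × ℕ)) (s' : S) (u v : ℕ) (hu : 0 < u) (hv : 0 < v)
    (hvm : v ∣ m) (hvN : v ∣ N0)
    (h : ∀ N, N ≠ 0 → N ≡ N0 [MOD m] → v ∣ N → F N = Option.some (s', u * (N / v))) :
    HO m N0 F := by
  refine Or.inr ⟨s', u, v, hu, hv, hvm, fun N hN hc => ?_⟩
  have h1 : v ∣ N := (hc.dvd_iff hvm).2 hvN
  exact ⟨h1, h N hN hc h1⟩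

theorem HO.congr {F G : ℕ → Option (S × ℕ)} (hG : HO m N0 G)
    (h : ∀ N, N ≠ 0 → N ≡ N0 [MOD m] → F N = G N) : HO m N0 F := by
  rcases hG with h1 | ⟨s', u, v, hu, hv, hvm, h1⟩
  · exact Or.inl fun N hN hc => (h N hN hc).trans (h1 N hN hc)
  · exact Or.inr ⟨s', u, v, hu, hv, hvm, fun N hN hc =>
      ⟨(h1 N hN hc).1, (h N hN hc).trans (h1 N hN hc).2⟩⟩

theorem fact_eq {K N : ℕ} (hN0 : N0 ≠ 0) (hN : N ≠ 0) (hc : N ≡ N0 [MOD m]) (hK : 2 ^ K ∣ m)
    (h2 : ¬ 2 ^ K ∣ N0) : N.factorization 2 = N0.factorization 2 := by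
  have key : ∀ a b : ℕ, a ≠ 0 → b ≠ 0 → a ≡ b [MOD m] → ¬ 2 ^ K ∣ b →
      b.factorization 2 ≤ a.factorization 2 := by
    intro a b ha hb hab h
    have h3 : b.factorization 2 ≤ K := by
      by_contra hcon
      push Not at hcon
      exact h ((Nat.prime_two.pow_dvd_iff_le_factorization hb).2 hcon.le)
    have h4 : 2 ^ b.factorization 2 ∣ a :=
      (hab.dvd_iff ((Nat.pow_dvd_pow 2 h3).trans hK)).2
        ((Nat.prime_two.pow_dvd_iff_le_factorization hb).2 le_rfl)
    exact (Nat.prime_two.pow_dvd_iff_le_factorization ha).1 h4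
  have h5 : ¬ 2 ^ K ∣ N := fun h => h2 ((hc.dvd_iff hK).1 h)
  exact le_antisymm (key N0 N hN0 hN hc.symm h5) (key N N0 hN hN0 hc h2)

end

section

variable (P : Fin M → PI (Fin M)) (hP : Good P)

omit [NeZero M] in
include hP in
theorem pr_pos (q : Fin M) : 0 < (P q).pr := by
  rcases Nat.eq_zero_or_pos (P q).pr with h | h
  · have := hP q
    rw [h] at this
    simp at this
  · exact h

omit [NeZero M] in
theorem pr_dvd (q : Fin M) : (P q).pr ∣ ∏ q, (P q).pr :=
  Finset.dvd_prod_of_mem (fun q => (P q).pr) (Finset.mem_univ q)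

omit [NeZero M] in
theorem d2 : 2 ∣ mN P := by
  unfold mN
  refine Dvd.dvd.mul_right (Dvd.dvd.mul_left ?_ 15) _
  exact dvd_pow_self 2 (by unfold bs; omega)

omit [NeZero M] in
theorem d3 : 3 ∣ mN P := by
  unfold mN
  exact Dvd.dvd.mul_right (Dvd.dvd.mul_right (by norm_num) _) _

omit [NeZero M] in
theorem d5 : 5 ∣ mN P := by
  unfold mN
  exact Dvd.dvd.mul_right (Dvd.dvd.mul_right (by norm_num) _) _

omit [NeZero M] in
theorem dbs : 2 ^ bs M ∣ mN P := by
  unfold mN
  exact Dvd.dvd.mul_right (Dvd.dvd.mul_left dvd_rfl 15) _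

omit [NeZero M] in
theorem dp (q : Fin M) : (P q).pr ∣ mN P := by
  unfold mN
  exact Dvd.dvd.mul_left (pr_dvd P q) _

omit [NeZero M] in
theorem d5p (q : Fin M) : 5 * (P q).pr ∣ mN P := by
  unfold mN
  refine mul_dvd_mul ?_ (pr_dvd P q)
  exact Dvd.dvd.mul_right (by norm_num) _

omit [NeZero M] in
include hP in
theorem mN_pos : 0 < mN P := by
  unfold mN
  have : 0 < ∏ q, (P q).pr := Finset.prod_pos fun q _ => pr_pos P hP q
  positivity

variable {N0 : ℕ} (hN0 : N0 ≠ 0)

include hP

theorem ho_fwd (s : Ctrl M) : HO (mN P) N0 (fun N => fwd P (s, N)) := by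
  have h2 := d2 P
  have h3 := d3 P
  have h5 := d5 P
  cases s with
  | I =>
    by_cases h : ¬ 2 ∣ N0 ∧ ¬ 3 ∣ N0
    · refine HO.some _ (.G 0) 1 1 one_pos one_pos (one_dvd _) (one_dvd _) fun N hN hc _ => ?_
      have hc2 := hc.dvd_iff h2
      have hc3 := hc.dvd_iff h3
      simp only [fwd]
      rw [if_pos ⟨hN, by rw [hc2]; exact h.1, by rw [hc3]; exact h.2⟩]
      simp
    · refine HO.none _ fun N hN hc => ?_
      have hc2 := hc.dvd_iff h2
      have hc3 := hc.dvd_iff h3
      simp only [fwd]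
      rw [if_neg]
      rintro ⟨_, h6, h7⟩
      rw [hc2] at h6
      rw [hc3] at h7
      exact h ⟨h6, h7⟩
  | R q =>
    by_cases h : 3 ∣ N0 ∨ ¬ 5 ∣ N0
    · refine HO.none _ fun N hN hc => ?_
      have hc3 := hc.dvd_iff h3
      have hc5 := hc.dvd_iff h5
      simp only [fwd]
      rw [if_pos]
      rw [hc3, hc5]
      exact Or.inr h
    · have hcond : ∀ N, N ≠ 0 → N ≡ N0 [MOD mN P] → ¬ (N = 0 ∨ 3 ∣ N ∨ ¬ 5 ∣ N) := by
        intro N hN hc hcon
        rw [hc.dvd_iff h3, hc.dvd_iff h5] at hcon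
        rcases hcon with h6 | h6
        · exact hN h6
        · exact h h6
      have hN5 : 5 ∣ N0 := by
        by_contra hcon
        exact h (Or.inr hcon)
      cases hq : P q with
      | halt =>
        refine HO.none _ fun N hN hc => ?_
        simp only [fwd, hq]
        rw [if_neg (hcond N hN hc)]
      | go q' =>
        refine HO.some _ (.H q false) 1 5 one_pos (by norm_num) h5 hN5 fun N hN hc _ => ?_
        simp only [fwd, hq]
        rw [if_neg (hcond N hN hc), one_mul]
      | inc p q' =>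
        have hp : 0 < p := by
          have := pr_pos P hP q
          rwa [hq] at this
        refine HO.some _ (.H q false) p 5 hp (by norm_num) h5 hN5 fun N hN hc _ => ?_
        simp only [fwd, hq]
        rw [if_neg (hcond N hN hc)]
      | dec p q0 q1 =>
        have hp : 0 < p := by
          have := pr_pos P hP q
          rwa [hq] at this
        have h5p : 5 * p ∣ mN P := by
          have := d5p P q
          rwa [hq] at this
        by_cases hd : 5 * p ∣ N0
        · refine HO.some _ (.H q true) 1 (5 * p) one_pos (by positivity) h5p hd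
            fun N hN hc h6 => ?_
          simp only [fwd, hq]
          rw [if_neg (hcond N hN hc), if_pos, one_mul, Nat.div_div_eq_div_mul]
          exact (Nat.dvd_div_iff_mul_dvd (dvd_of_mul_right_dvd h6)).2 h6
        · refine HO.some _ (.H q false) 1 5 one_pos (by norm_num) h5 hN5 fun N hN hc h6 => ?_
          simp only [fwd, hq]
          rw [if_neg (hcond N hN hc), if_neg, one_mul]
          rw [Nat.dvd_div_iff_mul_dvd h6, hc.dvd_iff h5p]
          exact hd
  | H q b =>
    by_cases h : 2 ∣ N0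
    · refine HO.some _ (.H q b) 3 2 (by norm_num) (by norm_num) h2 h fun N hN hc h6 => ?_
      simp only [fwd]
      rw [if_neg hN, if_pos h6]
    · cases ht : (P q).tgt b with
      | none =>
        refine HO.none _ fun N hN hc => ?_
        simp only [fwd]
        rw [if_neg hN, if_neg (by rw [hc.dvd_iff h2]; exact h), ht]
      | some q' =>
        refine HO.some _ (.G q') (2 ^ dig q b) 1 (by positivity) one_pos (one_dvd _) (one_dvd _)
          fun N hN hc _ => ?_
        simp only [fwd]
        rw [if_neg hN, if_neg (by rw [hc.dvd_iff h2]; exact h), ht, Nat.div_one]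
  | G q =>
    by_cases h : 3 ∣ N0
    · refine HO.some _ (.G q) (2 ^ bs M) 3 (by positivity) (by norm_num) h3 h
        fun N hN hc h6 => ?_
      simp only [fwd]
      rw [if_neg hN, if_pos h6]
    · refine HO.some _ (.R q) 1 1 one_pos one_pos (one_dvd _) (one_dvd _) fun N hN hc _ => ?_
      simp only [fwd]
      rw [if_neg hN, if_neg (by rw [hc.dvd_iff h3]; exact h), Nat.div_one, one_mul]

include hN0 in
theorem ho_bwd (s : Ctrl M) : HO (mN P) N0 (fun N => bwd P (s, N)) := by
  have h2 := d2 P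
  have h3 := d3 P
  have hb := dbs P
  cases s with
  | I => exact HO.none _ fun N hN hc => rfl
  | R q =>
    by_cases h : 3 ∣ N0
    · refine HO.none _ fun N hN hc => ?_
      simp only [bwd]
      rw [if_pos (Or.inr ((hc.dvd_iff h3).2 h))]
    · refine HO.some _ (.G q) 1 1 one_pos one_pos (one_dvd _) (one_dvd _) fun N hN hc _ => ?_
      simp only [bwd]
      rw [if_neg, Nat.div_one, one_mul]
      rintro (h6 | h6)
      · exact hN h6
      · exact h ((hc.dvd_iff h3).1 h6)
  | H q b =>
    by_cases h : 3 ∣ N0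
    · refine HO.some _ (.H q b) 2 3 (by norm_num) (by norm_num) h3 h fun N hN hc h6 => ?_
      simp only [bwd]
      rw [if_neg hN, if_pos h6]
    · have hn3 : ∀ N, N ≡ N0 [MOD mN P] → ¬ 3 ∣ N := fun N hc => by
        rw [hc.dvd_iff h3]
        exact h
      cases hq : P q with
      | halt =>
        refine HO.none _ fun N hN hc => ?_
        cases b <;> simp only [bwd, hq] <;> rw [if_neg hN, if_neg (hn3 N hc)]
      | go q' =>
        cases b with
        | false =>
          refine HO.some _ (.R q) 5 1 (by norm_num) one_pos (one_dvd _) (one_dvd _)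
            fun N hN hc _ => ?_
          simp only [bwd, hq]
          rw [if_neg hN, if_neg (hn3 N hc), Nat.div_one]
        | true =>
          refine HO.none _ fun N hN hc => ?_
          simp only [bwd, hq]
          rw [if_neg hN, if_neg (hn3 N hc)]
      | inc p q' =>
        have hp : 0 < p := by
          have := pr_pos P hP q
          rwa [hq] at this
        have hpm : p ∣ mN P := by
          have := dp P q
          rwa [hq] at this
        cases b with
        | false =>
          by_cases hd : p ∣ N0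
          · refine HO.some _ (.R q) 5 p (by norm_num) hp hpm hd fun N hN hc h6 => ?_
            simp only [bwd, hq]
            rw [if_neg hN, if_neg (hn3 N hc), if_pos h6]
          · refine HO.none _ fun N hN hc => ?_
            simp only [bwd, hq]
            rw [if_neg hN, if_neg (hn3 N hc), if_neg (by rw [hc.dvd_iff hpm]; exact hd)]
        | true =>
          refine HO.none _ fun N hN hc => ?_
          simp only [bwd, hq]
          rw [if_neg hN, if_neg (hn3 N hc)]
      | dec p q0 q1 =>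
        have hp : 0 < p := by
          have := pr_pos P hP q
          rwa [hq] at this
        have hpm : p ∣ mN P := by
          have := dp P q
          rwa [hq] at this
        cases b with
        | false =>
          by_cases hd : p ∣ N0
          · refine HO.none _ fun N hN hc => ?_
            simp only [bwd, hq]
            rw [if_neg hN, if_neg (hn3 N hc), if_pos ((hc.dvd_iff hpm).2 hd)]
          · refine HO.some _ (.R q) 5 1 (by norm_num) one_pos (one_dvd _) (one_dvd _)
              fun N hN hc _ => ?_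
            simp only [bwd, hq]
            rw [if_neg hN, if_neg (hn3 N hc), if_neg (by rw [hc.dvd_iff hpm]; exact hd),
              Nat.div_one]
        | true =>
          refine HO.some _ (.R q) (5 * p) 1 (by positivity) one_pos (one_dvd _) (one_dvd _)
            fun N hN hc _ => ?_
          simp only [bwd, hq]
          rw [if_neg hN, if_neg (hn3 N hc), Nat.div_one, mul_assoc]
  | G q =>
    by_cases h : 2 ^ bs M ∣ N0
    · refine HO.some _ (.G q) 3 (2 ^ bs M) (by norm_num) (by positivity) hb h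
        fun N hN hc h6 => ?_
      simp only [bwd]
      rw [if_neg hN, if_pos h6]
    · have hnb : ∀ N, N ≡ N0 [MOD mN P] → ¬ 2 ^ bs M ∣ N := fun N hc => by
        rw [hc.dvd_iff hb]
        exact h
      by_cases h2' : 2 ∣ N0
      · have hf : ∀ N, N ≠ 0 → N ≡ N0 [MOD mN P] → N.factorization 2 = N0.factorization 2 :=
          fun N hN hc => fact_eq hN0 hN hc hb h
        cases hu : udig (M := M) (N0.factorization 2) with
        | none =>
          refine HO.none _ fun N hN hc => ?_
          simp only [bwd]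
          rw [if_neg hN, if_neg (hnb N hc), if_pos ((hc.dvd_iff h2).2 h2'), hf N hN hc, hu]
        | some x =>
          obtain ⟨q0, b⟩ := x
          by_cases ht : (P q0).tgt b = some q
          · refine HO.some _ (.H q0 b) 1 (2 ^ N0.factorization 2) one_pos (by positivity) ?_ ?_
              fun N hN hc h6 => ?_
            · refine (Nat.pow_dvd_pow 2 ?_).trans hb
              by_contra hcon
              push Not at hcon
              exact h ((Nat.prime_two.pow_dvd_iff_le_factorization hN0).2 hcon.le)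
            · exact (Nat.prime_two.pow_dvd_iff_le_factorization hN0).2 le_rfl
            · simp only [bwd]
              rw [if_neg hN, if_neg (hnb N hc), if_pos ((hc.dvd_iff h2).2 h2'), hf N hN hc, hu]
              simp only
              rw [if_pos ht, one_mul]
          · refine HO.none _ fun N hN hc => ?_
            simp only [bwd]
            rw [if_neg hN, if_neg (hnb N hc), if_pos ((hc.dvd_iff h2).2 h2'), hf N hN hc, hu]
            simp only
            rw [if_neg ht]
      · by_cases hq : q = 0 ∧ ¬ 3 ∣ N0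
        · refine HO.some _ .I 1 1 one_pos one_pos (one_dvd _) (one_dvd _) fun N hN hc _ => ?_
          simp only [bwd]
          rw [if_neg hN, if_neg (hnb N hc), if_neg (by rw [hc.dvd_iff h2]; exact h2'),
            if_pos (by rw [hc.dvd_iff h3]; exact hq), Nat.div_one, one_mul]
        · refine HO.none _ fun N hN hc => ?_
          simp only [bwd]
          rw [if_neg hN, if_neg (hnb N hc), if_neg (by rw [hc.dvd_iff h2]; exact h2'),
            if_neg (by rw [hc.dvd_iff h3]; exact hq)]

omit [NeZero M] hP in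
theorem ho_ioF (s : Ctrl M) : HO (mN P) N0 (fun N => ioF (s, N)) := by
  have h2 := d2 P
  have h3 := d3 P
  cases s with
  | I =>
    by_cases h : ¬ 2 ∣ N0 ∧ ¬ 3 ∣ N0
    · refine HO.some _ .I 5 1 (by norm_num) one_pos (one_dvd _) (one_dvd _) fun N hN hc _ => ?_
      simp only [ioF]
      rw [if_pos ⟨hN, by rw [hc.dvd_iff h2]; exact h.1, by rw [hc.dvd_iff h3]; exact h.2⟩,
        Nat.div_one]
    · refine HO.none _ fun N hN hc => ?_
      simp only [ioF]
      rw [if_neg]
      rintro ⟨_, h6, h7⟩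
      rw [hc.dvd_iff h2] at h6
      rw [hc.dvd_iff h3] at h7
      exact h ⟨h6, h7⟩
  | R q => exact HO.none _ fun N hN hc => rfl
  | H q b => exact HO.none _ fun N hN hc => rfl
  | G q => exact HO.none _ fun N hN hc => rfl

omit [NeZero M] hP in
theorem ho_ioB (s : Ctrl M) : HO (mN P) N0 (fun N => ioB (s, N)) := by
  have h2 := d2 P
  have h3 := d3 P
  have h5 := d5 P
  cases s with
  | I =>
    by_cases h : ¬ 2 ∣ N0 ∧ ¬ 3 ∣ N0 ∧ 5 ∣ N0
    · refine HO.some _ .I 1 5 one_pos (by norm_num) h5 h.2.2 fun N hN hc h6 => ?_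
      simp only [ioB]
      rw [if_pos ⟨hN, by rw [hc.dvd_iff h2]; exact h.1, by rw [hc.dvd_iff h3]; exact h.2.1, h6⟩,
        one_mul]
    · refine HO.none _ fun N hN hc => ?_
      simp only [ioB]
      rw [if_neg]
      rintro ⟨_, h6, h7, h8⟩
      rw [hc.dvd_iff h2] at h6
      rw [hc.dvd_iff h3] at h7
      rw [hc.dvd_iff h5] at h8
      exact h ⟨h6, h7, h8⟩
  | R q => exact HO.none _ fun N hN hc => rfl
  | H q b => exact HO.none _ fun N hN hc => rfl
  | G q => exact HO.none _ fun N hN hc => rfl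

omit [NeZero M] hP in
theorem fo_const (s : Ctrl M) {N N' : ℕ} (hN : N ≠ 0) (hN' : N' ≠ 0) (hc : N ≡ N' [MOD mN P]) :
    fo P (s, N) = fo P (s, N') := by
  cases s with
  | I => rfl
  | R q =>
    simp only [fo]
    congr 1
    rw [decide_eq_decide, hc.dvd_iff (d3 P), hc.dvd_iff (d5 P)]
    simp [hN, hN']
  | H q b => rfl
  | G q => rfl

end

/-- add a second component to the state -/
theorem HO.tag {m N0 : ℕ} {S : Type} {F : ℕ → Option (S × ℕ)} (h : HO m N0 F) (b : Bool) :
    (∀ N, N ≠ 0 → N ≡ N0 [MOD m] → F N = Option.none) ∨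
    ∃ (s' : S) (u v : ℕ), 0 < u ∧ 0 < v ∧ v ∣ m ∧
      ∀ N, N ≠ 0 → N ≡ N0 [MOD m] → v ∣ N ∧
        (F N).map (fun y => (y, b)) = Option.some ((s', u * (N / v)), b) := by
  rcases h with h | ⟨s', u, v, hu, hv, hvm, h⟩
  · exact Or.inl h
  · refine Or.inr ⟨s', u, v, hu, hv, hvm, fun N hN hc => ⟨(h N hN hc).1, ?_⟩⟩
    rw [(h N hN hc).2]
    rfl

/-- homogeneous, for maps into signed configurations -/
def HO2 {S : Type} (m N0 : ℕ) (F : ℕ → Option ((S × ℕ) × Bool)) : Prop :=
  (∀ N, N ≠ 0 → N ≡ N0 [MOD m] → F N = none) ∨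
    ∃ (s' : S) (b' : Bool) (u v : ℕ), 0 < u ∧ 0 < v ∧ v ∣ m ∧
      ∀ N, N ≠ 0 → N ≡ N0 [MOD m] → v ∣ N ∧ F N = some ((s', u * (N / v)), b')

theorem HO2.ite_id {S : Type} {m N0 : ℕ} (F : ℕ → Option ((S × ℕ) × Bool)) (s : S) (c : ℕ → Bool)
    (b : Bool) (hc : ∀ N N', N ≠ 0 → N' ≠ 0 → N ≡ N' [MOD m] → c N = c N') (hN0 : N0 ≠ 0)
    (h : ∀ N, N ≠ 0 → N ≡ N0 [MOD m] → F N = if c N then some ((s, N), b) else none) :
    HO2 m N0 F := by
  by_cases h0 : c N0 = true
  · refine Or.inr ⟨s, b, 1, 1, one_pos, one_pos, one_dvd _, fun N hN hN' => ⟨one_dvd _, ?_⟩⟩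
    rw [h N hN hN', if_pos ((hc N N0 hN hN0 hN').trans h0), Nat.div_one, one_mul]
  · refine Or.inl fun N hN hN' => ?_
    rw [h N hN hN', if_neg (by rw [hc N N0 hN hN0 hN']; exact h0)]

theorem HO2.of {S : Type} {m N0 : ℕ} {F : ℕ → Option ((S × ℕ) × Bool)}
    {G : ℕ → Option (S × ℕ)} {H : ℕ → Option ((S × ℕ) × Bool)} (b : Bool)
    (hG : HO m N0 G) (hH : HO2 m N0 H)
    (h : ∀ N, N ≠ 0 → N ≡ N0 [MOD m] → F N =
      match G N with
      | some y => some (y, b)
      | none => H N) :
    HO2 m N0 F := by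
  rcases hG with h1 | ⟨s', u, v, hu, hv, hvm, h1⟩
  · rcases hH with h2 | ⟨s', b', u, v, hu, hv, hvm, h2⟩
    · refine Or.inl fun N hN hc => ?_
      rw [h N hN hc, h1 N hN hc, h2 N hN hc]
    · refine Or.inr ⟨s', b', u, v, hu, hv, hvm, fun N hN hc => ⟨(h2 N hN hc).1, ?_⟩⟩
      rw [h N hN hc, h1 N hN hc, (h2 N hN hc).2]
  · refine Or.inr ⟨s', b, u, v, hu, hv, hvm, fun N hN hc => ⟨(h1 N hN hc).1, ?_⟩⟩
    rw [h N hN hc, (h1 N hN hc).2]

theorem HO2.map {S : Type} {m N0 : ℕ} {F : ℕ → Option ((S × ℕ) × Bool)}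
    {G : ℕ → Option (S × ℕ)} (b : Bool) (hG : HO m N0 G)
    (h : ∀ N, N ≠ 0 → N ≡ N0 [MOD m] → F N = (G N).map fun y => (y, b)) :
    HO2 m N0 F := by
  rcases hG with h1 | ⟨s', u, v, hu, hv, hvm, h1⟩
  · refine Or.inl fun N hN hc => ?_
    rw [h N hN hc, h1 N hN hc]
    rfl
  · refine Or.inr ⟨s', b, u, v, hu, hv, hvm, fun N hN hc => ⟨(h1 N hN hc).1, ?_⟩⟩
    rw [h N hN hc, (h1 N hN hc).2]
    rfl

variable (P : Fin M → PI (Fin M)) (hP : Good P) {N0 : ℕ}

theorem ho2_f (hN0 : N0 ≠ 0) (s : Ctrl M) (b : Bool) :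
    HO2 (mN P) N0 (fun N => t2 P hP ((s, N), b)) := by
  cases b with
  | true =>
    refine HO2.of (G := fun N => fwd P (s, N))
      (H := fun N => if fo P (s, N) then some ((s, N), false) else none) true
      (ho_fwd P hP s) ?_ fun N hN hc => ?_
    · exact HO2.ite_id _ s (fun N => fo P (s, N)) false
        (fun N N' hN hN' hc => fo_const P s hN hN' hc) hN0 fun N hN hc => rfl
    · have h1 : t2 P hP ((s, N), true) = f2 (rv P hP) (io M) (fo P) ((s, N), true) := rfl
      have h2 : (rv P hP) (s, N) = fwd P (s, N) := rfl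
      rw [h1]
      simp only [f2, if_true]
      rw [h2]
      cases fwd P (s, N) <;> rfl
  | false =>
    refine HO2.of (G := fun N => bwd P (s, N))
      (H := fun N => (ioF (s, N)).map fun y => (y, true)) false
      (ho_bwd P hP hN0 s) ?_ fun N hN hc => ?_
    · exact HO2.map true (ho_ioF P s) fun N hN hc => rfl
    · have h1 : t2 P hP ((s, N), false) = f2 (rv P hP) (io M) (fo P) ((s, N), false) := rfl
      have h2 : (rv P hP).symm (s, N) = bwd P (s, N) := rfl
      rw [h1]
      simp only [f2, Bool.false_eq_true, if_false]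
      rw [h2]
      cases bwd P (s, N) <;> rfl

theorem ho2_b (hN0 : N0 ≠ 0) (s : Ctrl M) (b : Bool) :
    HO2 (mN P) N0 (fun N => (t2 P hP).symm ((s, N), b)) := by
  cases b with
  | true =>
    refine HO2.of (G := fun N => bwd P (s, N))
      (H := fun N => (ioB (s, N)).map fun y => (y, false)) true
      (ho_bwd P hP hN0 s) ?_ fun N hN hc => ?_
    · exact HO2.map false (ho_ioB P s) fun N hN hc => rfl
    · have h1 : (t2 P hP).symm ((s, N), true) = b2 (rv P hP) (io M) (fo P) ((s, N), true) := rfl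
      have h2 : (rv P hP).symm (s, N) = bwd P (s, N) := rfl
      rw [h1]
      simp only [b2, if_true]
      rw [h2]
      cases bwd P (s, N) <;> rfl
  | false =>
    refine HO2.of (G := fun N => fwd P (s, N))
      (H := fun N => if fo P (s, N) then some ((s, N), true) else none) false
      (ho_fwd P hP s) ?_ fun N hN hc => ?_
    · exact HO2.ite_id _ s (fun N => fo P (s, N)) true
        (fun N N' hN hN' hc => fo_const P s hN hN' hc) hN0 fun N hN hc => rfl
    · have h1 : (t2 P hP).symm ((s, N), false) = b2 (rv P hP) (io M) (fo P) ((s, N), false) := rfl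
      have h2 : (rv P hP) (s, N) = fwd P (s, N) := rfl
      rw [h1]
      simp only [b2, Bool.false_eq_true, if_false]
      rw [h2]
      cases fwd P (s, N) <;> rfl

end HomAux

open HomAux

/-- On each residue class modulo `mN P` the map is homogeneous: `N ↦ u * (N / v)`. -/
theorem dbl_hom (P : Fin M → PI (Fin M)) (hP : Good P) (s : Ctrl M) (b1 b2 : Bool) (r : ℕ) :
    ∃ (s' : Ctrl M) (b1' b2' : Bool) (u v : ℕ), 0 < u ∧ 0 < v ∧ v ∣ mN P ∧
      ∀ N, N ≠ 0 → N % mN P = r % mN P →
        v ∣ N ∧ dbl (t2 P hP) (((s, N), b1), b2) = (((s', u * (N / v)), b1'), b2') := by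
  have hm := mN_pos P hP
  set N0 : ℕ := r % mN P + mN P with hN0def
  have hN0 : N0 ≠ 0 := by omega
  have hcl : ∀ N, N % mN P = r % mN P → N ≡ N0 [MOD mN P] := by
    intro N hN
    show N % mN P = N0 % mN P
    rw [hN0def, Nat.add_mod_right, Nat.mod_mod]
    exact hN
  cases b2 with
  | true =>
    rcases ho2_f P hP hN0 s b1 with h | ⟨s', b', u, v, hu, hv, hvm, h⟩
    · refine ⟨s, b1, false, 1, 1, one_pos, one_pos, one_dvd _, fun N hN hc => ⟨one_dvd _, ?_⟩⟩
      have h1 : t2 P hP ((s, N), b1) = none := h N hN (hcl N hc)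
      simp only [dbl, if_true]
      rw [h1, Nat.div_one, one_mul]
    · refine ⟨s', b', true, u, v, hu, hv, hvm, fun N hN hc => ⟨(h N hN (hcl N hc)).1, ?_⟩⟩
      have h1 : t2 P hP ((s, N), b1) = some ((s', u * (N / v)), b') := (h N hN (hcl N hc)).2
      simp only [dbl, if_true]
      rw [h1]
  | false =>
    rcases ho2_b P hP hN0 s b1 with h | ⟨s', b', u, v, hu, hv, hvm, h⟩
    · refine ⟨s, b1, true, 1, 1, one_pos, one_pos, one_dvd _, fun N hN hc => ⟨one_dvd _, ?_⟩⟩
      have h1 : (t2 P hP).symm ((s, N), b1) = none := h N hN (hcl N hc)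
      simp only [dbl, Bool.false_eq_true, if_false]
      rw [h1, Nat.div_one, one_mul]
    · refine ⟨s', b', false, u, v, hu, hv, hvm, fun N hN hc => ⟨(h N hN (hcl N hc)).1, ?_⟩⟩
      have h1 : (t2 P hP).symm ((s, N), b1) = some ((s', u * (N / v)), b') :=
        (h N hN (hcl N hc)).2
      simp only [dbl, Bool.false_eq_true, if_false]
      rw [h1]

/-- uses `dbl_hom` -/
theorem mu_aff (P : Fin M → PI (Fin M)) (hP : Good P) : IsAff (md P) (mu P hP) := by
  intro n
  have hsz := sz_pos M
  obtain ⟨s', b1', b2', u, v, hu, hv, hvm, h⟩ := dbl_hom P hP (sst M n).1 (sst M n).2.1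
    (sst M n).2.2 (n / sz M + 1)
  obtain ⟨w, hw⟩ := hvm
  have hsst : ∀ i, sst M (n + i * md P) = sst M n := by
    intro i
    unfold sst
    congr 2
    unfold md
    rw [show n + i * (sz M * mN P) = n + sz M * (i * mN P) by ring, Nat.add_mul_mod_self_left]
  have hdiv : ∀ i, (n + i * md P) / sz M = n / sz M + i * mN P := by
    intro i
    unfold md
    rw [show n + i * (sz M * mN P) = n + sz M * (i * mN P) by ring,
      Nat.add_mul_div_left _ _ hsz]
  have hvN : v ∣ n / sz M + 1 := (h (n / sz M + 1) (Nat.succ_ne_zero _) rfl).1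
  obtain ⟨t, ht⟩ := hvN
  have ht0 : 0 < t := by
    rcases Nat.eq_zero_or_pos t with h0 | h0
    · rw [h0, mul_zero] at ht
      exact absurd ht (Nat.succ_ne_zero _)
    · exact h0
  have hmu : ∀ i, mu P hP (n + i * md P) =
      sz M * (u * t - 1) + i * (sz M * (u * w)) + (num M (s', b1', b2') : ℕ) := by
    intro i
    have h1 : dcd M (n + i * md P) =
        ((((sst M n).1, n / sz M + i * mN P + 1), (sst M n).2.1), (sst M n).2.2) := by
      unfold dcd
      rw [hsst i, hdiv i]
    have h2 : (n / sz M + i * mN P + 1) % mN P = (n / sz M + 1) % mN P := by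
      rw [show n / sz M + i * mN P + 1 = n / sz M + 1 + i * mN P by ring,
        Nat.add_mul_mod_self_right]
    have h3 := (h (n / sz M + i * mN P + 1) (Nat.succ_ne_zero _) h2).2
    have h4 : (n / sz M + i * mN P + 1) / v = t + i * w := by
      rw [hw, show n / sz M + i * (v * w) + 1 = v * (t + i * w) by
        rw [mul_add, ← ht]; ring]
      exact Nat.mul_div_cancel_left _ hv
    unfold mu
    rw [h1, h3, h4]
    unfold enc
    show sz M * (u * (t + i * w) - 1) + _ = _
    have h5 : u * (t + i * w) - 1 = (u * t - 1) + i * (u * w) := by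
      have h6 : 1 ≤ u * t := Nat.mul_pos hu ht0
      have h7 : u * (t + i * w) = u * t + i * (u * w) := by ring
      rw [h7, Nat.sub_add_comm h6]
    rw [h5]
    ring
  have e0 := hmu 0
  have e1 := hmu 1
  have e2 := hmu 2
  rw [zero_mul, add_zero] at e0
  rw [one_mul] at e1
  rw [e0, e1, e2]
  generalize sz M * (u * t - 1) = A
  generalize sz M * (u * w) = B
  generalize ((num M (s', b1', b2') : ℕ)) = K
  constructor
  · omega
  · omega

end CPM
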