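import Pool.Agent.Lib.CPM.Aff
import Pool.Agent.Lib.CPM.Ct

/-!
# Module Near: a machine permutation inserted in an orbit of a given permutation `G`

`μ`: the machine permutation.  `W = w + Q ℕ`, `W' = w' + Q' ℕ`, `G` maps `W'` to `W`.
`base = G ∘ ct w' Q' w Q ∘ muW ∘ ct (z ℓ) (D ℓ) (z 0) (D 0)`:
* `base (w + Q k) = w + Q μ(k)`; `base (w' + Q' k) = G (w + Q k)`;
* `base (z i + D i k) = z (i+1) + D (i+1) k` for `1 ≤ i < ℓ`, `base (z ℓ + D ℓ k) = z 1 + D 1 k`,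
  `base (z 0 + D 0 k) = G (z ℓ + D ℓ k)`;
* `base n = G n` if `n` is not congruent modulo `c` to `z 0, z ℓ, w, w'`.

`hx E s = base ∘ ct (z ℓ) (D ℓ * E) (w + Q s) (Q E)` with `s < E`: for `k = s + E j`:
`w + Q k → z 1 + D 1 E j → ... → z ℓ + D ℓ E j → w + Q μ(k)`.

All classes named lie in different residue classes modulo `c`.
-/

set_option autoImplicit false

namespace CPM

/-- `μ` on the class `w (Q)` -/
def muW (w Q : ℕ) (μ : ℕ → ℕ) (n : ℕ) : ℕ := if n % Q = w then w + Q * μ (n / Q) else n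

theorem muW_at {w Q : ℕ} (hw : w < Q) (μ : ℕ → ℕ) (k : ℕ) : muW w Q μ (w + Q * k) = w + Q * μ k := by
  have h1 : (w + Q * k) % Q = w := by
    rw [Nat.add_mul_mod_self_left, Nat.mod_eq_of_lt hw]
  have h2 : (w + Q * k) / Q = k := by
    rw [Nat.add_mul_div_left _ _ (by omega), Nat.div_eq_of_lt hw, Nat.zero_add]
  rw [muW, if_pos h1, h2]

theorem muW_off {w Q : ℕ} (μ : ℕ → ℕ) {n : ℕ} (h : n % Q ≠ w) : muW w Q μ n = n := by
  rw [muW, if_neg h]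

theorem eq_of_mod {w Q n : ℕ} (h : n % Q = w) : n = w + Q * (n / Q) := by
  have := Nat.mod_add_div n Q
  rw [h] at this
  exact this.symm

theorem muW_bij (w Q : ℕ) (hw : w < Q) (μ : ℕ → ℕ) (h : Function.Bijective μ) : Function.Bijective (muW w Q μ) := by
  constructor
  · intro a b hab
    by_cases ha : a % Q = w
    · by_cases hb : b % Q = w
      · rw [eq_of_mod ha, eq_of_mod hb, muW_at hw, muW_at hw] at hab
        have h1 : Q * μ (a / Q) = Q * μ (b / Q) := by omega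
        have h2 : μ (a / Q) = μ (b / Q) := Nat.eq_of_mul_eq_mul_left (by omega) h1
        have h3 := h.1 h2
        rw [eq_of_mod ha, eq_of_mod hb, h3]
      · exfalso
        rw [eq_of_mod ha, muW_at hw, muW_off μ hb] at hab
        apply hb
        rw [← hab, Nat.add_mul_mod_self_left, Nat.mod_eq_of_lt hw]
    · by_cases hb : b % Q = w
      · exfalso
        rw [eq_of_mod hb, muW_at hw, muW_off μ ha] at hab
        apply ha
        rw [hab, Nat.add_mul_mod_self_left, Nat.mod_eq_of_lt hw]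
      · rw [muW_off μ ha, muW_off μ hb] at hab
        exact hab
  · intro y
    by_cases hy : y % Q = w
    · obtain ⟨x, hx⟩ := h.2 (y / Q)
      refine ⟨w + Q * x, ?_⟩
      rw [muW_at hw, hx]
      exact (eq_of_mod hy).symm
    · exact ⟨y, muW_off μ hy⟩

theorem muW_aff (w Q m : ℕ) (hw : w < Q) (μ : ℕ → ℕ) (h : IsAff m μ) : IsAff (Q * m) (muW w Q μ) := by
  intro n
  by_cases hn : n % Q = w
  · have e0 := eq_of_mod hn
    generalize n / Q = k at e0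
    subst e0
    have e1 : w + Q * k + Q * m = w + Q * (k + m) := by ring
    have e2 : w + Q * k + 2 * (Q * m) = w + Q * (k + 2 * m) := by ring
    rw [e1, e2, muW_at hw, muW_at hw, muW_at hw]
    obtain ⟨h1, h2⟩ := h k
    refine ⟨Nat.add_le_add_left (Nat.mul_le_mul_left _ h1) _, ?_⟩
    calc w + Q * μ (k + 2 * m) + (w + Q * μ k) = 2 * w + Q * (μ (k + 2 * m) + μ k) := by ring
      _ = 2 * w + Q * (2 * μ (k + m)) := by rw [h2]
      _ = 2 * (w + Q * μ (k + m)) := by ring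
  · have h1 : (n + Q * m) % Q ≠ w := by rwa [Nat.add_mul_mod_self_left]
    have h2 : (n + 2 * (Q * m)) % Q ≠ w := by
      have e : n + 2 * (Q * m) = n + Q * (2 * m) := by ring
      rwa [e, Nat.add_mul_mod_self_left]
    rw [muW_off μ hn, muW_off μ h1, muW_off μ h2]
    exact ⟨Nat.le_add_right _ _, by ring⟩

/-- the data -/
structure TD (G : ℕ → ℕ) where
  ℓ : ℕ
  c : ℕ
  z : ℕ → ℕ
  D : ℕ → ℕ
  w : ℕ
  Q : ℕ
  w' : ℕ
  Q' : ℕ
  hl : 1 ≤ ℓ
  zc : ∀ i ≤ ℓ, z i < c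
  wc : w < c
  wc' : w' < c
  zz : ∀ i j, i < j → j ≤ ℓ → z i ≠ z j
  zw : ∀ i ≤ ℓ, z i ≠ w ∧ z i ≠ w'
  ww : w ≠ w'
  Dc : ∀ i ≤ ℓ, 0 < D i ∧ c ∣ D i
  Qc : 0 < Q ∧ c ∣ Q
  Qc' : 0 < Q' ∧ c ∣ Q'
  Gz : ∀ i < ℓ, ∀ k, G (z i + D i * k) = z (i + 1) + D (i + 1) * k
  Gw : ∀ k, G (w' + Q' * k) = w + Q * k

namespace TD

variable {G : ℕ → ℕ} (t : TD G) (μ : ℕ → ℕ)

/-- the permutation before the insertion -/
def base (n : ℕ) : ℕ := G (ct t.w' t.Q' t.w t.Q (muW t.w t.Q μ (ct (t.z t.ℓ) (t.D t.ℓ) (t.z 0) (t.D 0) n)))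

/-- the permutation with the tube inserted at the point `s` of the machine -/
def hx (E s n : ℕ) : ℕ := t.base μ (ct (t.z t.ℓ) (t.D t.ℓ * E) (t.w + t.Q * s) (t.Q * E) n)

theorem zD {i : ℕ} (hi : i ≤ t.ℓ) : t.z i < t.D i :=
  lt_of_lt_of_le (t.zc i hi) (Nat.le_of_dvd (t.Dc i hi).1 (t.Dc i hi).2)

theorem wQ : t.w < t.Q := lt_of_lt_of_le t.wc (Nat.le_of_dvd t.Qc.1 t.Qc.2)

theorem wQ' : t.w' < t.Q' := lt_of_lt_of_le t.wc' (Nat.le_of_dvd t.Qc'.1 t.Qc'.2)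

/-- a class modulo a multiple of `c` -/
theorem cls {r m n : ℕ} (hr : r < t.c) (hm : t.c ∣ m) (h : n % m = r) : n % t.c = r := by
  have h1 := Nat.mod_mod_of_dvd n hm
  rw [h, Nat.mod_eq_of_lt hr] at h1
  exact h1.symm

theorem modc {r m : ℕ} (hr : r < t.c) (hm : t.c ∣ m) (k : ℕ) : (r + m * k) % t.c = r := by
  obtain ⟨e, rfl⟩ := hm
  rw [Nat.mul_assoc, Nat.add_mul_mod_self_left, Nat.mod_eq_of_lt hr]

theorem z0l : t.z 0 ≠ t.z t.ℓ := t.zz 0 t.ℓ t.hl le_rfl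

theorem hd1 (n : ℕ) (h : n % t.D t.ℓ = t.z t.ℓ) : n % t.D 0 ≠ t.z 0 := by
  intro h'
  have h1 := t.cls (t.zc _ le_rfl) (t.Dc _ le_rfl).2 h
  have h2 := t.cls (t.zc _ (Nat.zero_le _)) (t.Dc _ (Nat.zero_le _)).2 h'
  exact t.z0l (h2.symm.trans h1)

theorem hd2 (n : ℕ) (h : n % t.Q' = t.w') : n % t.Q ≠ t.w := by
  intro h'
  have h1 := t.cls t.wc' t.Qc'.2 h
  have h2 := t.cls t.wc t.Qc.2 h'
  exact t.ww (h2.symm.trans h1)

theorem ct1_off {n : ℕ} (h0 : n % t.c ≠ t.z 0) (hl : n % t.c ≠ t.z t.ℓ) :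
    ct (t.z t.ℓ) (t.D t.ℓ) (t.z 0) (t.D 0) n = n :=
  ct_other (fun h => hl (t.cls (t.zc _ le_rfl) (t.Dc _ le_rfl).2 h))
    (fun h => h0 (t.cls (t.zc _ (Nat.zero_le _)) (t.Dc _ (Nat.zero_le _)).2 h))

theorem ct2_off {n : ℕ} (hw : n % t.c ≠ t.w) (hw' : n % t.c ≠ t.w') : ct t.w' t.Q' t.w t.Q n = n :=
  ct_other (fun h => hw' (t.cls t.wc' t.Qc'.2 h)) (fun h => hw (t.cls t.wc t.Qc.2 h))

theorem mu_off {n : ℕ} (hw : n % t.c ≠ t.w) : muW t.w t.Q μ n = n :=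
  muW_off μ (fun h => hw (t.cls t.wc t.Qc.2 h))

theorem base_off {n : ℕ} (h0 : n % t.c ≠ t.z 0) (hl : n % t.c ≠ t.z t.ℓ) (hw : n % t.c ≠ t.w)
    (hw' : n % t.c ≠ t.w') : t.base μ n = G n := by
  rw [base, t.ct1_off h0 hl, t.mu_off μ hw, t.ct2_off hw hw']

theorem base_w (k : ℕ) : t.base μ (t.w + t.Q * k) = t.w + t.Q * μ k := by
  have h1 : (t.w + t.Q * k) % t.c = t.w := t.modc t.wc t.Qc.2 k
  rw [base, t.ct1_off (by rw [h1]; exact fun h => (t.zw 0 (Nat.zero_le _)).1 h.symm)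
    (by rw [h1]; exact fun h => (t.zw _ le_rfl).1 h.symm), muW_at t.wQ,
    ct_right t.wQ' t.wQ t.hd2, t.Gw]

theorem base_z {i : ℕ} (hi : 1 ≤ i) (hil : i < t.ℓ) (k : ℕ) :
    t.base μ (t.z i + t.D i * k) = t.z (i + 1) + t.D (i + 1) * k := by
  have h1 : (t.z i + t.D i * k) % t.c = t.z i := t.modc (t.zc i hil.le) (t.Dc i hil.le).2 k
  rw [t.base_off μ (by rw [h1]; exact (t.zz 0 i hi hil.le).symm)
    (by rw [h1]; exact t.zz i t.ℓ hil le_rfl) (by rw [h1]; exact (t.zw i hil.le).1)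
    (by rw [h1]; exact (t.zw i hil.le).2), t.Gz i hil]

theorem base_l (k : ℕ) : t.base μ (t.z t.ℓ + t.D t.ℓ * k) = t.z 1 + t.D 1 * k := by
  have h1 : (t.z 0 + t.D 0 * k) % t.c = t.z 0 :=
    t.modc (t.zc 0 (Nat.zero_le _)) (t.Dc 0 (Nat.zero_le _)).2 k
  have h2 := t.zw 0 (Nat.zero_le _)
  rw [base, ct_left (t.zD le_rfl), t.mu_off μ (by rw [h1]; exact h2.1),
    t.ct2_off (by rw [h1]; exact h2.1) (by rw [h1]; exact h2.2), t.Gz 0 t.hl]

theorem base_bij (hG : Function.Bijective G) (hμ : Function.Bijective μ) : Function.Bijective (t.base μ) := by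
  have h1 : Function.Bijective (ct (t.z t.ℓ) (t.D t.ℓ) (t.z 0) (t.D 0)) :=
    Function.Involutive.bijective (ct_ct (t.zD le_rfl) (t.zD (Nat.zero_le _)) t.hd1)
  have h2 : Function.Bijective (ct t.w' t.Q' t.w t.Q) :=
    Function.Involutive.bijective (ct_ct t.wQ' t.wQ t.hd2)
  exact hG.comp (h2.comp ((muW_bij t.w t.Q t.wQ μ hμ).comp h1))

theorem base_aff {mG m : ℕ} (hG : 0 < mG) (hGa : IsAff mG G) (hm : 0 < m) (hμ : IsAff m μ) :
    ∃ m', 0 < m' ∧ IsAff m' (t.base μ) := by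
  have d0 := (t.Dc 0 (Nat.zero_le _)).1
  have dl := (t.Dc t.ℓ le_rfl).1
  have q := t.Qc.1
  have q' := t.Qc'.1
  have h1 : IsAff (t.D t.ℓ * t.D 0) (ct (t.z t.ℓ) (t.D t.ℓ) (t.z 0) (t.D 0)) := ct_aff dl d0
  have h2 : IsAff (t.Q' * t.Q) (ct t.w' t.Q' t.w t.Q) := ct_aff q' q
  have h3 := muW_aff t.w t.Q m t.wQ μ hμ
  refine ⟨_, ?_, (hGa.comp (h2.comp (h3.comp h1)))⟩
  positivity

theorem zDE {E s : ℕ} (hs : s < E) : t.z t.ℓ < t.D t.ℓ * E :=
  lt_of_lt_of_le (t.zD le_rfl) (Nat.le_mul_of_pos_right _ (by omega))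

theorem wQE {E s : ℕ} (hs : s < E) : t.w + t.Q * s < t.Q * E := by
  have h1 : t.w + t.Q * s < t.Q * (s + 1) := by
    have := t.wQ
    rw [Nat.mul_add, Nat.mul_one]
    omega
  exact lt_of_lt_of_le h1 (Nat.mul_le_mul_left _ hs)

theorem wcE {E s n : ℕ} (h : n % (t.Q * E) = t.w + t.Q * s) : n % t.c = t.w := by
  have h1 : n % t.Q = t.w := by
    rw [← Nat.mod_mod_of_dvd n (Dvd.intro E rfl : t.Q ∣ t.Q * E), h, Nat.add_mul_mod_self_left,
      Nat.mod_eq_of_lt t.wQ]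
  exact t.cls t.wc t.Qc.2 h1

theorem zcE {E n : ℕ} (h : n % (t.D t.ℓ * E) = t.z t.ℓ) : n % t.c = t.z t.ℓ :=
  t.cls (t.zc _ le_rfl) (Dvd.dvd.mul_right (t.Dc _ le_rfl).2 E) h

theorem hd3 (E s n : ℕ) (h : n % (t.D t.ℓ * E) = t.z t.ℓ) : n % (t.Q * E) ≠ t.w + t.Q * s := by
  intro h'
  have h1 := t.zcE h
  have h2 := t.wcE h'
  exact (t.zw _ le_rfl).1 (h1.symm.trans h2)

theorem hx_off {E s n : ℕ} (hl : n % t.c ≠ t.z t.ℓ) (hw : n % t.c ≠ t.w) :
    t.hx μ E s n = t.base μ n := by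
  rw [hx, ct_other (fun h => hl (t.zcE h)) (fun h => hw (t.wcE h))]

theorem hx_w1 {E s : ℕ} (hs : s < E) (j : ℕ) :
    t.hx μ E s (t.w + t.Q * (s + E * j)) = t.z 1 + t.D 1 * (E * j) := by
  have e : t.w + t.Q * (s + E * j) = t.w + t.Q * s + t.Q * E * j := by ring
  rw [hx, e, ct_right (t.zDE hs) (t.wQE hs) (t.hd3 E s), Nat.mul_assoc, t.base_l]

theorem hx_w2 {E s : ℕ} (hs : s < E) {k : ℕ} (hk : k % E ≠ s) :
    t.hx μ E s (t.w + t.Q * k) = t.w + t.Q * μ k := by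
  have h1 : (t.w + t.Q * k) % t.c = t.w := t.modc t.wc t.Qc.2 k
  rw [hx, ct_other, t.base_w]
  · intro h
    have h2 := t.zcE h
    rw [h1] at h2
    exact (t.zw _ le_rfl).1 h2.symm
  · intro h
    apply hk
    have h3 := eq_of_mod h
    generalize (t.w + t.Q * k) / (t.Q * E) = j at h3
    have h4 : t.Q * k = t.Q * (s + E * j) := by
      have e : t.w + t.Q * s + t.Q * E * j = t.w + t.Q * (s + E * j) := by ring
      omega
    rw [Nat.eq_of_mul_eq_mul_left t.Qc.1 h4, Nat.add_mul_mod_self_left, Nat.mod_eq_of_lt hs]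

theorem hx_z {E s i : ℕ} (hi : 1 ≤ i) (hil : i < t.ℓ) (k : ℕ) :
    t.hx μ E s (t.z i + t.D i * k) = t.z (i + 1) + t.D (i + 1) * k := by
  have h1 : (t.z i + t.D i * k) % t.c = t.z i := t.modc (t.zc i hil.le) (t.Dc i hil.le).2 k
  rw [t.hx_off μ (by rw [h1]; exact t.zz i t.ℓ hil le_rfl) (by rw [h1]; exact (t.zw i hil.le).1),
    t.base_z μ hi hil]

theorem hx_l {E s : ℕ} (hs : s < E) (j : ℕ) :
    t.hx μ E s (t.z t.ℓ + t.D t.ℓ * (E * j)) = t.w + t.Q * μ (s + E * j) := by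
  have e : t.z t.ℓ + t.D t.ℓ * (E * j) = t.z t.ℓ + t.D t.ℓ * E * j := by ring
  have e2 : t.w + t.Q * s + t.Q * E * j = t.w + t.Q * (s + E * j) := by ring
  rw [hx, e, ct_left (t.zDE hs), e2, t.base_w]

theorem hx_iter {E s : ℕ} (hs : s < E) (j i : ℕ) (hi : 1 ≤ i) (hil : i ≤ t.ℓ) :
    (t.hx μ E s)^[i] (t.w + t.Q * (s + E * j)) = t.z i + t.D i * (E * j) := by
  induction i, hi using Nat.le_induction with
  | base => exact t.hx_w1 μ hs j
  | succ i hi ih =>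
    rw [Function.iterate_succ_apply', ih (by omega), t.hx_z μ hi (by omega)]

theorem hx_bij (hG : Function.Bijective G) (hμ : Function.Bijective μ) (E s : ℕ) (hs : s < E) :
    Function.Bijective (t.hx μ E s) := by
  have h1 : Function.Bijective (ct (t.z t.ℓ) (t.D t.ℓ * E) (t.w + t.Q * s) (t.Q * E)) :=
    Function.Involutive.bijective (ct_ct (t.zDE hs) (t.wQE hs) (t.hd3 E s))
  exact (t.base_bij μ hG hμ).comp h1

theorem hx_aff {m' : ℕ} (h : IsAff m' (t.base μ)) (E s : ℕ) (hs : s < E) :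
    IsAff (t.D t.ℓ * E * (t.Q * E) * m') (t.hx μ E s) := by
  have hE : 0 < E := by omega
  have h1 : IsAff (t.D t.ℓ * E * (t.Q * E)) (ct (t.z t.ℓ) (t.D t.ℓ * E) (t.w + t.Q * s) (t.Q * E)) :=
    ct_aff (Nat.mul_pos (t.Dc _ le_rfl).1 hE) (Nat.mul_pos t.Qc.1 hE)
  exact h.comp h1

/-- agreement with `G` -/
theorem hx_eq (E s n : ℕ) (hs : s < E) (h0 : n % t.c ≠ t.z 0) (hl : n % t.c ≠ t.z t.ℓ) (hw : n % t.c ≠ t.w)
    (hw' : n % t.c ≠ t.w') : t.hx μ E s n = G n := by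
  rw [t.hx_off μ hl hw, t.base_off μ h0 hl hw hw']

/-- a positive power maps a machine point to the next machine point -/
theorem hx_next (E s : ℕ) (hs : s < E) (k : ℕ) :
    ∃ i, 0 < i ∧ (t.hx μ E s)^[i] (t.w + t.Q * k) = t.w + t.Q * μ k := by
  by_cases hk : k % E = s
  · have e := eq_of_mod hk
    generalize k / E = j at e
    subst e
    refine ⟨t.ℓ + 1, Nat.succ_pos _, ?_⟩
    rw [Function.iterate_succ_apply', t.hx_iter μ hs j t.ℓ t.hl le_rfl, t.hx_l μ hs]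
  · exact ⟨1, Nat.one_pos, t.hx_w2 μ hs hk⟩

/-- the tube at the point `s` -/
theorem hx_tube (E s : ℕ) (hs : s < E) (i : ℕ) (hi : 1 ≤ i) (hil : i ≤ t.ℓ) :
    (t.hx μ E s)^[i] (t.w + t.Q * s) = t.z i := by
  have h := t.hx_iter μ hs 0 i hi hil
  simpa using h

/-- the orbit of `z i` is finite iff the orbit of `s` under the machine is finite -/
theorem hx_orb (hG : Function.Bijective G) (hμ : Function.Bijective μ) (E s : ℕ) (hs : s < E) (i : ℕ) (hi : 1 ≤ i)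
    (hil : i ≤ t.ℓ) :
    (∃ k, 0 < k ∧ (t.hx μ E s)^[k] (t.z i) = t.z i) ↔ ∃ k, 0 < k ∧ μ^[k] s = s := by
  have hb := t.hx_bij μ hG hμ E s hs
  have ht := t.hx_tube μ E s hs i hi hil
  have hn : ∀ n, ∃ N, n ≤ N ∧ (t.hx μ E s)^[N] (t.w + t.Q * s) = t.w + t.Q * μ^[n] s := by
    intro n
    induction n with
    | zero => exact ⟨0, le_rfl, rfl⟩
    | succ n ih =>
      obtain ⟨N, hN, h⟩ := ih
      obtain ⟨j, hj, h'⟩ := t.hx_next μ E s hs (μ^[n] s)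
      refine ⟨j + N, by omega, ?_⟩
      rw [Function.iterate_add_apply, h, h', Function.iterate_succ_apply']
  constructor
  · rintro ⟨k, hk, h⟩
    have h1 : (t.hx μ E s)^[k] (t.w + t.Q * s) = t.w + t.Q * s := by
      apply hb.1.iterate i
      rw [← Function.iterate_add_apply, Nat.add_comm, Function.iterate_add_apply, ht, h]
    have hper : ∀ N, (t.hx μ E s)^[N] (t.w + t.Q * s) = (t.hx μ E s)^[N % k] (t.w + t.Q * s) := by
      intro N
      exact (Function.IsPeriodicPt.iterate_mod_apply h1 N).symm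
    choose N hN hN' using hn
    obtain ⟨a, b, hab, hE⟩ : ∃ a b, a < b ∧ N a % k = N b % k := by
      have hfin : ∃ a b : ℕ, a ≠ b ∧ (⟨N a % k, Nat.mod_lt _ hk⟩ : Fin k) = ⟨N b % k, Nat.mod_lt _ hk⟩ :=
        Finite.exists_ne_map_eq_of_infinite fun a : ℕ => (⟨N a % k, Nat.mod_lt _ hk⟩ : Fin k)
      obtain ⟨a, b, hne, he⟩ := hfin
      have he' : N a % k = N b % k := congrArg Fin.val he
      rcases lt_or_gt_of_ne hne with h | h
      · exact ⟨a, b, h, he'⟩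
      · exact ⟨b, a, h, he'.symm⟩
    have h2 : t.w + t.Q * μ^[a] s = t.w + t.Q * μ^[b] s := by
      rw [← hN', ← hN', hper, hper (N b), hE]
    have h3 : μ^[a] s = μ^[b] s := Nat.eq_of_mul_eq_mul_left t.Qc.1 (by omega)
    refine ⟨b - a, by omega, ?_⟩
    apply hμ.1.iterate a
    rw [← Function.iterate_add_apply, Nat.add_sub_cancel' hab.le, h3]
  · rintro ⟨k, hk, h⟩
    obtain ⟨N, hN, h'⟩ := hn k
    rw [h] at h'
    refine ⟨N, by omega, ?_⟩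
    rw [← ht, ← Function.iterate_add_apply, Nat.add_comm, Function.iterate_add_apply, h']

end TD

end CPM
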