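import Pool.Agent.Lib.CPM.ZedMap

/-!
# One line through a periodic set of numbers

`ln p g n`: on the set `p` the function `g` is applied to the number of the element (`0` for the least element); outside
`p` nothing changes.  For a periodic set `p` and `g = ud` this is affine on residue classes from some point on.
-/

set_option autoImplicit false

namespace CPM

section

variable (p : ℕ → Prop) [DecidablePred p] (g h : ℕ → ℕ)

/-- apply `g` to the number of the element of `p` -/
noncomputable def ln (n : ℕ) : ℕ := if p n then Nat.nth p (g (Nat.count p n)) else n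

variable {p} {g h}

theorem ln_of (g : ℕ → ℕ) {n : ℕ} (hn : p n) : ln p g n = Nat.nth p (g (Nat.count p n)) := if_pos hn

theorem ln_not (g : ℕ → ℕ) {n : ℕ} (hn : ¬ p n) : ln p g n = n := if_neg hn

omit [DecidablePred p] in
/-- a periodic set with an element is infinite -/
theorem inf_of_per {q : ℕ} (hq0 : 0 < q) (hq : ∀ n, p (n + q) ↔ p n) {n : ℕ} (hn : p n) :
    (Set.ofPred p).Infinite := by
  have h1 : ∀ i, p (n + i * q) := by
    intro i
    induction i with
    | zero => simpa using hn
    | succ i ih =>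
      rw [show n + (i + 1) * q = n + i * q + q by ring]
      exact (hq _).2 ih
  refine Set.infinite_of_injective_forall_mem (f := fun i => n + i * q) ?_ h1
  intro i j hij
  have : i * q = j * q := Nat.add_left_cancel hij
  exact Nat.eq_of_mul_eq_mul_right hq0 this

theorem ln_mem (hp : (Set.ofPred p).Infinite) (g : ℕ → ℕ) {n : ℕ} (hn : p n) : p (ln p g n) := by
  rw [ln_of g hn]
  exact Nat.nth_mem_of_infinite hp _

theorem count_ln (hp : (Set.ofPred p).Infinite) (g : ℕ → ℕ) {n : ℕ} (hn : p n) :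
    Nat.count p (ln p g n) = g (Nat.count p n) := by
  rw [ln_of g hn]
  exact Nat.count_nth_of_infinite hp _

theorem ln_ln (hp : ∀ n, p n → (Set.ofPred p).Infinite) (hgh : ∀ k, h (g k) = k) (n : ℕ) :
    ln p h (ln p g n) = n := by
  by_cases hn : p n
  · rw [ln_of h (ln_mem (hp n hn) g hn), count_ln (hp n hn) g hn, hgh]
    exact Nat.nth_count hn
  · rw [ln_not g hn, ln_not h hn]

/-- the number of elements is quasi-linear -/
theorem count_per {q : ℕ} (hq : ∀ n, p (n + q) ↔ p n) (n : ℕ) :
    Nat.count p (n + q) = Nat.count p n + Nat.count p q := by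
  have h1 : ∀ n, Nat.count (fun k => p (k + q)) n = Nat.count p n := by
    intro n
    induction n with
    | zero => simp
    | succ n ih =>
      rw [Nat.count_succ, Nat.count_succ, ih]
      congr 1
      exact if_congr (hq n) rfl rfl
  rw [Nat.count_add', h1]

theorem count_per2 {q : ℕ} (hq : ∀ n, p (n + q) ↔ p n) (n : ℕ) :
    Nat.count p (n + 2 * q) = Nat.count p n + 2 * Nat.count p q := by
  rw [show n + 2 * q = n + q + q by ring, count_per hq, count_per hq]
  ring

omit [DecidablePred p] in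
theorem p_per2 {q : ℕ} (hq : ∀ n, p (n + q) ↔ p n) (n : ℕ) : p (n + 2 * q) ↔ p n := by
  rw [show n + 2 * q = n + q + q by ring, hq, hq]

theorem count_pos {q : ℕ} (hq0 : 0 < q) (hq : ∀ n, p (n + q) ↔ p n) {n : ℕ} (hn : p n) :
    0 < Nat.count p q := by
  have h1 : ∀ i, Nat.count p (i * q) = i * Nat.count p q := by
    intro i
    induction i with
    | zero => simp
    | succ i ih =>
      rw [show (i + 1) * q = i * q + q by ring, count_per hq, ih]
      ring
  rcases Nat.eq_zero_or_pos (Nat.count p q) with h0 | h0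
  · have h2 : Nat.count p (n + 1) ≤ Nat.count p ((n + 1) * q) :=
      Nat.count_monotone p (by nlinarith)
    rw [h1, h0, Nat.mul_zero, Nat.count_succ, if_pos hn] at h2
    omega
  · exact h0

theorem nth_per2 {q : ℕ} (hp : (Set.ofPred p).Infinite) (hq : ∀ n, p (n + q) ↔ p n) (k : ℕ) :
    Nat.nth p (k + 2 * Nat.count p q) = Nat.nth p k + 2 * q := by
  have h1 : p (Nat.nth p k + 2 * q) := (p_per2 hq _).2 (Nat.nth_mem_of_infinite hp k)
  have h2 : Nat.count p (Nat.nth p k + 2 * q) = k + 2 * Nat.count p q := by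
    rw [count_per2 hq, Nat.count_nth_of_infinite hp]
  rw [← h2]
  exact Nat.nth_count h1

theorem ud_add2 {k : ℕ} (hk : 2 ≤ k) (i : ℕ) : ud (k + 2 * i) = ud k + 2 * i := by
  induction i with
  | zero => simp
  | succ i ih =>
    rw [show k + 2 * (i + 1) = k + 2 * i + 2 by ring, ud_add _ (by omega), ih]
    ring

/-- from `2 q` on, `ln p ud` commutes with the shift by `2 q` -/
theorem ln_add {q : ℕ} (hq0 : 0 < q) (hq : ∀ n, p (n + q) ↔ p n) {n : ℕ} (hn : 2 * q ≤ n) :
    ln p ud (n + 2 * q) = ln p ud n + 2 * q := by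
  by_cases h1 : p n
  · have hp := inf_of_per hq0 hq h1
    have ht := count_pos hq0 hq h1
    have h2 : 2 ≤ Nat.count p n := by
      have h3 : Nat.count p (2 * q) ≤ Nat.count p n := Nat.count_monotone p hn
      have h4 := count_per2 hq 0
      rw [Nat.zero_add, Nat.count_zero, Nat.zero_add] at h4
      omega
    rw [ln_of ud ((p_per2 hq n).2 h1), ln_of ud h1, count_per2 hq, ud_add2 h2, nth_per2 hp hq]
  · rw [ln_not ud (fun h => h1 ((p_per2 hq n).1 h)), ln_not ud h1]

/-- a bound for `ln p ud` -/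
theorem ln_le {q : ℕ} (hq0 : 0 < q) (hq : ∀ n, p (n + q) ↔ p n) (n : ℕ) :
    ln p ud n ≤ n + 2 * q := by
  by_cases h1 : p n
  · have hp := inf_of_per hq0 hq h1
    have ht := count_pos hq0 hq h1
    have hmono := Nat.nth_monotone hp
    rw [ln_of ud h1]
    by_cases hev : Nat.count p n % 2 = 0
    · rw [ud_even hev]
      have h2 : Nat.nth p (Nat.count p n + 2) ≤ Nat.nth p (Nat.count p n + 2 * Nat.count p q) :=
        hmono (by omega)
      rw [nth_per2 hp hq, Nat.nth_count h1] at h2
      exact h2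
    · by_cases h1' : Nat.count p n = 1
      · have h2 : Nat.nth p 0 ≤ Nat.nth p 1 := hmono (by omega)
        have h3 : Nat.nth p 1 = n := by rw [← h1', Nat.nth_count h1]
        rw [h1', ud_one]
        omega
      · rw [ud_odd hev h1']
        have h2 : Nat.nth p (Nat.count p n - 2) ≤ Nat.nth p (Nat.count p n) := hmono (by omega)
        rw [Nat.nth_count h1] at h2
        omega
  · rw [ln_not ud h1]
    omega

/-- `ln p ud` by a bounded search -/
theorem ln_eq_findGreatest {q : ℕ} (hq0 : 0 < q) (hq : ∀ n, p (n + q) ↔ p n) (n : ℕ) :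
    ln p ud n = if p n then
      Nat.findGreatest (fun m => p m ∧ Nat.count p m = ud (Nat.count p n)) (n + 2 * q) else n := by
  by_cases h1 : p n
  · have hp := inf_of_per hq0 hq h1
    rw [if_pos h1]
    symm
    rw [Nat.findGreatest_eq_iff]
    refine ⟨ln_le hq0 hq n, fun _ => ⟨ln_mem hp ud h1, count_ln hp ud h1⟩, ?_⟩
    rintro m hm _ ⟨h2, h3⟩
    have h4 : m = ln p ud n := by
      rw [ln_of ud h1, ← h3, Nat.nth_count h2]
    omega
  · rw [if_neg h1, ln_not ud h1]

end

/-- the counting function is primitive recursive, uniformly in a parameter -/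
theorem count_prim {s : ℕ → ℕ → Prop} [∀ x, DecidablePred (s x)]
    (hs : PrimrecPred fun q : ℕ × ℕ => s q.1 q.2) :
    Primrec fun q : ℕ × ℕ => Nat.count (s q.1) q.2 := by
  classical
  have h1 : PrimrecPred fun r : (ℕ × ℕ) × (ℕ × ℕ) => s r.1.1 r.2.1 :=
    hs.comp ((Primrec.fst.comp Primrec.fst).pair (Primrec.fst.comp Primrec.snd))
  have h2 : Primrec₂ fun (q : ℕ × ℕ) (r : ℕ × ℕ) => r.2 + if s q.1 r.1 then 1 else 0 :=
    Primrec.nat_add.comp (Primrec.snd.comp Primrec.snd)
      (Primrec.ite h1 (Primrec.const 1) (Primrec.const 0))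
  have h3 := Primrec.nat_rec' (f := fun q : ℕ × ℕ => q.2) (g := fun _ : ℕ × ℕ => (0 : ℕ))
    (h := fun (q : ℕ × ℕ) (r : ℕ × ℕ) => r.2 + if s q.1 r.1 then 1 else 0)
    Primrec.snd (Primrec.const 0) h2
  refine h3.of_eq fun q => ?_
  obtain ⟨x, n⟩ := q
  simp only
  induction n with
  | zero => simp
  | succ n ih =>
    rw [Nat.count_succ, ← ih]

theorem ln_prim {s : ℕ → ℕ → Prop} [∀ x, DecidablePred (s x)]
    (hs : PrimrecPred fun q : ℕ × ℕ => s q.1 q.2) {m : ℕ → ℕ} (hm : Primrec m)
    (hm0 : ∀ x, 0 < m x) (hper : ∀ x n, s x (n + m x) ↔ s x n) (hud : Primrec ud) :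
    Primrec fun q : ℕ × ℕ => ln (s q.1) ud q.2 := by
  classical
  have hc := count_prim hs
  have h1 : Primrec fun q : ℕ × ℕ => q.2 + 2 * m q.1 :=
    Primrec.nat_add.comp Primrec.snd (Primrec.nat_mul.comp (Primrec.const 2)
      (hm.comp Primrec.fst))
  have h2 : PrimrecRel fun (q : ℕ × ℕ) (k : ℕ) =>
      s q.1 k ∧ Nat.count (s q.1) k = ud (Nat.count (s q.1) q.2) := by
    have e1 : PrimrecPred fun r : (ℕ × ℕ) × ℕ => s r.1.1 r.2 :=
      hs.comp ((Primrec.fst.comp Primrec.fst).pair Primrec.snd)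
    have e2 : Primrec fun r : (ℕ × ℕ) × ℕ => Nat.count (s r.1.1) r.2 :=
      hc.comp ((Primrec.fst.comp Primrec.fst).pair Primrec.snd)
    have e3 : Primrec fun r : (ℕ × ℕ) × ℕ => ud (Nat.count (s r.1.1) r.1.2) :=
      hud.comp (hc.comp Primrec.fst)
    exact e1.and (Primrec.eq.comp e2 e3)
  have h3 := Primrec.ite hs (Primrec.nat_findGreatest h1 h2) Primrec.snd
  refine h3.of_eq fun q => ?_
  rw [ln_eq_findGreatest (hm0 q.1) (hper q.1) q.2]

end CPM
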