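import Pool.Agent.Lib.CPM.ZedC

/-!
# Finitely many orbits: permutations of the positive integers

A table with exceptions `(E, L)`: the numbers `1, ..., |E|` go to the entries of `E`; the number `|E| + m k + r`
(`m = |L|`, `1 ≤ r ≤ m`) goes to `a_r k + b_r`.
-/

set_option autoImplicit false

namespace CPM

/-- The map of a table with exceptions. -/
def ecmap (D : List ℕ × List (ℕ × ℕ)) (n : ℕ) : ℕ :=
  if n ≤ D.1.length then D.1.getD (n - 1) 0 else cmap D.2 (n - D.1.length)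

/-- `f` has only finitely many orbits on the positive integers: finitely many positive integers meet all orbits. -/
def FinMany (f : ℕ → ℕ) : Prop :=
  ∃ S : Finset ℕ, (∀ s ∈ S, 0 < s) ∧ ∀ n : ℕ, 0 < n → ∃ s ∈ S, ∃ a b : ℕ, f^[a] n = f^[b] s

/-- the table with exceptions of the map `n ↦ F (n - 1) + 1` -/
def etab (B m : ℕ) (F : ℕ → ℕ) : List ℕ × List (ℕ × ℕ) :=
  ((tab B F).map Prod.snd, tab m (fun n => F (n + B)))

theorem etab_length (B m : ℕ) (F : ℕ → ℕ) : (etab B m F).1.length = B := by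
  simp [etab, tab_length]

theorem ecmap_etab {B m : ℕ} {F : ℕ → ℕ} (hm : 0 < m) (hF : IsAff m (fun n => F (n + B)))
    (n : ℕ) : ecmap (etab B m F) (n + 1) = F n + 1 := by
  unfold ecmap
  rw [etab_length]
  by_cases h : n + 1 ≤ B
  · rw [if_pos h, Nat.add_sub_cancel]
    unfold etab tab
    simp only [List.map_map]
    rw [List.getD_eq_getElem?_getD, List.getElem?_map, List.getElem?_range (by omega)]
    rfl
  · rw [if_neg h]
    show cmap (tab m (fun n => F (n + B))) (n + 1 - B) = F n + 1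
    rw [cmap_tab hm hF _ (by omega)]
    congr 2
    omega

theorem iterate_etab {B m : ℕ} {F : ℕ → ℕ} (hm : 0 < m) (hF : IsAff m (fun n => F (n + B)))
    (n k : ℕ) : (ecmap (etab B m F))^[k] (n + 1) = F^[k] n + 1 := by
  induction k generalizing n with
  | zero => rfl
  | succ k ih => rw [Function.iterate_succ_apply, Function.iterate_succ_apply, ecmap_etab hm hF, ih]

theorem isPerm_etab {B m : ℕ} {F : ℕ → ℕ} (hm : 0 < m) (hF : IsAff m (fun n => F (n + B)))
    (hb : Function.Bijective F) : Set.BijOn (ecmap (etab B m F)) {n | 0 < n} {n | 0 < n} := by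
  refine ⟨fun n hn => ?_, fun a ha b hb' hab => ?_, fun n hn => ?_⟩
  · obtain ⟨k, rfl⟩ : ∃ k, n = k + 1 := ⟨n - 1, (Nat.sub_add_cancel hn).symm⟩
    show 0 < ecmap _ _
    rw [ecmap_etab hm hF]
    exact Nat.succ_pos _
  · obtain ⟨k, rfl⟩ : ∃ k, a = k + 1 := ⟨a - 1, (Nat.sub_add_cancel ha).symm⟩
    obtain ⟨l, rfl⟩ : ∃ k, b = k + 1 := ⟨b - 1, (Nat.sub_add_cancel hb').symm⟩
    rw [ecmap_etab hm hF, ecmap_etab hm hF] at hab
    rw [hb.1 (Nat.succ.inj hab)]
  · obtain ⟨k, rfl⟩ : ∃ k, n = k + 1 := ⟨n - 1, (Nat.sub_add_cancel hn).symm⟩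
    obtain ⟨l, rfl⟩ := hb.2 k
    exact ⟨l + 1, Nat.succ_pos _, ecmap_etab hm hF l⟩

theorem finMany_etab {B m : ℕ} {F : ℕ → ℕ} (hm : 0 < m) (hF : IsAff m (fun n => F (n + B))) :
    FinMany (ecmap (etab B m F)) ↔ ∃ S : Finset ℕ, ∀ n, ∃ s ∈ S, Same F n s := by
  classical
  constructor
  · rintro ⟨S, hS0, hS⟩
    refine ⟨S.image (fun s => s - 1), fun n => ?_⟩
    obtain ⟨s, hs, a, b, hab⟩ := hS (n + 1) (Nat.succ_pos n)
    obtain ⟨t, rfl⟩ : ∃ k, s = k + 1 := ⟨s - 1, (Nat.sub_add_cancel (hS0 s hs)).symm⟩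
    rw [iterate_etab hm hF, iterate_etab hm hF] at hab
    exact ⟨t, Finset.mem_image.2 ⟨t + 1, hs, Nat.add_sub_cancel _ _⟩, a, b, Nat.succ.inj hab⟩
  · rintro ⟨S, hS⟩
    refine ⟨S.image (· + 1), fun s hs => ?_, fun n hn => ?_⟩
    · obtain ⟨t, _, rfl⟩ := Finset.mem_image.1 hs
      exact Nat.succ_pos t
    · obtain ⟨k, rfl⟩ : ∃ k, n = k + 1 := ⟨n - 1, (Nat.sub_add_cancel hn).symm⟩
      obtain ⟨s, hs, a, b, hab⟩ := hS k
      refine ⟨s + 1, Finset.mem_image.2 ⟨s, hs, rfl⟩, a, b, ?_⟩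
      rw [iterate_etab hm hF, iterate_etab hm hF, hab]

/-! ## The orbits of the linked permutation -/

section

variable {M : ℕ} [NeZero M] (P : Fin M → PI (Fin M)) (hP : Good P)

open HomAux CoreAAux CodeAux

theorem Link.next {C X : Type} {f : C ≃. C} {Φ : X → X} {E : C × Bool → X} {K : C → X}
    {G : C → Prop} (h : Link f Φ E K G) {c : C} (hc : G c) (hf : ∃ n, run f n c = none)
    (h0 : f.symm c = none) : Same Φ (E (c, true)) (K c) :=
  (h.turn hc hf).trans (Same.of_iterate 1 (h.bot c hc h0))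

omit [NeZero M] in
theorem sg_block (g : ℕ → ℕ) {m : ℕ} (hm : 0 < m) (c : (Ctrl M × ℕ) × Bool) (hc : c.1.2 ≠ 0) :
    ((sg m g c).1.2 - 1) / m = g ((c.1.2 - 1) / m) := by
  unfold sg blk
  simp only
  rw [if_neg hc, Nat.add_sub_cancel, Nat.add_comm, Nat.add_mul_div_left _ _ hm,
    Nat.div_eq_of_lt (Nat.mod_lt _ hm), Nat.zero_add]

omit [NeZero M] in
theorem enc_lt {m k : ℕ} (y : Cf M) (hm : 0 < m) (hy : y.1.1.2 ≠ 0) (hk : (y.1.1.2 - 1) / m < k) :
    enc y < sz M * (m * k) := by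
  have h1 : y.1.1.2 - 1 < m * k := by
    rw [Nat.div_lt_iff_lt_mul hm] at hk
    rwa [Nat.mul_comm] at hk
  have h2 : (num M (y.1.1.1, y.1.2, y.2) : ℕ) < sz M := Fin.is_lt _
  unfold enc
  calc sz M * (y.1.1.2 - 1) + (num M (y.1.1.1, y.1.2, y.2) : ℕ)
      < sz M * (y.1.1.2 - 1) + sz M := Nat.add_lt_add_left h2 _
    _ = sz M * (y.1.1.2 - 1 + 1) := by ring
    _ ≤ sz M * (m * k) := Nat.mul_le_mul_left _ h1

theorem few_orbits (x : ℕ) (hfin : ∀ c, ∃ n, run (fx P hP x) n c = none) :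
    ∃ S : Finset ℕ, ∀ n, ∃ s ∈ S, Same (ZF P hP ud x) n s := by
  have hmx := mx_pos P hP x
  have hL := link P hP ud x
  refine ⟨Finset.range (sz M * (mx P x * 2)), fun n => ?_⟩
  have key : ∀ (k : ℕ) (c : (Ctrl M × ℕ) × Bool), c.1.2 ≠ 0 → (fx P hP x).symm c = none →
      (c.1.2 - 1) / mx P x = k →
      ∃ s ∈ Finset.range (sz M * (mx P x * 2)), Same (ZF P hP ud x) (enc (c, true)) s := by
    intro k
    induction k using Nat.strong_induction_on with
    | _ k ih =>
      intro c hc h0 hk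
      by_cases hk2 : k < 2
      · refine ⟨enc (c, true), ?_, Same.refl _ _⟩
        rw [Finset.mem_range]
        exact enc_lt (c, true) hmx hc (by simpa [hk] using hk2)
      · by_cases hev : k % 2 = 0
        · have h1 := start_sg P hP du x c h0
          have hc1 : (sg (mx P x) du c).1.2 ≠ 0 := blk_ne _ _ _ hc
          have h2 := sg_block du hmx c hc
          rw [hk, du_even hev (by omega)] at h2
          obtain ⟨s, hs, hs'⟩ := ih (k - 2) (by omega) _ hc1 h1 h2
          refine ⟨s, hs, ?_⟩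
          have h3 := hL.next hc1 (hfin _) h1
          rw [sg_sg ud_du hmx] at h3
          exact h3.symm.trans hs'
        · have h1 := start_sg P hP ud x c h0
          have hc1 : (sg (mx P x) ud c).1.2 ≠ 0 := blk_ne _ _ _ hc
          have h2 := sg_block ud hmx c hc
          rw [hk, ud_odd hev (by omega)] at h2
          obtain ⟨s, hs, hs'⟩ := ih (k - 2) (by omega) _ hc1 h1 h2
          exact ⟨s, hs, (hL.next hc (hfin _) h0).trans hs'⟩
  obtain ⟨c0, h1, h2, h3, _⟩ := hL.start (c := (dcd M n).1) (dcd_ne n) (hfin _)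
    (fx_bwd_fin P hP x _)
  obtain ⟨s, hs, hs'⟩ := key _ c0 h1 h2 rfl
  refine ⟨s, hs, ?_⟩
  have h4 := h3 (dcd M n).2
  have h5 : enc (M := M) ((dcd M n).1, (dcd M n).2) = n := enc_dcd n
  rw [h5] at h4
  exact h4.trans hs'

theorem many_orbits (g h : ℕ → ℕ) (hgh : ∀ k, h (g k) = k) (R : ℕ → ℕ → Prop)
    (hM : ∀ Y : ℕ, Y.Coprime 30 → (PHalts P (0, Y) ↔ R (Y.factorization 11) (Y.factorization 7)))
    (x y : ℕ) (hR : ¬ R x y) : ¬ ∃ S : Finset ℕ, ∀ n, ∃ s ∈ S, Same (ZF P hP g x) n s := by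
  rintro ⟨S, hS⟩
  choose t ht ht' using fun i : ℕ => hS (enc (M := M) (cY M x y i, false))
  obtain ⟨i, j, hij, hs⟩ : ∃ i j : ℕ, i ≠ j ∧ t i = t j := by
    by_contra hcon
    push Not at hcon
    have hinj : Function.Injective (fun i => (⟨t i, ht i⟩ : S)) := by
      intro i j hij
      by_contra hne
      exact hcon i j hne (congrArg Subtype.val hij)
    exact not_injective_infinite_finite _ hinj
  have h1 : Same (ZF P hP g x) (enc (M := M) (cY M x y i, false))
      (enc (M := M) (cY M x y j, false)) := by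
    have h2 := ht' i
    rw [hs] at h2
    exact h2.trans (ht' j).symm
  obtain ⟨a1, a2, a3⟩ := fx_inf P hP R hM x y i hR
  obtain ⟨b1, b2, b3⟩ := fx_inf P hP R hM x y j hR
  have hE : ∀ c d : (Ctrl M × ℕ) × Bool, c.1.2 ≠ 0 → d.1.2 ≠ 0 →
      enc (M := M) (c, false) = enc (d, false) → c = d := by
    intro c d hc hd hcd
    have h2 := congrArg (dcd M) hcd
    rw [dcd_enc _ hc, dcd_enc _ hd] at h2
    exact congrArg Prod.fst h2
  exact hij (cY_inj ((link P hP g x).inf (ZF_inj P hP g h hgh x) hE a1 b1 a2 b2 a3 b3 h1))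

end

/-- Permutations of the positive integers with finitely many orbits. -/
theorem finalN (R : ℕ → ℕ → Prop) (hR : REPred fun p : ℕ × ℕ => R p.1 p.2) :
    ∃ D : ℕ → List ℕ × List (ℕ × ℕ), Computable D ∧
      ∀ x, Set.BijOn (ecmap (D x)) {n | 0 < n} {n | 0 < n} ∧
        ((∀ y, R x y) ↔ FinMany (ecmap (D x))) := by
  obtain ⟨M, P, hP, hM⟩ := machine R hR
  have hg : ∀ k, 2 ≤ k → ud (k + 2) = ud k + 2 := ud_add
  have hF : Primrec₂ (ZF P hP ud) := ZF_prim P hP ud_prim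
  have hm : Primrec fun x : ℕ => 2 * (sz (M + 1) * mx P x) :=
    Primrec.nat_mul.comp (Primrec.const _) (Primrec.nat_mul.comp (Primrec.const _) (mx_prim P))
  refine ⟨fun x => etab (2 * (sz (M + 1) * mx P x)) (2 * (sz (M + 1) * mx P x)) (ZF P hP ud x),
    ?_, fun x => ?_⟩
  · have h1 : Computable fun x => (tab (2 * (sz (M + 1) * mx P x)) (ZF P hP ud x)).map Prod.snd :=
      (Primrec.list_map (f := fun l : List (ℕ × ℕ) => l) (g := fun _ p => p.2) Primrec.id
        (Primrec.snd.comp₂ Primrec₂.right)).to_comp.comp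
        (tab_computable hm.to_comp hF.to_comp)
    have h2 : Primrec₂ fun x n : ℕ => ZF P hP ud x (n + 2 * (sz (M + 1) * mx P x)) :=
      hF.comp Primrec.fst (Primrec.nat_add.comp Primrec.snd (hm.comp Primrec.fst))
    exact h1.pair (tab_computable hm.to_comp h2.to_comp)
  · have hpos : 0 < 2 * (sz (M + 1) * mx P x) :=
      Nat.mul_pos (by norm_num) (Nat.mul_pos (sz_pos _) (mx_pos P hP x))
    have haff := ZF_aff P hP hg x
    refine ⟨isPerm_etab hpos haff ⟨ZF_inj P hP ud du du_ud x, ZF_surj P hP ud du ud_du x⟩, ?_⟩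
    rw [finMany_etab hpos haff]
    constructor
    · intro hx
      exact few_orbits P hP x (fx_fwd_fin P hP R hM x hx)
    · intro h y
      by_contra hRy
      exact many_orbits P hP ud du du_ud R hM x y hRy h

end CPM
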