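import Pool.Agent.Lib.CPM.OneA
import Pool.Agent.Lib.CPM.ZedFin

/-!
# One line through all chains

`sta x`: the codes of the beginnings of the chains with the sign `false`.  The permutation `Phi x` first applies
`ln (sta x) ud` and then the doubling of the machine `fx P x`: the chains are linked in the order of their numbers.
-/

set_option autoImplicit false

namespace CPM

variable {M : ℕ} [NeZero M] (P : Fin M → PI (Fin M)) (hP : Good P)

open HomAux CoreAAux CodeAux

/-- the codes of the beginnings of the chains, with the sign `false` -/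
def sta (x n : ℕ) : Prop := ind M (fun s => !s.2.2) n = 1 ∧ ZF P hP id x n = fl M n

noncomputable instance staDec (x : ℕ) : DecidablePred (sta P hP x) := fun _ =>
  Classical.propDecidable _

omit [NeZero M] in
theorem sg_id {m : ℕ} (c : (Ctrl M × ℕ) × Bool) : sg m id c = c := by
  obtain ⟨⟨s, N⟩, b⟩ := c
  unfold sg blk
  simp only [id]
  by_cases hN : N = 0
  · rw [if_pos hN, hN]
  · rw [if_neg hN, Nat.div_add_mod, Nat.sub_add_cancel (Nat.one_le_iff_ne_zero.2 hN)]

theorem sta_iff (x n : ℕ) :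
    sta P hP x n ↔ (dcd M n).2 = false ∧ (fx P hP x).symm (dcd M n).1 = none := by
  have h0 := dcd_ne (M := M) n
  have h1 : (dcd M n).2 = (sst M n).2.2 := rfl
  unfold sta
  rw [ind_iff, ← h1]
  unfold ZF fl
  rcases hd : dcd M n with ⟨c, b⟩
  rw [hd] at h0
  cases b
  · rcases hc : (fx P hP x).symm c with _ | d
    · simp only [Bool.not_false, true_and]
      rw [lk_false_none hc, sg_id]
      simp only
    · simp only [Bool.not_false, true_and]
      rw [lk_false_some hc]
      constructor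
      · intro h
        exact absurd h (enc_ne d c ((fx_pos P hP (symm_some_iff.1 hc)).2 h0) h0)
      · intro h
        exact absurd h (by simp)
  · simp

theorem sta_enc (x : ℕ) (c : (Ctrl M × ℕ) × Bool) (hc : c.1.2 ≠ 0) :
    sta P hP x (enc (c, false)) ↔ (fx P hP x).symm c = none := by
  rw [sta_iff, dcd_enc _ hc]
  simp

theorem sta_enc_true (x : ℕ) (c : (Ctrl M × ℕ) × Bool) (hc : c.1.2 ≠ 0) :
    ¬ sta P hP x (enc (c, true)) := by
  rw [sta_iff, dcd_enc _ hc]
  simp

/-- the period -/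
def qx (P : Fin M → PI (Fin M)) (x : ℕ) : ℕ := sz M * mx P x

omit [NeZero M] in
include hP in
theorem qx_pos (x : ℕ) : 0 < qx P x := Nat.mul_pos (sz_pos M) (mx_pos P hP x)

theorem sta_per (x n : ℕ) : sta P hP x (n + qx P x) ↔ sta P hP x n := by
  rw [sta_iff, sta_iff]
  unfold qx
  rw [dcd_add]
  have hc : n / sz M + 1 + mx P x ≡ n / sz M + 1 [MOD mx P x] := by
    show _ % _ = _ % _
    rw [Nat.add_mod_right]
  have hN0 : n / sz M + 1 ≠ 0 := Nat.succ_ne_zero _
  have hN1 : n / sz M + 1 + mx P x ≠ 0 := (Nat.add_pos_left (Nat.succ_pos _) _).ne'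
  constructor
  · rintro ⟨h1, h2⟩
    exact ⟨h1, start_class P hP x _ _ hN1 hN0 hc h2⟩
  · rintro ⟨h1, h2⟩
    exact ⟨h1, start_class P hP x _ _ hN0 hN1 hc.symm h2⟩

/-- the permutation -/
noncomputable def Phi (x n : ℕ) : ℕ := ZF P hP id x (ln (sta P hP x) ud n)

theorem sta_inf (x n : ℕ) (h : sta P hP x n) : (Set.ofPred (sta P hP x)).Infinite :=
  inf_of_per (qx_pos P hP x) (sta_per P hP x) h

theorem Phi_inj (x : ℕ) : Function.Injective (Phi P hP x) := by
  intro a b hab
  have h1 := ZF_inj P hP id id (fun _ => rfl) x hab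
  have h2 := congrArg (ln (sta P hP x) du) h1
  rwa [ln_ln (sta_inf P hP x) du_ud, ln_ln (sta_inf P hP x) du_ud] at h2

theorem Phi_surj (x : ℕ) : Function.Surjective (Phi P hP x) := by
  intro n
  obtain ⟨k, hk⟩ := ZF_surj P hP id id (fun _ => rfl) x n
  refine ⟨ln (sta P hP x) du k, ?_⟩
  unfold Phi
  rw [ln_ln (sta_inf P hP x) ud_du, hk]

theorem linkOne (x : ℕ) :
    Link (fx P hP x) (Phi P hP x) (enc (M := M))
      (fun c => ZF P hP id x (ln (sta P hP x) ud (enc (c, false)))) (fun c => c.1.2 ≠ 0) where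
  cl c d h := fx_pos P hP h
  fw c d hc h := by
    unfold Phi
    rw [ln_not _ (sta_enc_true P hP x c hc)]
    exact (link P hP id x).fw c d hc h
  top c hc h := by
    unfold Phi
    rw [ln_not _ (sta_enc_true P hP x c hc)]
    exact (link P hP id x).top c hc h
  bw c d hc h := by
    have hd : d.1.2 ≠ 0 := (fx_pos P hP h).1 hc
    have h1 : ¬ sta P hP x (enc (d, false)) := by
      rw [sta_enc P hP x d hd, symm_some_iff.2 h]
      simp
    unfold Phi
    rw [ln_not _ h1]
    exact (link P hP id x).bw c d hc h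
  bot c hc h := rfl

/-- at a beginning the doubling changes the sign -/
theorem ZF_start (x : ℕ) (c : (Ctrl M × ℕ) × Bool) (hc : c.1.2 ≠ 0)
    (h : (fx P hP x).symm c = none) : ZF P hP id x (enc (c, false)) = enc (c, true) := by
  have h1 := (link P hP id x).bot c hc h
  rw [h1]
  simp only [sg_id]

/-- the linking of the chains -/
theorem next_start (x n : ℕ) (hfin : ∀ c, ∃ n, run (fx P hP x) n c = none)
    (hn : sta P hP x n) :
    Same (Phi P hP x) (ZF P hP id x n) (ZF P hP id x (ln (sta P hP x) ud n)) := by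
  have h0 := dcd_ne (M := M) n
  have h1 := (sta_iff P hP x n).1 hn
  have h2 : enc (M := M) ((dcd M n).1, false) = n := by
    have h3 := enc_dcd (M := M) n
    rw [← h1.1]
    exact h3
  have h3 := (linkOne P hP x).next (c := (dcd M n).1) h0 (hfin _) h1.2
  rw [← ZF_start P hP x _ h0 h1.2, h2] at h3
  exact h3

/-- all beginnings are on the orbit of the first one -/
theorem start_zero (x : ℕ) (hfin : ∀ c, ∃ n, run (fx P hP x) n c = none) (k : ℕ) :
    ∀ n, sta P hP x n → Nat.count (sta P hP x) n = k →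
      Same (Phi P hP x) (ZF P hP id x n) (ZF P hP id x (Nat.nth (sta P hP x) 0)) := by
  induction k using Nat.strong_induction_on with
  | _ k ih =>
    intro n hn hk
    have hp := sta_inf P hP x n hn
    have hnk : Nat.nth (sta P hP x) k = n := by rw [← hk]; exact Nat.nth_count hn
    have hmem : ∀ i, sta P hP x (Nat.nth (sta P hP x) i) := fun i => Nat.nth_mem_of_infinite hp i
    have hcnt : ∀ i, Nat.count (sta P hP x) (Nat.nth (sta P hP x) i) = i := fun i =>
      Nat.count_nth_of_infinite hp i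
    by_cases h0 : k = 0
    · rw [← hnk, h0]
      exact Same.refl _ _
    by_cases h1 : k = 1
    · have h2 := next_start P hP x n hfin hn
      rw [ln_of _ hn, hk, h1, ud_one] at h2
      exact h2
    by_cases hev : k % 2 = 0
    · have h2 := next_start P hP x (Nat.nth (sta P hP x) (k - 2)) hfin (hmem _)
      rw [ln_of _ (hmem _), hcnt, ud_even (by omega), Nat.sub_add_cancel (by omega), hnk] at h2
      exact h2.symm.trans (ih (k - 2) (by omega) _ (hmem _) (hcnt _))
    · have h2 := next_start P hP x n hfin hn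
      rw [ln_of _ hn, hk, ud_odd hev h1] at h2
      exact h2.trans (ih (k - 2) (by omega) _ (hmem _) (hcnt _))

/-- one orbit, if all chains are finite -/
theorem one_orbit (x : ℕ) (hfin : ∀ c, ∃ n, run (fx P hP x) n c = none) (m n : ℕ) :
    Same (Phi P hP x) m n := by
  have key : ∀ n, Same (Phi P hP x) n (ZF P hP id x (Nat.nth (sta P hP x) 0)) := by
    intro n
    obtain ⟨c0, h1, h2, h3, _⟩ := (linkOne P hP x).start (c := (dcd M n).1) (dcd_ne n) (hfin _)
      (fx_bwd_fin P hP x _)
    have h4 := h3 (dcd M n).2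
    have h5 : enc (M := M) ((dcd M n).1, (dcd M n).2) = n := enc_dcd n
    rw [h5, ← ZF_start P hP x c0 h1 h2] at h4
    exact h4.trans (start_zero P hP x hfin _ _ ((sta_enc P hP x c0 h1).2 h2) rfl)
  exact (key m).trans (key n).symm

/-- infinitely many orbits, if there is an infinite chain -/
theorem many_orbits_one (R : ℕ → ℕ → Prop)
    (hM : ∀ Y : ℕ, Y.Coprime 30 → (PHalts P (0, Y) ↔ R (Y.factorization 11) (Y.factorization 7)))
    (x y : ℕ) (hR : ¬ R x y) : ¬ ∃ S : Finset ℕ, ∀ n, ∃ s ∈ S, Same (Phi P hP x) n s := by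
  rintro ⟨S, hS⟩
  choose t ht ht' using fun i : ℕ => hS (enc (M := M) (cY M x y i, false))
  obtain ⟨i, j, hij, hs⟩ : ∃ i j : ℕ, i ≠ j ∧ t i = t j := by
    by_contra hcon
    push Not at hcon
    have hinj : Function.Injective (fun i => (⟨t i, ht i⟩ : S)) := by
      intro i j hij
      by_contra hne
      exact hcon i j hne (congrArg Subtype.val hij)
    exact not_injective_infinite_finite _ hinj
  have h1 : Same (Phi P hP x) (enc (M := M) (cY M x y i, false))
      (enc (M := M) (cY M x y j, false)) := by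
    have h2 := ht' i
    rw [hs] at h2
    exact h2.trans (ht' j).symm
  obtain ⟨a1, a2, a3⟩ := fx_inf P hP R hM x y i hR
  obtain ⟨b1, b2, b3⟩ := fx_inf P hP R hM x y j hR
  have hE : ∀ c d : (Ctrl M × ℕ) × Bool, c.1.2 ≠ 0 → d.1.2 ≠ 0 →
      enc (M := M) (c, false) = enc (d, false) → c = d := by
    intro c d hc hd hcd
    have h2 := congrArg (dcd M) hcd
    rw [dcd_enc _ hc, dcd_enc _ hd] at h2
    exact congrArg Prod.fst h2
  exact hij (cY_inj ((linkOne P hP x).inf (Phi_inj P hP x) hE a1 b1 a2 b2 a3 b3 h1))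

/-! ## Affine on residue classes -/

theorem F_aff (x : ℕ) : IsAff (qx P x) (ZF P hP id x) := by
  have h := ZF_aff P hP (g := id) (p := 1) (k0 := 0) (fun _ _ => rfl) x
  simp only [Nat.one_mul, Nat.zero_mul, Nat.add_zero] at h
  exact h

theorem Phi_aff (x : ℕ) : IsAff (2 * qx P x) (fun n => Phi P hP x (n + 2 * qx P x)) := by
  have hF : IsAff (2 * qx P x) (ZF P hP id x) := (F_aff P hP x).dvd (Dvd.intro_left _ rfl)
  intro n
  have h1 := ln_add (p := sta P hP x) (qx_pos P hP x) (sta_per P hP x)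
    (n := n + 2 * qx P x) (Nat.le_add_left _ _)
  have h2 := ln_add (p := sta P hP x) (qx_pos P hP x) (sta_per P hP x)
    (n := n + 2 * qx P x + 2 * qx P x) (by omega)
  have h3 := hF (ln (sta P hP x) ud (n + 2 * qx P x))
  unfold Phi
  simp only
  rw [show n + 2 * (2 * qx P x) + 2 * qx P x = n + 2 * qx P x + 2 * qx P x + 2 * qx P x by ring,
    h2, h1]
  rw [show ln (sta P hP x) ud (n + 2 * qx P x) + 2 * qx P x + 2 * qx P x =
    ln (sta P hP x) ud (n + 2 * qx P x) + 2 * (2 * qx P x) by ring]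
  exact h3

/-! ## Computability -/

theorem sta_prim : PrimrecPred fun q : ℕ × ℕ => sta P hP q.1 q.2 := by
  have h1 : Primrec₂ (ZF P hP id) := ZF_prim P hP Primrec.id
  have h2 : PrimrecPred fun q : ℕ × ℕ => ZF P hP id q.1 q.2 = fl M q.2 :=
    Primrec.eq.comp h1 (fl_prim.comp Primrec.snd)
  exact (ind_pred _).and h2

theorem qx_prim : Primrec (qx P) := Primrec.nat_mul.comp (Primrec.const _) (mx_prim P)

theorem Phi_prim : Primrec₂ (Phi P hP) := by
  have h1 : Primrec fun q : ℕ × ℕ => ln (sta P hP q.1) ud q.2 :=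
    ln_prim (sta_prim P hP) (qx_prim P) (qx_pos P hP) (sta_per P hP) ud_prim
  have h2 : Primrec₂ (ZF P hP id) := ZF_prim P hP Primrec.id
  exact h2.comp Primrec.fst h1

/-- Permutations of the positive integers with exactly one orbit or with infinitely many orbits. -/
theorem finalOne (R : ℕ → ℕ → Prop) (hR : REPred fun p : ℕ × ℕ => R p.1 p.2) :
    ∃ D : ℕ → List ℕ × List (ℕ × ℕ), Computable D ∧
      ∀ x, Set.BijOn (ecmap (D x)) {n | 0 < n} {n | 0 < n} ∧
        ((∀ y, R x y) → ∀ m n : ℕ, 0 < m → 0 < n →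
          ∃ a b : ℕ, (ecmap (D x))^[a] m = (ecmap (D x))^[b] n) ∧
        ((∃ y, ¬ R x y) → ∀ S : Finset ℕ, (∀ s ∈ S, 0 < s) →
          ∃ n : ℕ, 0 < n ∧ ∀ s ∈ S, ∀ a b : ℕ, (ecmap (D x))^[a] n ≠ (ecmap (D x))^[b] s) := by
  obtain ⟨M, P, hP, hM⟩ := machine R hR
  have hF : Primrec₂ (Phi P hP) := Phi_prim P hP
  have hm : Primrec fun x : ℕ => 2 * qx P x := Primrec.nat_mul.comp (Primrec.const _) (qx_prim P)
  refine ⟨fun x => etab (2 * qx P x) (2 * qx P x) (Phi P hP x), ?_, fun x => ?_⟩
  · have h1 : Computable fun x => (tab (2 * qx P x) (Phi P hP x)).map Prod.snd :=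
      (Primrec.list_map (f := fun l : List (ℕ × ℕ) => l) (g := fun _ p => p.2) Primrec.id
        (Primrec.snd.comp₂ Primrec₂.right)).to_comp.comp
        (tab_computable hm.to_comp hF.to_comp)
    have h2 : Primrec₂ fun x n : ℕ => Phi P hP x (n + 2 * qx P x) :=
      hF.comp Primrec.fst (Primrec.nat_add.comp Primrec.snd (hm.comp Primrec.fst))
    exact h1.pair (tab_computable hm.to_comp h2.to_comp)
  · have hpos : 0 < 2 * qx P x := Nat.mul_pos (by norm_num) (qx_pos P hP x)
    have haff := Phi_aff P hP x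
    refine ⟨isPerm_etab hpos haff ⟨Phi_inj P hP x, Phi_surj P hP x⟩, fun hx m n hm0 hn0 => ?_,
      fun hx S hS => ?_⟩
    · obtain ⟨m, rfl⟩ : ∃ k, m = k + 1 := ⟨m - 1, (Nat.sub_add_cancel hm0).symm⟩
      obtain ⟨n, rfl⟩ : ∃ k, n = k + 1 := ⟨n - 1, (Nat.sub_add_cancel hn0).symm⟩
      obtain ⟨a, b, hab⟩ := one_orbit P hP x (fx_fwd_fin P hP R hM x hx) m n
      refine ⟨a, b, ?_⟩
      rw [iterate_etab hpos haff, iterate_etab hpos haff, hab]
    · obtain ⟨y, hy⟩ := hx
      by_contra hcon
      push Not at hcon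
      have h1 : FinMany (ecmap (etab (2 * qx P x) (2 * qx P x) (Phi P hP x))) :=
        ⟨S, hS, hcon⟩
      rw [finMany_etab hpos haff] at h1
      exact many_orbits_one P hP R hM x y hy h1

end CPM
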