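import Pool.Agent.Lib.CPM.Rev
import Pool.Agent.Lib.CPM.Fuel

/-!
# Module Pot: potentials of the reversible machine

With `u, t, f` the exponents of `2, 3, 5` in the number `N`:

* `up = (u + t, phase, t)`, phases `I: 0, G: 1, R: 2, H: 3`, strictly increases along `fwd` (lexicographic order; the last
  coordinate is only used for `H`: for the other states take `0`);
* `dn = (f, phase, progress)`, phases `I: 3, H: 2, G: 1, R: 0`, progress `u` for `H` and `t` for `G`, strictly decreases
  along `fwd`.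
-/

set_option autoImplicit false

namespace CPM

variable {M : ℕ}

/-- increasing potential -/
def up (c : Ctrl M × ℕ) : ℕ ×ₗ ℕ ×ₗ ℕ :=
  match c.1 with
  | .I => toLex (c.2.factorization 2 + c.2.factorization 3, toLex (0, 0))
  | .G _ => toLex (c.2.factorization 2 + c.2.factorization 3, toLex (1, 0))
  | .R _ => toLex (c.2.factorization 2 + c.2.factorization 3, toLex (2, 0))
  | .H _ _ => toLex (c.2.factorization 2 + c.2.factorization 3, toLex (3, c.2.factorization 3))

/-- decreasing potential -/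
def dn (c : Ctrl M × ℕ) : ℕ ×ₗ ℕ ×ₗ ℕ :=
  match c.1 with
  | .I => toLex (c.2.factorization 5, toLex (3, 0))
  | .H _ _ => toLex (c.2.factorization 5, toLex (2, c.2.factorization 2))
  | .G _ => toLex (c.2.factorization 5, toLex (1, c.2.factorization 3))
  | .R _ => toLex (c.2.factorization 5, toLex (0, 0))

variable [NeZero M]

namespace PotAux

theorem v_mul {a k r : ℕ} (ha : a ≠ 0) (hk : k ≠ 0) :
    (a * k).factorization r = a.factorization r + k.factorization r := by
  rw [Nat.factorization_mul ha hk]; rfl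

theorem v22 : (2 : ℕ).factorization 2 = 1 := Nat.prime_two.factorization_self
theorem v23 : (2 : ℕ).factorization 3 = 0 := Nat.factorization_eq_zero_of_not_dvd (by norm_num)
theorem v25 : (2 : ℕ).factorization 5 = 0 := Nat.factorization_eq_zero_of_not_dvd (by norm_num)
theorem v32 : (3 : ℕ).factorization 2 = 0 := Nat.factorization_eq_zero_of_not_dvd (by norm_num)
theorem v33 : (3 : ℕ).factorization 3 = 1 := Nat.prime_three.factorization_self
theorem v35 : (3 : ℕ).factorization 5 = 0 := Nat.factorization_eq_zero_of_not_dvd (by norm_num)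
theorem v52 : (5 : ℕ).factorization 2 = 0 := Nat.factorization_eq_zero_of_not_dvd (by norm_num)
theorem v53 : (5 : ℕ).factorization 3 = 0 := Nat.factorization_eq_zero_of_not_dvd (by norm_num)
theorem v55 : (5 : ℕ).factorization 5 = 1 := Nat.prime_five.factorization_self

theorem vp {p r : ℕ} (hp : p.Coprime 30) (hr : r ∣ 30) (hr1 : r ≠ 1) : p.factorization r = 0 := by
  refine Nat.factorization_eq_zero_of_not_dvd fun h => hr1 ?_
  exact Nat.eq_one_of_dvd_coprimes hp h hr

theorem vpow (k r : ℕ) : (2 ^ k : ℕ).factorization r = k * (2 : ℕ).factorization r := by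
  rw [Nat.factorization_pow]; simp

theorem ne0 {p : ℕ} (hp : p.Coprime 30) : p ≠ 0 := by
  rintro rfl
  norm_num at hp

/-- exponents after division by 5 -/
theorem div5 {N : ℕ} (hN : N ≠ 0) (h5 : 5 ∣ N) : N / 5 ≠ 0 ∧ (N / 5).factorization 2 = N.factorization 2 ∧
    (N / 5).factorization 3 = N.factorization 3 ∧ (N / 5).factorization 5 + 1 = N.factorization 5 := by
  obtain ⟨k, rfl⟩ := h5
  have hk : k ≠ 0 := by rintro rfl; simp at hN
  rw [Nat.mul_div_cancel_left _ (by norm_num : 0 < 5), v_mul (by norm_num) hk,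
    v_mul (by norm_num) hk, v_mul (by norm_num) hk, v52, v53, v55]
  refine ⟨hk, ?_, ?_, ?_⟩ <;> omega

theorem div2 {N : ℕ} (hN : N ≠ 0) (h2 : 2 ∣ N) : 3 * (N / 2) ≠ 0 ∧
    (3 * (N / 2)).factorization 2 + 1 = N.factorization 2 ∧
    (3 * (N / 2)).factorization 3 = N.factorization 3 + 1 ∧
    (3 * (N / 2)).factorization 5 = N.factorization 5 := by
  obtain ⟨k, rfl⟩ := h2
  have hk : k ≠ 0 := by rintro rfl; simp at hN
  rw [Nat.mul_div_cancel_left _ (by norm_num : 0 < 2), v_mul (by norm_num) hk,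
    v_mul (by norm_num) hk, v_mul (by norm_num) hk, v_mul (by norm_num) hk,
    v_mul (by norm_num) hk, v_mul (by norm_num) hk, v22, v23, v25, v32, v33, v35]
  refine ⟨by omega, ?_, ?_, ?_⟩ <;> omega

theorem mul2 {N k : ℕ} (hN : N ≠ 0) : 2 ^ k * N ≠ 0 ∧
    (2 ^ k * N).factorization 2 = N.factorization 2 + k ∧
    (2 ^ k * N).factorization 3 = N.factorization 3 ∧
    (2 ^ k * N).factorization 5 = N.factorization 5 := by
  have h : (2 ^ k : ℕ) ≠ 0 := by positivity
  rw [v_mul h hN, v_mul h hN, v_mul h hN, vpow, vpow, vpow, v22, v23, v25]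
  refine ⟨mul_ne_zero h hN, ?_, ?_, ?_⟩ <;> omega

theorem div3 {N k : ℕ} (hN : N ≠ 0) (h3 : 3 ∣ N) : 2 ^ k * (N / 3) ≠ 0 ∧
    (2 ^ k * (N / 3)).factorization 2 = N.factorization 2 + k ∧
    (2 ^ k * (N / 3)).factorization 3 + 1 = N.factorization 3 ∧
    (2 ^ k * (N / 3)).factorization 5 = N.factorization 5 := by
  obtain ⟨m, rfl⟩ := h3
  have hk : m ≠ 0 := by rintro rfl; simp at hN
  rw [Nat.mul_div_cancel_left _ (by norm_num : 0 < 3)]
  obtain ⟨a, b, c, d⟩ := mul2 (k := k) hk
  rw [b, c, d, v_mul (by norm_num) hk, v_mul (by norm_num) hk, v_mul (by norm_num) hk, v32, v33,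
    v35]
  refine ⟨a, ?_, ?_, ?_⟩ <;> omega

theorem mulp {p N : ℕ} (hp : p.Coprime 30) (hN : N ≠ 0) : p * N ≠ 0 ∧
    (p * N).factorization 2 = N.factorization 2 ∧
    (p * N).factorization 3 = N.factorization 3 ∧
    (p * N).factorization 5 = N.factorization 5 := by
  rw [v_mul (ne0 hp) hN, v_mul (ne0 hp) hN, v_mul (ne0 hp) hN,
    vp hp (by norm_num : 2 ∣ 30) (by norm_num), vp hp (by norm_num : 3 ∣ 30) (by norm_num),
    vp hp (by norm_num : 5 ∣ 30) (by norm_num)]
  refine ⟨mul_ne_zero (ne0 hp) hN, ?_, ?_, ?_⟩ <;> omega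

theorem divp {p N : ℕ} (hp : p.Coprime 30) (hN : N ≠ 0) (hd : p ∣ N) : N / p ≠ 0 ∧
    (N / p).factorization 2 = N.factorization 2 ∧
    (N / p).factorization 3 = N.factorization 3 ∧
    (N / p).factorization 5 = N.factorization 5 := by
  obtain ⟨m, rfl⟩ := hd
  have hk : m ≠ 0 := by rintro rfl; simp at hN
  rw [Nat.mul_div_cancel_left _ (Nat.pos_of_ne_zero (ne0 hp))]
  obtain ⟨_, b, c, d⟩ := mulp hp hk
  exact ⟨hk, b.symm, c.symm, d.symm⟩

/-- the steps of `fwd` -/
inductive St : Ctrl M × ℕ → Ctrl M × ℕ → Prop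
  | s1 (q : Fin M) (N : ℕ) (h : N ≠ 0) : St (.I, N) (.G q, N)
  | s2 (q : Fin M) (b : Bool) (N k : ℕ) (h : N ≠ 0) (hk : k ≠ 0)
      (h2 : k.factorization 2 = N.factorization 2) (h3 : k.factorization 3 = N.factorization 3)
      (h5 : k.factorization 5 + 1 = N.factorization 5) : St (.R q, N) (.H q b, k)
  | s3 (q : Fin M) (b : Bool) (N k : ℕ) (h : N ≠ 0) (hk : k ≠ 0)
      (h2 : k.factorization 2 + 1 = N.factorization 2)
      (h3 : k.factorization 3 = N.factorization 3 + 1)
      (h5 : k.factorization 5 = N.factorization 5) : St (.H q b, N) (.H q b, k)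
  | s4 (q q' : Fin M) (b : Bool) (N k : ℕ) (h : N ≠ 0) (hk : k ≠ 0)
      (h2 : N.factorization 2 + 1 ≤ k.factorization 2)
      (h3 : k.factorization 3 = N.factorization 3)
      (h5 : k.factorization 5 = N.factorization 5) : St (.H q b, N) (.G q', k)
  | s5 (q : Fin M) (N k : ℕ) (h : N ≠ 0) (hk : k ≠ 0)
      (h2 : N.factorization 2 + 2 ≤ k.factorization 2)
      (h3 : k.factorization 3 + 1 = N.factorization 3)
      (h5 : k.factorization 5 = N.factorization 5) : St (.G q, N) (.G q, k)
  | s6 (q : Fin M) (N : ℕ) (h : N ≠ 0) : St (.G q, N) (.R q, N)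

theorem st (P : Fin M → PI (Fin M)) (hP : Good P) (a c : Ctrl M × ℕ)
    (h : fwd P a = some c) : St a c := by
  obtain ⟨a, N⟩ := a
  cases a with
  | I =>
    simp only [fwd] at h
    split_ifs at h with h1
    obtain rfl := Option.some.inj h
    exact St.s1 0 N h1.1
  | R q =>
    simp only [fwd] at h
    split_ifs at h with h1
    push Not at h1
    obtain ⟨hN, h3, h5⟩ := h1
    obtain ⟨k0, k2, k3, k5⟩ := div5 hN h5
    have hp := hP q
    cases hq : P q with
    | halt => simp [hq] at h
    | go q' =>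
      simp only [hq, Option.some.injEq] at h
      subst h
      exact St.s2 q false N _ hN k0 k2 k3 k5
    | inc p q' =>
      simp only [hq, Option.some.injEq] at h
      subst h
      have hp' : p.Coprime 30 := by simpa [hq, PI.pr] using hp
      obtain ⟨a0, a2, a3, a5⟩ := mulp hp' k0
      exact St.s2 q false N _ hN a0 (a2.trans k2) (a3.trans k3) (by rw [a5]; exact k5)
    | dec p q0 q1 =>
      simp only [hq] at h
      have hp' : p.Coprime 30 := by simpa [hq, PI.pr] using hp
      split_ifs at h with h2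
      · obtain rfl := Option.some.inj h
        obtain ⟨a0, a2, a3, a5⟩ := divp hp' k0 h2
        exact St.s2 q true N _ hN a0 (a2.trans k2) (a3.trans k3) (by rw [a5]; exact k5)
      · obtain rfl := Option.some.inj h
        exact St.s2 q false N _ hN k0 k2 k3 k5
  | H q b =>
    simp only [fwd] at h
    split_ifs at h with h1 h2
    · obtain rfl := Option.some.inj h
      obtain ⟨a0, a2, a3, a5⟩ := div2 h1 h2
      exact St.s3 q b N _ h1 a0 a2 a3 a5
    · cases ht : (P q).tgt b with
      | none => simp [ht] at h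
      | some q' =>
        simp only [ht, Option.some.injEq] at h
        subst h
        obtain ⟨a0, a2, a3, a5⟩ := mul2 (k := dig q b) h1
        refine St.s4 q q' b N _ h1 a0 ?_ a3 a5
        rw [a2]
        unfold dig
        omega
  | G q =>
    simp only [fwd] at h
    split_ifs at h with h1 h2
    · obtain rfl := Option.some.inj h
      obtain ⟨a0, a2, a3, a5⟩ := div3 (k := bs M) h1 h2
      refine St.s5 q N _ h1 a0 ?_ a3 a5
      rw [a2]
      have := Nat.pos_of_ne_zero (NeZero.ne M)
      unfold bs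
      omega
    · obtain rfl := Option.some.inj h
      exact St.s6 q N h1

end PotAux


theorem up_lt (P : Fin M → PI (Fin M)) (hP : Good P) (a c : Ctrl M × ℕ) (h : fwd P a = some c) :
    up a < up c := by
  cases PotAux.st P hP a c h <;> simp only [up, Prod.Lex.toLex_lt_toLex] <;> (try norm_num) <;> (try omega)

theorem dn_lt (P : Fin M → PI (Fin M)) (hP : Good P) (a c : Ctrl M × ℕ) (h : fwd P a = some c) :
    dn c < dn a := by
  cases PotAux.st P hP a c h <;> simp only [dn, Prod.Lex.toLex_lt_toLex] <;> (try norm_num) <;> (try omega)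

/-- the number stays positive -/
theorem fwd_pos (P : Fin M → PI (Fin M)) (hP : Good P) (a c : Ctrl M × ℕ) (h : fwd P a = some c) :
    a.2 ≠ 0 ∧ c.2 ≠ 0 := by
  cases PotAux.st P hP a c h <;> refine ⟨?_, ?_⟩ <;> assumption

theorem rv_fwd_fin (P : Fin M → PI (Fin M)) (hP : Good P) (c : Ctrl M × ℕ) : ∃ n, run (rv P hP) n c = none :=
  fwd_fin (rv P hP) dn (fun a d h => dn_lt P hP a d h) c

theorem rv_bwd_fin (P : Fin M → PI (Fin M)) (hP : Good P) (c : Ctrl M × ℕ) :
    ∃ n, run (rv P hP).symm n c = none :=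
  bwd_fin (rv P hP) up (fun a d h => up_lt P hP a d h) c

end CPM
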