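import Pool.Agent.Lib.CPM.Defs

/-!
# Module Rev: the maps `fwd` and `bwd` are inverse to each other

By cases on the control states.  `Good P`: the numbers `p` of the instructions are prime to 30, so `p ≥ 1`, and
`2 ∣ p * N ↔ 2 ∣ N` etc.  `1 ≤ dig q b ≤ 2 M < bs M` and `udig (dig q b) = some (q, b)`; conversely `udig j = some (q, b)`
implies `j = dig q b`.
-/

set_option autoImplicit false

namespace CPM

namespace RevAux

theorem cop3 {p N : ℕ} (hp : p.Coprime 30) : 3 ∣ p * N ↔ 3 ∣ N := by
  have h3 : Nat.Coprime 3 p := by
    have : p.Coprime 3 := Nat.Coprime.coprime_dvd_right (by norm_num) hp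
    exact this.symm
  exact h3.dvd_mul_left

theorem p_pos {p : ℕ} (hp : p.Coprime 30) : 0 < p := by
  rcases Nat.eq_zero_or_pos p with h | h
  · subst h
    simp at hp
  · exact h

theorem not_pow_dvd {j B N : ℕ} (hjB : j < B) (hN : ¬ 2 ∣ N) : ¬ 2 ^ B ∣ 2 ^ j * N := by
  intro h
  apply hN
  have h1 : 2 ^ j * 2 ∣ 2 ^ j * N := by
    rw [← pow_succ]
    exact (pow_dvd_pow 2 hjB).trans h
  exact Nat.dvd_of_mul_dvd_mul_left (by positivity) h1

theorem fac2 {j N : ℕ} (hN : ¬ 2 ∣ N) : (2 ^ j * N).factorization 2 = j := by
  have hN0 : N ≠ 0 := by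
    rintro rfl
    exact hN (dvd_zero _)
  rw [Nat.factorization_mul (by positivity) hN0]
  simp [Nat.Prime.factorization_pow Nat.prime_two, Nat.factorization_eq_zero_of_not_dvd hN]

end RevAux

open RevAux

variable {M : ℕ} [NeZero M]

theorem udig_dig (q : Fin M) (b : Bool) : udig (dig q b) = some (q, b) := by
  have hq := q.2
  unfold udig dig
  cases b
  · have h1 : 0 < 2 * (q : ℕ) + Bool.toNat false + 1 ∧ (2 * (q : ℕ) + Bool.toNat false + 1 - 1) / 2 < M := by
      simp
    rw [dif_pos h1]
    simp
  · have h2 : (2 * (q : ℕ) + 1) / 2 = q := by omega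
    have h1 : 0 < 2 * (q : ℕ) + Bool.toNat true + 1 ∧ (2 * (q : ℕ) + Bool.toNat true + 1 - 1) / 2 < M := by
      simp [h2]
    rw [dif_pos h1]
    simp [h2]

theorem dig_udig (j : ℕ) (q : Fin M) (b : Bool) (h : udig j = some (q, b)) : dig q b = j := by
  unfold udig at h
  split_ifs at h with h1
  simp only [Option.some.injEq, Prod.mk.injEq] at h
  obtain ⟨h2, h3⟩ := h
  subst h2 h3
  unfold dig
  simp only
  by_cases h4 : (j - 1) % 2 = 1
  · simp [h4]
    omega
  · simp [h4]
    omega

theorem RevAux.dig_lt (q : Fin M) (b : Bool) : dig q b < bs M := by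
  have hq := q.2
  unfold dig bs
  cases b <;> simp <;> omega

theorem RevAux.fwd_to (P : Fin M → PI (Fin M)) (hP : Good P) (a c : Ctrl M × ℕ)
    (h : fwd P a = some c) : bwd P c = some a := by
  obtain ⟨s, N⟩ := a
  cases s with
  | I =>
    simp only [fwd] at h
    split_ifs at h with h1
    simp only [Option.some.injEq] at h
    subst h
    simp only [bwd]
    have h2 : ¬ 2 ^ bs M ∣ N := fun h3 => h1.2.1 ((dvd_pow_self 2 (by simp [bs])).trans h3)
    simp [h1.1, h1.2.1, h1.2.2, h2]
  | R q =>
    simp only [fwd] at h
    split_ifs at h with h1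
    push Not at h1
    obtain ⟨h0, h3, m, rfl⟩ := h1
    have hm0 : m ≠ 0 := by
      rintro rfl
      simp at h0
    have hm3 : ¬ 3 ∣ m := fun h' => h3 (h'.mul_left 5)
    have h5 : 5 * m / 5 = m := Nat.mul_div_cancel_left m (by norm_num)
    rw [h5] at h
    have hg := hP q
    generalize hPq : P q = I at h hg
    cases I with
    | halt => simp at h
    | go q' =>
      simp only [Option.some.injEq] at h
      subst h
      simp only [bwd, hPq]
      simp [hm0, hm3]
    | inc p q' =>
      simp only [Option.some.injEq] at h
      subst h
      have hg' : p.Coprime 30 := hg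
      have hp := p_pos hg'
      have h6 : ¬ 3 ∣ p * m := fun h' => hm3 ((cop3 hg').1 h')
      have h7 : p * m ≠ 0 := by positivity
      simp only [bwd, hPq]
      rw [if_neg h7, if_neg h6, if_pos (dvd_mul_right p m), Nat.mul_div_cancel_left m hp]
    | dec p q0 q1 =>
      have hg' : p.Coprime 30 := hg
      have hp := p_pos hg'
      simp only at h
      split_ifs at h with hd
      · simp only [Option.some.injEq] at h
        subst h
        obtain ⟨r, rfl⟩ := hd
        have hr0 : r ≠ 0 := by
          rintro rfl
          simp at hm0
        have hr3 : ¬ 3 ∣ r := fun h' => hm3 (h'.mul_left p)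
        rw [Nat.mul_div_cancel_left r hp]
        simp only [bwd, hPq]
        rw [if_neg hr0, if_neg hr3]
      · simp only [Option.some.injEq] at h
        subst h
        simp only [bwd, hPq]
        rw [if_neg hm0, if_neg hm3, if_neg hd]
  | H q b =>
    simp only [fwd] at h
    split_ifs at h with h0 h2
    · simp only [Option.some.injEq] at h
      subst h
      obtain ⟨m, rfl⟩ := h2
      have hm0 : m ≠ 0 := by
        rintro rfl
        simp at h0
      rw [Nat.mul_div_cancel_left m (by norm_num)]
      simp only [bwd]
      rw [if_neg (by positivity), if_pos (dvd_mul_right 3 m), Nat.mul_div_cancel_left m (by norm_num)]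
    · generalize hT : (P q).tgt b = T at h
      cases T with
      | none => simp at h
      | some q' =>
        simp only [Option.some.injEq] at h
        subst h
        have h3 : 2 ^ dig q b * N ≠ 0 := by positivity
        have h4 : ¬ 2 ^ bs M ∣ 2 ^ dig q b * N := not_pow_dvd (RevAux.dig_lt q b) h2
        have h5 : 2 ∣ 2 ^ dig q b * N := (dvd_pow_self 2 (by simp [dig])).mul_right N
        simp only [bwd]
        rw [if_neg h3, if_neg h4, if_pos h5, fac2 h2, udig_dig]
        simp only
        rw [if_pos hT, Nat.mul_div_cancel_left N (by positivity)]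
  | G q =>
    simp only [fwd] at h
    split_ifs at h with h0 h3
    · simp only [Option.some.injEq] at h
      subst h
      obtain ⟨m, rfl⟩ := h3
      have hm0 : m ≠ 0 := by
        rintro rfl
        simp at h0
      rw [Nat.mul_div_cancel_left m (by norm_num)]
      simp only [bwd]
      rw [if_neg (by positivity), if_pos (dvd_mul_right _ m), Nat.mul_div_cancel_left m (by positivity)]
    · simp only [Option.some.injEq] at h
      subst h
      simp only [bwd]
      rw [if_neg (by simp [h0, h3])]

theorem RevAux.bwd_to (P : Fin M → PI (Fin M)) (hP : Good P) (a c : Ctrl M × ℕ)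
    (h : bwd P c = some a) : fwd P a = some c := by
  obtain ⟨s, N⟩ := c
  cases s with
  | I => simp [bwd] at h
  | R q =>
    simp only [bwd] at h
    split_ifs at h with h1
    push Not at h1
    simp only [Option.some.injEq] at h
    subst h
    simp only [fwd]
    rw [if_neg h1.1, if_neg h1.2]
  | H q b =>
    simp only [bwd] at h
    split_ifs at h with h0 h3
    · simp only [Option.some.injEq] at h
      subst h
      obtain ⟨m, rfl⟩ := h3
      have hm0 : m ≠ 0 := by
        rintro rfl
        simp at h0
      rw [Nat.mul_div_cancel_left m (by norm_num)]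
      simp only [fwd]
      rw [if_neg (by positivity), if_pos (dvd_mul_right 2 m), Nat.mul_div_cancel_left m (by norm_num)]
    · have hg := hP q
      have h5N : ¬ 3 ∣ 5 * N := fun h' => h3 ((Nat.Coprime.dvd_mul_left (by norm_num : Nat.Coprime 3 5)).1 h')
      generalize hPq : P q = I at h hg
      cases I with
      | halt => simp at h
      | go q' =>
        cases b with
        | true => simp at h
        | false =>
          simp only [Option.some.injEq] at h
          subst h
          simp only [fwd, hPq]
          rw [if_neg (by
            push Not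
            exact ⟨by positivity, h5N, dvd_mul_right 5 N⟩), Nat.mul_div_cancel_left N (by norm_num)]
      | inc p q' =>
        have hg' : p.Coprime 30 := hg
        have hp := p_pos hg'
        cases b with
        | true => simp at h
        | false =>
          simp only at h
          split_ifs at h with hd
          simp only [Option.some.injEq] at h
          subst h
          obtain ⟨m, rfl⟩ := hd
          have hm0 : m ≠ 0 := by
            rintro rfl
            simp at h0
          have hm3 : ¬ 3 ∣ 5 * m := fun h' =>
            h3 (((Nat.Coprime.dvd_mul_left (by norm_num : Nat.Coprime 3 5)).1 h').mul_left p)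
          rw [Nat.mul_div_cancel_left m hp]
          simp only [fwd, hPq]
          rw [if_neg (by
            push Not
            exact ⟨by positivity, hm3, dvd_mul_right 5 m⟩), Nat.mul_div_cancel_left m (by norm_num)]
      | dec p q0 q1 =>
        have hg' : p.Coprime 30 := hg
        have hp := p_pos hg'
        cases b with
        | true =>
          simp only [Option.some.injEq] at h
          subst h
          have h6 : ¬ 3 ∣ 5 * (p * N) := fun h' =>
            h3 ((cop3 hg').1 ((Nat.Coprime.dvd_mul_left (by norm_num : Nat.Coprime 3 5)).1 h'))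
          simp only [fwd, hPq]
          rw [if_neg (by
            push Not
            exact ⟨by positivity, h6, dvd_mul_right 5 _⟩), Nat.mul_div_cancel_left (p * N) (by norm_num),
            if_pos (dvd_mul_right p N), Nat.mul_div_cancel_left N hp]
        | false =>
          simp only at h
          split_ifs at h with hd
          simp only [Option.some.injEq] at h
          subst h
          simp only [fwd, hPq]
          rw [if_neg (by
            push Not
            exact ⟨by positivity, h5N, dvd_mul_right 5 N⟩), Nat.mul_div_cancel_left N (by norm_num),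
            if_neg hd]
  | G q =>
    simp only [bwd] at h
    split_ifs at h with h0 hB h2 h4
    · simp only [Option.some.injEq] at h
      subst h
      obtain ⟨m, rfl⟩ := hB
      have hm0 : m ≠ 0 := by
        rintro rfl
        simp at h0
      rw [Nat.mul_div_cancel_left m (by positivity)]
      simp only [fwd]
      rw [if_neg (by positivity), if_pos (dvd_mul_right 3 m), Nat.mul_div_cancel_left m (by norm_num)]
    · generalize hU : udig (M := M) (N.factorization 2) = U at h
      cases U with
      | none => simp at h
      | some qb =>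
        obtain ⟨q0, b⟩ := qb
        simp only at h
        split_ifs at h with hT
        simp only [Option.some.injEq] at h
        subst h
        have h5 : ¬ 2 ∣ N / 2 ^ N.factorization 2 := Nat.not_dvd_ordCompl Nat.prime_two h0
        have h6 : N / 2 ^ N.factorization 2 ≠ 0 := fun h' => h5 (by rw [h']; exact dvd_zero _)
        simp only [fwd]
        rw [if_neg h6, if_neg h5, hT]
        simp only
        rw [dig_udig _ _ _ hU, Nat.ordProj_mul_ordCompl_eq_self]
    · simp only [Option.some.injEq] at h
      subst h
      simp only [fwd]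
      rw [if_pos ⟨h0, h2, h4.2⟩, h4.1]

theorem fwd_bwd (P : Fin M → PI (Fin M)) (hP : Good P) (a c : Ctrl M × ℕ) :
    fwd P a = some c ↔ bwd P c = some a :=
  ⟨RevAux.fwd_to P hP a c, RevAux.bwd_to P hP a c⟩

/-- the reversible machine as a partial injection -/
def rv (P : Fin M → PI (Fin M)) (hP : Good P) : Ctrl M × ℕ ≃. Ctrl M × ℕ where
  toFun := fwd P
  invFun := bwd P
  inv a c := (fwd_bwd P hP a c).symm

omit [NeZero M] in
theorem ioF_ioB (a c : Ctrl M × ℕ) : ioF a = some c ↔ ioB c = some a := by
  obtain ⟨s, N⟩ := a
  obtain ⟨t, K⟩ := c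
  constructor
  · intro h
    cases s with
    | I =>
      simp only [ioF] at h
      split_ifs at h with h1
      simp only [Option.some.injEq, Prod.mk.injEq] at h
      obtain ⟨rfl, rfl⟩ := h
      have h2 : ¬ 2 ∣ 5 * N := fun h' => h1.2.1 ((Nat.Coprime.dvd_mul_left (by norm_num : Nat.Coprime 2 5)).1 h')
      have h3 : ¬ 3 ∣ 5 * N := fun h' => h1.2.2 ((Nat.Coprime.dvd_mul_left (by norm_num : Nat.Coprime 3 5)).1 h')
      simp only [ioB]
      rw [if_pos ⟨by have := h1.1; positivity, h2, h3, dvd_mul_right 5 N⟩, Nat.mul_div_cancel_left N (by norm_num)]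
    | _ => simp [ioF] at h
  · intro h
    cases t with
    | I =>
      simp only [ioB] at h
      split_ifs at h with h1
      simp only [Option.some.injEq, Prod.mk.injEq] at h
      obtain ⟨rfl, rfl⟩ := h
      obtain ⟨h0, h2, h3, m, rfl⟩ := h1
      have hm0 : m ≠ 0 := by
        rintro rfl
        simp at h0
      rw [Nat.mul_div_cancel_left m (by norm_num)]
      simp only [ioF]
      rw [if_pos ⟨hm0, fun h' => h2 (h'.mul_left 5), fun h' => h3 (h'.mul_left 5)⟩]
    | _ => simp [ioB] at h

/-- refuelling as a partial injection -/
def io (M : ℕ) : Ctrl M × ℕ ≃. Ctrl M × ℕ where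
  toFun := ioF
  invFun := ioB
  inv a c := (ioF_ioB a c).symm

theorem fok (P : Fin M → PI (Fin M)) (hP : Good P) : FOk (rv P hP) (io M) (fo P) where
  fo := by
    rintro ⟨s, N⟩ h
    cases s with
    | R q =>
      simp only [fo, Bool.and_eq_true, decide_eq_true_eq] at h
      change fwd P (.R q, N) = none
      simp only [fwd]
      rw [if_pos (Or.inr (Or.inr h.1.2.2))]
    | _ => simp [fo] at h
  io := by
    rintro ⟨s, N⟩ ⟨t, K⟩ h
    have h' : ioF (s, N) = some (t, K) := h
    cases s with
    | I =>
      simp only [ioF] at h'
      split_ifs at h' with h1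
      simp only [Option.some.injEq, Prod.mk.injEq] at h'
      obtain ⟨rfl, rfl⟩ := h'
      exact ⟨rfl, rfl⟩
    | _ => simp [ioF] at h'

end CPM
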