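import Pool.Agent.Lib.CPM.Pot

/-!
# Module Sim: the reversible machine simulates the prime machine

One step (`Y` prime to 30, `K = bs M`, `d = dig q b`):
`(R q, 5^(f+1) 2^h Y) → (H q b, 5^f 2^h Y') →^h (H q b, 5^f 3^h Y') → (G q', 5^f 2^d 3^h Y') →^h (G q', 5^f 2^(d + K h) Y')
→ (R q', 5^f 2^(d + K h) Y')`.
-/

set_option autoImplicit false

namespace CPM

variable {M : ℕ}

/-- prime to 30 -/
abbrev Pr30 (Y : ℕ) : Prop := Y.Coprime 30

namespace SimAux

theorem ne0 {Y : ℕ} (h : Pr30 Y) : Y ≠ 0 := by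
  rintro rfl
  simp [Pr30] at h

theorem nd {Y r : ℕ} (h : Pr30 Y) (hr : r ∣ 30) (hr1 : r ≠ 1) : ¬ r ∣ Y := fun h' =>
  hr1 (Nat.eq_one_of_dvd_coprimes h h' hr)

theorem nd2 {Y : ℕ} (h : Pr30 Y) : ¬ 2 ∣ Y := nd h (by norm_num) (by norm_num)
theorem nd3 {Y : ℕ} (h : Pr30 Y) : ¬ 3 ∣ Y := nd h (by norm_num) (by norm_num)
theorem nd5 {Y : ℕ} (h : Pr30 Y) : ¬ 5 ∣ Y := nd h (by norm_num) (by norm_num)

theorem cop52 {p : ℕ} (hp : p.Coprime 30) (f h : ℕ) : p.Coprime (5 ^ f * 2 ^ h) := by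
  have h5 : p.Coprime 5 := Nat.Coprime.coprime_dvd_right (by norm_num) hp
  have h2 : p.Coprime 2 := Nat.Coprime.coprime_dvd_right (by norm_num) hp
  exact Nat.Coprime.mul_right (h5.pow_right f) (h2.pow_right h)

theorem n3 {Y : ℕ} (hY : ¬ 3 ∣ Y) (f h : ℕ) : ¬ 3 ∣ 5 ^ f * 2 ^ h * Y := by
  intro h'
  have h3 : Nat.Coprime 3 (5 ^ f * 2 ^ h) := Nat.Coprime.mul_right (Nat.Coprime.pow_right f (by norm_num))
    (Nat.Coprime.pow_right h (by norm_num))
  exact hY (h3.dvd_mul_left.1 h')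

theorem n2 {Y : ℕ} (hY : ¬ 2 ∣ Y) (f h : ℕ) : ¬ 2 ∣ 3 ^ h * (5 ^ f * Y) := by
  intro h'
  have h3 : Nat.Coprime 2 (3 ^ h) := Nat.Coprime.pow_right h (by norm_num)
  have h5 : Nat.Coprime 2 (5 ^ f) := Nat.Coprime.pow_right f (by norm_num)
  exact hY (h5.dvd_mul_left.1 (h3.dvd_mul_left.1 h'))

theorem pstep_none (P : Fin M → PI (Fin M)) (c : Fin M × ℕ) (h : pstep P c = none) : P c.1 = .halt := by
  unfold pstep at h
  generalize P c.1 = I at h
  cases I with
  | halt => rfl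
  | go q => simp at h
  | inc p q => simp at h
  | dec p q0 q1 =>
    simp only at h
    split_ifs at h

theorem pstep_halt (P : Fin M → PI (Fin M)) (c : Fin M × ℕ) (h : P c.1 = .halt) : pstep P c = none := by
  unfold pstep
  rw [h]

end SimAux

open SimAux

theorem pr30_step (P : Fin M → PI (Fin M)) (hP : Good P) (c d : Fin M × ℕ) (hc : Pr30 c.2) (h : pstep P c = some d) :
    Pr30 d.2 := by
  obtain ⟨q, N⟩ := c
  have hg := hP q
  unfold pstep at h
  simp only at h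
  generalize P q = I at h hg
  cases I with
  | halt => simp at h
  | go q' =>
    simp only [Option.some.injEq] at h
    subst h
    exact hc
  | inc p q' =>
    simp only [Option.some.injEq] at h
    subst h
    exact Nat.Coprime.mul_left hg hc
  | dec p q0 q1 =>
    simp only at h
    split_ifs at h with hd
    · simp only [Option.some.injEq] at h
      subst h
      exact Nat.Coprime.coprime_dvd_left (Nat.div_dvd_of_dvd hd) hc
    · simp only [Option.some.injEq] at h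
      subst h
      exact hc

theorem pr30_run (P : Fin M → PI (Fin M)) (hP : Good P) (c d : Fin M × ℕ) (hc : Pr30 c.2) (n : ℕ)
    (h : run (pstep P) n c = some d) : Pr30 d.2 := by
  induction n generalizing d with
  | zero =>
    simp only [run, Option.some.injEq] at h
    subst h
    exact hc
  | succ n ih =>
    simp only [run] at h
    obtain ⟨e, he, hed⟩ := Option.bind_eq_some_iff.1 h
    exact pr30_step P hP e d (ih e he) hed

variable [NeZero M]

theorem SimAux.run_H' (P : Fin M → PI (Fin M)) (q : Fin M) (b : Bool) (h : ℕ) :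
    ∀ X : ℕ, X ≠ 0 → run (fwd P) h (.H q b, 2 ^ h * X) = some (.H q b, 3 ^ h * X) := by
  induction h with
  | zero => intro X _; simp [run]
  | succ h ih =>
    intro X hX
    have e1 : 2 ^ (h + 1) * X = 2 ^ h * (2 * X) := by ring
    have e2 : 3 ^ h * (2 * X) = 2 * (3 ^ h * X) := by ring
    simp only [run]
    rw [e1, ih (2 * X) (by positivity), Option.bind_some, e2]
    simp only [fwd]
    rw [if_neg (by positivity), if_pos (dvd_mul_right 2 _), Nat.mul_div_cancel_left _ (by norm_num)]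
    congr 2
    ring

theorem SimAux.run_G' (P : Fin M → PI (Fin M)) (q : Fin M) (h : ℕ) :
    ∀ X : ℕ, X ≠ 0 → run (fwd P) h (.G q, 3 ^ h * X) = some (.G q, 2 ^ (bs M * h) * X) := by
  induction h with
  | zero => intro X _; simp [run]
  | succ h ih =>
    intro X hX
    have e1 : 3 ^ (h + 1) * X = 3 ^ h * (3 * X) := by ring
    have e2 : 2 ^ (bs M * h) * (3 * X) = 3 * (2 ^ (bs M * h) * X) := by ring
    simp only [run]
    rw [e1, ih (3 * X) (by positivity), Option.bind_some, e2]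
    simp only [fwd]
    rw [if_neg (by positivity), if_pos (dvd_mul_right 3 _), Nat.mul_div_cancel_left _ (by norm_num)]
    congr 2
    rw [mul_add, pow_add]
    ring

/-- the loop of an `H` state -/
theorem run_H (P : Fin M → PI (Fin M)) (q : Fin M) (b : Bool) (X : ℕ) (hX : ¬ 2 ∣ X) (h : ℕ) :
    run (fwd P) h (.H q b, 2 ^ h * X) = some (.H q b, 3 ^ h * X) :=
  SimAux.run_H' P q b h X (fun h' => hX (by rw [h']; exact dvd_zero _))

/-- the loop of a `G` state -/
theorem run_G (P : Fin M → PI (Fin M)) (q : Fin M) (X : ℕ) (hX : ¬ 3 ∣ X) (h : ℕ) :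
    run (fwd P) h (.G q, 3 ^ h * X) = some (.G q, 2 ^ (bs M * h) * X) :=
  SimAux.run_G' P q h X (fun h' => hX (by rw [h']; exact dvd_zero _))

theorem SimAux.exec (P : Fin M → PI (Fin M)) (hP : Good P) (q q' : Fin M) (Y Y' f h : ℕ) (hY : Pr30 Y)
    (hs : pstep P (q, Y) = some (q', Y')) :
    ∃ b, (P q).tgt b = some q' ∧
      fwd P (.R q, 5 ^ (f + 1) * 2 ^ h * Y) = some (.H q b, 5 ^ f * 2 ^ h * Y') := by
  have hY0 := ne0 hY
  have hN0 : 5 ^ (f + 1) * 2 ^ h * Y ≠ 0 := by positivity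
  have hN3 : ¬ 3 ∣ 5 ^ (f + 1) * 2 ^ h * Y := n3 (nd3 hY) _ _
  have e1 : 5 ^ (f + 1) * 2 ^ h * Y = 5 * (5 ^ f * 2 ^ h * Y) := by ring
  have hN5 : 5 ∣ 5 ^ (f + 1) * 2 ^ h * Y := by rw [e1]; exact dvd_mul_right _ _
  have hd : 5 ^ (f + 1) * 2 ^ h * Y / 5 = 5 ^ f * 2 ^ h * Y := by
    rw [e1, Nat.mul_div_cancel_left _ (by norm_num)]
  have hg := hP q
  unfold pstep at hs
  simp only [fwd] at hs ⊢
  rw [if_neg (by push Not; exact ⟨hN0, hN3, hN5⟩), hd]
  generalize P q = I at hs hg ⊢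
  cases I with
  | halt => simp at hs
  | go q1 =>
    simp only [Option.some.injEq, Prod.mk.injEq] at hs
    obtain ⟨rfl, rfl⟩ := hs
    exact ⟨false, rfl, rfl⟩
  | inc p q1 =>
    simp only [Option.some.injEq, Prod.mk.injEq] at hs
    obtain ⟨rfl, rfl⟩ := hs
    refine ⟨false, rfl, ?_⟩
    simp only [Option.some.injEq, Prod.mk.injEq, true_and]
    ring
  | dec p q0 q1 =>
    have hg' : p.Coprime 30 := hg
    have hp : 0 < p := by
      rcases Nat.eq_zero_or_pos p with h0 | h0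
      · subst h0
        simp at hg'
      · exact h0
    have hiff : p ∣ 5 ^ f * 2 ^ h * Y ↔ p ∣ Y := (cop52 hg' f h).dvd_mul_left
    simp only at hs ⊢
    by_cases hpd : p ∣ Y
    · rw [if_pos hpd] at hs
      simp only [Option.some.injEq, Prod.mk.injEq] at hs
      obtain ⟨rfl, rfl⟩ := hs
      refine ⟨true, rfl, ?_⟩
      rw [if_pos (hiff.2 hpd), Nat.mul_div_assoc _ hpd]
    · rw [if_neg hpd] at hs
      simp only [Option.some.injEq, Prod.mk.injEq] at hs
      obtain ⟨rfl, rfl⟩ := hs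
      refine ⟨false, rfl, ?_⟩
      rw [if_neg (fun h' => hpd (hiff.1 h'))]

theorem SimAux.run1 {C : Type} (f : C → Option C) (c : C) : run f 1 c = f c := by
  simp [run]

theorem SimAux.trans {C : Type} {f : C → Option C} {m n : ℕ} {c d e : C} (h1 : run f m c = some d)
    (h2 : run f n d = some e) : run f (m + n) c = some e := by
  rw [run_add, h1, Option.bind_some, h2]

/-- one step of the prime machine -/
theorem one_step (P : Fin M → PI (Fin M)) (hP : Good P) (q q' : Fin M) (Y Y' f h : ℕ) (hY : Pr30 Y)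
    (hs : pstep P (q, Y) = some (q', Y')) :
    ∃ n h', run (fwd P) n (.R q, 5 ^ (f + 1) * 2 ^ h * Y) = some (.R q', 5 ^ f * 2 ^ h' * Y') := by
  obtain ⟨b, hb, h1⟩ := SimAux.exec P hP q q' Y Y' f h hY hs
  have hY' : Pr30 Y' := pr30_step P hP (q, Y) (q', Y') hY hs
  have hY0 := ne0 hY'
  have g1 : run (fwd P) 1 (.R q, 5 ^ (f + 1) * 2 ^ h * Y) = some (.H q b, 2 ^ h * (5 ^ f * Y')) := by
    rw [SimAux.run1, h1]
    congr 2
    ring
  have g2 := SimAux.run_H' P q b h (5 ^ f * Y') (by positivity)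
  have g3 : run (fwd P) 1 (.H q b, 3 ^ h * (5 ^ f * Y')) = some (.G q', 3 ^ h * (2 ^ dig q b * (5 ^ f * Y'))) := by
    rw [SimAux.run1]
    simp only [fwd]
    rw [if_neg (by positivity), if_neg (n2 (nd2 hY') f h), hb]
    simp only [Option.some.injEq, Prod.mk.injEq, true_and]
    ring
  have g4 := SimAux.run_G' P q' h (2 ^ dig q b * (5 ^ f * Y')) (by positivity)
  have e1 : 2 ^ (bs M * h) * (2 ^ dig q b * (5 ^ f * Y')) = 5 ^ f * 2 ^ (bs M * h + dig q b) * Y' := by
    rw [pow_add]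
    ring
  have g5 : run (fwd P) 1 (.G q', 2 ^ (bs M * h) * (2 ^ dig q b * (5 ^ f * Y'))) =
      some (.R q', 5 ^ f * 2 ^ (bs M * h + dig q b) * Y') := by
    rw [SimAux.run1, e1]
    simp only [fwd]
    rw [if_neg (by positivity), if_neg (n3 (nd3 hY') _ _)]
  exact ⟨_, _, SimAux.trans (SimAux.trans (SimAux.trans (SimAux.trans g1 g2) g3) g4) g5⟩

theorem sim (P : Fin M → PI (Fin M)) (hP : Good P) (q : Fin M) (Y Y' i f : ℕ) (hY : Pr30 Y)
    (hr : run (pstep P) i (0, Y) = some (q, Y')) :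
    ∃ n h, run (fwd P) n (.I, 5 ^ (i + f) * Y) = some (.R q, 5 ^ f * 2 ^ h * Y') := by
  induction i generalizing q Y' f with
  | zero =>
    simp only [run, Option.some.injEq, Prod.mk.injEq] at hr
    obtain ⟨rfl, rfl⟩ := hr
    have hY0 := ne0 hY
    have a1 : 5 ^ (0 + f) * Y ≠ 0 := by positivity
    have a2 : ¬ 2 ∣ 5 ^ (0 + f) * Y := by
      have := n2 (nd2 hY) (0 + f) 0
      simpa using this
    have a3 : ¬ 3 ∣ 5 ^ (0 + f) * Y := by
      have := n3 (nd3 hY) (0 + f) 0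
      simpa using this
    have g1 : run (fwd P) 1 (.I, 5 ^ (0 + f) * Y) = some (.G 0, 5 ^ (0 + f) * Y) := by
      rw [SimAux.run1]
      simp only [fwd]
      rw [if_pos ⟨a1, a2, a3⟩]
    have g2 : run (fwd P) 1 (.G 0, 5 ^ (0 + f) * Y) = some (.R 0, 5 ^ f * 2 ^ 0 * Y) := by
      rw [SimAux.run1]
      simp only [fwd]
      rw [if_neg a1, if_neg a3]
      simp
    exact ⟨_, 0, SimAux.trans g1 g2⟩
  | succ i ih =>
    simp only [run] at hr
    obtain ⟨⟨q1, Y1⟩, he, hed⟩ := Option.bind_eq_some_iff.1 hr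
    obtain ⟨n1, h1, g1⟩ := ih q1 Y1 (f + 1) he
    have hY1 : Pr30 Y1 := pr30_run P hP (0, Y) (q1, Y1) hY i he
    obtain ⟨n2, h2, g2⟩ := one_step P hP q1 q Y1 Y' f h1 hY1 hed
    have e1 : i + 1 + f = i + (f + 1) := by ring
    rw [e1]
    exact ⟨_, h2, SimAux.trans g1 g2⟩

/-- the machine does not halt: the fuel gets out -/
theorem fo_of_not_halts (P : Fin M → PI (Fin M)) (hP : Good P) (Y : ℕ) (hY : Pr30 Y) (hn : ¬ PHalts P (0, Y))
    (j : ℕ) : ∃ n e, run (fwd P) n (.I, 5 ^ j * Y) = some e ∧ fo P e = true := by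
  obtain ⟨⟨q, Y'⟩, he⟩ : ∃ x, run (pstep P) j (0, Y) = some x := by
    rcases h : run (pstep P) j (0, Y) with _ | x
    · exact absurd ⟨j, h⟩ hn
    · exact ⟨x, rfl⟩
  obtain ⟨n, h, g⟩ := sim P hP q Y Y' j 0 hY he
  have hY' : Pr30 Y' := pr30_run P hP (0, Y) (q, Y') hY j he
  have hY0 := ne0 hY'
  refine ⟨n, _, g, ?_⟩
  have hne : P q ≠ .halt := by
    intro hh
    apply hn
    refine ⟨j + 1, ?_⟩
    simp only [run]
    rw [he, Option.bind_some, SimAux.pstep_halt P (q, Y') hh]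
  have b1 : 5 ^ 0 * 2 ^ h * Y' ≠ 0 := by positivity
  have b2 : ¬ 3 ∣ 5 ^ 0 * 2 ^ h * Y' := n3 (nd3 hY') _ _
  have b3 : ¬ 5 ∣ 5 ^ 0 * 2 ^ h * Y' := by
    rw [pow_zero, one_mul]
    intro h'
    have h5 : Nat.Coprime 5 (2 ^ h) := Nat.Coprime.pow_right h (by norm_num)
    exact nd5 hY' (h5.dvd_mul_left.1 h')
  have b4 : (P q).isH = false := by
    generalize P q = I at hne
    cases I with
    | halt => exact absurd rfl hne
    | _ => rfl
  simp only [fo, Bool.and_eq_true, decide_eq_true_eq, b4, Bool.not_false, and_true]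
  exact ⟨b1, b2, b3⟩

/-- the machine halts: with enough fuel the run ends otherwise -/
theorem last_of_halts (P : Fin M → PI (Fin M)) (hP : Good P) (Y : ℕ) (hY : Pr30 Y) (hh : PHalts P (0, Y)) :
    ∃ i, ∀ j, i ≤ j → ∃ n e, run (fwd P) n (.I, 5 ^ j * Y) = some e ∧ fwd P e = none ∧ fo P e = false := by
  classical
  obtain ⟨i, q, Y', hi, hq⟩ : ∃ i q Y', run (pstep P) i (0, Y) = some (q, Y') ∧ P q = .halt := by
    have h1 := Nat.find_spec hh
    rcases hm : Nat.find hh with _ | i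
    · rw [hm] at h1
      simp [run] at h1
    · have h2 : run (pstep P) i (0, Y) ≠ none := Nat.find_min hh (by omega)
      rw [hm] at h1
      simp only [run] at h1
      rcases h3 : run (pstep P) i (0, Y) with _ | ⟨q, Y'⟩
      · exact absurd h3 h2
      · rw [h3, Option.bind_some] at h1
        exact ⟨i, q, Y', h3, SimAux.pstep_none P (q, Y') h1⟩
  refine ⟨i, fun j hj => ?_⟩
  obtain ⟨f, rfl⟩ := Nat.exists_eq_add_of_le hj
  obtain ⟨n, h, g⟩ := sim P hP q Y Y' i f hY hi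
  refine ⟨n, _, g, ?_, ?_⟩
  · simp only [fwd, hq]
    split_ifs <;> rfl
  · simp [fo, hq, PI.isH]

end CPM
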