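import Pool.Agent.Lib.CPM.Sim

/-!
# Module SimT: the refuelled machine

From `Fuel`: `round`, `last_round`, `reach_io`, `T2_bwd` (with `ν` = the exponent of 5 in the number), and from `Sim`:
`fo_of_not_halts`, `last_of_halts`.
`t2_fin`: by induction on `i - j` with `i` of `last_of_halts`: the `T`-run from `(I, 5^j Y)` ends (`rv_fwd_fin`) at `e`; if
`fo e`, one round leads to `(I, 5^(j+1) Y)`, otherwise `last_round`.  (If `j ≥ i`, the case `fo e` is excluded.)
`t2_inf`: infinitely many rounds (`round` with its second part: all points on the way are on the `T`-chain of `(I, 5^j Y)`, and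
only the first point of the chain has the state `I`).
-/

set_option autoImplicit false

namespace CPM

variable {M : ℕ} [NeZero M]

/-- the refuelled machine -/
def t2 (P : Fin M → PI (Fin M)) (hP : Good P) : (Ctrl M × ℕ) × Bool ≃. (Ctrl M × ℕ) × Bool :=
  T2 (rv P hP) (io M) (fo P) (fok P hP)

namespace SimTAux

theorem run_none {C : Type} (f : C → Option C) (c : C) {m n : ℕ} (h : run f m c = none) (hmn : m ≤ n) :
    run f n c = none := by
  obtain ⟨k, rfl⟩ := Nat.exists_eq_add_of_le hmn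
  rw [run_add, h]
  rfl

theorem run_end {C : Type} (f : C → Option C) (c : C) (h : ∃ n, run f n c = none) :
    ∃ k e, run f k c = some e ∧ f e = none := by
  classical
  have h1 := Nat.find_spec h
  have h2 : Nat.find h ≠ 0 := by
    intro h0
    rw [h0] at h1
    simp [run] at h1
  obtain ⟨k, hk⟩ := Nat.exists_eq_succ_of_ne_zero h2
  have h3 : run f k c ≠ none := Nat.find_min h (by omega)
  obtain ⟨e, he⟩ := Option.ne_none_iff_exists'.1 h3
  refine ⟨k, e, he, ?_⟩
  rw [hk] at h1
  simp only [run, he, Option.bind_some] at h1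
  exact h1

theorem end_unique {C : Type} (f : C → Option C) {c e e' : C} {k n : ℕ} (h1 : run f k c = some e)
    (h2 : f e = none) (h3 : run f n c = some e') (h4 : f e' = none) : e = e' := by
  have key : ∀ {a b : ℕ} {u v : C}, run f a c = some u → f u = none → run f b c = some v → b ≤ a := by
    intro a b u v ha hu hb
    by_contra hlt
    have h5 : run f (a + 1) c = none := by
      simp only [run, ha, Option.bind_some]
      exact hu
    have h6 := run_none f c h5 (show a + 1 ≤ b by omega)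
    rw [h6] at hb
    cases hb
  have e1 := key h1 h2 h3
  have e2 := key h3 h4 h1
  have e3 : k = n := le_antisymm e2 e1
  rw [e3, h3] at h1
  exact (Option.some.inj h1).symm

theorem io_I (M : ℕ) [NeZero M] {N : ℕ} (h0 : N ≠ 0) (h2 : ¬ 2 ∣ N) (h3 : ¬ 3 ∣ N) :
    io M (.I, N) = some (.I, 5 * N) := by
  show ioF (M := M) (.I, N) = _
  unfold ioF
  simp [h0, h2, h3]

theorem io_some (M : ℕ) [NeZero M] {d c : Ctrl M × ℕ} (h : io M d = some c) :
    ∃ N, d = (.I, N) ∧ c = (.I, 5 * N) ∧ N ≠ 0 ∧ ¬ 2 ∣ N ∧ ¬ 3 ∣ N := by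
  have h' : ioF (M := M) d = some c := h
  obtain ⟨q, N⟩ := d
  cases q with
  | I =>
    simp only [ioF] at h'
    split_ifs at h' with hc
    exact ⟨N, rfl, (Option.some.inj h').symm, hc.1, hc.2.1, hc.2.2⟩
  | R q => simp [ioF] at h'
  | H q b => simp [ioF] at h'
  | G q => simp [ioF] at h'

theorem pr_ne {Y : ℕ} (hY : Pr30 Y) (j : ℕ) : 5 ^ j * Y ≠ 0 ∧ ¬ 2 ∣ 5 ^ j * Y ∧ ¬ 3 ∣ 5 ^ j * Y := by
  have hY' : Nat.Coprime Y 30 := hY
  have h2 : ¬ 2 ∣ Y := by
    intro h
    have := Nat.Coprime.eq_one_of_dvd (Nat.Coprime.coprime_dvd_left h hY') (by norm_num)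
    omega
  have h3 : ¬ 3 ∣ Y := by
    intro h
    have := Nat.Coprime.eq_one_of_dvd (Nat.Coprime.coprime_dvd_left h hY') (by norm_num)
    omega
  have h0 : Y ≠ 0 := by
    rintro rfl
    exact h2 (dvd_zero 2)
  refine ⟨by positivity, ?_, ?_⟩
  · intro h
    rcases (Nat.Prime.dvd_mul Nat.prime_two).1 h with h | h
    · have := Nat.Prime.dvd_of_dvd_pow Nat.prime_two h
      omega
    · exact h2 h
  · intro h
    rcases (Nat.Prime.dvd_mul Nat.prime_three).1 h with h | h
    · have := Nat.Prime.dvd_of_dvd_pow Nat.prime_three h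
      omega
    · exact h3 h

theorem io_pr (M : ℕ) [NeZero M] {Y : ℕ} (hY : Pr30 Y) (j : ℕ) :
    io M (.I, 5 ^ j * Y) = some (.I, 5 ^ (j + 1) * Y) := by
  obtain ⟨h0, h2, h3⟩ := pr_ne hY j
  rw [io_I M h0 h2 h3]
  have : 5 * (5 ^ j * Y) = 5 ^ (j + 1) * Y := by ring
  rw [this]

theorem run_I (P : Fin M → PI (Fin M)) (hP : Good P) {c : Ctrl M × ℕ} {i N : ℕ}
    (h : run (rv P hP) i c = some (.I, N)) : i = 0 := by
  cases i with
  | zero => rfl
  | succ i =>
    exfalso
    simp only [run] at h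
    obtain ⟨d, _, hd⟩ := Option.bind_eq_some_iff.1 h
    have h1 : (rv P hP).symm (.I, N) = some d := (PEquiv.eq_some_iff _).2 hd
    have h2 : bwd P (.I, N) = some d := h1
    simp [bwd] at h2

theorem io_nu (M : ℕ) [NeZero M] (c d : Ctrl M × ℕ) (h : io M c = some d) :
    c.2.factorization 5 < d.2.factorization 5 := by
  obtain ⟨N, rfl, rfl, h0, _, _⟩ := io_some M h
  show N.factorization 5 < (5 * N).factorization 5
  rw [Nat.factorization_mul (by norm_num) h0, Finsupp.add_apply,
    Nat.Prime.factorization_self (by norm_num : Nat.Prime 5)]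
  omega

end SimTAux

open SimTAux

theorem t2_fin (P : Fin M → PI (Fin M)) (hP : Good P) (Y : ℕ) (hY : Pr30 Y) (hh : PHalts P (0, Y)) (j : ℕ) :
    ∃ n, run (t2 P hP) n ((.I, 5 ^ j * Y), true) = none := by
  obtain ⟨i, hi⟩ := last_of_halts P hP Y hY hh
  have key : ∀ r j, i - j ≤ r → ∃ n, run (t2 P hP) n ((.I, 5 ^ j * Y), true) = none := by
    intro r
    induction r with
    | zero =>
      intro j hj
      obtain ⟨k, e, he, he'⟩ := run_end (rv P hP) (.I, 5 ^ j * Y) (rv_fwd_fin P hP _)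
      obtain ⟨n, e', h1, h2, h3⟩ := hi j (by omega)
      have h4 : e = e' := end_unique (rv P hP) he he' h1 h2
      rw [← h4] at h3
      exact ⟨k + 1, last_round _ _ _ _ _ _ _ he he' h3⟩
    | succ r ih =>
      intro j hj
      obtain ⟨k, e, he, he'⟩ := run_end (rv P hP) (.I, 5 ^ j * Y) (rv_fwd_fin P hP _)
      cases hfo : fo P e with
      | false => exact ⟨k + 1, last_round _ _ _ _ _ _ _ he he' hfo⟩
      | true =>
        have h1 := (round (rv P hP) (io M) (fo P) (fok P hP) _ _ e k (io_pr M hY j) he hfo).1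
        obtain ⟨n, hn⟩ := ih (j + 1) (by omega)
        refine ⟨2 * k + 2 + n, ?_⟩
        rw [run_add]
        have h1' : run (t2 P hP) (2 * k + 2) ((.I, 5 ^ j * Y), true) =
            some ((.I, 5 ^ (j + 1) * Y), true) := h1
        rw [h1']
        exact hn
  exact key (i - j) j le_rfl

theorem t2_inf (P : Fin M → PI (Fin M)) (hP : Good P) (Y : ℕ) (hY : Pr30 Y) (hn : ¬ PHalts P (0, Y)) (n : ℕ) :
    ∃ d, run (t2 P hP) n ((.I, Y), true) = some d ∧ ∀ N b, d = ((.I, N), b) → ∃ j, N = 5 ^ j * Y := by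
  have key : ∀ m, ∃ τ, m ≤ τ ∧ run (t2 P hP) τ ((.I, Y), true) = some ((.I, 5 ^ m * Y), true) ∧
      ∀ n < τ, ∃ d, run (t2 P hP) n ((.I, Y), true) = some d ∧
        ∀ N b, d = ((.I, N), b) → ∃ j, N = 5 ^ j * Y := by
    intro m
    induction m with
    | zero =>
      refine ⟨0, le_rfl, ?_, fun n hn => absurd hn (Nat.not_lt_zero _)⟩
      simp [run]
    | succ m ih =>
      obtain ⟨τ, hτ, h1, h2⟩ := ih
      obtain ⟨k, e, he, hfo⟩ := fo_of_not_halts P hP Y hY hn m
      obtain ⟨h3, h4⟩ := round (rv P hP) (io M) (fo P) (fok P hP) _ _ e k (io_pr M hY m) he hfo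
      have h3' : run (t2 P hP) (2 * k + 2) ((.I, 5 ^ m * Y), true) =
            some ((.I, 5 ^ (m + 1) * Y), true) := h3
      refine ⟨τ + (2 * k + 2), by omega, ?_, ?_⟩
      · rw [run_add, h1]
        exact h3'
      · intro n hn'
        by_cases hlt : n < τ
        · exact h2 n hlt
        · obtain ⟨r, rfl⟩ := Nat.exists_eq_add_of_le (not_lt.1 hlt)
          obtain ⟨i, _, d, b, h5, h6⟩ := h4 r (by omega)
          have h6' : run (t2 P hP) r ((.I, 5 ^ m * Y), true) = some (d, b) := h6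
          refine ⟨(d, b), ?_, ?_⟩
          · rw [run_add, h1]
            exact h6'
          · intro N b' hd
            have hd1 : d = (.I, N) := (Prod.ext_iff.1 hd).1
            rw [hd1] at h5
            have h7 := run_I P hP h5
            rw [h7] at h5
            simp only [run] at h5
            have h8 := Option.some.inj h5
            exact ⟨m, (Prod.ext_iff.1 h8).2.symm⟩
  obtain ⟨τ, hτ, -, h2⟩ := key (n + 1)
  exact h2 n (by omega)

/-- backward runs end -/
theorem SimTAux.bwd_fin' (P : Fin M → PI (Fin M)) (hP : Good P) (x : (Ctrl M × ℕ) × Bool) :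
    ∃ n, run (t2 P hP).symm n x = none :=
  T2_bwd (rv P hP) (io M) (fo P) (fok P hP) (rv_fwd_fin P hP) (rv_bwd_fin P hP)
    (fun c => c.2.factorization 5) (io_nu M) x

/-- no return to the start -/
theorem t2_ne (P : Fin M → PI (Fin M)) (hP : Good P) (Y : ℕ) (hY : Pr30 Y) (n : ℕ) (hn : 0 < n) :
    run (t2 P hP) n ((.I, Y), true) ≠ some ((.I, Y), true) := by
  intro h
  have h1 := (run_symm (t2 P hP) n _ _).1 h
  obtain ⟨m, hm⟩ := SimTAux.bwd_fin' P hP ((.I, Y), true)
  have h2 : ∀ k, run (t2 P hP).symm (k * n) ((.I, Y), true) = some ((.I, Y), true) := by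
    intro k
    induction k with
    | zero => simp [run]
    | succ k ih =>
      rw [Nat.succ_mul, run_add, ih]
      exact h1
  have h3 := run_none _ _ hm (show m ≤ m * n from Nat.le_mul_of_pos_right _ hn)
  rw [h2 m] at h3
  cases h3

/-- backward runs end -/
theorem t2_bwd_fin (P : Fin M → PI (Fin M)) (hP : Good P) (x : (Ctrl M × ℕ) × Bool) :
    ∃ n, run (t2 P hP).symm n x = none :=
  SimTAux.bwd_fin' P hP x

/-- from any point the run ends or comes to the start of a proper computation -/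
theorem t2_reach (P : Fin M → PI (Fin M)) (hP : Good P) (x : (Ctrl M × ℕ) × Bool) :
    (∃ n, run (t2 P hP) n x = none) ∨ ∃ n j Y, Pr30 Y ∧ run (t2 P hP) n x = some ((.I, 5 ^ j * Y), false) ∧
      run (t2 P hP) (n + 1) x = some ((.I, 5 ^ (j + 1) * Y), true) := by
  rcases reach_io (rv P hP) (io M) (fo P) (fok P hP) (rv_fwd_fin P hP) (rv_bwd_fin P hP) x with
    h | ⟨n, d, c, h1, h2, h3⟩
  · exact Or.inl h
  · right
    obtain ⟨N, rfl, rfl, h0, e2, e3⟩ := io_some M h1
    obtain ⟨j, Y, hY5, hN⟩ := Nat.exists_eq_pow_mul_and_not_dvd h0 5 (by norm_num)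
    have hY : Pr30 Y := by
      show Nat.Coprime Y 30
      have a2 : Nat.Coprime Y 2 := by
        refine ((Nat.Prime.coprime_iff_not_dvd Nat.prime_two).2 (fun h => e2 ?_)).symm
        rw [hN]
        exact Dvd.dvd.mul_left h _
      have a3 : Nat.Coprime Y 3 := by
        refine ((Nat.Prime.coprime_iff_not_dvd Nat.prime_three).2 (fun h => e3 ?_)).symm
        rw [hN]
        exact Dvd.dvd.mul_left h _
      have a5 : Nat.Coprime Y 5 :=
        ((Nat.Prime.coprime_iff_not_dvd (by norm_num : Nat.Prime 5)).2 hY5).symm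
      have : (30 : ℕ) = 2 * 3 * 5 := by norm_num
      rw [this]
      exact (a2.mul_right a3).mul_right a5
    have hN' : 5 * N = 5 ^ (j + 1) * Y := by rw [hN]; ring
    refine ⟨n, j, Y, hY, ?_, ?_⟩
    · rw [← hN]
      exact h2
    · rw [← hN']
      exact h3

/-- from the start of a proper computation the run ends or comes back to the start with the sign `false` -/
theorem t2_start (P : Fin M → PI (Fin M)) (hP : Good P) (Y : ℕ) (hY : Pr30 Y) (j : ℕ) :
    (∃ n, run (t2 P hP) n ((.I, 5 ^ j * Y), true) = none) ∨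
      ∃ n, 0 < n ∧ run (t2 P hP) n ((.I, 5 ^ j * Y), true) = some ((.I, 5 ^ j * Y), false) := by
  obtain ⟨k, e, he, he'⟩ := run_end (rv P hP) (.I, 5 ^ j * Y) (rv_fwd_fin P hP _)
  cases hfo : fo P e with
  | false => exact Or.inl ⟨k + 1, last_round _ _ _ _ _ _ _ he he' hfo⟩
  | true =>
    right
    have h1 := (round (rv P hP) (io M) (fo P) (fok P hP) _ _ e k (io_pr M hY j) he hfo).1
    have h1' : run (t2 P hP) (2 * k + 1 + 1) ((.I, 5 ^ j * Y), true) =
        some ((.I, 5 ^ (j + 1) * Y), true) := h1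
    refine ⟨2 * k + 1, by omega, ?_⟩
    have h2 : (run (t2 P hP) (2 * k + 1) ((.I, 5 ^ j * Y), true)).bind (t2 P hP) =
        some ((.I, 5 ^ (j + 1) * Y), true) := h1'
    obtain ⟨z, hz, hz'⟩ := Option.bind_eq_some_iff.1 h2
    have h3 : (t2 P hP).symm ((.I, 5 ^ (j + 1) * Y), true) = some z := (PEquiv.eq_some_iff _).2 hz'
    have h4 : b2 (rv P hP) (io M) (fo P) ((.I, 5 ^ (j + 1) * Y), true) = some z := h3
    have h5 : (rv P hP).symm (.I, 5 ^ (j + 1) * Y) = none := by
      show bwd P (.I, 5 ^ (j + 1) * Y) = none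
      rfl
    have h6 : (io M).symm (.I, 5 ^ (j + 1) * Y) = some (.I, 5 ^ j * Y) :=
      (PEquiv.eq_some_iff _).2 (io_pr M hY j)
    unfold b2 at h4
    simp only [if_true, h5, h6, Option.map_some] at h4
    rw [hz]
    exact h4.symm

end CPM
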