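import Pool.Agent.Lib.CPM.ZedF

/-!
# The linked permutation is computable
-/

set_option autoImplicit false

namespace CPM

variable {M : ℕ} [NeZero M] (P : Fin M → PI (Fin M)) (hP : Good P)

open HomAux CoreAAux CodeAux

/-- exchange of the second sign, on the codes -/
noncomputable def fl (M n : ℕ) : ℕ := enc (M := M) ((dcd M n).1, !(dcd M n).2)

/-- apply `g` to the number of the block, on the codes -/
def bk (M : ℕ) (g : ℕ → ℕ) (m n : ℕ) : ℕ :=
  sz M * (m * g (n / sz M / m) + n / sz M % m) + n % sz M

/-- indicator functions of sets of states -/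
noncomputable def ind (M : ℕ) (p : Ctrl M × Bool × Bool → Bool) (n : ℕ) : ℕ :=
  (p (sst M n)).toNat

omit [NeZero M] in
theorem ind_aff (p : Ctrl M × Bool × Bool → Bool) : IsAff (sz M) (ind M p) := by
  intro n
  have h1 : ind M p (n + sz M) = ind M p n := by
    unfold ind
    have := sst_add (M := M) n 1
    rw [mul_one] at this
    rw [this]
  have h2 : ind M p (n + 2 * sz M) = ind M p n := by
    unfold ind
    have := sst_add (M := M) n 2
    rw [mul_comm (sz M) 2] at this
    rw [this]
  rw [h1, h2]
  omega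

omit [NeZero M] in
theorem ind_prim (p : Ctrl M × Bool × Bool → Bool) : Primrec (ind M p) :=
  IsAff.primrec (sz_pos M) (ind_aff p)

theorem fl_add (n t : ℕ) : fl M (n + sz M * t) = fl M n + sz M * t := by
  unfold fl
  rw [dcd_add]
  exact enc_add _ _ _ _ _ (Nat.succ_ne_zero _)

theorem fl_aff : IsAff (sz M) (fl M) := by
  intro n
  have h1 := fl_add (M := M) n 1
  have h2 := fl_add (M := M) n 2
  rw [mul_one] at h1
  rw [mul_comm (sz M) 2] at h2
  rw [h1, h2]
  constructor
  · omega
  · ring

theorem fl_prim : Primrec (fl M) := IsAff.primrec (sz_pos M) fl_aff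

omit [NeZero M] in
theorem dcd_bk (g : ℕ → ℕ) (m n : ℕ) :
    dcd M (bk M g m n) = (sg m g (dcd M n).1, (dcd M n).2) := by
  have hsz := sz_pos M
  have h1 : bk M g m n % sz M = n % sz M := by
    unfold bk
    rw [Nat.mul_add_mod, Nat.mod_mod]
  have h2 : bk M g m n / sz M = m * g (n / sz M / m) + n / sz M % m := by
    unfold bk
    rw [Nat.mul_add_div hsz, Nat.div_eq_of_lt (Nat.mod_lt _ hsz), Nat.add_zero]
  have h3 : sst M (bk M g m n) = sst M n := by
    unfold sst
    congr 1
    exact Fin.ext h1
  unfold dcd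
  rw [h3, h2]
  unfold sg blk
  simp only
  rw [if_neg (Nat.succ_ne_zero _), Nat.add_sub_cancel]

theorem fl_bk (g : ℕ → ℕ) (m n : ℕ) (h : (dcd M n).2 = false) :
    fl M (bk M g m n) = enc (M := M) (sg m g (dcd M n).1, true) := by
  unfold fl
  rw [dcd_bk, h]
  rfl

/-- the condition for the cut at the point itself -/
def cA (M x n : ℕ) : Prop :=
  ind M (fun s => decide (s = (.I, false, true))) n = 1 ∧ ¬ E M x n

/-- the condition for the beginning of a chain -/
def cB {M : ℕ} [NeZero M] (P : Fin M → PI (Fin M)) (hP : Good P) (x n : ℕ) : Prop :=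
  ind M (fun s => !s.2.2) n = 1 ∧ (mu P hP n = fl M n ∨
    (ind M (fun s => decide (s = (.I, true, false))) n = 1 ∧ ¬ (n / sz M + 1) % 2 = 0 ∧
      ¬ (n / sz M + 1) % 3 = 0 ∧ (n / sz M + 1) % 5 = 0 ∧ ¬ E M x n))

omit [NeZero M] in
theorem ind_iff (p : Ctrl M × Bool × Bool → Bool) (n : ℕ) : ind M p n = 1 ↔ p (sst M n) = true := by
  unfold ind
  cases p (sst M n) <;> simp

theorem enc_ne (c d : (Ctrl M × ℕ) × Bool) (hc : c.1.2 ≠ 0) (hd : d.1.2 ≠ 0) :
    enc (M := M) (c, false) ≠ enc (d, true) := by
  intro h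
  have h1 := congrArg (dcd M) h
  rw [dcd_enc _ hc, dcd_enc _ hd] at h1
  have h2 := congrArg Prod.snd h1
  exact absurd h2 (by simp)

/-- the predecessor of a refuelled starting point -/
theorem t2_symm_I {N : ℕ} (h0 : N ≠ 0) (h2 : ¬ 2 ∣ N) (h3 : ¬ 3 ∣ N) (h5 : 5 ∣ N) :
    (t2 P hP).symm ((.I, N), true) = some ((.I, N / 5), false) := by
  have e1 : (t2 P hP).symm ((Ctrl.I, N), true) =
      b2 (rv P hP) (io M) (fo P) ((Ctrl.I, N), true) := rfl
  have e3 : (rv P hP).symm (Ctrl.I, N) = none := rfl
  have e4 : (io M).symm (Ctrl.I, N) = some (Ctrl.I, N / 5) := by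
    show ioB (Ctrl.I, N) = _
    simp only [ioB]
    rw [if_pos ⟨h0, h2, h3, h5⟩]
  rw [e1]
  simp only [b2, if_true]
  rw [e3, e4]
  rfl

theorem t2_I {N : ℕ} {c : (Ctrl M × ℕ) × Bool} (h : t2 P hP ((.I, N), false) = some c) :
    N ≠ 0 ∧ ¬ 2 ∣ N ∧ ¬ 3 ∣ N ∧ c = ((.I, 5 * N), true) := by
  have e1 : t2 P hP ((Ctrl.I, N), false) =
      f2 (rv P hP) (io M) (fo P) ((Ctrl.I, N), false) := rfl
  have e3 : (rv P hP).symm (Ctrl.I, N) = none := rfl
  have e4 : (io M) (Ctrl.I, N) = ioF (Ctrl.I, N) := rfl
  rw [e1] at h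
  simp only [f2, Bool.false_eq_true, if_false] at h
  rw [e3, e4] at h
  simp only [ioF] at h
  by_cases hc : N ≠ 0 ∧ ¬ 2 ∣ N ∧ ¬ 3 ∣ N
  · rw [if_pos hc] at h
    exact ⟨hc.1, hc.2.1, hc.2.2, (Option.some.inj h).symm⟩
  · rw [if_neg hc] at h
    exact absurd h (by simp)

open Classical in
theorem ZF_eq (g : ℕ → ℕ) (x n : ℕ) :
    ZF P hP g x n = if cA M x n then fl M n else
      if cB P hP x n then fl M (bk M g (mx P x) n) else mu P hP n := by
  obtain ⟨s, b1, b2, hs⟩ : ∃ s b1 b2, sst M n = (s, b1, b2) := ⟨_, _, _, rfl⟩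
  have hd : dcd M n = (((s, n / sz M + 1), b1), b2) := by
    unfold dcd
    rw [hs]
  set N := n / sz M + 1 with hN
  have hN0 : N ≠ 0 := Nat.succ_ne_zero _
  have hE : E M x n ↔ N.factorization 11 = x := by
    rw [E_iff, hd]
  cases b2
  · have hA : ¬ cA M x n := by
      rintro ⟨h1, _⟩
      rw [ind_iff, hs] at h1
      simp at h1
    rw [if_neg hA]
    have hi : ind M (fun s => !s.2.2) n = 1 := by
      rw [ind_iff, hs]
      rfl
    rcases ht : (t2 P hP).symm ((s, N), b1) with _ | e
    · have hx : (fx P hP x).symm ((s, N), b1) = none := by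
        show (cutP _ _).symm _ = none
        rw [cutP_symm_apply, ht]
        rfl
      have hmu : mu P hP n = fl M n := by
        unfold mu fl
        rw [hd]
        simp only [dbl, Bool.false_eq_true, if_false, ht, Bool.not_false]
      rw [if_pos ⟨hi, Or.inl hmu⟩, fl_bk _ _ _ (by rw [hd])]
      unfold ZF
      rw [hd, lk_false_none hx]
    · have hte : t2 P hP e = some ((s, N), b1) := symm_some_iff.1 ht
      have he0 : e.1.2 ≠ 0 := (t2_pos P hP e _ hte).2 hN0
      have hmu : mu P hP n = enc (M := M) (e, false) := by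
        unfold mu
        rw [hd]
        simp only [dbl, Bool.false_eq_true, if_false, ht]
      by_cases hz : Z (M := M) x e = true
      · have hx : (fx P hP x).symm ((s, N), b1) = none := by
          show (cutP _ _).symm _ = none
          rw [cutP_symm_apply, ht]
          show (if Z (M := M) x e then none else _) = none
          rw [if_pos hz]
        obtain ⟨⟨s', N'⟩, b'⟩ := e
        rw [Z_eq_true] at hz
        obtain ⟨h1, h2, h3⟩ := hz
        simp only at h1 h2 h3
        subst h1 h2
        obtain ⟨g1, g2, g3, g4⟩ := t2_I P hP hte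
        have e1 : s = .I := congrArg (fun c : (Ctrl M × ℕ) × Bool => c.1.1) g4
        have e2 : N = 5 * N' := congrArg (fun c : (Ctrl M × ℕ) × Bool => c.1.2) g4
        have e3 : b1 = true := congrArg (fun c : (Ctrl M × ℕ) × Bool => c.2) g4
        have hB : cB P hP x n := by
          refine ⟨hi, Or.inr ⟨?_, ?_, ?_, ?_, ?_⟩⟩
          · rw [ind_iff, hs, e1, e3]
            simp
          · rw [← hN, e2]
            omega
          · rw [← hN, e2]
            omega
          · rw [← hN, e2]
            omega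
          · rw [hE, e2]
            have := fac_pow5 1 N' 11 (by norm_num) g1
            rw [pow_one] at this
            rw [this]
            exact h3
        rw [if_pos hB, fl_bk _ _ _ (by rw [hd])]
        unfold ZF
        rw [hd, lk_false_none hx]
      · have hx : (fx P hP x).symm ((s, N), b1) = some e := by
          show (cutP _ _).symm _ = _
          rw [cutP_symm_apply, ht]
          show (if Z (M := M) x e then none else _) = _
          rw [if_neg hz]
        have hB : ¬ cB P hP x n := by
          rintro ⟨_, h | ⟨h1, h2, h3, h4, h5⟩⟩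
          · rw [hmu] at h
            unfold fl at h
            rw [hd] at h
            exact enc_ne e ((s, N), b1) he0 hN0 h
          · rw [ind_iff, hs] at h1
            simp only [decide_eq_true_eq, Prod.mk.injEq] at h1
            obtain ⟨rfl, rfl, _⟩ := h1
            rw [← hN] at h2 h3 h4
            have h6 := t2_symm_I P hP hN0 (fun h => h2 (Nat.mod_eq_zero_of_dvd h))
              (fun h => h3 (Nat.mod_eq_zero_of_dvd h)) (Nat.dvd_of_mod_eq_zero h4)
            rw [ht] at h6
            have h7 : e = ((.I, N / 5), false) := Option.some.inj h6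
            apply hz
            rw [h7, Z_eq_true]
            refine ⟨rfl, rfl, ?_⟩
            show ¬ (N / 5).factorization 11 = x
            intro h8
            apply h5
            rw [hE]
            obtain ⟨t, ht'⟩ := Nat.dvd_of_mod_eq_zero h4
            have ht0 : t ≠ 0 := by
              rintro rfl
              exact hN0 ht'
            have := fac_pow5 1 t 11 (by norm_num) ht0
            rw [pow_one] at this
            rw [ht', Nat.mul_div_cancel_left _ (by norm_num)] at h8
            rw [ht', this]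
            exact h8
        rw [if_neg hB, hmu]
        unfold ZF
        rw [hd, lk_false_some hx]
  · have hB : ¬ cB P hP x n := by
      rintro ⟨h1, _⟩
      rw [ind_iff, hs] at h1
      simp at h1
    rw [if_neg hB]
    by_cases hz : Z (M := M) x ((s, N), b1) = true
    · have hx : fx P hP x ((s, N), b1) = none := by
        show (if Z (M := M) x ((s, N), b1) then none else _) = none
        rw [if_pos hz]
      have hA : cA M x n := by
        rw [Z_eq_true] at hz
        obtain ⟨h1, h2, h3⟩ := hz
        simp only at h1 h2 h3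
        subst h1 h2
        refine ⟨?_, ?_⟩
        · rw [ind_iff, hs]
          simp
        · rw [hE]
          exact h3
      rw [if_pos hA]
      unfold ZF fl
      rw [hd, lk_true_none hx]
      rfl
    · have hx : fx P hP x ((s, N), b1) = t2 P hP ((s, N), b1) := by
        show (if Z (M := M) x ((s, N), b1) then none else _) = _
        rw [if_neg hz]
      have hA : ¬ cA M x n := by
        rintro ⟨h1, h2⟩
        rw [ind_iff, hs] at h1
        simp only [decide_eq_true_eq, Prod.mk.injEq] at h1
        obtain ⟨rfl, rfl, _⟩ := h1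
        apply hz
        rw [Z_eq_true]
        refine ⟨rfl, rfl, ?_⟩
        rw [hE] at h2
        exact h2
      rw [if_neg hA]
      unfold ZF mu
      rw [hd]
      rcases ht : t2 P hP ((s, N), b1) with _ | e
      · rw [lk_true_none (hx.trans ht)]
        simp only [dbl, if_true, ht]
      · rw [lk_true_some (hx.trans ht)]
        simp only [dbl, if_true, ht]

/-! ## Computability -/

theorem ind_pred (p : Ctrl M × Bool × Bool → Bool) : PrimrecPred fun q : ℕ × ℕ => ind M p q.2 = 1 :=
  Primrec.eq.comp ((ind_prim p).comp Primrec.snd) (Primrec.const 1)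

theorem cA_prim : PrimrecPred fun q : ℕ × ℕ => cA M q.1 q.2 :=
  (ind_pred _).and (E_prim M).not

theorem modp (a : ℕ) : PrimrecPred fun q : ℕ × ℕ => (q.2 / sz M + 1) % a = 0 :=
  Primrec.eq.comp (Primrec.nat_mod.comp (Primrec.succ.comp
    (Primrec.nat_div.comp Primrec.snd (Primrec.const (sz M)))) (Primrec.const a)) (Primrec.const 0)

theorem cB_prim : PrimrecPred fun q : ℕ × ℕ => cB P hP q.1 q.2 := by
  have hmu : Primrec (mu P hP) := IsAff.primrec (md_pos P hP) (mu_aff P hP)
  have h1 : PrimrecPred fun q : ℕ × ℕ => mu P hP q.2 = fl M q.2 :=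
    Primrec.eq.comp (hmu.comp Primrec.snd) (fl_prim.comp Primrec.snd)
  exact (ind_pred _).and (h1.or ((ind_pred _).and ((modp 2).not.and ((modp 3).not.and
    ((modp 5).and (E_prim M).not)))))

theorem mx_prim : Primrec fun x : ℕ => mx P x :=
  Primrec.nat_mul.comp (Primrec.const _) ((primrec_pow 11).comp Primrec.succ)

theorem bk_prim {g : ℕ → ℕ} (hg : Primrec g) {m : ℕ → ℕ} (hm : Primrec m) :
    Primrec fun q : ℕ × ℕ => bk M g (m q.1) q.2 := by
  have hm' : Primrec fun q : ℕ × ℕ => m q.1 := hm.comp Primrec.fst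
  have h0 : Primrec fun q : ℕ × ℕ => q.2 / sz M :=
    Primrec.nat_div.comp Primrec.snd (Primrec.const _)
  have h1 : Primrec fun q : ℕ × ℕ => g (q.2 / sz M / m q.1) :=
    hg.comp (Primrec.nat_div.comp h0 hm')
  have h2 : Primrec fun q : ℕ × ℕ => m q.1 * g (q.2 / sz M / m q.1) + q.2 / sz M % m q.1 :=
    Primrec.nat_add.comp (Primrec.nat_mul.comp hm' h1) (Primrec.nat_mod.comp h0 hm')
  exact Primrec.nat_add.comp (Primrec.nat_mul.comp (Primrec.const _) h2)
    (Primrec.nat_mod.comp Primrec.snd (Primrec.const _))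

theorem ZF_prim {g : ℕ → ℕ} (hg : Primrec g) : Primrec₂ (ZF P hP g) := by
  classical
  have hmu : Primrec (mu P hP) := IsAff.primrec (md_pos P hP) (mu_aff P hP)
  have h1 : Primrec fun q : ℕ × ℕ => if cA M q.1 q.2 then fl M q.2 else
      if cB P hP q.1 q.2 then fl M (bk M g (mx P q.1) q.2) else mu P hP q.2 :=
    Primrec.ite cA_prim (fl_prim.comp Primrec.snd)
      (Primrec.ite (cB_prim P hP) (fl_prim.comp (bk_prim hg (mx_prim P)))
        (hmu.comp Primrec.snd))
  exact h1.of_eq fun q => (ZF_eq P hP g q.1 q.2).symm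

theorem ud_prim : Primrec ud := by
  have h1 : PrimrecPred fun k : ℕ => k % 2 = 0 :=
    Primrec.eq.comp (Primrec.nat_mod.comp Primrec.id (Primrec.const 2)) (Primrec.const 0)
  have h2 : PrimrecPred fun k : ℕ => k = 1 := Primrec.eq.comp Primrec.id (Primrec.const 1)
  exact Primrec.ite h1 (Primrec.nat_add.comp Primrec.id (Primrec.const 2))
    (Primrec.ite h2 (Primrec.const 0) (Primrec.nat_sub.comp Primrec.id (Primrec.const 2)))

end CPM
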