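import Pool.Agent.Lib.CPM.ZedMap

/-!
# The linked permutation on the codes
-/

set_option autoImplicit false

namespace CPM

variable {M : ℕ} [NeZero M] (P : Fin M → PI (Fin M)) (hP : Good P)

open HomAux CoreAAux CodeAux

/-- the link: apply `g` to the number of the block -/
def sg (m : ℕ) (g : ℕ → ℕ) (c : (Ctrl M × ℕ) × Bool) : (Ctrl M × ℕ) × Bool :=
  ((c.1.1, blk g m c.1.2), c.2)

/-- the linked map on the codes -/
noncomputable def ZF (g : ℕ → ℕ) (x n : ℕ) : ℕ :=
  enc (lk (fx P hP x) (sg (mx P x) g) (dcd M n))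

theorem start_sg (g : ℕ → ℕ) (x : ℕ) (c : (Ctrl M × ℕ) × Bool) (h : (fx P hP x).symm c = none) :
    (fx P hP x).symm (sg (mx P x) g c) = none := by
  obtain ⟨⟨s, N⟩, b⟩ := c
  by_cases hN : N = 0
  · subst hN
    unfold sg
    simp only
    rw [blk_zero]
    exact h
  · exact start_class P hP x s b hN (blk_ne g _ N hN) (blk_mod g _ N hN).symm h

theorem fx_of {x : ℕ} {c d : (Ctrl M × ℕ) × Bool} (h : fx P hP x c = some d) :
    t2 P hP c = some d ∧ Z x c = false := by
  have h1 : (if Z x c then none else t2 P hP c) = some d := h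
  split_ifs at h1 with h2
  exact ⟨h1, by simpa using h2⟩

theorem fx_pos {x : ℕ} {c d : (Ctrl M × ℕ) × Bool} (h : fx P hP x c = some d) :
    c.1.2 ≠ 0 ↔ d.1.2 ≠ 0 := t2_pos P hP c d (fx_of P hP h).1

theorem lk_pos (g : ℕ → ℕ) (x : ℕ) (y : Cf M) (hy : y.1.1.2 ≠ 0) :
    (lk (fx P hP x) (sg (mx P x) g) y).1.1.2 ≠ 0 := by
  obtain ⟨c, b⟩ := y
  cases b
  · rcases h : (fx P hP x).symm c with _ | d
    · rw [lk_false_none h]
      exact blk_ne _ _ _ hy
    · rw [lk_false_some h]
      exact (fx_pos P hP (symm_some_iff.1 h)).2 hy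
  · rcases h : fx P hP x c with _ | d
    · rw [lk_true_none h]
      exact hy
    · rw [lk_true_some h]
      exact (fx_pos P hP h).1 hy

theorem kl_pos (g : ℕ → ℕ) (x : ℕ) (y : Cf M) (hy : y.1.1.2 ≠ 0) :
    (kl (fx P hP x) (sg (mx P x) g) y).1.1.2 ≠ 0 := by
  obtain ⟨c, b⟩ := y
  cases b
  · rcases h : fx P hP x c with _ | d
    · rw [kl_false_none h]
      exact hy
    · rw [kl_false_some h]
      exact (fx_pos P hP h).1 hy
  · rcases h : (fx P hP x).symm c with _ | d
    · rw [kl_true_none h]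
      exact blk_ne _ _ _ hy
    · rw [kl_true_some h]
      exact (fx_pos P hP (symm_some_iff.1 h)).2 hy

theorem sg_sg {g h : ℕ → ℕ} (hgh : ∀ k, g (h k) = k) {m : ℕ} (hm : 0 < m)
    (c : (Ctrl M × ℕ) × Bool) : sg m g (sg m h c) = c := by
  unfold sg
  simp only
  rw [blk_blk g h m _ hm hgh]

theorem dcd_ZF (g : ℕ → ℕ) (x n : ℕ) :
    dcd M (ZF P hP g x n) = lk (fx P hP x) (sg (mx P x) g) (dcd M n) :=
  dcd_enc _ (lk_pos P hP g x _ (dcd_ne n))

/-- the linked map is injective if `g` is -/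
theorem ZF_inj (g h : ℕ → ℕ) (hgh : ∀ k, h (g k) = k) (x : ℕ) :
    Function.Injective (ZF P hP g x) := by
  intro a b hab
  have h1 := congrArg (dcd M) hab
  rw [dcd_ZF, dcd_ZF] at h1
  have h2 := congrArg (kl (fx P hP x) (sg (mx P x) h)) h1
  have h3 : ∀ c, sg (M := M) (mx P x) h (sg (mx P x) g c) = c := sg_sg hgh (mx_pos P hP x)
  rw [kl_lk _ _ _ h3 (start_sg P hP g x), kl_lk _ _ _ h3 (start_sg P hP g x)] at h2
  rw [← enc_dcd (M := M) a, ← enc_dcd (M := M) b, h2]

theorem ZF_surj (g h : ℕ → ℕ) (hgh : ∀ k, g (h k) = k) (x : ℕ) :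
    Function.Surjective (ZF P hP g x) := by
  intro n
  have h3 : ∀ c, sg (M := M) (mx P x) g (sg (mx P x) h c) = c := sg_sg hgh (mx_pos P hP x)
  refine ⟨enc (kl (fx P hP x) (sg (mx P x) h) (dcd M n)), ?_⟩
  unfold ZF
  rw [dcd_enc _ (kl_pos P hP h x _ (dcd_ne n)), lk_kl _ _ _ h3 (start_sg P hP h x), enc_dcd]

/-! ## Affine on residue classes -/

theorem enc_add (s : Ctrl M) (b b' : Bool) (N D : ℕ) (hN : N ≠ 0) :
    enc (M := M) (((s, N + D), b), b') = enc (M := M) (((s, N), b), b') + sz M * D :=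
  enc_shift (((s, N), b), b') D hN

omit [NeZero M] in
theorem dcd_add (n t : ℕ) : dcd M (n + sz M * t) =
    ((((sst M n).1, (n / sz M + 1) + t), (sst M n).2.1), (sst M n).2.2) := by
  unfold dcd
  rw [sst_add, Nat.add_mul_div_left _ _ (sz_pos M)]
  simp only [Nat.add_right_comm]

theorem g_add {g : ℕ → ℕ} {p k0 : ℕ} (hg : ∀ k, k0 ≤ k → g (k + p) = g k + p) {k : ℕ}
    (hk : k0 ≤ k) (i : ℕ) : g (k + i * p) = g k + i * p := by
  induction i with
  | zero => simp
  | succ i ih =>
    rw [show k + (i + 1) * p = k + i * p + p by ring, hg _ (by omega), ih]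
    ring

theorem blk_add {g : ℕ → ℕ} {p k0 m : ℕ} (hm : 0 < m) (hg : ∀ k, k0 ≤ k → g (k + p) = g k + p)
    {N : ℕ} (hN : N ≠ 0) (hk : k0 ≤ (N - 1) / m) (i : ℕ) :
    blk g m (N + i * (p * m)) = blk g m N + i * (p * m) := by
  unfold blk
  rw [if_neg hN, if_neg (by omega)]
  have h1 : N + i * (p * m) - 1 = (N - 1) + m * (i * p) := by
    have : i * (p * m) = m * (i * p) := by ring
    omega
  rw [h1, Nat.add_mul_div_left _ _ hm, Nat.add_mul_mod_self_left, g_add hg hk]
  ring

theorem div_shift {v m' N : ℕ} (hv : 0 < v) (hvm : v ∣ m') (hvN : v ∣ N) (t : ℕ) :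
    (N + t * m') / v = N / v + t * (m' / v) := by
  obtain ⟨a, rfl⟩ := hvm
  obtain ⟨c, rfl⟩ := hvN
  rw [show v * c + t * (v * a) = v * (c + t * a) by ring, Nat.mul_div_cancel_left _ hv,
    Nat.mul_div_cancel_left _ hv, Nat.mul_div_cancel_left _ hv]

theorem ZF_arith {g : ℕ → ℕ} {p k0 : ℕ} (hg : ∀ k, k0 ≤ k → g (k + p) = g k + p) (x n : ℕ)
    (hn : k0 * (sz M * mx P x) ≤ n) :
    ∃ D, ∀ i, ZF P hP g x (n + i * (p * (sz M * mx P x))) = ZF P hP g x n + i * D := by
  have hsz := sz_pos M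
  have hmx := mx_pos P hP x
  set N := n / sz M + 1 with hN
  have hN0 : N ≠ 0 := Nat.succ_ne_zero _
  set s := (sst M n).1 with hs
  set b1 := (sst M n).2.1 with hb1
  have hd0 : dcd M n = (((s, N), b1), (sst M n).2.2) := rfl
  have hd : ∀ i, dcd M (n + i * (p * (sz M * mx P x))) =
      (((s, N + i * (p * mx P x)), b1), (sst M n).2.2) := by
    intro i
    rw [show n + i * (p * (sz M * mx P x)) = n + sz M * (i * (p * mx P x)) by ring, dcd_add]
  have hcl : ∀ i, N + i * (p * mx P x) ≡ N [MOD mx P x] := by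
    intro i
    show _ % _ = _ % _
    rw [show i * (p * mx P x) = (mx P x) * (i * p) by ring, Nat.add_mul_mod_self_left]
  have hne : ∀ i, N + i * (p * mx P x) ≠ 0 := fun i =>
    (Nat.add_pos_left (Nat.pos_of_ne_zero hN0) _).ne'
  cases hb2 : (sst M n).2.2
  · rcases ho2_bx P hP x hN0 s b1 with h1 | ⟨s', b', u, v, hu, hv, hvm, h1⟩
    · refine ⟨sz M * (p * mx P x), fun i => ?_⟩
      unfold ZF
      rw [hd i, hd0, hb2, lk_false_none (h1 _ (hne i) (hcl i)), lk_false_none (h1 _ hN0 rfl)]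
      unfold sg
      simp only
      rw [blk_add hmx hg hN0 ?_ i, enc_add _ _ _ _ _ (blk_ne g _ _ hN0)]
      · ring
      · rw [hN, Nat.add_sub_cancel, Nat.div_div_eq_div_mul,
          Nat.le_div_iff_mul_le (Nat.mul_pos hsz hmx)]
        exact hn
    · refine ⟨sz M * (u * (p * (mx P x / v))), fun i => ?_⟩
      have h2 : ∀ K, K ≠ 0 → K ≡ N [MOD mx P x] →
          (fx P hP x).symm ((s, K), b1) = some ((s', u * (K / v)), b') := fun K hK hc =>
        (h1 K hK hc).2
      have hvN := (h1 N hN0 rfl).1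
      have hnz : u * (N / v) ≠ 0 := by
        obtain ⟨c, hc⟩ := hvN
        rw [hc, Nat.mul_div_cancel_left _ hv]
        refine Nat.mul_ne_zero hu.ne' ?_
        rintro rfl
        exact hN0 (by rw [hc, mul_zero])
      unfold ZF
      rw [hd i, hd0, hb2, lk_false_some (h2 _ (hne i) (hcl i)), lk_false_some (h2 _ hN0 rfl),
        show i * (p * mx P x) = (i * p) * mx P x by ring, div_shift hv hvm hvN, mul_add,
        enc_add _ _ _ _ _ hnz]
      ring
  · rcases ho2_fx P hP x hN0 s b1 with h1 | ⟨s', b', u, v, hu, hv, hvm, h1⟩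
    · refine ⟨sz M * (p * mx P x), fun i => ?_⟩
      unfold ZF
      rw [hd i, hd0, hb2, lk_true_none (h1 _ (hne i) (hcl i)), lk_true_none (h1 _ hN0 rfl),
        enc_add _ _ _ _ _ hN0]
      ring
    · refine ⟨sz M * (u * (p * (mx P x / v))), fun i => ?_⟩
      have h2 : ∀ K, K ≠ 0 → K ≡ N [MOD mx P x] →
          fx P hP x ((s, K), b1) = some ((s', u * (K / v)), b') := fun K hK hc =>
        (h1 K hK hc).2
      have hvN := (h1 N hN0 rfl).1
      have hnz : u * (N / v) ≠ 0 := by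
        obtain ⟨c, hc⟩ := hvN
        rw [hc, Nat.mul_div_cancel_left _ hv]
        refine Nat.mul_ne_zero hu.ne' ?_
        rintro rfl
        exact hN0 (by rw [hc, mul_zero])
      unfold ZF
      rw [hd i, hd0, hb2, lk_true_some (h2 _ (hne i) (hcl i)), lk_true_some (h2 _ hN0 rfl),
        show i * (p * mx P x) = (i * p) * mx P x by ring, div_shift hv hvm hvN, mul_add,
        enc_add _ _ _ _ _ hnz]
      ring

/-- affine on the residue classes, from `k0 * (sz M * mx P x)` on -/
theorem ZF_aff {g : ℕ → ℕ} {p k0 : ℕ} (hg : ∀ k, k0 ≤ k → g (k + p) = g k + p) (x : ℕ) :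
    IsAff (p * (sz M * mx P x)) (fun n => ZF P hP g x (n + k0 * (sz M * mx P x))) := by
  intro n
  obtain ⟨D, hD⟩ := ZF_arith P hP hg x (n + k0 * (sz M * mx P x)) (Nat.le_add_left _ _)
  have h1 := hD 1
  have h2 := hD 2
  rw [one_mul, one_mul] at h1
  simp only
  rw [show n + p * (sz M * mx P x) + k0 * (sz M * mx P x) =
      n + k0 * (sz M * mx P x) + p * (sz M * mx P x) by ring,
    show n + 2 * (p * (sz M * mx P x)) + k0 * (sz M * mx P x) =
      n + k0 * (sz M * mx P x) + 2 * (p * (sz M * mx P x)) by ring, h1, h2]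
  constructor
  · omega
  · ring

/-! ## Chains -/

theorem link (g : ℕ → ℕ) (x : ℕ) :
    Link (fx P hP x) (ZF P hP g x) (enc (M := M)) (fun c => enc (sg (mx P x) g c, true))
      (fun c => c.1.2 ≠ 0) where
  cl c d h := fx_pos P hP h
  fw c d hc h := by
    unfold ZF
    rw [dcd_enc _ hc, lk_true_some h]
  top c hc h := by
    unfold ZF
    rw [dcd_enc _ hc, lk_true_none h]
  bw c d hc h := by
    unfold ZF
    rw [dcd_enc _ ((fx_pos P hP h).1 hc), lk_false_some (symm_some_iff.2 h)]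
  bot c hc h := by
    unfold ZF
    rw [dcd_enc _ hc, lk_false_none h]

/-- the backward runs end -/
theorem fx_bwd_fin (x : ℕ) (c : (Ctrl M × ℕ) × Bool) : ∃ n, run (fx P hP x).symm n c = none := by
  obtain ⟨n, hn⟩ := t2_bwd_fin P hP c
  refine ⟨n, ?_⟩
  rcases h : run (fx P hP x).symm n c with _ | d
  · rfl
  · rw [cutP_symm_of_run _ _ n c d h] at hn
    exact absurd hn (by simp)

variable (R : ℕ → ℕ → Prop)

/-- the forward runs end, if `R x y` for all `y` -/
theorem fx_fwd_fin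
    (hM : ∀ Y : ℕ, Y.Coprime 30 → (PHalts P (0, Y) ↔ R (Y.factorization 11) (Y.factorization 7)))
    (x : ℕ) (hx : ∀ y, R x y) (c : (Ctrl M × ℕ) × Bool) : ∃ n, run (fx P hP x) n c = none := by
  rcases t2_reach P hP c with ⟨n, hn⟩ | ⟨n, j, Y, hY, h1, h2⟩
  · refine ⟨n, ?_⟩
    rcases h : run (fx P hP x) n c with _ | d
    · rfl
    · rw [cutP_of_run _ _ n c d h] at hn
      exact absurd hn (by simp)
  by_cases hYx : Y.factorization 11 = x
  · have hR : PHalts P (0, Y) := (hM Y hY).2 (by rw [hYx]; exact hx _)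
    obtain ⟨m, hm⟩ := t2_fin P hP Y hY hR (j + 1)
    have hn : run (t2 P hP) (n + 1 + m) c = none := by
      rw [run_trans h2, hm]
    refine ⟨n + 1 + m, ?_⟩
    rcases h : run (fx P hP x) (n + 1 + m) c with _ | d
    · rfl
    · rw [cutP_of_run _ _ _ c d h] at hn
      exact absurd hn (by simp)
  · refine ⟨n + 1, ?_⟩
    rcases h : run (fx P hP x) (n + 1) c with _ | d
    · rfl
    · rw [run_succ_right] at h
      obtain ⟨e, he1, he2⟩ := Option.bind_eq_some_iff.1 h
      have he3 := cutP_of_run _ _ n c e he1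
      have he4 : (((Ctrl.I, 5 ^ j * Y), false) : (Ctrl M × ℕ) × Bool) = e :=
        Option.some.inj (h1.symm.trans he3)
      have he5 := (fx_of P hP he2).2
      rw [← he4] at he5
      exfalso
      have hZ : Z (M := M) x ((Ctrl.I, 5 ^ j * Y), false) = true := by
        rw [Z_eq_true]
        refine ⟨rfl, rfl, ?_⟩
        change ¬ (5 ^ j * Y).factorization 11 = x
        rw [fac_pow5 j Y 11 (by norm_num) (pr30_ne hY)]
        exact hYx
      rw [hZ] at he5
      exact absurd he5 (by simp)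

/-- the beginnings of the infinite chains -/
def cY (M x y i : ℕ) : (Ctrl M × ℕ) × Bool := ((Ctrl.I, 7 ^ y * 11 ^ x * 13 ^ i), true)

omit [NeZero M] in
theorem cY_inj {x y i j : ℕ} (h : cY M x y i = cY M x y j) : i = j := by
  have h1 : 7 ^ y * 11 ^ x * 13 ^ i = 7 ^ y * 11 ^ x * 13 ^ j := by
    have := congrArg (fun c : (Ctrl M × ℕ) × Bool => c.1.2) h
    exact this
  have h2 := Nat.eq_of_mul_eq_mul_left (by positivity) h1
  exact Nat.pow_right_injective (by norm_num) h2

theorem fx_inf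
    (hM : ∀ Y : ℕ, Y.Coprime 30 → (PHalts P (0, Y) ↔ R (Y.factorization 11) (Y.factorization 7)))
    (x y i : ℕ) (hR : ¬ R x y) :
    (cY M x y i).1.2 ≠ 0 ∧ (fx P hP x).symm (cY M x y i) = none ∧
      ∀ n, run (fx P hP x) n (cY M x y i) ≠ none := by
  have h11 : Nat.Prime 11 := by norm_num
  have h7 : Nat.Prime 7 := by norm_num
  have h13 : Nat.Prime 13 := by norm_num
  set Y := 7 ^ y * 11 ^ x * 13 ^ i with hYdef
  have hY : Pr30 Y := by
    refine Nat.Coprime.mul_left (Nat.Coprime.mul_left (Nat.Coprime.pow_left _ (by norm_num))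
      (Nat.Coprime.pow_left _ (by norm_num))) (Nat.Coprime.pow_left _ (by norm_num))
  have hf11 : Y.factorization 11 = x := by
    rw [hYdef, Nat.factorization_mul (by positivity) (by positivity),
      Nat.factorization_mul (by positivity) (by positivity), Nat.factorization_pow,
      Nat.factorization_pow, Nat.factorization_pow]
    simp [h11.factorization, h7.factorization, h13.factorization]
  have hf7 : Y.factorization 7 = y := by
    rw [hYdef, Nat.factorization_mul (by positivity) (by positivity),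
      Nat.factorization_mul (by positivity) (by positivity), Nat.factorization_pow,
      Nat.factorization_pow, Nat.factorization_pow]
    simp [h11.factorization, h7.factorization, h13.factorization]
  have hn : ¬ PHalts P (0, Y) := by
    intro hh
    have := (hM _ hY).1 hh
    rw [hf11, hf7] at this
    exact hR this
  have hc : cY M x y i = ((Ctrl.I, Y), true) := rfl
  refine ⟨pr30_ne hY, ?_, fun n => ?_⟩
  · have h5 : ¬ 5 ∣ Y := by
      intro h5
      have h6 : 5 ∣ Nat.gcd Y 30 := Nat.dvd_gcd h5 (by norm_num)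
      rw [hY] at h6
      norm_num at h6
    have h1 : (t2 P hP).symm ((Ctrl.I, Y), true) = none := by
      have h2 : (t2 P hP).symm ((Ctrl.I, Y), true) =
          b2 (rv P hP) (io M) (fo P) ((Ctrl.I, Y), true) := rfl
      have h3 : (rv P hP).symm (Ctrl.I, Y) = none := rfl
      have h4 : (io M).symm (Ctrl.I, Y) = none := by
        show ioB (Ctrl.I, Y) = none
        simp only [ioB]
        rw [if_neg]
        rintro ⟨_, _, _, h⟩
        exact h5 h
      rw [h2]
      simp only [b2, if_true]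
      rw [h3, h4]
      rfl
    rw [hc]
    show (cutP _ _).symm _ = none
    rw [cutP_symm_apply, h1]
    rfl
  · have h1 : ∀ n, ∃ d, run (t2 P hP) n (cY M x y i) = some d ∧ Z x d = false := by
      intro n
      obtain ⟨d, hd, hd'⟩ := t2_inf P hP _ hY hn n
      refine ⟨d, hd, ?_⟩
      rw [← Bool.not_eq_true, Z_eq_true]
      rintro ⟨h1, h2, h3⟩
      obtain ⟨j, hj⟩ := hd' d.1.2 d.2 (by rw [← h1])
      apply h3
      rw [hj, fac_pow5 _ _ 11 (by norm_num) (pr30_ne hY), hf11]
    rw [show fx P hP x = cutP (t2 P hP) (Z x) from rfl, cutP_run _ _ _ h1 n]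
    obtain ⟨d, hd, _⟩ := h1 n
    rw [hd]
    simp

end CPM
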