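import Pool.Agent.Lib.CPM.Fuel

/-!
# Linked doublings: orbits

`Link f Φ E K G`: the map `Φ` realises the doubling of the partial injection `f` through the coding `E`; at the beginning
`c` of a chain it goes to `K c` instead of turning round.
-/

set_option autoImplicit false

namespace CPM

/-- the same orbit (for a bijection `F`) -/
def Same {X : Type} (F : X → X) (x y : X) : Prop := ∃ a b : ℕ, F^[a] x = F^[b] y

theorem Same.refl {X : Type} (F : X → X) (x : X) : Same F x x := ⟨0, 0, rfl⟩

theorem Same.symm {X : Type} {F : X → X} {x y : X} (h : Same F x y) : Same F y x := by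
  obtain ⟨a, b, h⟩ := h
  exact ⟨b, a, h.symm⟩

theorem Same.trans {X : Type} {F : X → X} {x y z : X} (h : Same F x y) (h' : Same F y z) :
    Same F x z := by
  obtain ⟨a, b, h⟩ := h
  obtain ⟨c, d, h'⟩ := h'
  refine ⟨c + a, b + d, ?_⟩
  rw [Function.iterate_add_apply, h, ← Function.iterate_add_apply, Nat.add_comm c b,
    Function.iterate_add_apply, h', ← Function.iterate_add_apply]

theorem Same.of_iterate {X : Type} {F : X → X} {x y : X} (a : ℕ) (h : F^[a] x = y) :
    Same F x y := ⟨a, 0, h⟩

/-- `Φ` realises the linked doubling of `f` -/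
structure Link {C X : Type} (f : C ≃. C) (Φ : X → X) (E : C × Bool → X) (K : C → X)
    (G : C → Prop) : Prop where
  cl : ∀ c d, f c = some d → (G c ↔ G d)
  fw : ∀ c d, G c → f c = some d → Φ (E (c, true)) = E (d, true)
  top : ∀ c, G c → f c = none → Φ (E (c, true)) = E (c, false)
  bw : ∀ c d, G c → f c = some d → Φ (E (d, false)) = E (c, false)
  bot : ∀ c, G c → f.symm c = none → Φ (E (c, false)) = K c

section

variable {C X : Type} {f : C ≃. C} {Φ : X → X} {E : C × Bool → X} {K : C → X} {G : C → Prop}

/-- one step at the end of a run -/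
theorem run_succ_right (g : C → Option C) (n : ℕ) (c : C) : run g (n + 1) c = (run g n c).bind g := by
  rfl

/-- the run is defined up to some point and then ends -/
theorem exists_end {g : C → Option C} {c : C} (h : ∃ n, run g n c = none) :
    ∃ n d, run g n c = some d ∧ g d = none := by
  classical
  obtain ⟨n, hn⟩ := h
  induction n with
  | zero => exact absurd hn (by simp [run])
  | succ n ih =>
    rcases hr : run g n c with _ | d
    · exact ih hr
    · refine ⟨n, d, hr, ?_⟩
      rw [run_succ_right, hr] at hn
      exact hn

theorem Link.up (h : Link f Φ E K G) (n : ℕ) {c d : C} (hc : G c) (hr : run f n c = some d) :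
    Φ^[n] (E (c, true)) = E (d, true) ∧ G d := by
  induction n generalizing d with
  | zero =>
    have : c = d := Option.some.inj hr
    subst this
    exact ⟨rfl, hc⟩
  | succ n ih =>
    rw [run_succ_right] at hr
    obtain ⟨e, he, hed⟩ := Option.bind_eq_some_iff.1 hr
    obtain ⟨h1, h2⟩ := ih he
    refine ⟨?_, (h.cl e d hed).1 h2⟩
    rw [Function.iterate_succ_apply', h1, h.fw e d h2 hed]

theorem Link.down (h : Link f Φ E K G) (n : ℕ) {c d : C} (hc : G c) (hr : run f n c = some d) :
    Φ^[n] (E (d, false)) = E (c, false) := by
  induction n generalizing d with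
  | zero =>
    have : c = d := Option.some.inj hr
    subst this
    rfl
  | succ n ih =>
    rw [run_succ_right] at hr
    obtain ⟨e, he, hed⟩ := Option.bind_eq_some_iff.1 hr
    obtain ⟨_, h2⟩ := h.up n hc he
    rw [Function.iterate_succ_apply, h.bw e d h2 hed, ih he]

/-- from the sign `true` to the sign `false`, if the forward run ends -/
theorem Link.turn (h : Link f Φ E K G) {c : C} (hc : G c) (hf : ∃ n, run f n c = none) :
    Same Φ (E (c, true)) (E (c, false)) := by
  obtain ⟨n, d, hr, hd⟩ := exists_end hf
  obtain ⟨h1, h2⟩ := h.up n hc hr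
  refine Same.of_iterate (n + (1 + n)) ?_
  rw [Function.iterate_add_apply, Function.iterate_add_apply, h1, Function.iterate_one,
    h.top d h2 hd, h.down n hc hr]

/-- every point of a finite chain is on the orbit of the beginning of the chain -/
theorem Link.start (h : Link f Φ E K G) {c : C} (hc : G c) (hf : ∃ n, run f n c = none)
    (hb : ∃ n, run f.symm n c = none) :
    ∃ c0, G c0 ∧ f.symm c0 = none ∧ (∀ b, Same Φ (E (c, b)) (E (c0, true))) ∧
      Same Φ (E (c0, true)) (K c0) := by
  obtain ⟨n, c0, hr, hc0⟩ := exists_end hb
  have hr' : run f n c0 = some c := (run_symm f n c0 c).2 hr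
  have hG : G c0 := by
    have hcl : ∀ (n : ℕ) (e : C), run f n c0 = some e → (G c0 ↔ G e) := by
      intro n
      induction n with
      | zero =>
        intro e he
        have : c0 = e := Option.some.inj he
        rw [this]
      | succ n ih =>
        intro e he
        rw [run_succ_right] at he
        obtain ⟨e', he1, he2⟩ := Option.bind_eq_some_iff.1 he
        exact (ih e' he1).trans (h.cl e' e he2)
    exact (hcl n c hr').2 hc
  obtain ⟨h1, _⟩ := h.up n hG hr'
  have h2 := h.down n hG hr'
  have h3 : Same Φ (E (c0, true)) (E (c, true)) := Same.of_iterate n h1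
  have h4 : Same Φ (E (c, false)) (E (c0, false)) := Same.of_iterate n h2
  have h5 := h.turn hc hf
  have h6 : Same Φ (E (c0, false)) (K c0) := Same.of_iterate 1 (h.bot c0 hG hc0)
  refine ⟨c0, hG, hc0, fun b => ?_, ?_⟩
  · cases b
    · exact h5.symm.trans h3.symm
    · exact h3.symm
  · exact h3.trans (h5.trans (h4.trans h6))

/-- infinite chains are on different orbits -/
theorem Link.inf (h : Link f Φ E K G) (hΦ : Function.Injective Φ)
    (hE : ∀ c d, G c → G d → E (c, false) = E (d, false) → c = d) {c d : C} (hc : G c) (hd : G d)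
    (hc0 : f.symm c = none) (hd0 : f.symm d = none) (hci : ∀ n, run f n c ≠ none)
    (hdi : ∀ n, run f n d ≠ none) (hs : Same Φ (E (c, false)) (E (d, false))) : c = d := by
  have key : ∀ (c d : C) (k : ℕ), G c → G d → f.symm d = none → (∀ n, run f n c ≠ none) →
      Φ^[k] (E (d, false)) = E (c, false) → c = d := by
    intro c d k hc hd hd0 hci hk
    rcases hr : run f k c with _ | e
    · exact absurd hr (hci k)
    have h1 := h.down k hc hr
    have h2 := hΦ.iterate k (h1.trans hk.symm)
    have h3 := hE e d (h.up k hc hr).2 hd h2
    subst h3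
    cases k with
    | zero => exact Option.some.inj hr
    | succ k =>
      rw [run_succ_right] at hr
      obtain ⟨e', _, he2⟩ := Option.bind_eq_some_iff.1 hr
      have he3 : f.symm e = some e' := (f.mem_iff_mem).2 he2
      rw [hd0] at he3
      exact absurd he3 (by simp)
  obtain ⟨a, b, hab⟩ := hs
  rcases le_total a b with hle | hle
  · obtain ⟨k, rfl⟩ := Nat.exists_eq_add_of_le hle
    rw [Function.iterate_add_apply] at hab
    exact key c d k hc hd hd0 hci (hΦ.iterate a hab).symm
  · obtain ⟨k, rfl⟩ := Nat.exists_eq_add_of_le hle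
    rw [Function.iterate_add_apply] at hab
    exact (key d c k hd hc hc0 hdi (hΦ.iterate b hab)).symm

end

/-! ## Cutting a chain -/

section

variable {C : Type}

/-- the partial injection `f`, undefined on `Z` -/
def cutP (f : C ≃. C) (Z : C → Bool) : C ≃. C where
  toFun c := if Z c then none else f c
  invFun d := (f.symm d).bind fun c => if Z c then none else some c
  inv c d := by
    simp only [Option.bind_eq_some_iff]
    constructor
    · rintro ⟨e, he, h⟩
      by_cases hZ : Z e
      · rw [if_pos hZ] at h
        exact absurd h (by simp)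
      · rw [if_neg hZ] at h
        have : e = c := Option.some.inj h
        subst this
        rw [if_neg hZ]
        exact (f.mem_iff_mem).1 he
    · intro h
      by_cases hZ : Z c
      · rw [if_pos hZ] at h
        exact absurd h (by simp)
      · rw [if_neg hZ] at h
        exact ⟨c, (f.mem_iff_mem).2 h, by rw [if_neg hZ]⟩

theorem cutP_apply (f : C ≃. C) (Z : C → Bool) (c : C) :
    cutP f Z c = if Z c then none else f c := rfl

theorem cutP_symm_apply (f : C ≃. C) (Z : C → Bool) (d : C) :
    (cutP f Z).symm d = (f.symm d).bind fun c => if Z c then none else some c := rfl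

theorem cutP_of_run (f : C ≃. C) (Z : C → Bool) (n : ℕ) (c d : C)
    (h : run (cutP f Z) n c = some d) : run f n c = some d := by
  induction n generalizing d with
  | zero => exact h
  | succ n ih =>
    rw [run_succ_right] at h ⊢
    obtain ⟨e, he, hed⟩ := Option.bind_eq_some_iff.1 h
    rw [ih e he]
    rw [cutP_apply] at hed
    by_cases hZ : Z e
    · rw [if_pos hZ] at hed
      exact absurd hed (by simp)
    · rw [if_neg hZ] at hed
      exact hed

theorem cutP_symm_of_run (f : C ≃. C) (Z : C → Bool) (n : ℕ) (c d : C)
    (h : run (cutP f Z).symm n c = some d) : run f.symm n c = some d :=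
  (run_symm f n d c).1 (cutP_of_run f Z n d c ((run_symm (cutP f Z) n d c).2 h))

theorem cutP_run (f : C ≃. C) (Z : C → Bool) (c : C)
    (h : ∀ n, ∃ d, run f n c = some d ∧ Z d = false) (n : ℕ) :
    run (cutP f Z) n c = run f n c := by
  induction n with
  | zero => rfl
  | succ n ih =>
    rw [run_succ_right, run_succ_right, ih]
    obtain ⟨d, hd, hZ⟩ := h n
    rw [hd]
    show cutP f Z d = f d
    rw [cutP_apply, hZ]
    rfl

end

end CPM
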