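import Pool.Agent.Lib.CPM.ZedLk
import Pool.Agent.Lib.CPM.CoreA

/-!
# The linked permutation

`lk f σ`: the doubling of the partial injection `f` in which the sign `false` at the beginning `c` of a chain is followed by
`(σ c, true)`.  Here `f = fx P x` is the refuelled machine, cut at `Z x`, and `σ` moves the number `N = m k + r + 1` to
`m (ud k) + r + 1`, where `ud` is a permutation of `ℕ` with one orbit.
-/

set_option autoImplicit false

namespace CPM

/-! ## Linked doublings -/

section

variable {C : Type}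

/-- the linked doubling -/
def lk (f : C ≃. C) (σ : C → C) (y : C × Bool) : C × Bool :=
  if y.2 then
    match f y.1 with
    | some d => (d, true)
    | none => (y.1, false)
  else
    match f.symm y.1 with
    | some d => (d, false)
    | none => (σ y.1, true)

/-- the inverse of the linked doubling -/
def kl (f : C ≃. C) (τ : C → C) (y : C × Bool) : C × Bool :=
  if y.2 then
    match f.symm y.1 with
    | some d => (d, true)
    | none => (τ y.1, false)
  else
    match f y.1 with
    | some d => (d, false)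
    | none => (y.1, true)

theorem lk_true_some {f : C ≃. C} {σ : C → C} {c d : C} (h : f c = some d) :
    lk f σ (c, true) = (d, true) := by
  simp only [lk, if_true, h]

theorem lk_true_none {f : C ≃. C} {σ : C → C} {c : C} (h : f c = none) :
    lk f σ (c, true) = (c, false) := by
  simp only [lk, if_true, h]

theorem lk_false_some {f : C ≃. C} {σ : C → C} {c d : C} (h : f.symm c = some d) :
    lk f σ (c, false) = (d, false) := by
  simp only [lk, Bool.false_eq_true, if_false, h]

theorem lk_false_none {f : C ≃. C} {σ : C → C} {c : C} (h : f.symm c = none) :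
    lk f σ (c, false) = (σ c, true) := by
  simp only [lk, Bool.false_eq_true, if_false, h]

theorem kl_true_some {f : C ≃. C} {σ : C → C} {c d : C} (h : f.symm c = some d) :
    kl f σ (c, true) = (d, true) := by
  simp only [kl, if_true, h]

theorem kl_true_none {f : C ≃. C} {σ : C → C} {c : C} (h : f.symm c = none) :
    kl f σ (c, true) = (σ c, false) := by
  simp only [kl, if_true, h]

theorem kl_false_some {f : C ≃. C} {σ : C → C} {c d : C} (h : f c = some d) :
    kl f σ (c, false) = (d, false) := by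
  simp only [kl, Bool.false_eq_true, if_false, h]

theorem kl_false_none {f : C ≃. C} {σ : C → C} {c : C} (h : f c = none) :
    kl f σ (c, false) = (c, true) := by
  simp only [kl, Bool.false_eq_true, if_false, h]

theorem symm_some_iff {f : C ≃. C} {c d : C} : f.symm d = some c ↔ f c = some d := f.mem_iff_mem

theorem kl_lk (f : C ≃. C) (σ τ : C → C) (h : ∀ c, τ (σ c) = c)
    (hσ : ∀ c, f.symm c = none → f.symm (σ c) = none) (y : C × Bool) :
    kl f τ (lk f σ y) = y := by
  obtain ⟨c, b⟩ := y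
  cases b
  · rcases hc : f.symm c with _ | d
    · rw [lk_false_none hc, kl_true_none (hσ c hc), h]
    · rw [lk_false_some hc, kl_false_some (symm_some_iff.1 hc)]
  · rcases hc : f c with _ | d
    · rw [lk_true_none hc, kl_false_none hc]
    · rw [lk_true_some hc, kl_true_some (symm_some_iff.2 hc)]

theorem lk_kl (f : C ≃. C) (σ τ : C → C) (h : ∀ c, σ (τ c) = c)
    (hτ : ∀ c, f.symm c = none → f.symm (τ c) = none) (y : C × Bool) :
    lk f σ (kl f τ y) = y := by
  obtain ⟨c, b⟩ := y
  cases b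
  · rcases hc : f c with _ | d
    · rw [kl_false_none hc, lk_true_none hc]
    · rw [kl_false_some hc, lk_false_some (symm_some_iff.2 hc)]
  · rcases hc : f.symm c with _ | d
    · rw [kl_true_none hc, lk_false_none (hτ c hc), h]
    · rw [kl_true_some hc, lk_true_some (symm_some_iff.1 hc)]

end

/-! ## The two tracks -/

/-- up on the even numbers, down on the odd numbers, `1 ↦ 0` -/
def ud (k : ℕ) : ℕ := if k % 2 = 0 then k + 2 else if k = 1 then 0 else k - 2

/-- the inverse of `ud` -/
def du (k : ℕ) : ℕ := if k = 0 then 1 else if k % 2 = 0 then k - 2 else k + 2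

theorem ud_even {k : ℕ} (h : k % 2 = 0) : ud k = k + 2 := if_pos h

theorem ud_one : ud 1 = 0 := rfl

theorem ud_odd {k : ℕ} (h : ¬ k % 2 = 0) (h1 : k ≠ 1) : ud k = k - 2 := by
  unfold ud
  rw [if_neg h, if_neg h1]

theorem du_zero : du 0 = 1 := rfl

theorem du_even {k : ℕ} (h : k % 2 = 0) (h0 : k ≠ 0) : du k = k - 2 := by
  unfold du
  rw [if_neg h0, if_pos h]

theorem du_odd {k : ℕ} (h : ¬ k % 2 = 0) : du k = k + 2 := by
  unfold du
  rw [if_neg (by rintro rfl; exact h rfl), if_neg h]

theorem du_ud (k : ℕ) : du (ud k) = k := by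
  by_cases h : k % 2 = 0
  · rw [ud_even h, du_even (by omega) (by omega)]
    omega
  · by_cases h1 : k = 1
    · subst h1
      rfl
    · rw [ud_odd h h1, du_odd (by omega)]
      omega

theorem ud_du (k : ℕ) : ud (du k) = k := by
  by_cases h : k % 2 = 0
  · by_cases h0 : k = 0
    · subst h0
      rfl
    · rw [du_even h h0, ud_even (by omega)]
      omega
  · rw [du_odd h, ud_odd (by omega) (by omega)]
    omega

theorem ud_add (k : ℕ) (hk : 2 ≤ k) : ud (k + 2) = ud k + 2 := by
  by_cases h : k % 2 = 0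
  · rw [ud_even h, ud_even (by omega)]
  · rw [ud_odd h (by omega), ud_odd (by omega) (by omega)]
    omega

/-- apply `g` to the number of the block of length `m` -/
def blk (g : ℕ → ℕ) (m N : ℕ) : ℕ := if N = 0 then 0 else m * g ((N - 1) / m) + (N - 1) % m + 1

theorem blk_blk (g h : ℕ → ℕ) (m N : ℕ) (hm : 0 < m) (hgh : ∀ k, g (h k) = k) :
    blk g m (blk h m N) = N := by
  unfold blk
  by_cases hN : N = 0
  · simp [hN]
  · rw [if_neg hN, if_neg (Nat.succ_ne_zero _), Nat.add_sub_cancel]
    have h1 : (m * h ((N - 1) / m) + (N - 1) % m) / m = h ((N - 1) / m) := by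
      rw [Nat.add_comm, Nat.add_mul_div_left _ _ hm, Nat.div_eq_of_lt (Nat.mod_lt _ hm),
        Nat.zero_add]
    have h2 : (m * h ((N - 1) / m) + (N - 1) % m) % m = (N - 1) % m := by
      rw [Nat.mul_add_mod, Nat.mod_mod]
    rw [h1, h2, hgh, Nat.div_add_mod]
    omega

theorem blk_ne (g : ℕ → ℕ) (m N : ℕ) (hN : N ≠ 0) : blk g m N ≠ 0 := by
  unfold blk
  rw [if_neg hN]
  exact Nat.succ_ne_zero _

theorem blk_zero (g : ℕ → ℕ) (m : ℕ) : blk g m 0 = 0 := by
  unfold blk
  rw [if_pos rfl]

theorem blk_mod (g : ℕ → ℕ) (m N : ℕ) (hN : N ≠ 0) : blk g m N ≡ N [MOD m] := by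
  unfold blk
  rw [if_neg hN]
  have h1 : (m * g ((N - 1) / m) + (N - 1) % m + 1) ≡ (N - 1) + 1 [MOD m] := by
    refine Nat.ModEq.add_right 1 ?_
    show _ % m = _ % m
    rw [Nat.mul_add_mod, Nat.mod_mod]
  rwa [Nat.sub_add_cancel (Nat.one_le_iff_ne_zero.2 hN)] at h1

/-! ## The machine, cut at `Z x` -/

section

variable {M : ℕ} [NeZero M] (P : Fin M → PI (Fin M)) (hP : Good P)

/-- the modulus -/
def mx (P : Fin M → PI (Fin M)) (x : ℕ) : ℕ := mN P * 11 ^ (x + 1)

omit [NeZero M] in
include hP in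
theorem mx_pos (x : ℕ) : 0 < mx P x := Nat.mul_pos (HomAux.mN_pos P hP) (by positivity)

/-- the refuelled machine, cut at `Z x` -/
def fx (x : ℕ) : (Ctrl M × ℕ) × Bool ≃. (Ctrl M × ℕ) × Bool := cutP (t2 P hP) (CoreAAux.Z x)

open HomAux CoreAAux

theorem pow_iff {x a b : ℕ} (ha : a ≠ 0) (hb : b ≠ 0) (h : a ≡ b [MOD 11 ^ (x + 1)]) :
    a.factorization 11 = x ↔ b.factorization 11 = x := by
  rw [fac_eq a x ha, fac_eq b x hb, ← Nat.dvd_iff_mod_eq_zero, ← Nat.dvd_iff_mod_eq_zero,
    ← Nat.dvd_iff_mod_eq_zero, ← Nat.dvd_iff_mod_eq_zero, h.dvd_iff dvd_rfl,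
    h.dvd_iff (Nat.pow_dvd_pow 11 (Nat.le_succ x))]

theorem HO2.dvd' {S : Type} {m m' N0 : ℕ} {F : ℕ → Option ((S × ℕ) × Bool)} (h : HO2 m N0 F)
    (hm : m ∣ m') : HO2 m' N0 F := by
  rcases h with h | ⟨s', b', u, v, hu, hv, hvm, h⟩
  · exact Or.inl fun N hN hc => h N hN (hc.of_dvd hm)
  · exact Or.inr ⟨s', b', u, v, hu, hv, hvm.trans hm, fun N hN hc => h N hN (hc.of_dvd hm)⟩

/-- on each residue class modulo `mx P x` the map `fx` is undefined or homogeneous -/
theorem ho2_fx (x : ℕ) {N0 : ℕ} (hN0 : N0 ≠ 0) (s : Ctrl M) (b : Bool) :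
    HO2 (mx P x) N0 (fun N => fx P hP x ((s, N), b)) := by
  have h := HO2.dvd' (ho2_f P hP hN0 s b) (show mN P ∣ mx P x from Dvd.intro _ rfl)
  have hZ : ∀ N, N ≠ 0 → N ≡ N0 [MOD mx P x] →
      Z (M := M) x ((s, N), b) = Z x ((s, N0), b) := by
    intro N hN hc
    have h1 := pow_iff hN hN0 (hc.of_dvd (show 11 ^ (x + 1) ∣ mx P x from Dvd.intro_left _ rfl))
    rw [Bool.eq_iff_iff, Z_eq_true, Z_eq_true]
    simp only [h1]
  by_cases hz : Z (M := M) x ((s, N0), b) = true
  · refine Or.inl fun N hN hc => ?_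
    show cutP _ _ _ = none
    rw [cutP_apply, hZ N hN hc, if_pos hz]
  · rcases h with h | ⟨s', b', u, v, hu, hv, hvm, h⟩
    · refine Or.inl fun N hN hc => ?_
      show cutP _ _ _ = none
      rw [cutP_apply, hZ N hN hc, if_neg hz]
      exact h N hN hc
    · refine Or.inr ⟨s', b', u, v, hu, hv, hvm, fun N hN hc => ⟨(h N hN hc).1, ?_⟩⟩
      show cutP _ _ _ = _
      rw [cutP_apply, hZ N hN hc, if_neg hz]
      exact (h N hN hc).2

/-- the same for the inverse map -/
theorem ho2_bx (x : ℕ) {N0 : ℕ} (hN0 : N0 ≠ 0) (s : Ctrl M) (b : Bool) :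
    HO2 (mx P x) N0 (fun N => (fx P hP x).symm ((s, N), b)) := by
  rcases ho2_b P hP hN0 s b with h | ⟨s', b', u, v, hu, hv, hvm, h⟩
  · refine Or.inl fun N hN hc => ?_
    have h5 : (t2 P hP).symm ((s, N), b) = none := h N hN (hc.of_dvd (Dvd.intro _ rfl))
    show (cutP _ _).symm _ = none
    rw [cutP_symm_apply, h5]
    rfl
  · have hv0 := (h N0 hN0 rfl).1
    have hne : ∀ N, N ≠ 0 → v ∣ N → u * (N / v) ≠ 0 := by
      rintro N hN ⟨t, rfl⟩
      rw [Nat.mul_div_cancel_left _ hv]
      refine Nat.mul_ne_zero hu.ne' ?_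
      rintro rfl
      exact hN (mul_zero v)
    have hZ : ∀ N, N ≠ 0 → N ≡ N0 [MOD mx P x] →
        Z (M := M) x ((s', u * (N / v)), b') = Z x ((s', u * (N0 / v)), b') := by
      intro N hN hc
      have hvN := (h N hN (hc.of_dvd (Dvd.intro _ rfl))).1
      have h2 : u * (N / v) ≡ u * (N0 / v) [MOD 11 ^ (x + 1)] := by
        refine Nat.ModEq.mul_left u ?_
        have h3 : N ≡ N0 [MOD v * 11 ^ (x + 1)] := hc.of_dvd (mul_dvd_mul_right hvm _)
        obtain ⟨t, rfl⟩ := hvN
        obtain ⟨t0, ht0⟩ := hv0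
        rw [ht0] at h3 ⊢
        rw [Nat.mul_div_cancel_left _ hv, Nat.mul_div_cancel_left _ hv]
        exact Nat.ModEq.mul_left_cancel' hv.ne' h3
      have h1 := pow_iff (hne N hN hvN) (hne N0 hN0 hv0) h2
      rw [Bool.eq_iff_iff, Z_eq_true, Z_eq_true]
      simp only [h1]
    by_cases hz : Z (M := M) x ((s', u * (N0 / v)), b') = true
    · refine Or.inl fun N hN hc => ?_
      have h5 : (t2 P hP).symm ((s, N), b) = some ((s', u * (N / v)), b') :=
        (h N hN (hc.of_dvd (Dvd.intro _ rfl))).2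
      show (cutP _ _).symm _ = none
      rw [cutP_symm_apply, h5]
      show (if Z (M := M) x ((s', u * (N / v)), b') then none else _) = none
      rw [hZ N hN hc, if_pos hz]
    · refine Or.inr ⟨s', b', u, v, hu, hv, hvm.trans (Dvd.intro _ rfl), fun N hN hc => ?_⟩
      have h4 := h N hN (hc.of_dvd (Dvd.intro _ rfl))
      have h5 : (t2 P hP).symm ((s, N), b) = some ((s', u * (N / v)), b') := h4.2
      refine ⟨h4.1, ?_⟩
      show (cutP _ _).symm _ = _
      rw [cutP_symm_apply, h5]
      show (if Z (M := M) x ((s', u * (N / v)), b') then none else _) = _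
      rw [hZ N hN hc, if_neg hz]

/-- the beginnings of the chains are a union of residue classes -/
theorem start_class (x : ℕ) (s : Ctrl M) (b : Bool) {N N' : ℕ} (hN : N ≠ 0) (hN' : N' ≠ 0)
    (hc : N ≡ N' [MOD mx P x]) (h : (fx P hP x).symm ((s, N), b) = none) :
    (fx P hP x).symm ((s, N'), b) = none := by
  rcases ho2_bx P hP x hN s b with h1 | ⟨s', b', u, v, hu, hv, hvm, h1⟩
  · exact h1 N' hN' hc.symm
  · have h2 := (h1 N hN rfl).2
    simp only at h2
    rw [h] at h2
    exact absurd h2 (by simp)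

end

end CPM
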